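import Pool.Agent.Lib.MP_1a91b9_ntJ.KS3

/-!
# From the rank part over `F` to the towers above `F`, for the density theorem in the explicit form
-/

set_option autoImplicit false

namespace Pool.Agent.Lib.MP_1a91b9_ntJ

open NumberField IsDedekindDomain WeierstrassCurve Module
open Pool.Agent.Lib.MP_1a91b9_nuI (HasJ)
open Pool.Agent.Lib.MP_1a91b9_ntL (crv)
open Pool.Agent.Lib.MP_1a91b9_ntW.J (twd twd_crv)
open Pool.Agent.Lib.MP_1a91b9_ntY (CMK Pt2 cmList hasJ_crv crv_Δ)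

theorem pt2_crv {K : Type*} [Field K] (a b : K) : Pt2 (crv a b) := by
  refine ⟨0, ?_⟩
  have h6 : (crv a b).b₆ = 0 := by
    unfold WeierstrassCurve.b₆ crv
    ring
  rw [h6]
  ring

theorem cmk_crv {K : Type*} [Field K] [NumberField K] {a b : K} (hE : b * (a ^ 2 - 4 * b) ≠ 0)
    {j D : ℤ} (hjD : (j, D) ∈ cmList)
    (hj : 256 * (a ^ 2 - 3 * b) ^ 3 = j * (b ^ 2 * (a ^ 2 - 4 * b))) (hD : ∃ s : K, s ^ 2 = D) :
    CMK (crv a b) := by
  obtain ⟨s, hs⟩ := hD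
  refine ⟨?_, j, D, s, hjD, hs, hasJ_crv (by linear_combination 16 * hj)⟩
  rw [crv_Δ]
  have h1 := left_ne_zero_of_mul hE
  have h2 := right_ne_zero_of_mul hE
  exact mul_ne_zero (mul_ne_zero (by norm_num) (pow_ne_zero 2 h1)) h2

/-- **The step.** -/
theorem kst_step (K : Type) [Field K] [NumberField K] (hK : Module.finrank ℚ K = 2)
    (a b : K) (hE : b * (a ^ 2 - 4 * b) ≠ 0) (j D : ℤ) (hjD : (j, D) ∈ cmList)
    (hj : 256 * (a ^ 2 - 3 * b) ^ 3 = j * (b ^ 2 * (a ^ 2 - 4 * b))) (hD : ∃ s : K, s ^ 2 = D)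
    (l : ℕ) (hl : l = 2 ∨ l = 4 ∧ ∃ i : K, i ^ 2 = -1)
    (F : Type) [Field F] [NumberField F] [Algebra K F]
    (hF : IntermediateField.adjoin K {x : F | ∃ c : K, x ^ l = algebraMap K F c} = ⊤)
    (m u : 𝓞 K) (c' : ℝ)
    (h : ∀ᶠ X : ℝ in Filter.atTop, c' ≤
      (Nat.card {d : 𝓞 K // Squarefree d ∧ m ∣ d - u ∧ |Algebra.norm ℤ d| ≤ X ∧
        ∀ W : WeierstrassCurve F,
          W = ⟨0, algebraMap K F (d * a), 0, algebraMap K F ((d : K) ^ 2 * b), 0⟩ →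
          (∃ g : ℂ → ℂ, Differentiable ℂ g ∧ (∀ s : ℂ, 3 / 2 < s.re → g s = W.LSeries s) ∧
            g 1 ≠ 0) ∧ Finite W.toAffine.Point} : ℝ) /
        (Nat.card {d : 𝓞 K // Squarefree d ∧ m ∣ d - u ∧ |Algebra.norm ℤ d| ≤ X} : ℝ)) :
    ∀ᶠ X : ℝ in Filter.atTop, c' ≤
      (Nat.card {d : 𝓞 K // Squarefree d ∧ m ∣ d - u ∧ |Algebra.norm ℤ d| ≤ X ∧
        ∀ V : WeierstrassCurve F,
          V = ⟨0, algebraMap K F (d * a), 0, algebraMap K F ((d : K) ^ 2 * b), 0⟩ →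
          TowP K V} : ℝ) /
        (Nat.card {d : 𝓞 K // Squarefree d ∧ m ∣ d - u ∧ |Algebra.norm ℤ d| ≤ X} : ℝ) := by
  have hW := cmk_crv hE hjD hj hD
  have htc := cmk_tc hW
  filter_upwards [h] with X hX
  refine hX.trans (div_le_div_of_nonneg_right (Nat.cast_le.2 ?_) (Nat.cast_nonneg _))
  refine Nat.card_mono
    (s := {d : 𝓞 K | Squarefree d ∧ m ∣ d - u ∧ |Algebra.norm ℤ d| ≤ X ∧ _})
    (t := {d : 𝓞 K | Squarefree d ∧ m ∣ d - u ∧ |Algebra.norm ℤ d| ≤ X ∧ _}) ?_ ?_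
  · exact (finite_norm hK X).subset fun d hd => hd.2.2.1
  · rintro d ⟨h1, h2, h3, h4⟩
    refine ⟨h1, h2, h3, ?_⟩
    rintro V rfl
    have e : (twd (crv a b) (d : K)).map (algebraMap K F) =
        ⟨0, algebraMap K F (d * a), 0, algebraMap K F ((d : K) ^ 2 * b), 0⟩ := by
      rw [twd_crv]
      exact WeierstrassCurve.ext (map_zero _) rfl (map_zero _) rfl (map_zero _)
    have h5 := (h4 _ rfl).1
    rw [← e] at h5 ⊢
    exact ks_star hl hF hK hW (pt2_crv a b) h1.ne_zero h5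

end Pool.Agent.Lib.MP_1a91b9_ntJ
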