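import Pool.Agent.Lib.MP_1a91b9_ntN.H.Fin
import Pool.Agent.Lib.MP_1a91b9_ntN.Q.Iso

/-!
# The rank part over the extensions of `ℚ(√-3)` generated by cube roots, for the cubic twists of
`y² + α y = x³`
-/

set_option autoImplicit false

namespace Pool.Agent.Lib.MP_1a91b9_ntJ

open NumberField IsDedekindDomain Finset WeierstrassCurve Pool.Agent.Lib.MP_1a91b9_ntN
  Pool.Agent.Lib.MP_1a91b9_ntN.H
open Pool.Agent.Lib.MP_1a91b9_ntH (s3 prime_s3)

/-- the statement over `K` for the cubic twists of `y² + α y = x³`, for the classes `M` -/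
def KA (K : Type) [Field K] [NumberField K] (α : 𝓞 K) (M : 𝓞 K → 𝓞 K → Prop) : Prop :=
  ∀ (F : Type) [Field F] [NumberField F] [Algebra K F],
    IntermediateField.adjoin K {x : F | ∃ c : K, x ^ 3 = algebraMap K F c} = ⊤ →
    ∀ m u : 𝓞 K, M m u → ∀ ε : ℝ, 0 < ε → ∀ᶠ X : ℝ in Filter.atTop,
      (∏' i : ℕ, (1 + 1 / (3 : ℝ) ^ (i + 1))⁻¹) ^ Module.finrank K F - ε ≤
      (Nat.card {d : 𝓞 K // (∀ p, Prime p → ¬ p ^ 3 ∣ d) ∧ m ∣ d - u ∧ |Algebra.norm ℤ d| ≤ X ∧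
        ∀ W : WeierstrassCurve F,
          W = ⟨0, 0, algebraMap K F (α : K) * algebraMap K F (d : K), 0, 0⟩ →
          (∃ g : ℂ → ℂ, Differentiable ℂ g ∧ (∀ s : ℂ, 3 / 2 < s.re → g s = W.LSeries s) ∧
            g 1 ≠ 0) ∧ Finite W.toAffine.Point} : ℝ) /
        (Nat.card {d : 𝓞 K // (∀ p, Prime p → ¬ p ^ 3 ∣ d) ∧ m ∣ d - u ∧
          |Algebra.norm ℤ d| ≤ X} : ℝ)

open Pool.Agent.Lib.MP_1a91b9_ntT (K) in
/-- **The rank part.** -/
theorem ka_main {α : 𝓞 K} (hα : α ≠ 0) :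
    KA K α (fun m u => (∃ n : ℕ, m ∣ 3 ^ n) ∧ ∀ p, Prime p → ¬ (p ^ 3 ∣ m ∧ p ^ 3 ∣ u)) := by
  intro F _ _ _ hF m u hmu ε hε
  obtain ⟨⟨n, hm⟩, hu⟩ := hmu
  have hu := hu _ prime_s3
  obtain ⟨A, hA⟩ := MCT.exists_of hF
  have hok := hA.ok
  have hα' : ((α : 𝓞 K) : K) ≠ 0 := by exact_mod_cast hα
  rw [← hok.len, ← List.length_map (f := fun b => α * b) (as := A)]
  refine den_allG (dsjG n) ?_ ?_ ?_ (hm.trans (pow3_dvd_Q9 n)) hu _ (fun d hd h => ?_) ε hε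
  · intro h0
    rw [List.map_eq_nil_iff] at h0
    subst h0
    have h1 := hok.len
    rw [List.length_nil] at h1
    exact absurd h1.symm (Module.finrank_pos (R := K) (M := F)).ne'
  · intro a ha
    obtain ⟨b, hb, rfl⟩ := List.mem_map.1 ha
    exact mul_ne_zero hα (hok.ne b hb)
  · rw [List.pairwise_map]
    refine hok.pw.imp ?_
    rintro a b h ⟨y, hy⟩
    apply h
    refine ⟨y, ?_⟩
    push_cast at hy
    have h2 : (α : K) * (y ^ 3 * (b : K)) = (α : K) * (a : K) := by linear_combination hy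
    exact mul_left_cancel₀ hα' h2
  · have hd0 : d ≠ 0 := by
      rintro rfl
      exact (Pool.Agent.Lib.MP_1a91b9_ntK.CF_iff _).1 hd s3 prime_s3 (dvd_zero _)
    rintro W rfl
    have h1 := chain3 chainHyp3 hA (α * d) (mul_ne_zero hα hd0) fun b hb => by
      have h2 := Wt_good (h (α * b) (List.mem_map.2 ⟨b, hb, rfl⟩))
      rw [show b * (α * d) = α * b * d by ring]
      exact h2
    have e : Wt F (α * d) = ⟨0, 0, algebraMap K F (α : K) * algebraMap K F (d : K), 0, 0⟩ := by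
      rw [← map_mul]
      rfl
    rw [← e]
    exact h1

/-- The theorem over a field isomorphic to `K`. -/
theorem KA.equiv {K K' : Type} [Field K] [NumberField K] [Field K'] [NumberField K'] (e : K ≃+* K')
    {α : 𝓞 K} {M : 𝓞 K → 𝓞 K → Prop} {M' : 𝓞 K' → 𝓞 K' → Prop}
    (hM : ∀ m u, M' (RingOfIntegers.mapRingEquiv e m) (RingOfIntegers.mapRingEquiv e u) → M m u)
    (H : KA K α M) : KA K' (RingOfIntegers.mapRingEquiv e α) M' := by
  intro F _ _ _ hF m' u' hmu ε hε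
  obtain ⟨E, hE⟩ : ∃ E : 𝓞 K ≃+* 𝓞 K', E = RingOfIntegers.mapRingEquiv e := ⟨_, rfl⟩
  have hEe : ∀ d : 𝓞 K, ((E d : 𝓞 K') : K') = e (d : K) := fun d => by
    rw [hE]
    rfl
  rw [← hE] at hM ⊢
  obtain ⟨m, rfl⟩ := E.surjective m'
  obtain ⟨u, rfl⟩ := E.surjective u'
  let _ : Algebra K F := ((algebraMap K' F).comp (e : K →+* K')).toAlgebra
  have hal : ∀ x : K, algebraMap K F x = algebraMap K' F (e x) := fun _ => rfl
  have hr : Set.range (algebraMap K F) = Set.range (algebraMap K' F) := by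
    ext y
    constructor
    · rintro ⟨x, rfl⟩
      exact ⟨e x, (hal x).symm⟩
    · rintro ⟨x, rfl⟩
      exact ⟨e.symm x, by rw [hal, e.apply_symm_apply]⟩
  have hset : {x : F | ∃ c : K, x ^ 3 = algebraMap K F c} =
      {x : F | ∃ c : K', x ^ 3 = algebraMap K' F c} := by
    ext x
    constructor
    · rintro ⟨c, hc⟩
      exact ⟨e c, hc⟩
    · rintro ⟨c, hc⟩
      exact ⟨e.symm c, by rw [hal, e.apply_symm_apply]; exact hc⟩
  have h1 := H F (adjoin_top hr (by rw [hset]; exact hF)) m u (hM m u hmu) ε hε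
  have hfin : Module.finrank K F = Module.finrank K' F :=
    Algebra.finrank_eq_of_equiv_equiv e (RingEquiv.refl F) (by ext x; rfl)
  filter_upwards [h1] with X hX
  rw [← hfin]
  have c1 : Nat.card {d : 𝓞 K // (∀ p, Prime p → ¬ p ^ 3 ∣ d) ∧ m ∣ d - u ∧
        |Algebra.norm ℤ d| ≤ X ∧ ∀ W : WeierstrassCurve F,
          W = ⟨0, 0, algebraMap K F (α : K) * algebraMap K F (d : K), 0, 0⟩ →
          (∃ g : ℂ → ℂ, Differentiable ℂ g ∧ (∀ s : ℂ, 3 / 2 < s.re → g s = W.LSeries s) ∧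
            g 1 ≠ 0) ∧ Finite W.toAffine.Point} =
      Nat.card {d : 𝓞 K' // (∀ p, Prime p → ¬ p ^ 3 ∣ d) ∧ E m ∣ d - E u ∧
        |Algebra.norm ℤ d| ≤ X ∧ ∀ W : WeierstrassCurve F,
          W = ⟨0, 0, algebraMap K' F ((E α : 𝓞 K') : K') * algebraMap K' F (d : K'), 0, 0⟩ →
          (∃ g : ℂ → ℂ, Differentiable ℂ g ∧ (∀ s : ℂ, 3 / 2 < s.re → g s = W.LSeries s) ∧
            g 1 ≠ 0) ∧ Finite W.toAffine.Point} := by
    refine Nat.card_congr (E.toEquiv.subtypeEquiv fun d => ?_)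
    show _ ↔ (∀ p, Prime p → ¬ p ^ 3 ∣ E d) ∧ E m ∣ E d - E u ∧ |Algebra.norm ℤ (E d)| ≤ X ∧
      ∀ W : WeierstrassCurve F, W = ⟨0, 0, algebraMap K' F ((E α : 𝓞 K') : K') *
        algebraMap K' F ((E d : 𝓞 K') : K'), 0, 0⟩ → _
    rw [lfree_iff, norm_ringEquiv, ← map_sub, map_dvd_iff E, hEe, hEe, hal, hal]
  have c2 : Nat.card {d : 𝓞 K // (∀ p, Prime p → ¬ p ^ 3 ∣ d) ∧ m ∣ d - u ∧
        |Algebra.norm ℤ d| ≤ X} =
      Nat.card {d : 𝓞 K' // (∀ p, Prime p → ¬ p ^ 3 ∣ d) ∧ E m ∣ d - E u ∧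
        |Algebra.norm ℤ d| ≤ X} := by
    refine Nat.card_congr (E.toEquiv.subtypeEquiv fun d => ?_)
    show _ ↔ (∀ p, Prime p → ¬ p ^ 3 ∣ E d) ∧ E m ∣ E d - E u ∧ |Algebra.norm ℤ (E d)| ≤ X
    rw [lfree_iff, norm_ringEquiv, ← map_sub, map_dvd_iff E]
  rw [← c1, ← c2]
  exact hX

end Pool.Agent.Lib.MP_1a91b9_ntJ
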