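import Pool.Agent.Lib.MP_1a91b9_ntJ.Cub2

/-!
# The towers above the extensions of `ℚ(√-3)` generated by cube roots: the density theorem
-/

set_option autoImplicit false

namespace Pool.Agent.Lib.MP_1a91b9_ntJ

open NumberField IsDedekindDomain WeierstrassCurve Module
open Pool.Agent.Lib.MP_1a91b9_ntN (KD)

/-- the classes are transported by an isomorphism -/
theorem cls_tr {K K' : Type} [Field K] [NumberField K] [Field K'] [NumberField K']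
    (e : K ≃+* K') {a : ℕ} {m u : 𝓞 K'} (hm : m ∣ (a : 𝓞 K'))
    (hu : ∀ p, Prime p → ¬ (p ^ 3 ∣ m ∧ p ^ 3 ∣ u)) {m' u' : 𝓞 K}
    (h1 : RingOfIntegers.mapRingEquiv e m' = m) (h2 : RingOfIntegers.mapRingEquiv e u' = u) :
    m' ∣ (a : 𝓞 K) ∧ ∀ p, Prime p → ¬ (p ^ 3 ∣ m' ∧ p ^ 3 ∣ u') := by
  obtain ⟨E, hE⟩ : ∃ E : 𝓞 K ≃+* 𝓞 K', E = RingOfIntegers.mapRingEquiv e := ⟨_, rfl⟩
  rw [← hE] at h1 h2
  constructor
  · rw [← map_dvd_iff E, h1, map_natCast]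
    exact hm
  · rintro p hp ⟨h3, h4⟩
    refine hu (E p) ((MulEquiv.prime_iff E.toMulEquiv).2 hp) ⟨?_, ?_⟩
    · rw [← h1, ← map_pow]
      exact (map_dvd_iff E).2 h3
    · rw [← h2, ← map_pow]
      exact (map_dvd_iff E).2 h4

theorem ct_main9 (K : Type) [Field K] [NumberField K] (hK : finrank ℚ K = 2)
    (h3 : ∃ s : K, s ^ 2 = -3) (F : Type) [Field F] [NumberField F] [Algebra K F]
    (hF : IntermediateField.adjoin K {x : F | ∃ c : K, x ^ 3 = algebraMap K F c} = ⊤)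
    (m u : 𝓞 K) (hm : m ∣ 9) (hu : ∀ p, Prime p → ¬ (p ^ 3 ∣ m ∧ p ^ 3 ∣ u))
    (ε : ℝ) (hε : 0 < ε) :
    ∀ᶠ X : ℝ in Filter.atTop,
      (∏' i : ℕ, (1 + 1 / (3 : ℝ) ^ (i + 1))⁻¹) ^ Module.finrank K F - ε ≤
      (Nat.card {d : 𝓞 K // (∀ p, Prime p → ¬ p ^ 3 ∣ d) ∧ m ∣ d - u ∧ |Algebra.norm ℤ d| ≤ X ∧
        ∀ V : WeierstrassCurve F, V = ⟨0, 0, 0, 0, 16 * algebraMap K F d ^ 2⟩ →
          TowP K V} : ℝ) /
        (Nat.card {d : 𝓞 K // (∀ p, Prime p → ¬ p ^ 3 ∣ d) ∧ m ∣ d - u ∧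
          |Algebra.norm ℤ d| ≤ X} : ℝ) := by
  refine ct_of_kd (Pool.Agent.Lib.MP_1a91b9_ntN.kd_three
    fun F _ _ _ hF _ _ hm hu ε hε => Pool.Agent.Lib.MP_1a91b9_ntN.main_mc F hF hm hu ε hε)
    K hK h3 F hF m u (fun e m' u' h1 h2 => ?_) ε hε
  have h := cls_tr e (a := 9) (by rw [Nat.cast_ofNat]; exact hm) hu h1 h2
  rw [Nat.cast_ofNat] at h
  exact h

end Pool.Agent.Lib.MP_1a91b9_ntJ
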