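import Pool.Agent.Lib.MP_1a91b9_ntJ.CubA
import Pool.Agent.Lib.MP_1a91b9_ntJ.Cub3
import Pool.Agent.Lib.MP_1a91b9_ntI.KEq3

/-!
# The towers above the extensions of `ℚ(√-3)` generated by cube roots, for the cubic twists of `y² + a y = x³`
-/

set_option autoImplicit false

namespace Pool.Agent.Lib.MP_1a91b9_ntJ

open NumberField IsDedekindDomain WeierstrassCurve Module
open Pool.Agent.Lib.MP_1a91b9_nuI (Lne)

/-- free of `l`-th powers -/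
theorem free_iff {R : Type*} [CommRing R] [IsDomain R] [WfDvdMonoid R]
    [DecompositionMonoid R] {l : ℕ} (hl : l ≠ 0) {p₀ : R} (hp₀ : Prime p₀) (d : R) :
    (∀ x, x ^ l ∣ d → IsUnit x) ↔ ∀ p, Prime p → ¬ p ^ l ∣ d := by
  constructor
  · intro h p hp hd
    exact hp.not_isUnit (h p hd)
  · intro h x hx
    by_contra hu
    have hx0 : x ≠ 0 := by
      rintro rfl
      rw [zero_pow hl, zero_dvd_iff] at hx
      exact h p₀ hp₀ (hx ▸ dvd_zero _)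
    obtain ⟨p, hp, hpx⟩ := WfDvdMonoid.exists_irreducible_factor hu hx0
    exact h p hp.prime ((pow_dvd_pow_of_dvd hpx l).trans hx)

/-- every element of `K` is integral up to a cube -/
theorem exists_cube_mul {K : Type*} [Field K] [NumberField K] {a : K} (ha : a ≠ 0) :
    ∃ α t : 𝓞 K, α ≠ 0 ∧ t ≠ 0 ∧ (α : K) = a * (t : K) ^ 3 := by
  obtain ⟨⟨x, y⟩, hxy⟩ := IsLocalization.surj (nonZeroDivisors (𝓞 K)) a
  have hy : (y : 𝓞 K) ≠ 0 := nonZeroDivisors.ne_zero y.2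
  have hy' : ((y : 𝓞 K) : K) ≠ 0 := by exact_mod_cast hy
  have h : a * (((y : 𝓞 K) : 𝓞 K) : K) = ((x : 𝓞 K) : K) := hxy
  have e : ((x * (y : 𝓞 K) ^ 2 : 𝓞 K) : K) = a * ((y : 𝓞 K) : K) ^ 3 := by
    push_cast
    linear_combination (-((y : 𝓞 K) : K) ^ 2) * h
  refine ⟨x * (y : 𝓞 K) ^ 2, y, ?_, hy, e⟩
  intro h0
  rw [h0] at e
  exact mul_ne_zero ha (pow_ne_zero 3 hy') (by rw [← e]; rfl)

/-- the cubic twist -/
theorem vc_cube {F : Type*} [Field F] [CharZero F] {a d t α : F} (ht : t ≠ 0)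
    (hα : α = a * t ^ 3) : ∃ C : VariableChange F,
    C • (⟨0, 0, a * d, 0, 0⟩ : WeierstrassCurve F) = ⟨0, 0, 0, 0, 16 * (α * d) ^ 2⟩ := by
  obtain ⟨C, hC⟩ := exists_iso3 (α * d)
  refine ⟨C * ⟨(Units.mk0 t ht)⁻¹, 0, 0, 0⟩, ?_⟩
  rw [mul_smul, ← hC]
  congr 1
  subst hα
  ext
  · simp [variableChange_a₁]
  · simp [variableChange_a₂]
  · simp only [variableChange_a₃, inv_inv, Units.val_mk0]
    ring
  · simp [variableChange_a₄]
  · simp [variableChange_a₆]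

theorem cub_towers (K : Type) [Field K] [NumberField K] (hK : finrank ℚ K = 2)
    (h3 : ∃ s : K, s ^ 2 = -3) {a : K} (ha : a ≠ 0) (F : Type) [Field F] [NumberField F]
    [Algebra K F]
    (hF : IntermediateField.adjoin K {x : F | ∃ c : K, x ^ 3 = algebraMap K F c} = ⊤)
    (n : ℕ) (m u : 𝓞 K) (hm : m ∣ 3 ^ n) (hu : ∀ p, Prime p → ¬ (p ^ 3 ∣ m ∧ p ^ 3 ∣ u))
    (ε : ℝ) (hε : 0 < ε) :
    ∀ᶠ X : ℝ in Filter.atTop,
      (∏' i : ℕ, (1 + 1 / (3 : ℝ) ^ (i + 1))⁻¹) ^ Module.finrank K F - ε ≤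
      (Nat.card {d : 𝓞 K // (∀ x, x ^ 3 ∣ d → IsUnit x) ∧ m ∣ d - u ∧ |Algebra.norm ℤ d| ≤ X ∧
        ∀ V : WeierstrassCurve F, V = ⟨0, 0, algebraMap K F (a * d), 0, 0⟩ → TowP K V} : ℝ) /
        (Nat.card {d : 𝓞 K // (∀ x, x ^ 3 ∣ d → IsUnit x) ∧ m ∣ d - u ∧
          |Algebra.norm ℤ d| ≤ X} : ℝ) := by
  obtain ⟨s, hs⟩ := h3
  have htc : IsTotallyComplex K := tc_of_sq (D := -3) (by norm_num) (s := s) (by
    rw [hs]
    push_cast
    rfl)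
  obtain ⟨e⟩ := exists_e6 hK hs
  obtain ⟨e'⟩ := Pool.Agent.Lib.MP_1a91b9_ntN.exists_iso36
  obtain ⟨f, -⟩ : ∃ f : Pool.Agent.Lib.MP_1a91b9_ntT.K ≃+* K, True :=
    ⟨(e' : Pool.Agent.Lib.MP_1a91b9_ntT.K ≃+* _).trans e, trivial⟩
  obtain ⟨E, hE⟩ : ∃ E : 𝓞 (Pool.Agent.Lib.MP_1a91b9_ntT.K) ≃+* 𝓞 K,
    E = RingOfIntegers.mapRingEquiv f := ⟨_, rfl⟩
  have hpir : IsPrincipalIdealRing (𝓞 K) := Pool.Agent.Lib.MP_1a91b9_ntI.pir_of f
    Pool.Agent.Lib.MP_1a91b9_ntH.pidO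
  have hp₀ : Prime (E Pool.Agent.Lib.MP_1a91b9_ntH.s3) := (MulEquiv.prime_iff E.toMulEquiv).2
    Pool.Agent.Lib.MP_1a91b9_ntH.prime_s3
  obtain ⟨α, t, hα, ht, hαt⟩ := exists_cube_mul ha
  obtain ⟨α', rfl⟩ := E.surjective α
  have hα' : α' ≠ 0 := by
    rintro rfl
    exact hα (map_zero E)
  have H := KA.equiv f (M' := fun a b => a = m ∧ b = u) (fun m' u' h => by
    have h1 := cls_tr f (a := 3 ^ n) (by rw [Nat.cast_pow, Nat.cast_ofNat]; exact hm) hu h.1 h.2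
    rw [Nat.cast_pow, Nat.cast_ofNat] at h1
    exact ⟨⟨n, h1.1⟩, h1.2⟩) (ka_main hα')
  rw [← hE] at H
  have h := H F hF m u ⟨rfl, rfl⟩ ε hε
  simp only [free_iff three_ne_zero hp₀]
  have ht' : algebraMap K F (t : K) ≠ 0 := by
    rw [map_ne_zero]
    exact_mod_cast ht
  filter_upwards [h] with X hX
  refine hX.trans (div_le_div_of_nonneg_right (Nat.cast_le.2 ?_) (Nat.cast_nonneg _))
  refine card_le_of ((finite_norm hK X).subset fun d hd => hd.2.2.1) ?_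
  rintro d ⟨h1, h2, h3, h4⟩
  refine ⟨h1, h2, h3, ?_⟩
  rintro V rfl
  have hd : d ≠ 0 := ne_zero_of_free three_ne_zero hp₀ h1
  have h5 := (h4 _ rfl).1
  have e5 : algebraMap K F ((E α' : 𝓞 K) : K) * algebraMap K F (d : K) =
      algebraMap K F ((E α' * d : 𝓞 K) : K) := by
    rw [← map_mul]
    rfl
  rw [e5] at h5
  have h6 := cub_star e hF hs (mul_ne_zero hα hd) h5
  obtain ⟨C, hC⟩ := vc_cube (a := algebraMap K F a) (d := algebraMap K F (d : K))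
    (α := algebraMap K F ((E α' : 𝓞 K) : K)) ht' (by rw [hαt, map_mul, map_pow])
  rw [e5, ← map_mul] at hC
  exact towP_vc hC h6

end Pool.Agent.Lib.MP_1a91b9_ntJ
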