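import Pool.Agent.Lib.MP_1a91b9_ntJ.CubB
import Pool.Agent.Lib.MP_1a91b9_ntJ.KSFin
import Pool.Agent.Lib.MP_1a91b9_ntW.J.KFin

/-!
# The density theorem with the towers for every prime number `p`
-/

set_option autoImplicit false

namespace Pool.Agent.Lib.MP_1a91b9_ntJ

open NumberField IsDedekindDomain WeierstrassCurve Module
open Pool.Agent.Lib.MP_1a91b9_ntY (cmList)

/-- the curve `y² + a₃ y = x³ + a₂ x² + a₄ x` and its twists of degree `p` -/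
def TwP {K : Type} [Field K] (p : ℕ) (E : WeierstrassCurve K) (F : Type) [Field F] [Algebra K F]
    (d : K) : WeierstrassCurve F :=
  ⟨0, algebraMap K F (E.a₂ * d ^ (2 / p)), algebraMap K F (E.a₃ * d ^ (3 / p)),
    algebraMap K F (E.a₄ * d ^ (4 / p)), 0⟩

/-- the primes other than `2` and `3` do not occur -/
theorem p_cases {K : Type} [Field K] {p : ℕ} (hp : p.Prime) {E : WeierstrassCurve K}
    (hE : E.a₁ = 0 ∧ E.a₆ = 0 ∧ (¬ p ∣ 2 → E.a₂ = 0) ∧ (¬ p ∣ 3 → E.a₃ = 0) ∧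
      (¬ p ∣ 4 → E.a₄ = 0)) (hΔ : E.Δ ≠ 0) : p = 2 ∨ p = 3 := by
  by_contra h
  rw [not_or] at h
  have h2 : ¬ p ∣ 2 := fun hd => h.1 ((Nat.prime_dvd_prime_iff_eq hp Nat.prime_two).1 hd)
  have h3 : ¬ p ∣ 3 := fun hd => h.2 ((Nat.prime_dvd_prime_iff_eq hp Nat.prime_three).1 hd)
  have h4 : ¬ p ∣ 4 := fun hd => by
    have e : 4 = 2 ^ 2 := rfl
    rw [e] at hd
    exact h2 (hp.dvd_of_dvd_pow hd)
  obtain ⟨e1, e6, e2, e3, e4⟩ := hE
  apply hΔ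
  unfold WeierstrassCurve.Δ WeierstrassCurve.b₂ WeierstrassCurve.b₄ WeierstrassCurve.b₆
    WeierstrassCurve.b₈
  rw [e1, e6, e2 h2, e3 h3, e4 h4]
  ring

theorem cm_zero {D : ℤ} (h : ((0 : ℤ), D) ∈ cmList) : D = -3 := by
  simp only [cmList, List.mem_cons, Prod.mk.injEq, List.not_mem_nil, or_false] at h
  omega

theorem int_sqrt {K : Type} [Field K] [NumberField K] {s : K} (hs : s ^ 2 = -3) :
    ∃ σ : 𝓞 K, (σ : K) = s ∧ (3 : 𝓞 K) = -σ ^ 2 ∧ ¬ IsUnit σ := by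
  have hi : IsIntegral ℤ s := by
    refine ⟨Polynomial.X ^ 2 + Polynomial.C 3, by monicity!, ?_⟩
    simp [hs]
  obtain ⟨σ, hσ⟩ : ∃ σ : 𝓞 K, (σ : K) = s := ⟨⟨s, hi⟩, rfl⟩
  have h3 : (3 : 𝓞 K) = -σ ^ 2 := by
    apply RingOfIntegers.ext
    have e1 : ((-σ ^ 2 : 𝓞 K) : K) = -(σ : K) ^ 2 := by
      rw [← map_pow, ← map_neg]
    have e2 : ((3 : 𝓞 K) : K) = 3 := map_ofNat (algebraMap (𝓞 K) K) 3
    show ((3 : 𝓞 K) : K) = ((-σ ^ 2 : 𝓞 K) : K)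
    rw [e1, e2, hσ, hs]
    ring
  refine ⟨σ, hσ, h3, fun hu => ?_⟩
  have h4 : IsUnit (3 : 𝓞 K) := by
    rw [h3]
    exact (hu.pow 2).neg
  have h5 := h4.map (Algebra.norm ℤ)
  rw [show (3 : 𝓞 K) = algebraMap ℤ (𝓞 K) 3 by simp, Algebra.norm_algebraMap] at h5
  rw [Int.isUnit_iff] at h5
  have h6 : 0 < Module.finrank ℤ (𝓞 K) := by
    rw [RingOfIntegers.rank]
    exact Module.finrank_pos
  rcases h5 with h5 | h5
  · have h7 : (3 : ℤ) ^ Module.finrank ℤ (𝓞 K) ≠ 1 := by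
      have := Nat.one_lt_pow h6.ne' (by norm_num : 1 < 3)
      intro h8
      have h9 : (3 : ℕ) ^ Module.finrank ℤ (𝓞 K) = 1 := by exact_mod_cast h8
      omega
    exact h7 h5
  · have h7 : 0 < (3 : ℤ) ^ Module.finrank ℤ (𝓞 K) := by positivity
    omega

open Classical in
/-- **The theorem for every prime number `p`.** -/
theorem all_p (K : Type) [Field K] [NumberField K] (hK : Module.finrank ℚ K = 2) (p : ℕ)
    (hp : p.Prime) (E : WeierstrassCurve K)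
    (hE : E.a₁ = 0 ∧ E.a₆ = 0 ∧ (¬ p ∣ 2 → E.a₂ = 0) ∧ (¬ p ∣ 3 → E.a₃ = 0) ∧
      (¬ p ∣ 4 → E.a₄ = 0)) (hΔ : E.Δ ≠ 0) (j D : ℤ) (hjD : (j, D) ∈ cmList)
    (hj : E.c₄ ^ 3 = j * E.Δ) (hD : ∃ s : K, s ^ 2 = D)
    (l : ℕ) (hl : l = p ∨ l = 4 ∧ p = 2 ∧ ∃ i : K, i ^ 2 = -1)
    (F : Type) [Field F] [NumberField F] [Algebra K F]
    (hF : IntermediateField.adjoin K {x : F | ∃ c : K, x ^ l = algebraMap K F c} = ⊤)
    (n : ℕ) (m u : 𝓞 K) (hm : m ∣ (p : 𝓞 K) ^ n)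
    (hu : ∀ q, Prime q → ¬ (q ^ p ∣ m ∧ q ^ p ∣ u)) (c : ℝ)
    (hc : c = if Prime (p : 𝓞 K) then (if ∃ x : F, x ^ 2 = -1 then
        √((∏' i : ℕ, (1 + 1 / (p : ℝ) ^ (2 * i + 1))⁻¹) / 2) else
        ∏' i : ℕ, (1 + 1 / (p : ℝ) ^ (2 * i + 1))⁻¹) else
      if Squarefree (p : 𝓞 K) then ∏' i : ℕ, (1 - 1 / (p : ℝ) ^ (i + 1)) else
      ∏' i : ℕ, (1 + 1 / (p : ℝ) ^ (i + 1))⁻¹) (ε : ℝ) (hε : 0 < ε) :
    ∀ᶠ X : ℝ in Filter.atTop, c ^ Module.finrank K F - ε ≤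
      (Nat.card {d : 𝓞 K // (∀ x, x ^ p ∣ d → IsUnit x) ∧ m ∣ d - u ∧ |Algebra.norm ℤ d| ≤ X ∧
        ∀ V : WeierstrassCurve F, V = ⟨0, algebraMap K F (E.a₂ * d ^ (2 / p)),
          algebraMap K F (E.a₃ * d ^ (3 / p)), algebraMap K F (E.a₄ * d ^ (4 / p)), 0⟩ →
          TowP K V} : ℝ) /
        (Nat.card {d : 𝓞 K // (∀ x, x ^ p ∣ d → IsUnit x) ∧ m ∣ d - u ∧
          |Algebra.norm ℤ d| ≤ X} : ℝ) := by
  rcases p_cases hp hE hΔ with rfl | rfl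
  · obtain ⟨e1, e6, -, e3, -⟩ := hE
    have e3 := e3 (by decide)
    rw [Nat.cast_ofNat] at hm
    simp only [Nat.cast_ofNat] at hc
    have hl' : l = 2 ∨ l = 4 ∧ ∃ i : K, i ^ 2 = -1 := by
      rcases hl with h | ⟨h1, -, h2⟩
      · exact Or.inl h
      · exact Or.inr ⟨h1, h2⟩
    have hΔ' : E.Δ = 16 * (E.a₄ ^ 2 * (E.a₂ ^ 2 - 4 * E.a₄)) := by
      unfold WeierstrassCurve.Δ WeierstrassCurve.b₂ WeierstrassCurve.b₄ WeierstrassCurve.b₆
        WeierstrassCurve.b₈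
      rw [e1, e6, e3]
      ring
    have hc4 : E.c₄ = 16 * (E.a₂ ^ 2 - 3 * E.a₄) := by
      unfold WeierstrassCurve.c₄ WeierstrassCurve.b₂ WeierstrassCurve.b₄
      rw [e1, e3]
      ring
    have h1 : E.a₄ * (E.a₂ ^ 2 - 4 * E.a₄) ≠ 0 := by
      intro h0
      apply hΔ
      rw [hΔ']
      linear_combination (16 * E.a₄) * h0
    have h2 : 256 * (E.a₂ ^ 2 - 3 * E.a₄) ^ 3 = j * (E.a₄ ^ 2 * (E.a₂ ^ 2 - 4 * E.a₄)) := by
      rw [hΔ', hc4] at hj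
      have h16 : (16 : K) ≠ 0 := by norm_num
      apply mul_left_cancel₀ h16
      linear_combination hj
    have h := kst_step K hK E.a₂ E.a₄ h1 j D hjD h2 hD l hl' F hF m u _
      (Pool.Agent.Lib.MP_1a91b9_ntW.J.kstar_final K hK E.a₂ E.a₄ h1 j D hjD h2 hD l hl' F hF n m u
        hm hu c hc ε hε)
    have hsq : ∀ d : 𝓞 K, (∀ x, x ^ 2 ∣ d → IsUnit x) ↔ Squarefree d := by
      intro d
      unfold Squarefree
      simp only [pow_two]
    have hV : ∀ d : 𝓞 K, (⟨0, algebraMap K F (E.a₂ * d ^ (2 / 2)),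
        algebraMap K F (E.a₃ * d ^ (3 / 2)), algebraMap K F (E.a₄ * d ^ (4 / 2)), 0⟩ :
          WeierstrassCurve F) = ⟨0, algebraMap K F (d * E.a₂), 0,
            algebraMap K F ((d : K) ^ 2 * E.a₄), 0⟩ := by
      intro d
      rw [e3, zero_mul, map_zero, mul_comm E.a₂, mul_comm E.a₄]
      norm_num
    simp only [hsq, hV]
    exact h
  · obtain ⟨e1, e6, e2, -, e4⟩ := hE
    have e2 := e2 (by decide)
    have e4 := e4 (by decide)
    rw [Nat.cast_ofNat] at hm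
    simp only [Nat.cast_ofNat] at hc
    have hl' : l = 3 := by
      rcases hl with h | ⟨-, h1, -⟩
      · exact h
      · omega
    subst hl'
    have hΔ' : E.Δ = -27 * E.a₃ ^ 4 := by
      unfold WeierstrassCurve.Δ WeierstrassCurve.b₂ WeierstrassCurve.b₄ WeierstrassCurve.b₆
        WeierstrassCurve.b₈
      rw [e1, e6, e2, e4]
      ring
    have hc4 : E.c₄ = 0 := by
      unfold WeierstrassCurve.c₄ WeierstrassCurve.b₂ WeierstrassCurve.b₄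
      rw [e1, e2, e4]
      ring
    have ha : E.a₃ ≠ 0 := by
      intro h0
      apply hΔ
      rw [hΔ', h0]
      ring
    have hj0 : j = 0 := by
      rw [hc4, zero_pow three_ne_zero] at hj
      rcases mul_eq_zero.1 hj.symm with h0 | h0
      · exact_mod_cast h0
      · exact absurd h0 hΔ
    subst hj0
    obtain rfl := cm_zero hjD
    obtain ⟨s, hs⟩ := hD
    rw [Int.cast_neg, Int.cast_ofNat] at hs
    obtain ⟨σ, -, hσ, hσu⟩ := int_sqrt hs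
    have hσ0 : σ ≠ 0 := by
      rintro rfl
      rw [zero_pow two_ne_zero, neg_zero] at hσ
      have h30 : (3 : 𝓞 K) ≠ 0 := by norm_num
      exact h30 hσ
    have hnp : ¬ Prime (3 : 𝓞 K) := by
      intro h
      rw [hσ] at h
      have h1 : Prime (σ ^ 2) := by
        have := h.neg
        rwa [neg_neg] at this
      have h2 := h1.irreducible.isUnit_or_isUnit (pow_two σ)
      exact hσu (h2.elim id id)
    have hns : ¬ Squarefree (3 : 𝓞 K) := by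
      intro h
      refine hσu (h σ ?_)
      rw [hσ, ← pow_two]
      exact (dvd_neg.2 dvd_rfl)
    rw [if_neg hnp, if_neg hns] at hc
    subst hc
    have h := cub_towers K hK ⟨s, hs⟩ ha F hF n m u hm hu ε hε
    have hV : ∀ d : 𝓞 K, (⟨0, algebraMap K F (E.a₂ * d ^ (2 / 3)),
        algebraMap K F (E.a₃ * d ^ (3 / 3)), algebraMap K F (E.a₄ * d ^ (4 / 3)), 0⟩ :
          WeierstrassCurve F) = ⟨0, 0, algebraMap K F (E.a₃ * d), 0, 0⟩ := by
      intro d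
      rw [e2, e4, zero_mul, zero_mul, map_zero, Nat.div_self (by norm_num), pow_one]
    simp only [hV]
    exact h

end Pool.Agent.Lib.MP_1a91b9_ntJ
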