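import Mathlib
import Pool.Agent.Lib.MP_1a91b9_nt.VcPoint

/-!
# The number of points over an extension of degree `l` of the field with `q` elements is prime to `q`

`l = 2`, `y² = x³ - t² x` and `l = 3`, `y² = x³ + 16 t²`, `t` in the field with `q` elements.
-/

set_option autoImplicit false

namespace Pool.Agent.Lib.MP_1a91b9_ntJ

open WeierstrassCurve
open Pool.Agent.Lib.MP_1a91b9_nt (exists_point_equiv)

/-! ### Groups -/

/-- a subgroup with a point of order `q` and two points of order dividing `l` -/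
theorem three_mul_le {A : Type*} [AddCommGroup A] (H : AddSubgroup A) [Finite H] {P T1 T2 : A}
    (hP : P ∈ H) {q l : ℕ} (hPq : addOrderOf P = q) (hl : q.Coprime l) (h1 : T1 ∈ H)
    (h2 : T2 ∈ H) (n1 : T1 ≠ 0) (n2 : T2 ≠ 0) (n12 : T1 ≠ T2) (l1 : l • T1 = 0)
    (l2 : l • T2 = 0) : 3 * q ≤ Nat.card H := by
  have hT : ∀ i : Fin 3, (![0, T1, T2] : Fin 3 → A) i ∈ H := by
    intro i
    fin_cases i
    · exact H.zero_mem
    · exact h1
    · exact h2
  have hl0 : ∀ i : Fin 3, l • (![0, T1, T2] : Fin 3 → A) i = 0 := by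
    intro i
    fin_cases i
    · exact smul_zero l
    · exact l1
    · exact l2
  obtain ⟨f, hf⟩ : ∃ f : Fin 3 × Fin q → H, ∀ x, ((f x : H) : A) =
      (![0, T1, T2] : Fin 3 → A) x.1 + x.2.val • P :=
    ⟨fun x => ⟨_, H.add_mem (hT x.1) (H.nsmul_mem hP x.2.val)⟩, fun _ => rfl⟩
  have hinj : Function.Injective f := by
    rintro ⟨i, k⟩ ⟨j, m⟩ h
    have h3 := congrArg (fun x : H => (x : A)) h
    simp only [hf] at h3
    have h4 := congrArg (fun x : A => l • x) h3
    simp only [smul_add, hl0, zero_add] at h4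
    rw [← mul_nsmul', ← mul_nsmul', nsmul_eq_nsmul_iff_modEq, hPq] at h4
    have h5 : k.val ≡ m.val [MOD q] := Nat.ModEq.cancel_left_of_coprime hl h4
    have h6 : k = m := Fin.ext (Nat.ModEq.eq_of_lt_of_lt h5 k.2 m.2)
    subst h6
    have h7 : (![0, T1, T2] : Fin 3 → A) i = (![0, T1, T2] : Fin 3 → A) j :=
      add_right_cancel h3
    have h8 : i = j := by
      fin_cases i <;> fin_cases j <;>
        first
          | rfl
          | exact absurd h7 (Ne.symm n1)
          | exact absurd h7 n1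
          | exact absurd h7 (Ne.symm n2)
          | exact absurd h7 n2
          | exact absurd h7 n12
          | exact absurd h7 (Ne.symm n12)
    rw [h8]
  have h := Nat.card_le_card_of_injective f hinj
  rwa [Nat.card_prod, Nat.card_fin, Nat.card_fin] at h

/-! ### Points -/

section

variable {κ : Type*} [Field κ] {W : WeierstrassCurve κ}

theorem finite_point [Finite κ] (W : WeierstrassCurve κ) : Finite W.toAffine.Point := by
  refine Finite.of_injective (β := Option (κ × κ)) (fun P => match P with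
    | .zero => none
    | .some x y _ => some (x, y)) ?_
  rintro (_ | ⟨x, y, h⟩) (_ | ⟨x', y', h'⟩) e
  · rfl
  · exact absurd e (by simp)
  · exact absurd e (by simp)
  · simp only [Option.some.injEq, Prod.mk.injEq] at e
    obtain ⟨rfl, rfl⟩ := e
    rfl

/-- the equation with `a₁ = a₃ = 0` -/
theorem sq_eq (h1 : W.a₁ = 0) (h3 : W.a₃ = 0) {x y y' : κ} (h : W.toAffine.Nonsingular x y)
    (h' : W.toAffine.Nonsingular x y') : y = y' ∨ y = -y' := by
  have e1 := (Affine.equation_iff _ _).1 h.1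
  have e2 := (Affine.equation_iff _ _).1 h'.1
  rw [h1, h3] at e1 e2
  have h4 : (y - y') * (y + y') = 0 := by linear_combination e1 - e2
  rcases mul_eq_zero.1 h4 with h5 | h5
  · exact Or.inl (sub_eq_zero.1 h5)
  · exact Or.inr (eq_neg_of_add_eq_zero_left h5)

/-- at most two points for each `x` -/
theorem card_le_two (h1 : W.a₁ = 0) (h3 : W.a₃ = 0) (H : Set W.toAffine.Point) (S : Finset κ)
    (hS : ∀ x y h, Affine.Point.some x y h ∈ H → x ∈ S) : Nat.card H ≤ 2 * S.card + 1 := by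
  classical
  obtain ⟨c, hc⟩ : ∃ c : κ → κ, ∀ x, (∃ y, W.toAffine.Nonsingular x y) →
      W.toAffine.Nonsingular x (c x) :=
    ⟨fun x => if h : ∃ y, W.toAffine.Nonsingular x y then h.choose else 0, fun x h => by
      simp only [dif_pos h]
      exact h.choose_spec⟩
  obtain ⟨g, hg0, hg⟩ : ∃ g : H → Option (S × Bool), (∀ h0 : Affine.Point.zero ∈ H,
      g ⟨_, h0⟩ = none) ∧ ∀ x y h (hH : Affine.Point.some x y h ∈ H),
      g ⟨_, hH⟩ = some (⟨x, hS x y h hH⟩, decide (y = c x)) :=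
    ⟨fun P => match P with
      | ⟨.zero, _⟩ => none
      | ⟨.some x y h, hH⟩ => some (⟨x, hS x y h hH⟩, decide (y = c x)), fun _ => rfl,
      fun _ _ _ _ => rfl⟩
  have hinj : Function.Injective g := by
    rintro ⟨_ | ⟨x, y, h⟩, hP⟩ ⟨_ | ⟨x', y', h'⟩, hP'⟩ e
    · rfl
    · rw [hg0, hg] at e
      exact absurd e (by simp)
    · rw [hg0, hg] at e
      exact absurd e (by simp)
    · rw [hg, hg] at e
      simp only [Option.some.injEq, Prod.mk.injEq, Subtype.mk.injEq, decide_eq_decide] at e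
      obtain ⟨rfl, e2⟩ := e
      have hcx := hc x ⟨y, h⟩
      have h5 : y = y' := by
        by_cases h6 : y = c x
        · rw [h6, e2.1 h6]
        · have h7 : y' ≠ c x := fun h8 => h6 (e2.2 h8)
          rw [(sq_eq h1 h3 h hcx).resolve_left h6, (sq_eq h1 h3 h' hcx).resolve_left h7]
      subst h5
      rfl
  have h := Nat.card_le_card_of_injective g hinj
  have h4 : Nat.card (Option (S × Bool)) = 2 * S.card + 1 := by
    rw [Nat.card_eq_fintype_card, Fintype.card_option, Fintype.card_prod, Fintype.card_bool,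
      Fintype.card_coe, mul_comm]
  rwa [h4] at h

/-- the solutions of `x ^ q = a x` -/
theorem exists_roots (a : κ) {q : ℕ} (hq : 2 ≤ q) :
    ∃ S : Finset κ, S.card ≤ q ∧ ∀ x, x ^ q = a * x → x ∈ S := by
  classical
  open Polynomial in
  have hdeg : (X ^ q - C a * X : κ[X]).natDegree = q := by
    have h1 : (C a * X : κ[X]).natDegree < (X ^ q : κ[X]).natDegree := by
      rw [natDegree_X_pow]
      have h2 : (C a * X : κ[X]).natDegree ≤ 1 := by
        refine (natDegree_C_mul_le a X).trans ?_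
        rw [natDegree_X]
      omega
    rw [natDegree_sub_eq_left_of_natDegree_lt h1, natDegree_X_pow]
  open Polynomial in
  have hne : (X ^ q - C a * X : κ[X]) ≠ 0 := by
    intro h0
    rw [h0, natDegree_zero] at hdeg
    omega
  open Polynomial in
  refine ⟨(X ^ q - C a * X : κ[X]).roots.toFinset, ?_, fun x hx => ?_⟩
  · refine (Multiset.toFinset_card_le _).trans ((Polynomial.card_roots' _).trans ?_)
    rw [hdeg]
  · rw [Multiset.mem_toFinset, Polynomial.mem_roots hne, Polynomial.IsRoot.def]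
    simp [hx]

/-! ### The endomorphisms -/

/-- the power map -/
theorem exists_frob [DecidableEq κ] {q : ℕ} (hq : q.Prime) [CharP κ q] (W : WeierstrassCurve κ)
    (h1 : W.a₁ ^ q = W.a₁) (h2 : W.a₂ ^ q = W.a₂) (h3 : W.a₃ ^ q = W.a₃)
    (h4 : W.a₄ ^ q = W.a₄) (h6 : W.a₆ ^ q = W.a₆) :
    ∃ φ : W.toAffine.Point →+ W.toAffine.Point, ∀ x y h, ∃ h',
      φ (Affine.Point.some x y h) = Affine.Point.some (x ^ q) (y ^ q) h' := by
  have := Fact.mk hq
  have : ExpChar κ q := ExpChar.prime hq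
  obtain ⟨R, hR⟩ : ∃ R : Subring κ, R = RingHom.eqLocus (frobenius κ q) (RingHom.id κ) := ⟨_, rfl⟩
  have hmem : ∀ x : κ, x ^ q = x → x ∈ R := fun x hx => by
    rw [hR, RingHom.mem_eqLocus]
    exact hx
  have hfix' : ∀ x ∈ R, frobenius κ q x = x := fun x hx => by
    rw [hR, RingHom.mem_eqLocus] at hx
    exact hx
  have hfix : ∀ r : R, frobenius κ q (algebraMap R κ r) = algebraMap R κ r := fun r =>
    hfix' _ r.2
  obtain ⟨W0, hW0⟩ : ∃ W0 : WeierstrassCurve R, W0 = ⟨⟨W.a₁, hmem _ h1⟩, ⟨W.a₂, hmem _ h2⟩,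
    ⟨W.a₃, hmem _ h3⟩, ⟨W.a₄, hmem _ h4⟩, ⟨W.a₆, hmem _ h6⟩⟩ := ⟨_, rfl⟩
  have hW : W = W0.baseChange κ := by
    rw [hW0]
    ext <;> rfl
  clear hW0
  subst hW
  obtain ⟨σ, hσ⟩ : ∃ σ : κ →ₐ[R] κ, ∀ x, σ x = x ^ q :=
    ⟨{ frobenius κ q with commutes' := hfix }, fun _ => rfl⟩
  refine ⟨Affine.Point.map (W' := W0.toAffine) σ, fun x y h => ?_⟩
  have e1 := Affine.Point.map_some (W' := W0.toAffine) σ h
  have h' := (W0.toAffine.baseChange_nonsingular σ.injective x y).2 h
  rw [e1]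
  have hx := hσ x
  have hy := hσ y
  refine ⟨by rw [← hx, ← hy]; exact h', ?_⟩
  congr 1

/-- the endomorphism of a change of variables -/
theorem exists_end [DecidableEq κ] (W : WeierstrassCurve κ) (C : VariableChange κ)
    (hC : C • W = W) : ∃ ω : W.toAffine.Point →+ W.toAffine.Point, ∀ x y h, ∃ h',
      ω (Affine.Point.some x y h) = Affine.Point.some ((C.u : κ) ^ 2 * x + C.r)
        ((C.u : κ) ^ 3 * y + (C.u : κ) ^ 2 * C.s * x + C.t) h' := by
  obtain ⟨e, he⟩ := exists_point_equiv W C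
  have key : ∀ W1 : WeierstrassCurve κ, W1 = W → ∀ e : W1.toAffine.Point ≃+ W.toAffine.Point,
      (∀ (x y : κ) (h : W1.toAffine.Nonsingular x y), ∃ h', e (Affine.Point.some x y h) =
        Affine.Point.some ((C.u : κ) ^ 2 * x + C.r)
          ((C.u : κ) ^ 3 * y + (C.u : κ) ^ 2 * C.s * x + C.t) h') →
      ∃ ω : W.toAffine.Point →+ W.toAffine.Point, ∀ x y h, ∃ h',
        ω (Affine.Point.some x y h) = Affine.Point.some ((C.u : κ) ^ 2 * x + C.r)
          ((C.u : κ) ^ 3 * y + (C.u : κ) ^ 2 * C.s * x + C.t) h' := by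
    rintro W1 rfl e he
    exact ⟨e.toAddMonoidHom, he⟩
  exact key _ hC e he

/-- **the main step** : the points with `φ P = ψ P` -/
theorem no_point [DecidableEq κ] [Finite κ] (h1 : W.a₁ = 0) (h3 : W.a₃ = 0) {q : ℕ}
    (hq : q.Prime) {φ ψ : W.toAffine.Point →+ W.toAffine.Point}
    (hφ : ∀ x y h, ∃ h', φ (Affine.Point.some x y h) = Affine.Point.some (x ^ q) (y ^ q) h')
    {a : κ} (hψ : ∀ x y h, ∃ y' h', ψ (Affine.Point.some x y h) = Affine.Point.some (a * x) y' h')
    {l : ℕ} (hl : q.Coprime l) {T1 T2 P : W.toAffine.Point} (n1 : T1 ≠ 0) (n2 : T2 ≠ 0)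
    (n12 : T1 ≠ T2) (l1 : l • T1 = 0) (l2 : l • T2 = 0) (f1 : φ T1 = ψ T1) (f2 : φ T2 = ψ T2)
    (hP : addOrderOf P = q) (fP : φ P = ψ P) : False := by
  have := finite_point W
  obtain ⟨S, hS, hS'⟩ := exists_roots a hq.two_le
  have h5 := three_mul_le (φ.eqLocus ψ) (P := P) fP hP hl (T1 := T1) (T2 := T2) f1 f2 n1 n2 n12 l1 l2
  have h6 := card_le_two h1 h3 (H := ((φ.eqLocus ψ : AddSubgroup W.toAffine.Point) :
    Set W.toAffine.Point)) S fun x y h hH => by
      obtain ⟨h', e1⟩ := hφ x y h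
      obtain ⟨y', h'', e2⟩ := hψ x y h
      have e3 : φ (Affine.Point.some x y h) = ψ (Affine.Point.some x y h) := hH
      rw [e1, e2] at e3
      simp only [Affine.Point.some.injEq] at e3
      exact hS' x e3.1
  have h7 : Nat.card (φ.eqLocus ψ) ≤ 2 * S.card + 1 := h6
  have h8 := hq.two_le
  omega

end

/-! ### `l = 2` -/

/-- **the curve `y² = x³ - t² x`** -/
theorem anom_two {κ : Type*} [Field κ] [Finite κ] {q : ℕ} (hq : q.Prime) [CharP κ q]
    (h2 : q ≠ 2) (hf : ∀ x : κ, x ^ (q ^ 2) = x) {t : κ} (ht : t ≠ 0) (htq : t ^ q = t) :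
    ¬ q ∣ Nat.card (⟨0, 0, 0, -t ^ 2, 0⟩ : WeierstrassCurve κ).toAffine.Point := by
  classical
  intro hd
  have := Fact.mk hq
  have hodd : Odd q := hq.odd_of_ne_two h2
  have h20 : (2 : κ) ≠ 0 := by
    intro h
    have h3 : ((2 : ℕ) : κ) = 0 := by exact_mod_cast h
    rw [CharP.cast_eq_zero_iff κ q] at h3
    exact h2 ((Nat.prime_dvd_prime_iff_eq hq Nat.prime_two).1 h3)
  obtain ⟨W, hW⟩ : ∃ W : WeierstrassCurve κ, W = ⟨0, 0, 0, -t ^ 2, 0⟩ := ⟨_, rfl⟩
  rw [← hW] at hd
  have a1 : W.a₁ = 0 := by rw [hW]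
  have a2 : W.a₂ = 0 := by rw [hW]
  have a3 : W.a₃ = 0 := by rw [hW]
  have a4 : W.a₄ = -t ^ 2 := by rw [hW]
  have a6 : W.a₆ = 0 := by rw [hW]
  clear hW
  have z0 : (0 : κ) ^ q = 0 := zero_pow hq.ne_zero
  obtain ⟨φ, hφ⟩ := exists_frob hq W (by rw [a1, z0]) (by rw [a2, z0]) (by rw [a3, z0])
    (by rw [a4, hodd.neg_pow, ← pow_mul, mul_comm, pow_mul, htq]) (by rw [a6, z0])
  have := finite_point W
  obtain ⟨P, hP⟩ := exists_prime_addOrderOf_dvd_card' q hd
  have hφ2 : ∀ Q, φ (φ Q) = Q := by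
    rintro (_ | ⟨x, y, h⟩)
    · exact (congrArg φ (map_zero φ)).trans (map_zero φ)
    · obtain ⟨h', e1⟩ := hφ x y h
      obtain ⟨h'', e2⟩ := hφ _ _ h'
      rw [e1, e2]
      have hx := hf x
      have hy := hf y
      rw [pow_two, pow_mul] at hx hy
      simp only [Affine.Point.some.injEq]
      exact ⟨hx, hy⟩
  -- the points of order two
  have hN : ∀ x : κ, x ^ 3 - t ^ 2 * x = 0 → 3 * x ^ 2 ≠ t ^ 2 → W.toAffine.Nonsingular x 0 := by
    intro x e1 e2
    rw [Affine.nonsingular_iff', Affine.equation_iff, a1, a2, a3, a4, a6]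
    refine ⟨by linear_combination -e1, Or.inl fun h => e2 ?_⟩
    linear_combination -h
  have hN0 := hN 0 (by ring) (by
    rw [zero_pow two_ne_zero, mul_zero]
    exact (pow_ne_zero 2 ht).symm)
  have hNt := hN t (by ring) (by
    intro h
    have h3 : 2 * t ^ 2 = 0 := by linear_combination h
    exact mul_ne_zero h20 (pow_ne_zero 2 ht) h3)
  have hneg : ∀ (x : κ) (h : W.toAffine.Nonsingular x 0),
      -(Affine.Point.some x 0 h) = Affine.Point.some x 0 h := by
    intro x h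
    rw [Affine.Point.neg_some]
    simp only [Affine.Point.some.injEq, true_and]
    rw [Affine.negY, a1, a3]
    ring
  have htwo : ∀ (x : κ) (h : W.toAffine.Nonsingular x 0),
      2 • (Affine.Point.some x 0 h) = 0 := by
    intro x h
    rw [two_nsmul]
    nth_rewrite 1 [← hneg x h]
    exact neg_add_cancel _
  have hfix : ∀ (x : κ) (h : W.toAffine.Nonsingular x 0), x ^ q = x →
      φ (Affine.Point.some x 0 h) = Affine.Point.some x 0 h := by
    intro x h hx
    obtain ⟨h', e1⟩ := hφ x 0 h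
    rw [e1]
    simp only [Affine.Point.some.injEq]
    exact ⟨hx, z0⟩
  have n12 : (Affine.Point.some 0 0 hN0 : W.toAffine.Point) ≠ Affine.Point.some t 0 hNt := by
    intro h
    simp only [Affine.Point.some.injEq] at h
    exact ht h.1.symm
  have hcop : q.Coprime 2 := (Nat.coprime_primes hq Nat.prime_two).2 h2
  by_cases hQ : P + φ P = 0
  · refine no_point a1 a3 hq hφ (ψ := -(AddMonoidHom.id _)) (a := 1) (fun x y h => ?_) hcop
      (Affine.Point.some_ne_zero hN0) (Affine.Point.some_ne_zero hNt) n12 (htwo _ _) (htwo _ _)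
      ?_ ?_ hP ?_
    · obtain ⟨y', h', e⟩ : ∃ y' h', -(Affine.Point.some x y h : W.toAffine.Point) =
          Affine.Point.some x y' h' := ⟨_, (Affine.nonsingular_neg _ _).2 h, rfl⟩
      refine ⟨y', by rw [one_mul]; exact h', ?_⟩
      rw [AddMonoidHom.neg_apply, AddMonoidHom.id_apply, e]
      simp only [one_mul]
    · rw [hfix _ _ z0, AddMonoidHom.neg_apply, AddMonoidHom.id_apply, hneg]
    · rw [hfix _ _ htq, AddMonoidHom.neg_apply, AddMonoidHom.id_apply, hneg]
    · rw [AddMonoidHom.neg_apply, AddMonoidHom.id_apply]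
      exact eq_neg_of_add_eq_zero_right hQ
  · refine no_point a1 a3 hq hφ (ψ := AddMonoidHom.id _) (a := 1) (P := P + φ P)
      (fun x y h => ⟨y, by rw [one_mul]; exact h, ?_⟩) hcop
      (Affine.Point.some_ne_zero hN0) (Affine.Point.some_ne_zero hNt) n12 (htwo _ _) (htwo _ _)
      (hfix _ _ z0) (hfix _ _ htq) ?_ ?_
    · simp only [AddMonoidHom.id_apply, one_mul]
    · refine addOrderOf_eq_prime ?_ hQ
      rw [smul_add, ← map_nsmul, ← hP, addOrderOf_nsmul_eq_zero, map_zero, add_zero]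
    · rw [AddMonoidHom.id_apply, map_add, hφ2, add_comm]

/-! ### `l = 3` -/

/-- **the curve `y² = x³ + 16 t²`** -/
theorem anom_three {κ : Type*} [Field κ] [Finite κ] {q : ℕ} (hq : q.Prime) [CharP κ q]
    (h3 : q ≠ 3) (hf : ∀ x : κ, x ^ (q ^ 3) = x) {w t : κ} (hw : w ^ 2 + w + 1 = 0)
    (hwq : w ^ q = w) (ht : t ≠ 0) (htq : t ^ q = t) (h2 : q ≠ 2) :
    ¬ q ∣ Nat.card (⟨0, 0, 0, 0, 16 * t ^ 2⟩ : WeierstrassCurve κ).toAffine.Point := by
  classical
  intro hd
  have := Fact.mk hq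
  have hcast : ∀ n : ℕ, ((n : ℕ) : κ) ^ q = n := fun n => by
    have : ExpChar κ q := ExpChar.prime hq
    exact map_natCast (frobenius κ q) n
  have h20 : (2 : κ) ≠ 0 := by
    intro h
    have h3 : ((2 : ℕ) : κ) = 0 := by exact_mod_cast h
    rw [CharP.cast_eq_zero_iff κ q] at h3
    exact h2 ((Nat.prime_dvd_prime_iff_eq hq Nat.prime_two).1 h3)
  have h30 : (3 : κ) ≠ 0 := by
    intro h
    have h4 : ((3 : ℕ) : κ) = 0 := by exact_mod_cast h
    rw [CharP.cast_eq_zero_iff κ q] at h4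
    exact h3 ((Nat.prime_dvd_prime_iff_eq hq Nat.prime_three).1 h4)
  have hw1 : w ≠ 1 := by
    rintro rfl
    exact h30 (by linear_combination hw)
  have hw3 : w ^ 3 = 1 := by linear_combination (w - 1) * hw
  have hw0 : w ≠ 0 := by
    rintro rfl
    exact one_ne_zero (by linear_combination hw : (1 : κ) = 0)
  obtain ⟨W, hW⟩ : ∃ W : WeierstrassCurve κ, W = ⟨0, 0, 0, 0, 16 * t ^ 2⟩ := ⟨_, rfl⟩
  rw [← hW] at hd
  have a1 : W.a₁ = 0 := by rw [hW]
  have a2 : W.a₂ = 0 := by rw [hW]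
  have a3 : W.a₃ = 0 := by rw [hW]
  have a4 : W.a₄ = 0 := by rw [hW]
  have a6 : W.a₆ = 16 * t ^ 2 := by rw [hW]
  clear hW
  have z0 : (0 : κ) ^ q = 0 := zero_pow hq.ne_zero
  have h16 : (16 : κ) ^ q = 16 := by exact_mod_cast hcast 16
  have h4q : (4 : κ) ^ q = 4 := by exact_mod_cast hcast 4
  obtain ⟨φ, hφ⟩ := exists_frob hq W (by rw [a1, z0]) (by rw [a2, z0]) (by rw [a3, z0])
    (by rw [a4, z0]) (by rw [a6, mul_pow, h16, ← pow_mul, mul_comm 2, pow_mul, htq])
  -- the automorphism of order three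
  obtain ⟨C, hC⟩ : ∃ C : VariableChange κ, C = ⟨Units.mk0 (w ^ 2) (pow_ne_zero 2 hw0), 0, 0, 0⟩ :=
    ⟨_, rfl⟩
  have hu : (C.u : κ) = w ^ 2 := by rw [hC]; rfl
  have hr : C.r = 0 := by rw [hC]
  have hs : C.s = 0 := by rw [hC]
  have ht' : C.t = 0 := by rw [hC]
  have hCW : C • W = W := by
    have hui : (C.u⁻¹ : κˣ) = (w : κ) := by
      rw [Units.val_inv_eq_inv_val, hu]
      refine inv_eq_of_mul_eq_one_right ?_
      linear_combination hw3
    ext
    · rw [variableChange_a₁, a1, hs]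
      ring
    · rw [variableChange_a₂, a1, a2, hs, hr]
      ring
    · rw [variableChange_a₃, a1, a3, hr, ht']
      ring
    · rw [variableChange_a₄, a1, a2, a3, a4, hs, hr, ht']
      ring
    · rw [variableChange_a₆, a1, a2, a3, a4, a6, hr, ht', hui]
      linear_combination (16 * t ^ 2) * (w ^ 3 + 1) * hw3
  obtain ⟨ω, hω⟩ := exists_end W C hCW
  have hω' : ∀ x y h, ∃ h', ω (Affine.Point.some x y h) = Affine.Point.some (w * x) y h' := by
    intro x y h
    obtain ⟨h', e1⟩ := hω x y h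
    have ex : (C.u : κ) ^ 2 * x + C.r = w * x := by
      rw [hu, hr]
      linear_combination (w * x) * hw3
    have ey : (C.u : κ) ^ 3 * y + (C.u : κ) ^ 2 * C.s * x + C.t = y := by
      rw [hu, hs, ht']
      linear_combination (w ^ 3 + 1) * y * hw3
    refine ⟨by rw [← ex, ← ey]; exact h', ?_⟩
    rw [e1]
    simp only [Affine.Point.some.injEq]
    exact ⟨ex, ey⟩
  clear hω
  have hω3 : ∀ Q, ω (ω (ω Q)) = Q := by
    rintro (_ | ⟨x, y, h⟩)
    · have h0 := map_zero ω
      exact (congrArg (fun Z => ω (ω Z)) h0).trans ((congrArg ω h0).trans h0)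
    · obtain ⟨h', e1⟩ := hω' x y h
      obtain ⟨h'', e2⟩ := hω' _ _ h'
      obtain ⟨h''', e3⟩ := hω' _ _ h''
      rw [e1, e2, e3]
      simp only [Affine.Point.some.injEq, and_true]
      linear_combination x * hw3
  have hφ3 : ∀ Q, φ (φ (φ Q)) = Q := by
    rintro (_ | ⟨x, y, h⟩)
    · have h0 := map_zero φ
      exact (congrArg (fun Z => φ (φ Z)) h0).trans ((congrArg φ h0).trans h0)
    · obtain ⟨h', e1⟩ := hφ x y h
      obtain ⟨h'', e2⟩ := hφ _ _ h'
      obtain ⟨h''', e3⟩ := hφ _ _ h''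
      rw [e1, e2, e3]
      have hx := hf x
      have hy := hf y
      have hq3 : q ^ 3 = q * q * q := by ring
      rw [hq3, pow_mul, pow_mul] at hx hy
      simp only [Affine.Point.some.injEq]
      exact ⟨hx, hy⟩
  have hcomm : ∀ Q, φ (ω Q) = ω (φ Q) := by
    rintro (_ | ⟨x, y, h⟩)
    · have h0 := map_zero ω
      have h1 := map_zero φ
      exact (congrArg φ h0).trans (h1.trans (h0.symm.trans (congrArg ω h1.symm)))
    · obtain ⟨h', e1⟩ := hω' x y h
      obtain ⟨h'', e2⟩ := hφ _ _ h'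
      obtain ⟨g', d1⟩ := hφ x y h
      obtain ⟨g'', d2⟩ := hω' _ _ g'
      rw [e1, e2, d1, d2]
      simp only [Affine.Point.some.injEq, and_true]
      rw [mul_pow, hwq]
  have := finite_point W
  obtain ⟨P, hP⟩ := exists_prime_addOrderOf_dvd_card' q hd
  -- the points fixed by `ω`
  have hFx : ∀ x y h, ω (Affine.Point.some x y h) = Affine.Point.some x y h → x = 0 := by
    intro x y h e
    obtain ⟨h', e1⟩ := hω' x y h
    rw [e1] at e
    simp only [Affine.Point.some.injEq, and_true] at e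
    have h5 : (w - 1) * x = 0 := by linear_combination e
    exact (mul_eq_zero.1 h5).resolve_left (sub_ne_zero.2 hw1)
  have hFc : Nat.card (ω.eqLocus (AddMonoidHom.id _)) ≤ 3 := by
    have h5 := card_le_two a1 a3 (H := ((ω.eqLocus (AddMonoidHom.id _) :
      AddSubgroup W.toAffine.Point) : Set W.toAffine.Point)) {0} fun x y h hH => by
        rw [Finset.mem_singleton]
        exact hFx x y h hH
    rw [Finset.card_singleton] at h5
    exact h5
  have hN : ∀ s : κ, s ^ 2 = 16 * t ^ 2 → s ≠ 0 → W.toAffine.Nonsingular 0 s := by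
    intro s e1 e2
    rw [Affine.nonsingular_iff', Affine.equation_iff, a1, a2, a3, a4, a6]
    refine ⟨by linear_combination e1, Or.inr ?_⟩
    have h5 : 2 * s + 0 * 0 + 0 = 2 * s := by ring
    rw [h5]
    exact mul_ne_zero h20 e2
  have h40 : (4 : κ) ≠ 0 := by
    have h5 : (4 : κ) = 2 * 2 := by norm_num
    rw [h5]
    exact mul_ne_zero h20 h20
  have h4t : 4 * t ≠ 0 := mul_ne_zero h40 ht
  have hN1 := hN (4 * t) (by ring) h4t
  have hN2 := hN (-(4 * t)) (by ring) (neg_ne_zero.2 h4t)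
  have hωT : ∀ s h, ω (Affine.Point.some 0 s h) = Affine.Point.some 0 s h := by
    intro s h
    obtain ⟨h', e1⟩ := hω' 0 s h
    rw [e1]
    simp only [mul_zero]
  have hφT : ∀ s h, s ^ q = s → φ (Affine.Point.some 0 s h) = Affine.Point.some 0 s h := by
    intro s h hs
    obtain ⟨h', e1⟩ := hφ 0 s h
    rw [e1]
    simp only [Affine.Point.some.injEq]
    exact ⟨z0, hs⟩
  have hs1 : (4 * t) ^ q = 4 * t := by rw [mul_pow, h4q, htq]
  have hs2 : (-(4 * t)) ^ q = -(4 * t) := by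
    rw [(hq.odd_of_ne_two h2).neg_pow, hs1]
  have n1 := Affine.Point.some_ne_zero hN1
  have n2 := Affine.Point.some_ne_zero hN2
  have n12 : (Affine.Point.some 0 (4 * t) hN1 : W.toAffine.Point) ≠
      Affine.Point.some 0 (-(4 * t)) hN2 := by
    intro h
    simp only [Affine.Point.some.injEq, true_and] at h
    exact mul_ne_zero h20 h4t (by linear_combination h)
  have hF3 : Nat.card (ω.eqLocus (AddMonoidHom.id _)) = 3 := by
    refine le_antisymm hFc ?_
    have h5 : Function.Injective (fun i : Fin 3 => (![⟨0, map_zero ω⟩, ⟨_, hωT _ hN1⟩,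
        ⟨_, hωT _ hN2⟩] : Fin 3 → ω.eqLocus (AddMonoidHom.id _)) i) := by
      intro i j h
      have h6 := congrArg (fun Q : ω.eqLocus (AddMonoidHom.id _) => (Q : W.toAffine.Point)) h
      fin_cases i <;> fin_cases j <;>
        first
          | rfl
          | exact absurd h6 (Ne.symm n1)
          | exact absurd h6 n1
          | exact absurd h6 (Ne.symm n2)
          | exact absurd h6 n2
          | exact absurd h6 n12
          | exact absurd h6 (Ne.symm n12)
    have h6 := Nat.card_le_card_of_injective _ h5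
    rwa [Nat.card_fin] at h6
  have hthree : ∀ s h, 3 • (Affine.Point.some 0 s h : W.toAffine.Point) = 0 := by
    intro s h
    have h5 : Nat.card (ω.eqLocus (AddMonoidHom.id _)) •
        (⟨Affine.Point.some 0 s h, hωT s h⟩ : ω.eqLocus (AddMonoidHom.id _)) = 0 :=
      card_nsmul_eq_zero'
    rw [hF3] at h5
    exact congrArg (fun Q : ω.eqLocus (AddMonoidHom.id _) => (Q : W.toAffine.Point)) h5
  have hcop : q.Coprime 3 := (Nat.coprime_primes hq Nat.prime_three).2 h3
  have hqP : q • P = 0 := by rw [← hP, addOrderOf_nsmul_eq_zero]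
  -- the three projections
  have main : ∀ (ψ ψ' : W.toAffine.Point →+ W.toAffine.Point) (a : κ),
      (∀ x y h, ∃ y' h', ψ' (Affine.Point.some x y h) = Affine.Point.some (a * x) y' h') →
      (∀ s h, ψ' (Affine.Point.some 0 s h) = Affine.Point.some 0 s h) →
      (∀ Q, φ (ψ Q) = ψ (φ Q)) → (∀ Q, ψ' (ψ Q) = Q) → (∀ Q, ψ (ψ Q) = ψ' Q) →
      P + ψ (φ P) + ψ (ψ (φ (φ P))) = 0 := by
    intro ψ ψ' a hψ' hψT hc hi hi2
    by_contra hQ
    have h5 : φ (P + ψ (φ P) + ψ (ψ (φ (φ P)))) = ψ' (P + ψ (φ P) + ψ (ψ (φ (φ P)))) := by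
      rw [map_add, map_add, map_add, map_add, hc, hc, hc, hφ3, hi, hi, hi2 P]
      abel
    refine no_point a1 a3 hq hφ (ψ := ψ') (a := a) hψ' hcop n1 n2 n12 (hthree _ _) (hthree _ _)
      ?_ ?_ (addOrderOf_eq_prime ?_ hQ) h5
    · rw [hφT _ _ hs1, hψT]
    · rw [hφT _ _ hs2, hψT]
    · rw [smul_add, smul_add, ← map_nsmul, ← map_nsmul, ← map_nsmul, ← map_nsmul, ← map_nsmul,
        ← map_nsmul, hqP]
      simp only [map_zero, add_zero]
  have m0 := main (AddMonoidHom.id _) (AddMonoidHom.id _) 1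
    (fun x y h => ⟨y, by rw [one_mul]; exact h, by simp only [AddMonoidHom.id_apply, one_mul]⟩)
    (fun _ _ => rfl) (fun _ => rfl) (fun _ => rfl) (fun _ => rfl)
  have m1 := main ω (ω.comp ω) (w * w)
    (fun x y h => by
      obtain ⟨h', e1⟩ := hω' x y h
      obtain ⟨h'', e2⟩ := hω' _ _ h'
      refine ⟨y, by rw [mul_assoc]; exact h'', ?_⟩
      rw [AddMonoidHom.comp_apply, e1, e2]
      simp only [Affine.Point.some.injEq, and_true]
      ring)
    (fun s h => by rw [AddMonoidHom.comp_apply, hωT, hωT]) hcomm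
    (fun Q => by rw [AddMonoidHom.comp_apply, hω3]) (fun Q => rfl)
  have m2 := main (ω.comp ω) ω w
    (fun x y h => by
      obtain ⟨h', e1⟩ := hω' x y h
      exact ⟨y, h', e1⟩)
    hωT (fun Q => by rw [AddMonoidHom.comp_apply, AddMonoidHom.comp_apply, hcomm, hcomm])
    (fun Q => by rw [AddMonoidHom.comp_apply, hω3])
    (fun Q => by rw [AddMonoidHom.comp_apply, AddMonoidHom.comp_apply, hω3])
  simp only [AddMonoidHom.comp_apply, AddMonoidHom.id_apply, hω3] at m0 m1 m2
  -- the sum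
  obtain ⟨R, hR⟩ : ∃ R, R = φ P + φ (φ P) := ⟨_, rfl⟩
  obtain ⟨N, hN'⟩ : ∃ N, N = R + ω R + ω (ω R) := ⟨_, rfl⟩
  have hsum : 3 • P + N = 0 := by
    rw [hN', hR]
    simp only [map_add]
    have h5 : 3 • P + (φ P + φ (φ P) + (ω (φ P) + ω (φ (φ P))) +
        (ω (ω (φ P)) + ω (ω (φ (φ P))))) = (P + φ P + φ (φ P)) +
        (P + ω (φ P) + ω (ω (φ (φ P)))) + (P + ω (ω (φ P)) + ω (φ (φ P))) := by
      rw [show (3 : ℕ) = 2 + 1 from rfl, add_smul, two_nsmul, one_nsmul]
      abel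
    rw [h5, m0, m1, m2]
    simp only [add_zero]
  have hωN : ω N = N := by
    rw [hN', map_add, map_add, hω3]
    abel
  have hqN : q • N = 0 := by
    have h5 : q • R = 0 := by
      rw [hR, smul_add, ← map_nsmul, ← map_nsmul, ← map_nsmul, hqP]
      simp only [map_zero, add_zero]
    rw [hN', smul_add, smul_add, ← map_nsmul, ← map_nsmul, ← map_nsmul, h5]
    simp only [map_zero, add_zero]
  have hN3 : 3 • N = 0 := by
    have h5 : Nat.card (ω.eqLocus (AddMonoidHom.id _)) •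
        (⟨N, hωN⟩ : ω.eqLocus (AddMonoidHom.id _)) = 0 := card_nsmul_eq_zero'
    rw [hF3] at h5
    exact congrArg (fun Q : ω.eqLocus (AddMonoidHom.id _) => (Q : W.toAffine.Point)) h5
  have h9 : ∀ Q : W.toAffine.Point, q • Q = 0 → 3 • Q = 0 → Q = 0 := by
    intro Q e1 e2
    have d1 := addOrderOf_dvd_of_nsmul_eq_zero e1
    have d2 := addOrderOf_dvd_of_nsmul_eq_zero e2
    have d3 := Nat.dvd_gcd d1 d2
    rw [hcop.gcd_eq_one, Nat.dvd_one] at d3
    exact AddMonoid.addOrderOf_eq_one_iff.1 d3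
  have hN0 : N = 0 := h9 N hqN hN3
  rw [hN0, add_zero] at hsum
  have hP0 := h9 P hqP hsum
  rw [hP0, addOrderOf_zero] at hP
  exact hq.one_lt.ne hP

end Pool.Agent.Lib.MP_1a91b9_ntJ
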