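import Pool.Agent.Lib.MP_1a91b9_ntT.CF.Frob

/-!
# The residue fields of a Kummer extension of a cyclotomic field above a prime which splits completely

`K` is the field of the roots of unity of order `k`, `l` divides `k`, `F` is generated over `K` by roots of order
`l` of elements of `K`; `q = 1` modulo `k` is a prime. The residue fields of `F` above `q` are contained in the
field with `q ^ l` elements, and the elements of `K` are in the field with `q` elements.
-/

set_option autoImplicit false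

namespace Pool.Agent.Lib.MP_1a91b9_ntJ

open NumberField IsDedekindDomain Pool.Agent.Lib.MP_1a91b9_nt
open Pool.Agent.Lib.MP_1a91b9_ntT.CF (exists_over exists_fr IsFr)

section
variable {K : Type} [Field K] [NumberField K] {k : ℕ} [NeZero k] [IsCyclotomicExtension {k} ℚ K]

/-- the elements of `K` modulo a prime above `q` -/
theorem frob_base {F : Type} [Field F] [NumberField F] [Algebra K F] {q : ℕ} (hq : q.Prime)
    (hq1 : q % k = 1 % k) (v : HeightOneSpectrum (𝓞 F)) (hv : (q : 𝓞 F) ∈ v.asIdeal) (a : 𝓞 K) :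
    Ideal.Quotient.mk v.asIdeal (algebraMap (𝓞 K) (𝓞 F) a) ^ q =
      Ideal.Quotient.mk v.asIdeal (algebraMap (𝓞 K) (𝓞 F) a) := by
  have hmax : v.asIdeal.IsMaximal := v.isMaximal
  let _ : Field (𝓞 F ⧸ v.asIdeal) := Ideal.Quotient.field v.asIdeal
  have hchar : CharP (𝓞 F ⧸ v.asIdeal) q := by
    have h0 : ((q : ℕ) : 𝓞 F ⧸ v.asIdeal) = 0 := by
      have h1 := Ideal.Quotient.eq_zero_iff_mem.2 hv
      rwa [map_natCast] at h1
    exact (CharP.charP_iff_prime_eq_zero hq).2 h0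
  have hfact : Fact q.Prime := ⟨hq⟩
  obtain ⟨f, hf⟩ : ∃ f : 𝓞 K →+* 𝓞 F ⧸ v.asIdeal,
      ∀ a, f a = Ideal.Quotient.mk v.asIdeal (algebraMap (𝓞 K) (𝓞 F) a) :=
    ⟨(Ideal.Quotient.mk v.asIdeal).comp (algebraMap (𝓞 K) (𝓞 F)), fun a => rfl⟩
  have hζ := IsCyclotomicExtension.zeta_spec k ℚ K
  have htop := IsCyclotomicExtension.Rat.adjoin_singleton_eq_top hζ
  have hζq : hζ.toInteger ^ q = hζ.toInteger := by
    have h1 : hζ.toInteger ^ k = 1 := hζ.toInteger_isPrimitiveRoot.pow_eq_one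
    have h2 : hζ.toInteger ^ q = hζ.toInteger ^ (q % k) := pow_eq_pow_mod q h1
    have h3 : hζ.toInteger ^ 1 = hζ.toInteger ^ (1 % k) := pow_eq_pow_mod 1 h1
    rw [h2, hq1, ← h3, pow_one]
  rw [← hf]
  have ha : a ∈ Algebra.adjoin ℤ {hζ.toInteger} := by
    rw [htop]
    exact Algebra.mem_top
  induction ha using Algebra.adjoin_induction with
  | mem x hx =>
    rw [Set.mem_singleton_iff] at hx
    rw [hx, ← map_pow, hζq]
  | algebraMap n =>
    have h1 : f (algebraMap ℤ (𝓞 K) n) = ((n : ℤ) : 𝓞 F ⧸ v.asIdeal) := by simp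
    rw [h1, ← frobenius_def, map_intCast]
  | add x y _ _ hx hy => rw [map_add, add_pow_char, hx, hy]
  | mul x y _ _ hx hy => rw [map_mul, mul_pow, hx, hy]

/-- the norm of the prime of `K` below -/
theorem nrm_under {F : Type} [Field F] [NumberField F] [Algebra K F] {q : ℕ} (hq : q.Prime)
    (hq1 : q % k = 1 % k) (v : HeightOneSpectrum (𝓞 F)) (hv : (q : 𝓞 F) ∈ v.asIdeal) :
    nrm (v.under (𝓞 K)) = q := by
  classical
  obtain ⟨u, hu⟩ : ∃ u, u = v.under (𝓞 K) := ⟨_, rfl⟩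
  have hmem : ∀ b : 𝓞 K, b ∈ u.asIdeal ↔ algebraMap (𝓞 K) (𝓞 F) b ∈ v.asIdeal := by
    intro b
    rw [hu]
    exact Iff.rfl
  rw [← hu, nrm_eq]
  have hmax : u.asIdeal.IsMaximal := u.isMaximal
  let _ : Field (𝓞 K ⧸ u.asIdeal) := Ideal.Quotient.field u.asIdeal
  have hfin : Finite (𝓞 K ⧸ u.asIdeal) := Ideal.finiteQuotientOfFreeOfNeBot _ u.ne_bot
  let _ : Fintype (𝓞 K ⧸ u.asIdeal) := Fintype.ofFinite _
  have hcard : Fintype.card (𝓞 K ⧸ u.asIdeal) = Ideal.absNorm u.asIdeal := by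
    rw [← Nat.card_eq_fintype_card]
    rfl
  have hqu : ((q : ℕ) : 𝓞 K ⧸ u.asIdeal) = 0 := by
    have h1 : ((q : ℕ) : 𝓞 K) ∈ u.asIdeal := by
      rw [hmem, map_natCast]
      exact hv
    have h2 := Ideal.Quotient.eq_zero_iff_mem.2 h1
    rwa [map_natCast] at h2
  have hchar : CharP (𝓞 K ⧸ u.asIdeal) q := (CharP.charP_iff_prime_eq_zero hq).2 hqu
  have hfix : ∀ x : 𝓞 K ⧸ u.asIdeal, x ^ q = x := by
    intro x
    obtain ⟨a, rfl⟩ := Ideal.Quotient.mk_surjective x
    have h1 := frob_base (k := k) hq hq1 v hv a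
    rw [← map_pow, ← map_pow, Ideal.Quotient.eq, ← map_sub] at h1
    rw [← map_pow, Ideal.Quotient.eq, hmem]
    exact h1
  obtain ⟨n, -, hn⟩ := FiniteField.card (𝓞 K ⧸ u.asIdeal) q
  obtain ⟨g, hg⟩ := IsCyclic.exists_generator (α := (𝓞 K ⧸ u.asIdeal)ˣ)
  have ho : orderOf g = Fintype.card (𝓞 K ⧸ u.asIdeal) - 1 := by
    rw [orderOf_eq_card_of_forall_mem_zpowers hg, Nat.card_eq_fintype_card, Fintype.card_units]
  have hg1 : g ^ (q - 1) = 1 := by
    have h1 : g ^ q = g := Units.ext (by rw [Units.val_pow_eq_pow_val]; exact hfix g)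
    have h2 : g ^ (q - 1) * g = g := by
      rw [← pow_succ, Nat.sub_add_cancel hq.one_lt.le, h1]
    exact mul_eq_right.1 h2
  have hd := orderOf_dvd_of_pow_eq_one hg1
  rw [ho] at hd
  have h1 := Nat.le_of_dvd (Nat.sub_pos_of_lt hq.one_lt) hd
  have h2 : q ≤ Fintype.card (𝓞 K ⧸ u.asIdeal) := by
    rw [hn]
    exact Nat.le_self_pow n.ne_zero q
  have h3 := hq.one_lt
  omega

open Polynomial in
/-- A field generated by roots of order `l` of elements of a field which contains the roots of unity of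
order `l` is normal. -/
theorem normal_of_roots {K F : Type*} [Field K] [Field F] [Algebra K F] [Algebra.IsAlgebraic K F]
    {l : ℕ} [NeZero l] {ω : K}
    (hω : IsPrimitiveRoot ω l)
    (hF : IntermediateField.adjoin K {x : F | ∃ c : K, x ^ l = algebraMap K F c} = ⊤) :
    Normal K F := by
  have hint : ∀ x ∈ {x : F | ∃ c : K, x ^ l = algebraMap K F c}, IsIntegral K x := by
    rintro x ⟨c, hc⟩
    exact IsIntegral.of_pow (NeZero.pos l) (by rw [hc]; exact isIntegral_algebraMap)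
  have hsplit : ∀ x ∈ {x : F | ∃ c : K, x ^ l = algebraMap K F c},
      IsIntegral K x ∧ ((minpoly K x).map (algebraMap K F)).Splits := by
    rintro x ⟨c, hc⟩
    refine ⟨hint x ⟨c, hc⟩, ?_⟩
    have h1 : (X ^ l - C (algebraMap K F c) : F[X]).Splits :=
      X_pow_sub_C_splits_of_isPrimitiveRoot (hω.map_of_injective (algebraMap K F).injective) hc
    refine Polynomial.Splits.of_dvd h1 (X_pow_sub_C_ne_zero (NeZero.pos l) _) ?_
    have h2 : minpoly K x ∣ X ^ l - C c := minpoly.dvd K x (by simp [hc])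
    have h3 := Polynomial.map_dvd (algebraMap K F) h2
    rwa [Polynomial.map_sub, Polynomial.map_pow, Polynomial.map_X, Polynomial.map_C] at h3
  refine { splits' := fun x => ?_ }
  have hx : x ∈ IntermediateField.adjoin K {x : F | ∃ c : K, x ^ l = algebraMap K F c} := by
    rw [hF]
    exact IntermediateField.mem_top
  exact IntermediateField.splits_of_mem_adjoin K F hsplit hx

/-- **The residue fields above `q`.** -/
theorem frob_roots {F : Type} [Field F] [NumberField F] [Algebra K F] {l : ℕ} [NeZero l]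
    (hl : l ∣ k)
    (hF : IntermediateField.adjoin K {x : F | ∃ c : K, x ^ l = algebraMap K F c} = ⊤)
    {q : ℕ} (hq : q.Prime) (hq1 : q % k = 1 % k) (v : HeightOneSpectrum (𝓞 F))
    (hv : (q : 𝓞 F) ∈ v.asIdeal) (x : 𝓞 F ⧸ v.asIdeal) : x ^ q ^ l = x := by
  obtain ⟨m, hm⟩ := hl
  have hk : k ≠ 0 := NeZero.ne k
  have hω : IsPrimitiveRoot (IsCyclotomicExtension.zeta k ℚ K ^ m) l :=
    (IsCyclotomicExtension.zeta_spec k ℚ K).pow (Nat.pos_of_ne_zero hk) (by rw [hm, mul_comm])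
  have hnormal := normal_of_roots hω hF
  have hgal : IsGalois K F := { }
  obtain ⟨φ, hφ⟩ := exists_fr (k := K) v
  have hω1 : (algebraMap K F (IsCyclotomicExtension.zeta k ℚ K ^ m)) ^ l = 1 := by
    rw [← map_pow, hω.pow_eq_one, map_one]
  have hfix : φ ^ l = 1 := by
    have h1 : ∀ x ∈ {x : F | ∃ c : K, x ^ l = algebraMap K F c}, (φ ^ l) x = x := by
      rintro x ⟨c, hc⟩
      by_cases hx : x = 0
      · rw [hx, map_zero]
      -- the quotient of `φ x` and `x` is a root of unity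
      obtain ⟨i, hi⟩ : ∃ i : ℕ, φ x =
          algebraMap K F ((IsCyclotomicExtension.zeta k ℚ K ^ m) ^ i) * x := by
        have h2 : (φ x / x) ^ l = 1 := by
          rw [div_pow, ← map_pow, hc, AlgEquiv.commutes, div_self]
          rw [← hc]
          exact pow_ne_zero _ hx
        obtain ⟨i, -, hi⟩ := (hω.map_of_injective (algebraMap K F).injective).eq_pow_of_pow_eq_one h2
        refine ⟨i, ?_⟩
        rw [map_pow, hi, div_mul_cancel₀ _ hx]
      have h3 : ∀ n : ℕ, (φ ^ n) x =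
          algebraMap K F ((IsCyclotomicExtension.zeta k ℚ K ^ m) ^ i) ^ n * x := by
        intro n
        induction n with
        | zero => simp
        | succ n ih =>
          rw [pow_succ' φ, AlgEquiv.mul_apply, ih, map_mul, map_pow, AlgEquiv.commutes, hi,
            pow_succ, mul_assoc]
      rw [h3, ← map_pow, ← pow_mul, mul_comm i l, pow_mul, hω.pow_eq_one, one_pow, map_one,
        one_mul]
    have h2 : IntermediateField.adjoin K {x : F | ∃ c : K, x ^ l = algebraMap K F c} ≤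
        IntermediateField.fixedField (Subgroup.zpowers (φ ^ l)) := by
      rw [IntermediateField.adjoin_le_iff]
      intro x hx
      rw [SetLike.mem_coe, IntermediateField.mem_fixedField_iff]
      intro g hg
      obtain ⟨j, rfl⟩ := Subgroup.mem_zpowers_iff.1 hg
      have h3 : φ ^ l ∈ MulAction.stabilizer Gal(F/K) x := h1 x hx
      exact Subgroup.zpow_mem _ h3 j
    apply AlgEquiv.ext
    intro x
    have h3 : x ∈ IntermediateField.fixedField (Subgroup.zpowers (φ ^ l)) := by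
      apply h2
      rw [hF]
      exact IntermediateField.mem_top
    rw [IntermediateField.mem_fixedField_iff] at h3
    exact h3 _ (Subgroup.mem_zpowers _)
  obtain ⟨y, rfl⟩ := Ideal.Quotient.mk_surjective x
  have key : ∀ n : ℕ, (φ ^ n) • y - y ^ q ^ n ∈ v.asIdeal := by
    intro n
    induction n with
    | zero => simp
    | succ n ih =>
      have h2 := hφ ((φ ^ n) • y)
      rw [nrm_under (k := k) hq hq1 v hv] at h2
      rw [pow_succ' φ, mul_smul]
      have h3 : ((φ ^ n) • y) ^ q - (y ^ q ^ n) ^ q ∈ v.asIdeal :=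
        v.asIdeal.mem_of_dvd (sub_dvd_pow_sub_pow _ _ q) ih
      rw [← pow_mul, ← pow_succ] at h3
      have h4 := Ideal.add_mem _ h2 h3
      rwa [sub_add_sub_cancel] at h4
  have h1 := key l
  rw [hfix, one_smul] at h1
  rw [← map_pow, eq_comm, Ideal.Quotient.eq]
  exact h1

end

/-- `K = ℚ(i)`, `l = 2`. -/
theorem frob_two {F : Type} [Field F] [NumberField F] [Algebra (CyclotomicField 4 ℚ) F]
    (hF : IntermediateField.adjoin (CyclotomicField 4 ℚ)
      {x : F | ∃ c : CyclotomicField 4 ℚ, x ^ 2 = algebraMap (CyclotomicField 4 ℚ) F c} = ⊤)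
    {q : ℕ} (hq : q.Prime) (hq1 : q % 4 = 1) (v : HeightOneSpectrum (𝓞 F))
    (hv : (q : 𝓞 F) ∈ v.asIdeal) :
    (∀ x : 𝓞 F ⧸ v.asIdeal, x ^ (q ^ 2) = x) ∧
      (∀ a : 𝓞 (CyclotomicField 4 ℚ),
        (Ideal.Quotient.mk v.asIdeal (algebraMap (𝓞 (CyclotomicField 4 ℚ)) (𝓞 F) a)) ^ q =
          Ideal.Quotient.mk v.asIdeal (algebraMap (𝓞 (CyclotomicField 4 ℚ)) (𝓞 F) a)) := by
  have h0 : NeZero ((4 : ℕ) : ℚ) := ⟨by norm_num⟩
  have h1 : IsCyclotomicExtension {4} ℚ (CyclotomicField 4 ℚ) :=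
    CyclotomicField.isCyclotomicExtension 4 ℚ
  exact ⟨frob_roots (k := 4) (by norm_num) hF hq hq1 v hv, frob_base (k := 4) hq hq1 v hv⟩

/-- `K = ℚ(√-3)`, `l = 3`. -/
theorem frob_three {F : Type} [Field F] [NumberField F] [Algebra (CyclotomicField 6 ℚ) F]
    (hF : IntermediateField.adjoin (CyclotomicField 6 ℚ)
      {x : F | ∃ c : CyclotomicField 6 ℚ, x ^ 3 = algebraMap (CyclotomicField 6 ℚ) F c} = ⊤)
    {q : ℕ} (hq : q.Prime) (hq1 : q % 6 = 1) (v : HeightOneSpectrum (𝓞 F))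
    (hv : (q : 𝓞 F) ∈ v.asIdeal) :
    (∀ x : 𝓞 F ⧸ v.asIdeal, x ^ (q ^ 3) = x) ∧
      (∀ a : 𝓞 (CyclotomicField 6 ℚ),
        (Ideal.Quotient.mk v.asIdeal (algebraMap (𝓞 (CyclotomicField 6 ℚ)) (𝓞 F) a)) ^ q =
          Ideal.Quotient.mk v.asIdeal (algebraMap (𝓞 (CyclotomicField 6 ℚ)) (𝓞 F) a)) := by
  have h0 : NeZero ((6 : ℕ) : ℚ) := ⟨by norm_num⟩
  have h1 : IsCyclotomicExtension {6} ℚ (CyclotomicField 6 ℚ) :=
    CyclotomicField.isCyclotomicExtension 6 ℚ
  exact ⟨frob_roots (k := 6) (by norm_num) hF hq hq1 v hv, frob_base (k := 6) hq hq1 v hv⟩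

end Pool.Agent.Lib.MP_1a91b9_ntJ
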