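import Pool.Agent.Lib.MP_1a91b9_ntJ.Anom
import Pool.Agent.Lib.MP_1a91b9_ntJ.AnomF

/-!
# The primes of a Kummer extension of `ℚ(i)` or `ℚ(√-3)` above a prime which splits completely are not anomalous
-/

set_option autoImplicit false

namespace Pool.Agent.Lib.MP_1a91b9_ntJ

open NumberField IsDedekindDomain WeierstrassCurve

/-- `ℚ(i)` -/
theorem no_anom_two {F : Type} [Field F] [NumberField F] [Algebra (CyclotomicField 4 ℚ) F]
    (hF : IntermediateField.adjoin (CyclotomicField 4 ℚ)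
      {x : F | ∃ c : CyclotomicField 4 ℚ, x ^ 2 = algebraMap (CyclotomicField 4 ℚ) F c} = ⊤)
    {d : 𝓞 (CyclotomicField 4 ℚ)} {α β : 𝓞 F}
    (hα : (α : F) = -(algebraMap (CyclotomicField 4 ℚ) F d) ^ 2) (hβ : (β : F) = 0)
    {q : ℕ} [Fact q.Prime] (hq : q % 4 = 1) (v : HeightOneSpectrum (𝓞 F))
    (hv : (q : 𝓞 F) ∈ v.asIdeal) (h6 : 6 * (4 * α ^ 3 + 27 * β ^ 2) ∉ v.asIdeal) :
    ¬ q ∣ Nat.card (⟨0, 0, 0, Ideal.Quotient.mk v.asIdeal α,
      Ideal.Quotient.mk v.asIdeal β⟩ :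
        WeierstrassCurve (𝓞 F ⧸ v.asIdeal)).toAffine.Point := by
  have hqp : q.Prime := Fact.out
  obtain ⟨hf, hb⟩ := frob_two hF hqp hq v hv
  have hmax : v.asIdeal.IsMaximal := v.isMaximal
  let _ : Field (𝓞 F ⧸ v.asIdeal) := Ideal.Quotient.field v.asIdeal
  have hfin : Finite (𝓞 F ⧸ v.asIdeal) := Ideal.finiteQuotientOfFreeOfNeBot _ v.ne_bot
  have hchar : CharP (𝓞 F ⧸ v.asIdeal) q := by
    have h0 : ((q : ℕ) : 𝓞 F ⧸ v.asIdeal) = 0 := by
      have h1 := Ideal.Quotient.eq_zero_iff_mem.2 hv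
      rwa [map_natCast] at h1
    exact (CharP.charP_iff_prime_eq_zero hqp).2 h0
  have hα' : α = -(algebraMap (𝓞 (CyclotomicField 4 ℚ)) (𝓞 F) d) ^ 2 := by
    apply RingOfIntegers.ext
    rw [hα]
    rfl
  have hβ' : β = 0 := RingOfIntegers.ext hβ
  have ht : Ideal.Quotient.mk v.asIdeal (algebraMap (𝓞 (CyclotomicField 4 ℚ)) (𝓞 F) d) ≠ 0 := by
    intro h0
    rw [Ideal.Quotient.eq_zero_iff_mem] at h0
    apply h6
    have e : 6 * (4 * α ^ 3 + 27 * β ^ 2) =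
        (-24 * (algebraMap (𝓞 (CyclotomicField 4 ℚ)) (𝓞 F) d) ^ 5) *
          algebraMap (𝓞 (CyclotomicField 4 ℚ)) (𝓞 F) d := by
      rw [hα', hβ']
      ring
    rw [e]
    exact Ideal.mul_mem_left _ _ h0
  have key := anom_two hqp (by omega) hf ht (hb d)
  have ea : Ideal.Quotient.mk v.asIdeal α =
      -(Ideal.Quotient.mk v.asIdeal (algebraMap (𝓞 (CyclotomicField 4 ℚ)) (𝓞 F) d)) ^ 2 := by
    rw [hα', map_neg, map_pow]
  have eb : Ideal.Quotient.mk v.asIdeal β = 0 := by rw [hβ', map_zero]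
  rw [ea, eb]
  exact key

/-- `ℚ(√-3)` -/
theorem no_anom_three {F : Type} [Field F] [NumberField F] [Algebra (CyclotomicField 6 ℚ) F]
    (hF : IntermediateField.adjoin (CyclotomicField 6 ℚ)
      {x : F | ∃ c : CyclotomicField 6 ℚ, x ^ 3 = algebraMap (CyclotomicField 6 ℚ) F c} = ⊤)
    {d : 𝓞 (CyclotomicField 6 ℚ)} {α β : 𝓞 F} (hα : (α : F) = 0)
    (hβ : (β : F) = 16 * (algebraMap (CyclotomicField 6 ℚ) F d) ^ 2)
    {q : ℕ} [Fact q.Prime] (hq : q % 6 = 1) (v : HeightOneSpectrum (𝓞 F))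
    (hv : (q : 𝓞 F) ∈ v.asIdeal) (h6 : 6 * (4 * α ^ 3 + 27 * β ^ 2) ∉ v.asIdeal) :
    ¬ q ∣ Nat.card (⟨0, 0, 0, Ideal.Quotient.mk v.asIdeal α,
      Ideal.Quotient.mk v.asIdeal β⟩ :
        WeierstrassCurve (𝓞 F ⧸ v.asIdeal)).toAffine.Point := by
  have hqp : q.Prime := Fact.out
  obtain ⟨hf, hb⟩ := frob_three hF hqp hq v hv
  have hmax : v.asIdeal.IsMaximal := v.isMaximal
  let _ : Field (𝓞 F ⧸ v.asIdeal) := Ideal.Quotient.field v.asIdeal
  have hfin : Finite (𝓞 F ⧸ v.asIdeal) := Ideal.finiteQuotientOfFreeOfNeBot _ v.ne_bot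
  have hchar : CharP (𝓞 F ⧸ v.asIdeal) q := by
    have h0 : ((q : ℕ) : 𝓞 F ⧸ v.asIdeal) = 0 := by
      have h1 := Ideal.Quotient.eq_zero_iff_mem.2 hv
      rwa [map_natCast] at h1
    exact (CharP.charP_iff_prime_eq_zero hqp).2 h0
  have hα' : α = 0 := RingOfIntegers.ext hα
  have hβ' : β = 16 * (algebraMap (𝓞 (CyclotomicField 6 ℚ)) (𝓞 F) d) ^ 2 := by
    apply RingOfIntegers.ext
    rw [hβ]
    simp only [map_mul, map_pow, map_ofNat]
    rfl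
  have ht : Ideal.Quotient.mk v.asIdeal (algebraMap (𝓞 (CyclotomicField 6 ℚ)) (𝓞 F) d) ≠ 0 := by
    intro h0
    rw [Ideal.Quotient.eq_zero_iff_mem] at h0
    apply h6
    have e : 6 * (4 * α ^ 3 + 27 * β ^ 2) =
        (41472 * (algebraMap (𝓞 (CyclotomicField 6 ℚ)) (𝓞 F) d) ^ 3) *
          algebraMap (𝓞 (CyclotomicField 6 ℚ)) (𝓞 F) d := by
      rw [hα', hβ']
      ring
    rw [e]
    exact Ideal.mul_mem_left _ _ h0
  -- the root of unity of order three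
  obtain ⟨w, hw⟩ : ∃ w : 𝓞 (CyclotomicField 6 ℚ), w ^ 2 + w + 1 = 0 := by
    have h0 : NeZero ((6 : ℕ) : ℚ) := ⟨by norm_num⟩
    have h1 : IsCyclotomicExtension {6} ℚ (CyclotomicField 6 ℚ) :=
      CyclotomicField.isCyclotomicExtension 6 ℚ
    obtain ⟨z, hz⟩ : ∃ z : 𝓞 (CyclotomicField 6 ℚ), IsPrimitiveRoot z 6 :=
      ⟨_, (IsCyclotomicExtension.zeta_spec 6 ℚ (CyclotomicField 6 ℚ)).toInteger_isPrimitiveRoot⟩
    have hz3 := hz.pow (by norm_num) (show 6 = 2 * 3 by norm_num)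
    have h2 := hz3.geom_sum_eq_zero (by norm_num)
    rw [Finset.sum_range_succ, Finset.sum_range_succ, Finset.sum_range_one, pow_zero, pow_one]
      at h2
    exact ⟨z ^ 2, by linear_combination h2⟩
  obtain ⟨u, hu⟩ : ∃ u : 𝓞 F ⧸ v.asIdeal, u = Ideal.Quotient.mk v.asIdeal
      (algebraMap (𝓞 (CyclotomicField 6 ℚ)) (𝓞 F) w) := ⟨_, rfl⟩
  have huq : u ^ q = u := by
    rw [hu]
    exact hb w
  have hu1 : u ^ 2 + u + 1 = 0 := by
    have h2 := congrArg (fun x => Ideal.Quotient.mk v.asIdeal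
      (algebraMap (𝓞 (CyclotomicField 6 ℚ)) (𝓞 F) x)) hw
    simp only [map_add, map_pow, map_one, map_zero] at h2
    rw [← hu] at h2
    exact h2
  have key := anom_three hqp (by rintro rfl; omega) hf hu1 huq ht (hb d) (by rintro rfl; omega)
  have ea : Ideal.Quotient.mk v.asIdeal α = 0 := by rw [hα', map_zero]
  have eb : Ideal.Quotient.mk v.asIdeal β =
      16 * (Ideal.Quotient.mk v.asIdeal (algebraMap (𝓞 (CyclotomicField 6 ℚ)) (𝓞 F) d)) ^ 2 := by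
    rw [hβ', map_mul, map_pow, map_ofNat]
  rw [ea, eb]
  exact key

end Pool.Agent.Lib.MP_1a91b9_ntJ
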