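import Pool.Agent.Lib.MP_1a91b9_ntJ.Anom

/-!
# The number of points over the field with `q ^ 2` elements is prime to `q`

`y² = x³ + a x² + b x`, `a`, `b` in the field with `q` elements, `b ≠ 0`, `7 ≤ q`.
-/

set_option autoImplicit false

namespace Pool.Agent.Lib.MP_1a91b9_ntJ

open WeierstrassCurve

section

open Polynomial

/-- the polynomial argument: `1 + a y + b y²` is not a power residue of constant type -/
theorem poly_arg {κ : Type*} [Field κ] {m : ℕ} (hm : 3 ≤ m) (hm0 : (m : κ) ≠ 0)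
    (h2 : (2 : κ) ≠ 0) {a b ε : κ} (T : Finset κ) (hT : T.card = 2 * m)
    (hT1 : ∀ y ∈ T, y ^ (2 * m) = 1)
    (h : ∀ y ∈ T, (1 + a * y + b * y ^ 2) ^ m = ε * y ^ m) : b = 0 := by
  obtain ⟨G, hG⟩ : ∃ G : κ[X], G = (1 + C a * X + C b * X ^ 2) ^ m - C ε * X ^ m := ⟨_, rfl⟩
  have hdeg : G.natDegree ≤ 2 * m := by
    rw [hG]
    refine (natDegree_sub_le _ _).trans (max_le ?_ ?_)
    · refine natDegree_pow_le.trans ?_
      rw [mul_comm]
      refine Nat.mul_le_mul_right m ?_
      compute_degree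
    · refine (natDegree_C_mul_X_pow_le _ _).trans (by omega)
  have key : G - C (G.coeff (2 * m)) * (X ^ (2 * m) - 1) = 0 := by
    refine eq_zero_of_degree_lt_of_eval_finset_eq_zero T ?_ fun y hy => ?_
    · rw [hT, degree_lt_iff_coeff_zero]
      intro n hn
      rw [coeff_sub, coeff_C_mul, coeff_sub, coeff_X_pow, coeff_one]
      rcases hn.eq_or_lt with h5 | h5
      · rw [← h5, if_pos rfl, if_neg (by omega)]
        ring
      · rw [if_neg (by omega), if_neg (by omega), coeff_eq_zero_of_natDegree_lt (by omega)]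
        ring
    · rw [hG]
      simp only [eval_sub, eval_mul, eval_pow, eval_add, eval_one, eval_X, eval_C]
      rw [h y hy, hT1 y hy]
      ring
  obtain ⟨c, hc⟩ : ∃ c : κ, c = G.coeff (2 * m) := ⟨_, rfl⟩
  rw [← hc] at key
  have key' : (1 + C a * X + C b * X ^ 2) ^ m = C ε * X ^ m + C c * (X ^ (2 * m) - 1) := by
    rw [sub_eq_zero, hG] at key
    linear_combination key
  have h1 := congrArg (fun p : κ[X] => eval 0 (derivative p)) key'
  simp only [derivative_pow, derivative_add, derivative_one, derivative_mul, derivative_C,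
    derivative_X, derivative_sub, eval_add, eval_mul, eval_pow, eval_one,
    eval_X, eval_C, eval_sub, eval_natCast, eval_zero, map_natCast] at h1
  have ha : a = 0 := by
    have e1 : (0 : κ) ^ (m - 1) = 0 := zero_pow (by omega)
    have e2 : (0 : κ) ^ (2 * m - 1) = 0 := zero_pow (by omega)
    rw [e1, e2] at h1
    have h5 : (m : κ) * a = 0 := by
      rw [← mul_zero (0 : κ)] at h1
      simp at h1
      rcases h1 with h1 | h1
      · exact absurd h1 hm0
      · rw [h1, mul_zero]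
    exact (mul_eq_zero.1 h5).resolve_left hm0
  subst ha
  have h3 := congrArg derivative key'
  simp only [derivative_pow, derivative_add, derivative_one, derivative_mul, derivative_C,
    derivative_X, derivative_sub, map_natCast] at h3
  obtain ⟨n, rfl⟩ : ∃ n, m = n + 3 := ⟨m - 3, by omega⟩
  have h4 : X * (C 2 * C b * C ((n + 3 : ℕ) : κ) * (1 + C b * X ^ 2) ^ (n + 2) : κ[X]) =
      X * (X ^ (n + 1) * (C ε * C ((n + 3 : ℕ) : κ) +
        C c * C ((2 * (n + 3) : ℕ) : κ) * X ^ (n + 3))) := by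
    have e1 : n + 3 - 1 = n + 2 := rfl
    have e2 : 2 * (n + 3) - 1 = (n + 3) + (n + 2) := by omega
    rw [e1, e2, pow_add, C_0] at h3
    simp only [map_natCast, C_ofNat] at h3 ⊢
    push_cast at h3 ⊢
    linear_combination h3
  have h5 := mul_left_cancel₀ X_ne_zero h4
  have h6 := congrArg (fun p : κ[X] => eval 0 p) h5
  simp only [eval_add, eval_mul, eval_pow, eval_one, eval_X, eval_C] at h6
  have e1 : (0 : κ) ^ (n + 1) = 0 := zero_pow (by omega)
  have e2 : (0 : κ) ^ 2 = 0 := zero_pow (by omega)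
  rw [e1, e2, mul_zero, add_zero, one_pow, mul_one, zero_mul] at h6
  exact ((mul_eq_zero.1 ((mul_eq_zero.1 h6).resolve_right hm0)).resolve_left h2)

end

section

variable {κ : Type*} [Field κ] {W : WeierstrassCurve κ}

/-- a set of points with at least two points for each value of `x` but one -/
theorem exists_y (h1 : W.a₁ = 0) (h3 : W.a₃ = 0) (h6 : W.a₆ = 0) (H : Set W.toAffine.Point)
    (S : Finset κ) (h0 : (0 : κ) ∈ S) (hS : ∀ x y h, Affine.Point.some x y h ∈ H → x ∈ S) :
    Nat.card H ≤ 2 * S.card ∧ (2 * S.card ≤ Nat.card H → ∀ x ∈ S, x ≠ 0 →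
      ∃ y h, y ≠ 0 ∧ Affine.Point.some x y h ∈ H) := by
  classical
  obtain ⟨c, hc⟩ : ∃ c : κ → κ, ∀ x, (∃ y, W.toAffine.Nonsingular x y) →
      W.toAffine.Nonsingular x (c x) :=
    ⟨fun x => if h : ∃ y, W.toAffine.Nonsingular x y then h.choose else 0, fun x h => by
      simp only [dif_pos h]
      exact h.choose_spec⟩
  obtain ⟨g, hg0, hg⟩ : ∃ g : H → Option (S × Bool), (∀ h0 : Affine.Point.zero ∈ H,
      g ⟨_, h0⟩ = none) ∧ ∀ x y h (hH : Affine.Point.some x y h ∈ H),
      g ⟨_, hH⟩ = some (⟨x, hS x y h hH⟩, decide (y = c x)) :=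
    ⟨fun P => match P with
      | ⟨.zero, _⟩ => none
      | ⟨.some x y h, hH⟩ => some (⟨x, hS x y h hH⟩, decide (y = c x)), fun _ => rfl,
      fun _ _ _ _ => rfl⟩
  have hinj : Function.Injective g := by
    rintro ⟨_ | ⟨x, y, h⟩, hP⟩ ⟨_ | ⟨x', y', h'⟩, hP'⟩ e
    · rfl
    · rw [hg0, hg] at e
      exact absurd e (by simp)
    · rw [hg0, hg] at e
      exact absurd e (by simp)
    · rw [hg, hg] at e
      simp only [Option.some.injEq, Prod.mk.injEq, Subtype.mk.injEq, decide_eq_decide] at e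
      obtain ⟨rfl, e2⟩ := e
      have hcx := hc x ⟨y, h⟩
      have h5 : y = y' := by
        by_cases h6 : y = c x
        · rw [h6, e2.1 h6]
        · have h7 : y' ≠ c x := fun h8 => h6 (e2.2 h8)
          rw [(sq_eq h1 h3 h hcx).resolve_left h6, (sq_eq h1 h3 h' hcx).resolve_left h7]
      subst h5
      rfl
  have hy0 : ∀ y, W.toAffine.Nonsingular 0 y → y = 0 := by
    intro y h
    have e1 := (Affine.equation_iff _ _).1 h.1
    rw [h1, h3, h6] at e1
    have e2 : y ^ 2 = 0 := by linear_combination e1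
    exact pow_eq_zero_iff two_ne_zero |>.1 e2
  have hne : ∀ P, g P ≠ some (⟨0, h0⟩, false) := by
    rintro ⟨_ | ⟨x, y, h⟩, hP⟩ e
    · rw [hg0] at e
      exact absurd e (by simp)
    · rw [hg] at e
      simp only [Option.some.injEq, Prod.mk.injEq, Subtype.mk.injEq, decide_eq_false_iff_not] at e
      obtain ⟨rfl, e2⟩ := e
      exact e2 ((hy0 y h).trans (hy0 _ (hc 0 ⟨y, h⟩)).symm)
  have hfin : Finite H := Finite.of_injective g hinj
  let _ : Fintype H := Fintype.ofFinite H
  obtain ⟨I, hI⟩ : ∃ I : Finset (Option (S × Bool)), I = Finset.univ.image g := ⟨_, rfl⟩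
  have hIc : I.card = Nat.card H := by
    rw [hI, Finset.card_image_of_injective _ hinj, Finset.card_univ, Nat.card_eq_fintype_card]
  have hIs : I ⊆ Finset.univ.erase (some (⟨0, h0⟩, false)) := by
    intro z hz
    rw [hI, Finset.mem_image] at hz
    obtain ⟨P, -, rfl⟩ := hz
    exact Finset.mem_erase.2 ⟨hne P, Finset.mem_univ _⟩
  have hcard : (Finset.univ.erase (some (⟨0, h0⟩, false)) : Finset (Option (S × Bool))).card =
      2 * S.card := by
    rw [Finset.card_erase_of_mem (Finset.mem_univ _), Finset.card_univ, Fintype.card_option,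
      Fintype.card_prod, Fintype.card_bool, Fintype.card_coe, mul_comm, Nat.add_sub_cancel]
  refine ⟨?_, fun hle x hx hx0 => ?_⟩
  · rw [← hIc, ← hcard]
    exact Finset.card_le_card hIs
  · have hIe : I = Finset.univ.erase (some (⟨0, h0⟩, false)) :=
      Finset.eq_of_subset_of_card_le hIs (by rw [hIc, hcard]; exact hle)
    have h5 : (some (⟨x, hx⟩, false) : Option (S × Bool)) ∈ I := by
      rw [hIe]
      refine Finset.mem_erase.2 ⟨?_, Finset.mem_univ _⟩
      intro e
      simp only [Option.some.injEq, Prod.mk.injEq, Subtype.mk.injEq, and_true] at e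
      exact hx0 e
    rw [hI, Finset.mem_image] at h5
    obtain ⟨⟨_ | ⟨x', y, h⟩, hP⟩, -, e⟩ := h5
    · rw [hg0] at e
      exact absurd e (by simp)
    · rw [hg] at e
      simp only [Option.some.injEq, Prod.mk.injEq, Subtype.mk.injEq, decide_eq_false_iff_not] at e
      obtain ⟨rfl, e2⟩ := e
      refine ⟨y, h, ?_, hP⟩
      rintro rfl
      have hcx := hc x' ⟨0, h⟩
      rcases sq_eq h1 h3 hcx h with h7 | h7
      · exact e2 h7.symm
      · rw [neg_zero] at h7
        exact e2 h7.symm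

/-- **the main step for one point of order two** -/
theorem no_point_one [DecidableEq κ] [Finite κ] (h1 : W.a₁ = 0) (h3 : W.a₃ = 0) (h6 : W.a₆ = 0)
    (hb : W.a₄ ≠ 0) {q : ℕ} [CharP κ q] (hq : q.Prime) (h7 : 7 ≤ q)
    {φ ψ : W.toAffine.Point →+ W.toAffine.Point}
    (hφ : ∀ x y h, ∃ h', φ (Affine.Point.some x y h) = Affine.Point.some (x ^ q) (y ^ q) h')
    {ε : κ}
    (hψ : ∀ x y h, ∃ h', ψ (Affine.Point.some x y h) = Affine.Point.some x (ε * y) h')
    {T P : W.toAffine.Point} (n : T ≠ 0) (l1 : 2 • T = 0) (f1 : φ T = ψ T)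
    (hP : addOrderOf P = q) (fP : φ P = ψ P) : False := by
  have := finite_point W
  obtain ⟨m, hm⟩ : ∃ m, q = 2 * m + 1 := hq.odd_of_ne_two (by omega)
  obtain ⟨S₀, hS₀, hS₀'⟩ := exists_roots (1 : κ) hq.two_le
  obtain ⟨S, hSd⟩ : ∃ S : Finset κ, S = S₀.filter fun x => x ^ q = x := ⟨_, rfl⟩
  have hSS : ∀ x, x ∈ S ↔ x ^ q = x := by
    intro x
    rw [hSd, Finset.mem_filter]
    refine ⟨fun h => h.2, fun h => ⟨hS₀' x (by rw [one_mul]; exact h), h⟩⟩
  have hSc : S.card ≤ q := by
    rw [hSd]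
    exact (Finset.card_filter_le _ _).trans hS₀
  have h0 : (0 : κ) ∈ S := (hSS 0).2 (zero_pow hq.ne_zero)
  -- the group has at least `2 q` elements
  have hHq : 2 * q ≤ Nat.card (φ.eqLocus ψ) := by
    have hd : ∀ (H : AddSubgroup W.toAffine.Point) (Q : W.toAffine.Point), Q ∈ H →
        addOrderOf Q ∣ Nat.card H := by
      intro H Q hQ
      have h8 := addOrderOf_dvd_natCard (⟨Q, hQ⟩ : H)
      rwa [AddSubgroup.addOrderOf_mk] at h8
    have hd1 : q ∣ Nat.card (φ.eqLocus ψ) := by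
      have h8 := hd (φ.eqLocus ψ) P fP
      rwa [hP] at h8
    have hd2 : 2 ∣ Nat.card (φ.eqLocus ψ) := by
      have h8 := hd (φ.eqLocus ψ) T f1
      rwa [addOrderOf_eq_prime l1 n] at h8
    have hc : Nat.Coprime 2 q := (Nat.coprime_primes Nat.prime_two hq).2 (by omega)
    exact Nat.le_of_dvd Nat.card_pos (hc.mul_dvd_of_dvd_of_dvd hd2 hd1)
  obtain ⟨e1, e2⟩ := exists_y h1 h3 h6 (H := ((φ.eqLocus ψ : AddSubgroup W.toAffine.Point) :
    Set W.toAffine.Point)) S h0 fun x y h hH => by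
      obtain ⟨h', e1⟩ := hφ x y h
      obtain ⟨h'', e2⟩ := hψ x y h
      have e3 : φ (Affine.Point.some x y h) = ψ (Affine.Point.some x y h) := hH
      rw [e1, e2] at e3
      simp only [Affine.Point.some.injEq] at e3
      exact (hSS x).2 e3.1
  have e1' : Nat.card (φ.eqLocus ψ) ≤ 2 * S.card := e1
  have hSq : S.card = q := by omega
  have e3 := e2 (by
    have h8 : 2 * S.card ≤ Nat.card (φ.eqLocus ψ) := by rw [hSq]; exact hHq
    exact h8)
  have hm0 : (m : κ) ≠ 0 := by
    rw [Ne, CharP.cast_eq_zero_iff κ q]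
    intro h
    have := Nat.le_of_dvd (by omega) h
    omega
  have h20 : (2 : κ) ≠ 0 := by
    intro h
    have h8 : ((2 : ℕ) : κ) = 0 := by exact_mod_cast h
    rw [CharP.cast_eq_zero_iff κ q] at h8
    have := Nat.le_of_dvd (by omega) h8
    omega
  refine hb (poly_arg (m := m) (a := W.a₂) (b := W.a₄) (ε := ε) (by omega) hm0 h20
    (S.erase 0) ?_ ?_ ?_)
  · rw [Finset.card_erase_of_mem h0, hSq, hm, Nat.add_sub_cancel]
  · intro y hy
    rw [Finset.mem_erase, hSS, hm, pow_succ] at hy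
    exact mul_right_cancel₀ hy.1 (by rw [hy.2, one_mul])
  · intro y hy
    obtain ⟨hy0, hyS⟩ := Finset.mem_erase.1 hy
    have hyi : y⁻¹ ∈ S := by
      rw [hSS, inv_pow, (hSS y).1 hyS]
    obtain ⟨z, h, hz0, hH⟩ := e3 y⁻¹ hyi (inv_ne_zero hy0)
    obtain ⟨h', e4⟩ := hφ y⁻¹ z h
    obtain ⟨h'', e5⟩ := hψ y⁻¹ z h
    have e6 : φ (Affine.Point.some y⁻¹ z h) = ψ (Affine.Point.some y⁻¹ z h) := hH
    rw [e4, e5] at e6
    simp only [Affine.Point.some.injEq] at e6
    have e7 : z ^ (2 * m) = ε := by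
      have e8 := e6.2
      rw [hm, pow_succ] at e8
      exact mul_right_cancel₀ hz0 e8
    have e8 := (Affine.equation_iff _ _).1 h.1
    rw [h1, h3, h6] at e8
    have e9 : z ^ 2 = y⁻¹ ^ 3 + W.a₂ * y⁻¹ ^ 2 + W.a₄ * y⁻¹ := by linear_combination e8
    have hy2 : y ^ (2 * m) = 1 := by
      have e10 := (hSS y).1 hyS
      rw [hm, pow_succ] at e10
      exact mul_right_cancel₀ hy0 (by rw [e10, one_mul])
    have e10 : 1 + W.a₂ * y + W.a₄ * y ^ 2 = y ^ 3 * z ^ 2 := by
      rw [e9]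
      field_simp
    rw [e10, mul_pow, ← pow_mul z, e7]
    have e11 : (y ^ 3) ^ m = y ^ m * y ^ (2 * m) := by
      rw [← pow_mul, ← pow_add]
      congr 1
      ring
    rw [e11, hy2, mul_one, mul_comm]

/-- **the curve `y² = x³ + a x² + b x`** -/
theorem anom_one {κ : Type*} [Field κ] [Finite κ] {q : ℕ} (hq : q.Prime) [CharP κ q]
    (h7 : 7 ≤ q) (hf : ∀ x : κ, x ^ (q ^ 2) = x) {a b : κ} (ha : a ^ q = a) (hb : b ^ q = b)
    (hb0 : b ≠ 0) : ¬ q ∣ Nat.card (⟨0, a, 0, b, 0⟩ : WeierstrassCurve κ).toAffine.Point := by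
  classical
  intro hd
  have := Fact.mk hq
  obtain ⟨W, hW⟩ : ∃ W : WeierstrassCurve κ, W = ⟨0, a, 0, b, 0⟩ := ⟨_, rfl⟩
  rw [← hW] at hd
  have a1 : W.a₁ = 0 := by rw [hW]
  have a2 : W.a₂ = a := by rw [hW]
  have a3 : W.a₃ = 0 := by rw [hW]
  have a4 : W.a₄ = b := by rw [hW]
  have a6 : W.a₆ = 0 := by rw [hW]
  clear hW
  have z0 : (0 : κ) ^ q = 0 := zero_pow hq.ne_zero
  obtain ⟨φ, hφ⟩ := exists_frob hq W (by rw [a1, z0]) (by rw [a2, ha]) (by rw [a3, z0])
    (by rw [a4, hb]) (by rw [a6, z0])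
  have := finite_point W
  obtain ⟨P, hP⟩ := exists_prime_addOrderOf_dvd_card' q hd
  have hφ2 : ∀ Q, φ (φ Q) = Q := by
    rintro (_ | ⟨x, y, h⟩)
    · exact (congrArg φ (map_zero φ)).trans (map_zero φ)
    · obtain ⟨h', e1⟩ := hφ x y h
      obtain ⟨h'', e2⟩ := hφ _ _ h'
      rw [e1, e2]
      have hx := hf x
      have hy := hf y
      rw [pow_two, pow_mul] at hx hy
      simp only [Affine.Point.some.injEq]
      exact ⟨hx, hy⟩
  -- the point of order two
  have hN0 : W.toAffine.Nonsingular 0 0 := by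
    rw [Affine.nonsingular_iff', Affine.equation_iff, a1, a2, a3, a4, a6]
    refine ⟨by ring, Or.inl fun h => hb0 ?_⟩
    linear_combination -h
  have hneg : -(Affine.Point.some 0 0 hN0 : W.toAffine.Point) = Affine.Point.some 0 0 hN0 := by
    rw [Affine.Point.neg_some]
    simp only [Affine.Point.some.injEq, true_and]
    rw [Affine.negY, a1, a3]
    ring
  have htwo : 2 • (Affine.Point.some 0 0 hN0 : W.toAffine.Point) = 0 := by
    rw [two_nsmul]
    nth_rewrite 1 [← hneg]
    exact neg_add_cancel _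
  have hfix : φ (Affine.Point.some 0 0 hN0) = Affine.Point.some 0 0 hN0 := by
    obtain ⟨h', e1⟩ := hφ 0 0 hN0
    rw [e1]
    simp only [Affine.Point.some.injEq]
    exact ⟨z0, z0⟩
  by_cases hQ : P + φ P = 0
  · refine no_point_one a1 a3 a6 (by rw [a4]; exact hb0) hq h7 hφ (ψ := -(AddMonoidHom.id _))
      (ε := -1) (fun x y h => ?_) (Affine.Point.some_ne_zero hN0) htwo ?_ hP ?_
    · have e : -(Affine.Point.some x y h : W.toAffine.Point) =
          Affine.Point.some x (W.toAffine.negY x y) ((Affine.nonsingular_neg _ _).2 h) := rfl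
      have e2 : W.toAffine.negY x y = -1 * y := by
        rw [Affine.negY, a1, a3]
        ring
      refine ⟨by rw [← e2]; exact (Affine.nonsingular_neg _ _).2 h, ?_⟩
      rw [AddMonoidHom.neg_apply, AddMonoidHom.id_apply, e]
      simp only [Affine.Point.some.injEq, true_and]
      exact e2
    · rw [hfix, AddMonoidHom.neg_apply, AddMonoidHom.id_apply, hneg]
    · rw [AddMonoidHom.neg_apply, AddMonoidHom.id_apply]
      exact eq_neg_of_add_eq_zero_right hQ
  · refine no_point_one a1 a3 a6 (by rw [a4]; exact hb0) hq h7 hφ (ψ := AddMonoidHom.id _)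
      (ε := 1) (P := P + φ P) (fun x y h => ⟨by rw [one_mul]; exact h, ?_⟩)
      (Affine.Point.some_ne_zero hN0) htwo hfix ?_ ?_
    · simp only [AddMonoidHom.id_apply, one_mul]
    · refine addOrderOf_eq_prime ?_ hQ
      rw [smul_add, ← map_nsmul, ← hP, addOrderOf_nsmul_eq_zero, map_zero, add_zero]
    · rw [AddMonoidHom.id_apply, map_add, hφ2, add_comm]

end

end Pool.Agent.Lib.MP_1a91b9_ntJ
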