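import Pool.Agent.Lib.MP_1a91b9_ntJ.AnomG

/-!
# The number of points over the field with `q ^ 4` elements is prime to `q`

`y² = x³ + b x`, `b` in the field with `q` elements, `b ≠ 0`, `-1` a square in it, `7 ≤ q`.
-/

set_option autoImplicit false

namespace Pool.Agent.Lib.MP_1a91b9_ntJ

open WeierstrassCurve
open Pool.Agent.Lib.MP_1a91b9_nt (exists_point_equiv)

section

open Polynomial

/-- the polynomial argument, for the solutions of `y ^ (2 m) = κ₀` -/
theorem poly_arg' {κ : Type*} [Field κ] {m : ℕ} (hm : 3 ≤ m) (hm0 : (m : κ) ≠ 0)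
    (h2 : (2 : κ) ≠ 0) {b κ₀ ε : κ} (T : Finset κ) (hT : T.card = 2 * m)
    (hT1 : ∀ y ∈ T, y ^ (2 * m) = κ₀)
    (h : ∀ y ∈ T, (1 + b * y ^ 2) ^ m = ε * y ^ m) : b = 0 := by
  obtain ⟨G, hG⟩ : ∃ G : κ[X], G = (1 + C b * X ^ 2) ^ m - C ε * X ^ m := ⟨_, rfl⟩
  have hdeg : G.natDegree ≤ 2 * m := by
    rw [hG]
    refine (natDegree_sub_le _ _).trans (max_le ?_ ?_)
    · refine natDegree_pow_le.trans ?_
      rw [mul_comm]
      refine Nat.mul_le_mul_right m ?_
      compute_degree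
    · refine (natDegree_C_mul_X_pow_le _ _).trans (by omega)
  have key : G - C (G.coeff (2 * m)) * (X ^ (2 * m) - C κ₀) = 0 := by
    refine eq_zero_of_degree_lt_of_eval_finset_eq_zero T ?_ fun y hy => ?_
    · rw [hT, degree_lt_iff_coeff_zero]
      intro n hn
      rw [coeff_sub, coeff_C_mul, coeff_sub, coeff_X_pow, coeff_C]
      rcases hn.eq_or_lt with h5 | h5
      · rw [← h5, if_pos rfl, if_neg (by omega)]
        ring
      · rw [if_neg (by omega), if_neg (by omega), coeff_eq_zero_of_natDegree_lt (by omega)]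
        ring
    · rw [hG]
      simp only [eval_sub, eval_mul, eval_pow, eval_add, eval_one, eval_X, eval_C]
      rw [h y hy, hT1 y hy]
      ring
  obtain ⟨c, hc⟩ : ∃ c : κ, c = G.coeff (2 * m) := ⟨_, rfl⟩
  rw [← hc] at key
  have key' : (1 + C b * X ^ 2) ^ m = C ε * X ^ m + C c * (X ^ (2 * m) - C κ₀) := by
    rw [sub_eq_zero, hG] at key
    linear_combination key
  have h3 := congrArg derivative key'
  simp only [derivative_pow, derivative_add, derivative_one, derivative_mul, derivative_C,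
    derivative_X, derivative_sub, map_natCast] at h3
  obtain ⟨n, rfl⟩ : ∃ n, m = n + 3 := ⟨m - 3, by omega⟩
  have h4 : X * (C 2 * C b * C ((n + 3 : ℕ) : κ) * (1 + C b * X ^ 2) ^ (n + 2) : κ[X]) =
      X * (X ^ (n + 1) * (C ε * C ((n + 3 : ℕ) : κ) +
        C c * C ((2 * (n + 3) : ℕ) : κ) * X ^ (n + 3))) := by
    have e1 : n + 3 - 1 = n + 2 := rfl
    have e2 : 2 * (n + 3) - 1 = (n + 3) + (n + 2) := by omega
    rw [e1, e2, pow_add] at h3
    simp only [map_natCast, C_ofNat] at h3 ⊢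
    push_cast at h3 ⊢
    linear_combination h3
  have h5 := mul_left_cancel₀ X_ne_zero h4
  have h6 := congrArg (fun p : κ[X] => eval 0 p) h5
  simp only [eval_add, eval_mul, eval_pow, eval_one, eval_X, eval_C] at h6
  have e1 : (0 : κ) ^ (n + 1) = 0 := zero_pow (by omega)
  have e2 : (0 : κ) ^ 2 = 0 := zero_pow (by omega)
  rw [e1, e2, mul_zero, add_zero, one_pow, mul_one, zero_mul] at h6
  exact ((mul_eq_zero.1 ((mul_eq_zero.1 h6).resolve_right hm0)).resolve_left h2)

end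

section

variable {κ : Type*} [Field κ] {W : WeierstrassCurve κ}

/-- **the main step for one point of order two** -/
theorem no_point_i [DecidableEq κ] [Finite κ] (h1 : W.a₁ = 0) (ha2 : W.a₂ = 0) (h3 : W.a₃ = 0)
    (h6 : W.a₆ = 0) (hb : W.a₄ ≠ 0) {q : ℕ} [CharP κ q] (hq : q.Prime) (h7 : 7 ≤ q)
    {φ ψ : W.toAffine.Point →+ W.toAffine.Point}
    (hφ : ∀ x y h, ∃ h', φ (Affine.Point.some x y h) = Affine.Point.some (x ^ q) (y ^ q) h')
    {κ₀ ε : κ} (hκ₀ : κ₀ ^ 2 = 1)
    (hψ : ∀ x y h, ∃ h', ψ (Affine.Point.some x y h) = Affine.Point.some (κ₀ * x) (ε * y) h')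
    {T P : W.toAffine.Point} (n : T ≠ 0) (l1 : 2 • T = 0) (f1 : φ T = ψ T)
    (hP : addOrderOf P = q) (fP : φ P = ψ P) : False := by
  have := finite_point W
  obtain ⟨m, hm⟩ : ∃ m, q = 2 * m + 1 := hq.odd_of_ne_two (by omega)
  obtain ⟨S₀, hS₀, hS₀'⟩ := exists_roots κ₀ hq.two_le
  obtain ⟨S, hSd⟩ : ∃ S : Finset κ, S = S₀.filter fun x => x ^ q = κ₀ * x := ⟨_, rfl⟩
  have hSS : ∀ x, x ∈ S ↔ x ^ q = κ₀ * x := by
    intro x
    rw [hSd, Finset.mem_filter]
    refine ⟨fun h => h.2, fun h => ⟨hS₀' x h, h⟩⟩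
  have hSc : S.card ≤ q := by
    rw [hSd]
    exact (Finset.card_filter_le _ _).trans hS₀
  have h0 : (0 : κ) ∈ S := (hSS 0).2 (by rw [zero_pow hq.ne_zero, mul_zero])
  -- the group has at least `2 q` elements
  have hHq : 2 * q ≤ Nat.card (φ.eqLocus ψ) := by
    have hd : ∀ (H : AddSubgroup W.toAffine.Point) (Q : W.toAffine.Point), Q ∈ H →
        addOrderOf Q ∣ Nat.card H := by
      intro H Q hQ
      have h8 := addOrderOf_dvd_natCard (⟨Q, hQ⟩ : H)
      rwa [AddSubgroup.addOrderOf_mk] at h8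
    have hd1 : q ∣ Nat.card (φ.eqLocus ψ) := by
      have h8 := hd (φ.eqLocus ψ) P fP
      rwa [hP] at h8
    have hd2 : 2 ∣ Nat.card (φ.eqLocus ψ) := by
      have h8 := hd (φ.eqLocus ψ) T f1
      rwa [addOrderOf_eq_prime l1 n] at h8
    have hc : Nat.Coprime 2 q := (Nat.coprime_primes Nat.prime_two hq).2 (by omega)
    exact Nat.le_of_dvd Nat.card_pos (hc.mul_dvd_of_dvd_of_dvd hd2 hd1)
  obtain ⟨e1, e2⟩ := exists_y h1 h3 h6 (H := ((φ.eqLocus ψ : AddSubgroup W.toAffine.Point) :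
    Set W.toAffine.Point)) S h0 fun x y h hH => by
      obtain ⟨h', e1⟩ := hφ x y h
      obtain ⟨h'', e2⟩ := hψ x y h
      have e3 : φ (Affine.Point.some x y h) = ψ (Affine.Point.some x y h) := hH
      rw [e1, e2] at e3
      simp only [Affine.Point.some.injEq] at e3
      exact (hSS x).2 e3.1
  have e1' : Nat.card (φ.eqLocus ψ) ≤ 2 * S.card := e1
  have hSq : S.card = q := by omega
  have e3 := e2 (by
    have h8 : 2 * S.card ≤ Nat.card (φ.eqLocus ψ) := by rw [hSq]; exact hHq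
    exact h8)
  have hm0 : (m : κ) ≠ 0 := by
    rw [Ne, CharP.cast_eq_zero_iff κ q]
    intro h
    have := Nat.le_of_dvd (by omega) h
    omega
  have h20 : (2 : κ) ≠ 0 := by
    intro h
    have h8 : ((2 : ℕ) : κ) = 0 := by exact_mod_cast h
    rw [CharP.cast_eq_zero_iff κ q] at h8
    have := Nat.le_of_dvd (by omega) h8
    omega
  refine hb (poly_arg' (m := m) (b := W.a₄) (κ₀ := κ₀) (ε := κ₀ * ε) (by omega) hm0 h20
    (S.erase 0) ?_ ?_ ?_)
  · rw [Finset.card_erase_of_mem h0, hSq, hm, Nat.add_sub_cancel]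
  · intro y hy
    rw [Finset.mem_erase, hSS, hm, pow_succ] at hy
    exact mul_right_cancel₀ hy.1 hy.2
  · intro y hy
    obtain ⟨hy0, hyS⟩ := Finset.mem_erase.1 hy
    have hκi : κ₀⁻¹ = κ₀ := by
      refine inv_eq_of_mul_eq_one_left ?_
      rw [← pow_two, hκ₀]
    have hyi : y⁻¹ ∈ S := by
      rw [hSS, inv_pow, (hSS y).1 hyS, mul_inv, hκi]
    obtain ⟨z, h, hz0, hH⟩ := e3 y⁻¹ hyi (inv_ne_zero hy0)
    obtain ⟨h', e4⟩ := hφ y⁻¹ z h
    obtain ⟨h'', e5⟩ := hψ y⁻¹ z h
    have e6 : φ (Affine.Point.some y⁻¹ z h) = ψ (Affine.Point.some y⁻¹ z h) := hH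
    rw [e4, e5] at e6
    simp only [Affine.Point.some.injEq] at e6
    have e7 : z ^ (2 * m) = ε := by
      have e8 := e6.2
      rw [hm, pow_succ] at e8
      exact mul_right_cancel₀ hz0 e8
    have e8 := (Affine.equation_iff _ _).1 h.1
    rw [h1, h3, h6] at e8
    have e9 : z ^ 2 = y⁻¹ ^ 3 + W.a₄ * y⁻¹ := by linear_combination e8 + y⁻¹ ^ 2 * ha2
    have hy2 : y ^ (2 * m) = κ₀ := by
      have e10 := (hSS y).1 hyS
      rw [hm, pow_succ] at e10
      exact mul_right_cancel₀ hy0 e10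
    have e10 : 1 + W.a₄ * y ^ 2 = y ^ 3 * z ^ 2 := by
      rw [e9]
      field_simp
    rw [e10, mul_pow, ← pow_mul z, e7]
    have e11 : (y ^ 3) ^ m = y ^ m * y ^ (2 * m) := by
      rw [← pow_mul, ← pow_add]
      congr 1
      ring
    rw [e11, hy2]
    ring

/-- **the curve `y² = x³ + b x`** -/
theorem anom_i {κ : Type*} [Field κ] [Finite κ] {q : ℕ} (hq : q.Prime) [CharP κ q]
    (h7 : 7 ≤ q) (hf : ∀ x : κ, x ^ (q ^ 4) = x) {w b : κ} (hw : w ^ 2 = -1) (hwq : w ^ q = w)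
    (hb : b ^ q = b) (hb0 : b ≠ 0) :
    ¬ q ∣ Nat.card (⟨0, 0, 0, b, 0⟩ : WeierstrassCurve κ).toAffine.Point := by
  classical
  intro hd
  have := Fact.mk hq
  obtain ⟨W, hW⟩ : ∃ W : WeierstrassCurve κ, W = ⟨0, 0, 0, b, 0⟩ := ⟨_, rfl⟩
  rw [← hW] at hd
  have a1 : W.a₁ = 0 := by rw [hW]
  have a2 : W.a₂ = 0 := by rw [hW]
  have a3 : W.a₃ = 0 := by rw [hW]
  have a4 : W.a₄ = b := by rw [hW]
  have a6 : W.a₆ = 0 := by rw [hW]
  have z0 : (0 : κ) ^ q = 0 := zero_pow hq.ne_zero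
  have hw0 : w ≠ 0 := by
    rintro rfl
    rw [zero_pow two_ne_zero] at hw
    exact one_ne_zero (α := κ) (by linear_combination hw)
  obtain ⟨ι, hι⟩ : ∃ ι : W.toAffine.Point →+ W.toAffine.Point, ∀ x y h, ∃ h',
      ι (Affine.Point.some x y h) = Affine.Point.some (-x) (w * y) h' := by
    have hinv : w⁻¹ ^ 4 = 1 := by
      rw [inv_pow, show w ^ 4 = (w ^ 2) ^ 2 by ring, hw]
      norm_num
    -- the unit `u` with `u² = -1`, `u³ = w`
    have hu0 : -w ≠ 0 := neg_ne_zero.2 hw0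
    obtain ⟨ι, hι⟩ := exists_end W (⟨Units.mk0 (-w) hu0, 0, 0, 0⟩ : VariableChange κ) (by
      have hui : (-w)⁻¹ ^ 4 = 1 := by
        rw [inv_neg, neg_pow, hinv]
        norm_num
      refine WeierstrassCurve.ext ?_ ?_ ?_ ?_ ?_
      · rw [variableChange_a₁, a1]
        simp
      · rw [variableChange_a₂, a1, a2]
        simp
      · rw [variableChange_a₃, a1, a3]
        simp
      · rw [variableChange_a₄, a1, a2, a3]
        simp only [Units.val_inv_eq_inv_val, Units.val_mk0, hui]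
        ring
      · rw [variableChange_a₆, a1, a2, a3, a6]
        simp)
    refine ⟨ι, fun x y h => ?_⟩
    obtain ⟨h', e⟩ := hι x y h
    have ex : ((Units.mk0 (-w) hu0 : κˣ) : κ) ^ 2 * x + 0 = -x := by
      rw [Units.val_mk0]
      linear_combination x * hw
    have ey : ((Units.mk0 (-w) hu0 : κˣ) : κ) ^ 3 * y + ((Units.mk0 (-w) hu0 : κˣ) : κ) ^ 2 * 0 * x +
        0 = w * y := by
      rw [Units.val_mk0]
      linear_combination (-w * y) * hw
    refine ⟨by rw [← ex, ← ey]; exact h', ?_⟩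
    rw [e]
    simp only [Affine.Point.some.injEq]
    exact ⟨ex, ey⟩
  clear hW
  obtain ⟨φ, hφ⟩ := exists_frob hq W (by rw [a1, z0]) (by rw [a2, z0]) (by rw [a3, z0])
    (by rw [a4, hb]) (by rw [a6, z0])
  have := finite_point W
  obtain ⟨P, hP⟩ := exists_prime_addOrderOf_dvd_card' q hd
  have hφ4 : ∀ Q, φ (φ (φ (φ Q))) = Q := by
    rintro (_ | ⟨x, y, h⟩)
    · have e0 : φ (Affine.Point.zero : W.toAffine.Point) = Affine.Point.zero := map_zero φ
      rw [e0, e0, e0, e0]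
    · obtain ⟨h', e1⟩ := hφ x y h
      obtain ⟨h'', e2⟩ := hφ _ _ h'
      obtain ⟨h3, e3⟩ := hφ _ _ h''
      obtain ⟨h4, e4⟩ := hφ _ _ h3
      rw [e1, e2, e3, e4]
      have hx := hf x
      have hy := hf y
      have e5 : q ^ 4 = q * q * q * q := by ring
      rw [e5, pow_mul, pow_mul, pow_mul] at hx hy
      simp only [Affine.Point.some.injEq]
      exact ⟨hx, hy⟩
  have hι2 : ∀ Q, ι (ι Q) = -Q := by
    rintro (_ | ⟨x, y, h⟩)
    · have e0 : ι (Affine.Point.zero : W.toAffine.Point) = Affine.Point.zero := map_zero ι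
      rw [e0, e0]
      exact (neg_zero (G := W.toAffine.Point)).symm
    · obtain ⟨h', e1⟩ := hι x y h
      obtain ⟨h'', e2⟩ := hι _ _ h'
      rw [e1, e2, Affine.Point.neg_some]
      simp only [Affine.Point.some.injEq]
      refine ⟨neg_neg x, ?_⟩
      rw [Affine.negY, a1, a3]
      linear_combination y * hw
  have hφι : ∀ Q, φ (ι Q) = ι (φ Q) := by
    rintro (_ | ⟨x, y, h⟩)
    · have e0 : ι (Affine.Point.zero : W.toAffine.Point) = Affine.Point.zero := map_zero ι
      have e1 : φ (Affine.Point.zero : W.toAffine.Point) = Affine.Point.zero := map_zero φ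
      rw [e0, e1, e0]
    · obtain ⟨h', e1⟩ := hι x y h
      obtain ⟨h'', e2⟩ := hφ _ _ h'
      obtain ⟨h3, e3⟩ := hφ x y h
      obtain ⟨h4, e4⟩ := hι _ _ h3
      rw [e1, e2, e3, e4]
      simp only [Affine.Point.some.injEq]
      refine ⟨?_, ?_⟩
      · exact (hq.odd_of_ne_two (by omega)).neg_pow x
      · rw [mul_pow, hwq]
  -- the point of order two
  have hN0 : W.toAffine.Nonsingular 0 0 := by
    rw [Affine.nonsingular_iff', Affine.equation_iff, a1, a2, a3, a4, a6]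
    refine ⟨by ring, Or.inl fun h => hb0 ?_⟩
    linear_combination -h
  have hneg : -(Affine.Point.some 0 0 hN0 : W.toAffine.Point) = Affine.Point.some 0 0 hN0 := by
    rw [Affine.Point.neg_some]
    simp only [Affine.Point.some.injEq, true_and]
    rw [Affine.negY, a1, a3]
    ring
  have htwo : 2 • (Affine.Point.some 0 0 hN0 : W.toAffine.Point) = 0 := by
    rw [two_nsmul]
    nth_rewrite 1 [← hneg]
    exact neg_add_cancel _
  have hfix : φ (Affine.Point.some 0 0 hN0) = Affine.Point.some 0 0 hN0 := by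
    obtain ⟨h', e1⟩ := hφ 0 0 hN0
    rw [e1]
    simp only [Affine.Point.some.injEq]
    exact ⟨z0, z0⟩
  have hfixι : ι (Affine.Point.some 0 0 hN0) = Affine.Point.some 0 0 hN0 := by
    obtain ⟨h', e1⟩ := hι 0 0 hN0
    rw [e1]
    simp only [Affine.Point.some.injEq]
    exact ⟨neg_zero, mul_zero w⟩
  have hord : ∀ {Q : W.toAffine.Point}, q • Q = 0 → Q ≠ 0 → addOrderOf Q = q :=
    fun h0 h1 => addOrderOf_eq_prime h0 h1
  have hqP : q • P = 0 := by rw [← hP]; exact addOrderOf_nsmul_eq_zero P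
  have hqφ : ∀ {Q : W.toAffine.Point}, q • Q = 0 → q • φ Q = 0 := fun h => by
    rw [← map_nsmul, h, map_zero]
  have hqι : ∀ {Q : W.toAffine.Point}, q • Q = 0 → q • ι Q = 0 := fun h => by
    rw [← map_nsmul, h, map_zero]
  -- the four cases
  have main : ∀ (ψ : W.toAffine.Point →+ W.toAffine.Point) (κ₀ ε : κ), κ₀ ^ 2 = 1 →
      (∀ x y h, ∃ h', ψ (Affine.Point.some x y h) = Affine.Point.some (κ₀ * x) (ε * y) h') →
      ψ (Affine.Point.some 0 0 hN0) = Affine.Point.some 0 0 hN0 →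
      ∀ Q : W.toAffine.Point, q • Q = 0 → Q ≠ 0 → φ Q = ψ Q → False := by
    intro ψ κ₀ ε hκ hψ hψT Q hQ hQ0 hφQ
    exact no_point_i a1 a2 a3 a6 (by rw [a4]; exact hb0) hq h7 hφ hκ hψ
      (Affine.Point.some_ne_zero hN0) htwo (by rw [hfix, hψT]) (hord hQ hQ0) hφQ
  have m1 := main (AddMonoidHom.id _) 1 1 (one_pow 2) (fun x y h => ⟨by
    rw [one_mul, one_mul]; exact h, by
    rw [AddMonoidHom.id_apply]
    simp only [one_mul]⟩) rfl
  have hnegpt : ∀ x y (h : W.toAffine.Nonsingular x y), ∃ h',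
      -(Affine.Point.some x y h : W.toAffine.Point) = Affine.Point.some x (-y) h' := by
    intro x y h
    have e2 : W.toAffine.negY x y = -y := by
      rw [Affine.negY, a1, a3]
      ring
    refine ⟨by rw [← e2]; exact (Affine.nonsingular_neg _ _).2 h, ?_⟩
    rw [Affine.Point.neg_some]
    simp only [Affine.Point.some.injEq, true_and]
    exact e2
  have m2 := main (-(AddMonoidHom.id _)) 1 (-1) (one_pow 2) (fun x y h => by
    obtain ⟨h', e⟩ := hnegpt x y h
    refine ⟨by rw [one_mul, neg_one_mul]; exact h', ?_⟩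
    rw [AddMonoidHom.neg_apply, AddMonoidHom.id_apply, e]
    simp only [one_mul, neg_one_mul]) (by
    rw [AddMonoidHom.neg_apply, AddMonoidHom.id_apply, hneg])
  have m3 := main ι (-1) w (by norm_num) (fun x y h => by
    obtain ⟨h', e⟩ := hι x y h
    refine ⟨by rw [neg_one_mul]; exact h', ?_⟩
    rw [e]
    simp only [neg_one_mul]) hfixι
  have m4 := main (-ι) (-1) (-w) (by norm_num) (fun x y h => by
    obtain ⟨h', e⟩ := hι x y h
    obtain ⟨h'', e'⟩ := hnegpt _ _ h'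
    refine ⟨by rw [neg_one_mul, neg_mul]; exact h'', ?_⟩
    rw [AddMonoidHom.neg_apply, e, e']
    simp only [Affine.Point.some.injEq, neg_mul, one_mul, and_self]) (by
    rw [AddMonoidHom.neg_apply, hfixι, hneg])
  by_cases h1 : P + φ P + φ (φ P) + φ (φ (φ P)) = 0
  · by_cases h2 : P - φ P + φ (φ P) - φ (φ (φ P)) = 0
    · -- `φ² P = - P`
      have h20 : ∀ Q : W.toAffine.Point, q • Q = 0 → 2 • Q = 0 → Q = 0 := by
        intro Q hQ hQ2
        have hc : Nat.Coprime 2 q := (Nat.coprime_primes Nat.prime_two hq).2 (by omega)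
        have e := addOrderOf_dvd_of_nsmul_eq_zero hQ
        have e' := addOrderOf_dvd_of_nsmul_eq_zero hQ2
        have e3 := Nat.dvd_gcd e' e
        rw [hc] at e3
        exact AddMonoid.addOrderOf_eq_one_iff.1 (Nat.dvd_one.1 e3)
      have h3 : P + φ (φ P) = 0 := by
        refine h20 _ (by rw [smul_add, hqP, hqφ (hqφ hqP), add_zero]) ?_
        have e : 2 • (P + φ (φ P)) = (P + φ P + φ (φ P) + φ (φ (φ P))) +
            (P - φ P + φ (φ P) - φ (φ (φ P))) := by
          rw [two_nsmul]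
          abel
        rw [e, h1, h2, add_zero]
      have h4 : φ (φ P) = -P := eq_neg_of_add_eq_zero_right h3
      by_cases h5 : φ P + ι P = 0
      · exact m4 P hqP (by
          intro h0
          rw [h0, addOrderOf_zero] at hP
          omega) (by rw [AddMonoidHom.neg_apply]; exact eq_neg_of_add_eq_zero_left h5)
      · refine m3 (φ P + ι P) (by rw [smul_add, hqφ hqP, hqι hqP, add_zero]) h5 ?_
        rw [map_add, map_add, h4, hφι, hι2, add_comm]
    · refine m2 _ (by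
        rw [smul_sub, smul_add, smul_sub, hqP, hqφ hqP, hqφ (hqφ hqP), hqφ (hqφ (hqφ hqP))]
        abel) h2 ?_
      rw [AddMonoidHom.neg_apply, AddMonoidHom.id_apply, map_sub, map_add, map_sub, hφ4]
      abel
  · refine m1 _ (by
      rw [smul_add, smul_add, smul_add, hqP, hqφ hqP, hqφ (hqφ hqP), hqφ (hqφ (hqφ hqP))]
      abel) h1 ?_
    rw [AddMonoidHom.id_apply, map_add, map_add, map_add, hφ4]
    abel

end

end Pool.Agent.Lib.MP_1a91b9_ntJ
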