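import Pool.Agent.Lib.MP_1a91b9_ntJ.AnomF

/-!
# The residue fields of a Kummer extension above a prime of degree one

`K` is a number field, `F` is generated over `K` by roots of order `l` of elements of `K`, `v` is a prime of
`F` such that the prime of `K` below has the prime norm `q`. Then the residue field of `F` is contained in the
field with `q ^ l` elements, and the elements of `K` are in the field with `q` elements.
-/

set_option autoImplicit false

namespace Pool.Agent.Lib.MP_1a91b9_ntJ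

open NumberField IsDedekindDomain Pool.Agent.Lib.MP_1a91b9_nt
open Pool.Agent.Lib.MP_1a91b9_ntT.CF (exists_over exists_fr IsFr)

section
variable {K : Type} [Field K] [NumberField K]

/-- the norm of the prime of `K` below `v` is `q` -/
def Deg1 (K : Type) [Field K] [NumberField K] {F : Type} [Field F] [NumberField F] [Algebra K F]
    (q : ℕ) (v : HeightOneSpectrum (𝓞 F)) : Prop :=
  Ideal.absNorm (v.asIdeal.comap (algebraMap (𝓞 K) (𝓞 F))) = q

variable {F : Type} [Field F] [NumberField F] [Algebra K F] {q : ℕ} {v : HeightOneSpectrum (𝓞 F)}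

theorem Deg1.nrm (h : Deg1 K q v) : nrm (v.under (𝓞 K)) = q := by
  rw [nrm_eq]
  exact h

theorem Deg1.mem (h : Deg1 K q v) : (q : 𝓞 F) ∈ v.asIdeal := by
  have h1 := Ideal.absNorm_mem (v.asIdeal.comap (algebraMap (𝓞 K) (𝓞 F)))
  have h2 : Ideal.absNorm (v.asIdeal.comap (algebraMap (𝓞 K) (𝓞 F))) = q := h
  rw [h2, Ideal.mem_comap, map_natCast] at h1
  exact h1

/-- the elements of `K` modulo `v` -/
theorem Deg1.fix (h : Deg1 K q v) (a : 𝓞 K) :
    Ideal.Quotient.mk v.asIdeal (algebraMap (𝓞 K) (𝓞 F) a) ^ q =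
      Ideal.Quotient.mk v.asIdeal (algebraMap (𝓞 K) (𝓞 F) a) := by
  classical
  obtain ⟨u, hu⟩ : ∃ u, u = v.under (𝓞 K) := ⟨_, rfl⟩
  have hmem : ∀ b : 𝓞 K, b ∈ u.asIdeal ↔ algebraMap (𝓞 K) (𝓞 F) b ∈ v.asIdeal := by
    intro b
    rw [hu]
    exact Iff.rfl
  have hn := h.nrm
  rw [← hu, nrm_eq] at hn
  have hmax : u.asIdeal.IsMaximal := u.isMaximal
  let _ : Field (𝓞 K ⧸ u.asIdeal) := Ideal.Quotient.field u.asIdeal
  have hfin : Finite (𝓞 K ⧸ u.asIdeal) := Ideal.finiteQuotientOfFreeOfNeBot _ u.ne_bot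
  let _ : Fintype (𝓞 K ⧸ u.asIdeal) := Fintype.ofFinite _
  have hcard : Fintype.card (𝓞 K ⧸ u.asIdeal) = q := by
    rw [← hn, ← Nat.card_eq_fintype_card]
    rfl
  have h1 := FiniteField.pow_card (Ideal.Quotient.mk u.asIdeal a)
  rw [hcard, ← map_pow, Ideal.Quotient.eq, hmem, map_sub, map_pow, ← Ideal.Quotient.eq] at h1
  rw [← map_pow]
  exact h1

/-- a square in `K` is a square modulo `q` -/
theorem Deg1.sq (h : Deg1 K q v) (hq : q.Prime) {D : ℤ} {s : K} (hs : s ^ 2 = ((D : ℤ) : K)) :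
    IsSquare ((D : ℤ) : ZMod q) := by
  classical
  have hfact : Fact q.Prime := ⟨hq⟩
  obtain ⟨u, hu⟩ : ∃ u, u = v.under (𝓞 K) := ⟨_, rfl⟩
  have hn := h.nrm
  rw [← hu, nrm_eq] at hn
  have hmax : u.asIdeal.IsMaximal := u.isMaximal
  let _ : Field (𝓞 K ⧸ u.asIdeal) := Ideal.Quotient.field u.asIdeal
  have hfin : Finite (𝓞 K ⧸ u.asIdeal) := Ideal.finiteQuotientOfFreeOfNeBot _ u.ne_bot
  let _ : Fintype (𝓞 K ⧸ u.asIdeal) := Fintype.ofFinite _
  have hcard : Fintype.card (𝓞 K ⧸ u.asIdeal) = q := by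
    rw [← hn, ← Nat.card_eq_fintype_card]
    rfl
  have hint : IsIntegral ℤ s := by
    refine IsIntegral.of_pow two_pos ?_
    rw [hs]
    exact isIntegral_algebraMap (R := ℤ) (x := D)
  obtain ⟨s', hs'⟩ : ∃ s' : 𝓞 K, (s' : K) = s := ⟨⟨s, hint⟩, rfl⟩
  have hs2 : s' ^ 2 = ((D : ℤ) : 𝓞 K) := by
    apply RingOfIntegers.ext
    rw [← hs'] at hs
    push_cast
    exact hs
  have hchar : CharP (𝓞 K ⧸ u.asIdeal) q := by
    have h0 : ((q : ℕ) : 𝓞 K ⧸ u.asIdeal) = 0 := by
      have h1 : ((q : ℕ) : 𝓞 K) ∈ u.asIdeal := by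
        have h2 := Ideal.absNorm_mem u.asIdeal
        rwa [hn] at h2
      have h2 := Ideal.Quotient.eq_zero_iff_mem.2 h1
      rwa [map_natCast] at h2
    exact (CharP.charP_iff_prime_eq_zero hq).2 h0
  obtain ⟨e⟩ : Nonempty (ZMod q ≃+* 𝓞 K ⧸ u.asIdeal) := ⟨ZMod.ringEquiv _ hcard⟩
  refine ⟨e.symm (Ideal.Quotient.mk u.asIdeal s'), e.injective ?_⟩
  rw [map_mul, RingEquiv.apply_symm_apply, ← map_mul, ← pow_two, hs2, map_intCast, map_intCast]

/-- **The residue fields above `q`.** -/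
theorem Deg1.frob (h : Deg1 K q v) {l : ℕ} [NeZero l] {ω : K} (hω : IsPrimitiveRoot ω l)
    (hF : IntermediateField.adjoin K {x : F | ∃ c : K, x ^ l = algebraMap K F c} = ⊤)
    (x : 𝓞 F ⧸ v.asIdeal) : x ^ q ^ l = x := by
  have hnormal := normal_of_roots hω hF
  have hgal : IsGalois K F := { }
  obtain ⟨φ, hφ⟩ := exists_fr (k := K) v
  have hω1 : (algebraMap K F ω) ^ l = 1 := by
    rw [← map_pow, hω.pow_eq_one, map_one]
  have hfix : φ ^ l = 1 := by
    have h1 : ∀ x ∈ {x : F | ∃ c : K, x ^ l = algebraMap K F c}, (φ ^ l) x = x := by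
      rintro x ⟨c, hc⟩
      by_cases hx : x = 0
      · rw [hx, map_zero]
      -- the quotient of `φ x` and `x` is a root of unity
      obtain ⟨i, hi⟩ : ∃ i : ℕ, φ x =
          algebraMap K F (ω ^ i) * x := by
        have h2 : (φ x / x) ^ l = 1 := by
          rw [div_pow, ← map_pow, hc, AlgEquiv.commutes, div_self]
          rw [← hc]
          exact pow_ne_zero _ hx
        obtain ⟨i, -, hi⟩ := (hω.map_of_injective (algebraMap K F).injective).eq_pow_of_pow_eq_one h2
        refine ⟨i, ?_⟩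
        rw [map_pow, hi, div_mul_cancel₀ _ hx]
      have h3 : ∀ n : ℕ, (φ ^ n) x =
          algebraMap K F (ω ^ i) ^ n * x := by
        intro n
        induction n with
        | zero => simp
        | succ n ih =>
          rw [pow_succ' φ, AlgEquiv.mul_apply, ih, map_mul, map_pow, AlgEquiv.commutes, hi,
            pow_succ, mul_assoc]
      rw [h3, ← map_pow, ← pow_mul, mul_comm i l, pow_mul, hω.pow_eq_one, one_pow, map_one,
        one_mul]
    have h2 : IntermediateField.adjoin K {x : F | ∃ c : K, x ^ l = algebraMap K F c} ≤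
        IntermediateField.fixedField (Subgroup.zpowers (φ ^ l)) := by
      rw [IntermediateField.adjoin_le_iff]
      intro x hx
      rw [SetLike.mem_coe, IntermediateField.mem_fixedField_iff]
      intro g hg
      obtain ⟨j, rfl⟩ := Subgroup.mem_zpowers_iff.1 hg
      have h3 : φ ^ l ∈ MulAction.stabilizer Gal(F/K) x := h1 x hx
      exact Subgroup.zpow_mem _ h3 j
    apply AlgEquiv.ext
    intro x
    have h3 : x ∈ IntermediateField.fixedField (Subgroup.zpowers (φ ^ l)) := by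
      apply h2
      rw [hF]
      exact IntermediateField.mem_top
    rw [IntermediateField.mem_fixedField_iff] at h3
    exact h3 _ (Subgroup.mem_zpowers _)
  obtain ⟨y, rfl⟩ := Ideal.Quotient.mk_surjective x
  have key : ∀ n : ℕ, (φ ^ n) • y - y ^ q ^ n ∈ v.asIdeal := by
    intro n
    induction n with
    | zero => simp
    | succ n ih =>
      have h2 := hφ ((φ ^ n) • y)
      rw [h.nrm] at h2
      rw [pow_succ' φ, mul_smul]
      have h3 : ((φ ^ n) • y) ^ q - (y ^ q ^ n) ^ q ∈ v.asIdeal :=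
        v.asIdeal.mem_of_dvd (sub_dvd_pow_sub_pow _ _ q) ih
      rw [← pow_mul, ← pow_succ] at h3
      have h4 := Ideal.add_mem _ h2 h3
      rwa [sub_add_sub_cancel] at h4
  have h1 := key l
  rw [hfix, one_smul] at h1
  rw [← map_pow, eq_comm, Ideal.Quotient.eq]
  exact h1

end

end Pool.Agent.Lib.MP_1a91b9_ntJ
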