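import Pool.Agent.Lib.MP_1a91b9_ntJ.AnomG
import Pool.Agent.Lib.MP_1a91b9_ntJ.FrobQ

/-!
# The primes of degree one of `K` are not anomalous in the extensions of exponent two

The curve is `y² = x³ + a x² + b x`, `a`, `b` in `K`.
-/

set_option autoImplicit false

namespace Pool.Agent.Lib.MP_1a91b9_ntJ

open NumberField IsDedekindDomain WeierstrassCurve

/-- the short form of `y² = x³ + a x² + b x` -/
theorem short_iso {κ : Type*} [Field κ] (h3 : (3 : κ) ≠ 0) (a b : κ) :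
    ∃ C : VariableChange κ, C • (⟨0, a, 0, b, 0⟩ : WeierstrassCurve κ) =
      ⟨0, 0, 0, 81 * b - 27 * a ^ 2, 54 * a ^ 3 - 243 * a * b⟩ := by
  refine ⟨⟨(Units.mk0 (3 : κ) h3)⁻¹, -a / 3, 0, 0⟩, ?_⟩
  refine WeierstrassCurve.ext ?_ ?_ ?_ ?_ ?_
  · rw [variableChange_a₁]
    simp
  · rw [variableChange_a₂]
    simp only [inv_inv, Units.val_mk0]
    field_simp
    ring
  · rw [variableChange_a₃]
    simp
  · rw [variableChange_a₄]
    simp only [inv_inv, Units.val_mk0]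
    field_simp
    ring
  · rw [variableChange_a₆]
    simp only [inv_inv, Units.val_mk0]
    field_simp
    ring

/-- **No anomaly.** -/
theorem no_anom_k {K F : Type} [Field K] [NumberField K] [Field F] [NumberField F] [Algebra K F]
    (hF : IntermediateField.adjoin K {x : F | ∃ c : K, x ^ 2 = algebraMap K F c} = ⊤)
    {q : ℕ} (hq : q.Prime) (h7 : 7 ≤ q) {v : HeightOneSpectrum (𝓞 F)} (h : Deg1 K q v)
    {a b : 𝓞 K} {α β : 𝓞 F}
    (hα : α = 81 * algebraMap (𝓞 K) (𝓞 F) b - 27 * algebraMap (𝓞 K) (𝓞 F) a ^ 2)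
    (hβ : β = 54 * algebraMap (𝓞 K) (𝓞 F) a ^ 3 -
      243 * algebraMap (𝓞 K) (𝓞 F) a * algebraMap (𝓞 K) (𝓞 F) b)
    (hb : algebraMap (𝓞 K) (𝓞 F) b ∉ v.asIdeal) :
    ¬ q ∣ Nat.card (⟨0, 0, 0, Ideal.Quotient.mk v.asIdeal α,
      Ideal.Quotient.mk v.asIdeal β⟩ :
        WeierstrassCurve (𝓞 F ⧸ v.asIdeal)).toAffine.Point := by
  classical
  have hmax : v.asIdeal.IsMaximal := v.isMaximal
  let _ : Field (𝓞 F ⧸ v.asIdeal) := Ideal.Quotient.field v.asIdeal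
  have hfin : Finite (𝓞 F ⧸ v.asIdeal) := Ideal.finiteQuotientOfFreeOfNeBot _ v.ne_bot
  have hchar : CharP (𝓞 F ⧸ v.asIdeal) q := by
    have h0 : ((q : ℕ) : 𝓞 F ⧸ v.asIdeal) = 0 := by
      have h1 := Ideal.Quotient.eq_zero_iff_mem.2 h.mem
      rwa [map_natCast] at h1
    exact (CharP.charP_iff_prime_eq_zero hq).2 h0
  have h3 : (3 : 𝓞 F ⧸ v.asIdeal) ≠ 0 := by
    intro h3
    have h8 : ((3 : ℕ) : 𝓞 F ⧸ v.asIdeal) = 0 := by exact_mod_cast h3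
    rw [CharP.cast_eq_zero_iff _ q] at h8
    have := Nat.le_of_dvd (by omega) h8
    omega
  have hω : IsPrimitiveRoot (-1 : K) 2 := IsPrimitiveRoot.neg_one 0 (by norm_num)
  have hb0 : Ideal.Quotient.mk v.asIdeal (algebraMap (𝓞 K) (𝓞 F) b) ≠ 0 := by
    rw [Ne, Ideal.Quotient.eq_zero_iff_mem]
    exact hb
  have key := anom_one hq h7 (h.frob hω hF) (h.fix a) (h.fix b) hb0
  obtain ⟨C, hC⟩ := short_iso h3 (Ideal.Quotient.mk v.asIdeal (algebraMap (𝓞 K) (𝓞 F) a))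
    (Ideal.Quotient.mk v.asIdeal (algebraMap (𝓞 K) (𝓞 F) b))
  obtain ⟨e, -⟩ := Pool.Agent.Lib.MP_1a91b9_nt.exists_point_equiv
    (⟨0, Ideal.Quotient.mk v.asIdeal (algebraMap (𝓞 K) (𝓞 F) a), 0,
      Ideal.Quotient.mk v.asIdeal (algebraMap (𝓞 K) (𝓞 F) b), 0⟩ :
        WeierstrassCurve (𝓞 F ⧸ v.asIdeal)) C
  rw [hC] at e
  have ea : Ideal.Quotient.mk v.asIdeal α =
      81 * Ideal.Quotient.mk v.asIdeal (algebraMap (𝓞 K) (𝓞 F) b) -
        27 * Ideal.Quotient.mk v.asIdeal (algebraMap (𝓞 K) (𝓞 F) a) ^ 2 := by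
    rw [hα, map_sub, map_mul, map_mul, map_pow, map_ofNat, map_ofNat]
  have eb : Ideal.Quotient.mk v.asIdeal β =
      54 * Ideal.Quotient.mk v.asIdeal (algebraMap (𝓞 K) (𝓞 F) a) ^ 3 -
        243 * Ideal.Quotient.mk v.asIdeal (algebraMap (𝓞 K) (𝓞 F) a) *
          Ideal.Quotient.mk v.asIdeal (algebraMap (𝓞 K) (𝓞 F) b) := by
    rw [hβ, map_sub, map_mul, map_mul, map_mul, map_pow, map_ofNat, map_ofNat]
  rw [ea, eb]
  rw [Nat.card_congr e.toEquiv]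
  exact key

end Pool.Agent.Lib.MP_1a91b9_ntJ
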