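import Pool.Agent.Lib.MP_1a91b9_ntJ.AnomI
import Pool.Agent.Lib.MP_1a91b9_ntJ.AnomK
import Pool.Agent.Lib.MP_1a91b9_nuI.CntO2

/-!
# The primes of degree one of `ℚ(i)` are not anomalous in the extensions of exponent four

The curves are `y² = x³ + b x` and `y² = x³ + 6 e x² + e² x`.
-/

set_option autoImplicit false

namespace Pool.Agent.Lib.MP_1a91b9_ntJ

open NumberField IsDedekindDomain WeierstrassCurve
open Pool.Agent.Lib.MP_1a91b9_nuI (E2 card_E2)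

/-- the numbers of points -/
theorem card_isg {κ : Type*} [Field κ] [Finite κ] (h2 : (2 : κ) ≠ 0) {e : κ} (he : e ≠ 0) :
    Nat.card (⟨0, 6 * e, 0, e ^ 2, 0⟩ : WeierstrassCurve κ).toAffine.Point =
      Nat.card (⟨0, 0, 0, -e ^ 2, 0⟩ : WeierstrassCurve κ).toAffine.Point := by
  classical
  have h1 := card_E2 h2 (-3 * e) (2 * e ^ 2) (mul_ne_zero h2 (pow_ne_zero 2 he)) (by
    have e1 : (-3 * e) ^ 2 - 4 * (2 * e ^ 2) = e ^ 2 := by ring
    rw [e1]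
    exact pow_ne_zero 2 he)
  have e1 : E2 (-2 * (-3 * e)) ((-3 * e) ^ 2 - 4 * (2 * e ^ 2)) =
      (⟨0, 6 * e, 0, e ^ 2, 0⟩ : WeierstrassCurve κ) := by
    refine WeierstrassCurve.ext rfl ?_ rfl ?_ rfl
    · show -2 * (-3 * e) = 6 * e
      ring
    · show (-3 * e) ^ 2 - 4 * (2 * e ^ 2) = e ^ 2
      ring
  rw [e1] at h1
  rw [h1]
  obtain ⟨f, -⟩ := Pool.Agent.Lib.MP_1a91b9_nt.exists_point_equiv (E2 (-3 * e) (2 * e ^ 2))
    (⟨1, e, 0, 0⟩ : VariableChange κ)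
  have e2 : (⟨1, e, 0, 0⟩ : VariableChange κ) • E2 (-3 * e) (2 * e ^ 2) =
      (⟨0, 0, 0, -e ^ 2, 0⟩ : WeierstrassCurve κ) := by
    refine WeierstrassCurve.ext ?_ ?_ ?_ ?_ ?_
    · rw [variableChange_a₁]
      simp [E2]
    · rw [variableChange_a₂]
      simp only [E2, inv_one, Units.val_one]
      ring
    · rw [variableChange_a₃]
      simp [E2]
    · rw [variableChange_a₄]
      simp only [E2, inv_one, Units.val_one]
      ring
    · rw [variableChange_a₆]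
      simp only [E2, inv_one, Units.val_one]
      ring
  rw [e2] at f
  exact (Nat.card_congr f.toEquiv).symm

/-- **No anomaly.** -/
theorem no_anom_k4 {K F : Type} [Field K] [NumberField K] [Field F] [NumberField F] [Algebra K F]
    {i₀ : K} (hi : i₀ ^ 2 = -1)
    (hF : IntermediateField.adjoin K {x : F | ∃ c : K, x ^ 4 = algebraMap K F c} = ⊤)
    {q : ℕ} (hq : q.Prime) (h7 : 7 ≤ q) {v : HeightOneSpectrum (𝓞 F)} (h : Deg1 K q v)
    {a b : 𝓞 K} {α β : 𝓞 F}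
    (hα : α = 81 * algebraMap (𝓞 K) (𝓞 F) b - 27 * algebraMap (𝓞 K) (𝓞 F) a ^ 2)
    (hβ : β = 54 * algebraMap (𝓞 K) (𝓞 F) a ^ 3 -
      243 * algebraMap (𝓞 K) (𝓞 F) a * algebraMap (𝓞 K) (𝓞 F) b)
    (hb : algebraMap (𝓞 K) (𝓞 F) b ∉ v.asIdeal)
    (hab : a = 0 ∨ ∃ e : 𝓞 K, a = 6 * e ∧ b = e ^ 2) :
    ¬ q ∣ Nat.card (⟨0, 0, 0, Ideal.Quotient.mk v.asIdeal α,
      Ideal.Quotient.mk v.asIdeal β⟩ :
        WeierstrassCurve (𝓞 F ⧸ v.asIdeal)).toAffine.Point := by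
  classical
  have hmax : v.asIdeal.IsMaximal := v.isMaximal
  let _ : Field (𝓞 F ⧸ v.asIdeal) := Ideal.Quotient.field v.asIdeal
  have hfin : Finite (𝓞 F ⧸ v.asIdeal) := Ideal.finiteQuotientOfFreeOfNeBot _ v.ne_bot
  have hchar : CharP (𝓞 F ⧸ v.asIdeal) q := by
    have h0 : ((q : ℕ) : 𝓞 F ⧸ v.asIdeal) = 0 := by
      have h1 := Ideal.Quotient.eq_zero_iff_mem.2 h.mem
      rwa [map_natCast] at h1
    exact (CharP.charP_iff_prime_eq_zero hq).2 h0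
  have h3 : (3 : 𝓞 F ⧸ v.asIdeal) ≠ 0 := by
    intro h3
    have h8 : ((3 : ℕ) : 𝓞 F ⧸ v.asIdeal) = 0 := by exact_mod_cast h3
    rw [CharP.cast_eq_zero_iff _ q] at h8
    have := Nat.le_of_dvd (by omega) h8
    omega
  have h2 : (2 : 𝓞 F ⧸ v.asIdeal) ≠ 0 := by
    intro h3
    have h8 : ((2 : ℕ) : 𝓞 F ⧸ v.asIdeal) = 0 := by exact_mod_cast h3
    rw [CharP.cast_eq_zero_iff _ q] at h8
    have := Nat.le_of_dvd (by omega) h8
    omega
  have hω : IsPrimitiveRoot i₀ 4 := by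
    have h1 : i₀ ^ 4 = 1 := by linear_combination (i₀ ^ 2 - 1) * hi
    refine IsPrimitiveRoot.mk_of_lt i₀ (by norm_num) h1 fun l hl0 hl4 hl => ?_
    interval_cases l
    · rw [pow_one] at hl
      rw [hl] at hi
      norm_num at hi
    · rw [hi] at hl
      norm_num at hl
    · have h2 : i₀ ^ 3 = -i₀ := by linear_combination i₀ * hi
      rw [h2] at hl
      have h3 : i₀ = -1 := by linear_combination -hl
      rw [h3] at hi
      norm_num at hi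
  obtain ⟨i', hi'⟩ : ∃ i' : 𝓞 K, i' ^ 2 = -1 := by
    have hint : IsIntegral ℤ i₀ := by
      refine IsIntegral.of_pow two_pos ?_
      rw [hi]
      exact isIntegral_one.neg
    refine ⟨⟨i₀, hint⟩, RingOfIntegers.ext ?_⟩
    exact hi
  have hb0 : Ideal.Quotient.mk v.asIdeal (algebraMap (𝓞 K) (𝓞 F) b) ≠ 0 := by
    rw [Ne, Ideal.Quotient.eq_zero_iff_mem]
    exact hb
  obtain ⟨w, hw⟩ : ∃ w, w = Ideal.Quotient.mk v.asIdeal (algebraMap (𝓞 K) (𝓞 F) i') := ⟨_, rfl⟩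
  have hw2 : w ^ 2 = -1 := by
    rw [hw, ← map_pow, ← map_pow, hi', map_neg, map_neg, map_one, map_one]
  have hwq : w ^ q = w := by
    rw [hw]
    exact h.fix i'
  have hf := h.frob hω hF
  have key : ¬ q ∣ Nat.card (⟨0, Ideal.Quotient.mk v.asIdeal (algebraMap (𝓞 K) (𝓞 F) a), 0,
      Ideal.Quotient.mk v.asIdeal (algebraMap (𝓞 K) (𝓞 F) b), 0⟩ :
        WeierstrassCurve (𝓞 F ⧸ v.asIdeal)).toAffine.Point := by
    rcases hab with rfl | ⟨e, rfl, rfl⟩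
    · rw [map_zero, map_zero]
      exact anom_i hq h7 hf hw2 hwq (h.fix b) hb0
    · have he0 : Ideal.Quotient.mk v.asIdeal (algebraMap (𝓞 K) (𝓞 F) e) ≠ 0 := by
        intro h0
        apply hb0
        rw [map_pow, map_pow, h0, zero_pow two_ne_zero]
      have ea : Ideal.Quotient.mk v.asIdeal (algebraMap (𝓞 K) (𝓞 F) (6 * e)) =
          6 * Ideal.Quotient.mk v.asIdeal (algebraMap (𝓞 K) (𝓞 F) e) := by
        rw [map_mul, map_mul, map_ofNat, map_ofNat]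
      have eb : Ideal.Quotient.mk v.asIdeal (algebraMap (𝓞 K) (𝓞 F) (e ^ 2)) =
          Ideal.Quotient.mk v.asIdeal (algebraMap (𝓞 K) (𝓞 F) e) ^ 2 := by
        rw [map_pow, map_pow]
      rw [ea, eb, card_isg h2 he0]
      refine anom_i hq h7 hf hw2 hwq ?_ (neg_ne_zero.2 (pow_ne_zero 2 he0))
      rw [(hq.odd_of_ne_two (by omega)).neg_pow, ← pow_mul, mul_comm 2 q, pow_mul, h.fix e]
  obtain ⟨C, hC⟩ := short_iso h3 (Ideal.Quotient.mk v.asIdeal (algebraMap (𝓞 K) (𝓞 F) a))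
    (Ideal.Quotient.mk v.asIdeal (algebraMap (𝓞 K) (𝓞 F) b))
  obtain ⟨e, -⟩ := Pool.Agent.Lib.MP_1a91b9_nt.exists_point_equiv
    (⟨0, Ideal.Quotient.mk v.asIdeal (algebraMap (𝓞 K) (𝓞 F) a), 0,
      Ideal.Quotient.mk v.asIdeal (algebraMap (𝓞 K) (𝓞 F) b), 0⟩ :
        WeierstrassCurve (𝓞 F ⧸ v.asIdeal)) C
  rw [hC] at e
  have ea : Ideal.Quotient.mk v.asIdeal α =
      81 * Ideal.Quotient.mk v.asIdeal (algebraMap (𝓞 K) (𝓞 F) b) -
        27 * Ideal.Quotient.mk v.asIdeal (algebraMap (𝓞 K) (𝓞 F) a) ^ 2 := by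
    rw [hα, map_sub, map_mul, map_mul, map_pow, map_ofNat, map_ofNat]
  have eb : Ideal.Quotient.mk v.asIdeal β =
      54 * Ideal.Quotient.mk v.asIdeal (algebraMap (𝓞 K) (𝓞 F) a) ^ 3 -
        243 * Ideal.Quotient.mk v.asIdeal (algebraMap (𝓞 K) (𝓞 F) a) *
          Ideal.Quotient.mk v.asIdeal (algebraMap (𝓞 K) (𝓞 F) b) := by
    rw [hβ, map_sub, map_mul, map_mul, map_mul, map_pow, map_ofNat, map_ofNat]
  rw [ea, eb, Nat.card_congr e.toEquiv]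
  exact key

end Pool.Agent.Lib.MP_1a91b9_ntJ
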