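import Pool.Agent.Lib.MP_1a91b9_ntJ.Ext3
import Pool.Agent.Lib.MP_1a91b9_ntJ.AnomK
import Pool.Agent.Lib.MP_1a91b9_ntJ.AnomK4
import Pool.Agent.Lib.MP_1a91b9_nuZ.TopS

/-!
# The towers over a Kummer extension of an imaginary quadratic field, for any curve `y² = x³ + a x² + b x` over
# the field with complex multiplication
-/

set_option autoImplicit false

namespace Pool.Agent.Lib.MP_1a91b9_ntJ

open NumberField IsDedekindDomain WeierstrassCurve Module
open Pool.Agent.Lib.MP_1a91b9_nuI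
open Pool.Agent.Lib.MP_1a91b9_nuZ (topTS1 topTS2)

/-- **The towers**, in terms of the torsion point. -/
theorem tow_gen (K F : Type) [Field K] [NumberField K] [Field F] [NumberField F]
    [Algebra K F] (hK : finrank ℚ K = 2) {J d A B : ℤ} (hJd : (J, d) ∈ thirteen)
    (hd : ∃ w : K, w ^ 2 = ((d : ℤ) : K)) (hAB : 4 * A ^ 3 + 27 * B ^ 2 ≠ 0)
    (hj : 6912 * A ^ 3 = J * (4 * A ^ 3 + 27 * B ^ 2)) {l : ℕ} {c : 𝓞 K}
    (hE : InTor K F A B l c) {α β : 𝓞 F} (h0 : 4 * α ^ 3 + 27 * β ^ 2 ≠ 0)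
    (hs : ∀ (L : Type) [Field L] [NumberField L] [Algebra K L] [Algebra F L]
      [IsScalarTower K F L] (s : L), s ^ l = algebraMap K L (c : K) →
      ∃ C : VariableChange L, C • (⟨0, 0, 0, algebraMap F L (α : F), algebraMap F L (β : F)⟩ :
        WeierstrassCurve L) = ⟨0, 0, 0, ((A : ℤ) : L), ((B : ℤ) : L)⟩)
    (hg : Lne (⟨0, 0, 0, (α : F), (β : F)⟩ : WeierstrassCurve F)) :
    ∃ S : Finset ℕ, ∀ ℓ : ℕ, ℓ.Prime → ℓ ∉ S →
      TowB ℓ ∅ d α β (fun N _ _ W => Con1 N W ∧ Con2' ℓ N W) := by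
  classical
  obtain ⟨L, i1, i2, i3, i4, i5, i6, x, y, hxy, m, s, hm, h1, h2, h3⟩ := hE
  obtain ⟨C, hC⟩ := hs L s h3
  have hN : IntermediateField.adjoin F (Set.range (algebraMap K F)) = ⊤ := by
    rw [eq_top_iff]
    intro z _
    exact IntermediateField.algebraMap_mem _ z
  have hα : @algebraMap (𝓞 F) (𝓞 F) _ _ (inst_ringOfIntegersAlgebra F F) α = α :=
    RingOfIntegers.ext rfl
  have hβ : @algebraMap (𝓞 F) (𝓞 F) _ _ (inst_ringOfIntegersAlgebra F F) β = β :=
    RingOfIntegers.ext rfl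
  obtain ⟨-, -, -, -, -, -, S₁, -, hS₁⟩ := topTS1 K F F L hK hJd hd hAB hj hN x y
    hxy hm h1 h2 h0 hC (fun _ => hg)
  obtain ⟨-, -, -, -, -, -, S₂, -, hS₂⟩ := topTS2 K F F L hK hJd hd hAB hj hN x y
    hxy hm h1 h2 h0 hC (fun _ => hg)
  refine ⟨S₁ ∪ S₂, fun ℓ hℓ hℓS => ?_⟩
  rw [Finset.notMem_union] at hℓS
  have a1 := hS₁ ℓ hℓ hℓS.1
  have a2 := hS₂ ℓ hℓ hℓS.2
  rw [hα, hβ] at a1 a2
  intro n N L' M _ _ _ _ _ _ _ _ _ _ _ _ hM hR W C' hC'
  exact ⟨a1 n N L' M hM hR W C' hC', a2 n N L' M hM hR W C' hC'⟩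

/-- **The conclusion for all the towers above `F`**, for the elliptic curve `V` over `F`. There is a finite set
`S` of prime numbers such that for every prime number `q` not in `S`, every Galois extension `M` of `F` of degree
`q ^ j`, every field `L` between `F` and `M`, every field `N` contained in `L` and every elliptic curve `W` over
`N` which becomes isomorphic to `V` over `L` the following holds. Suppose for every place `v` of `F` which
ramifies in `L`: if `v` is above `q` then the place of `K` below `v` has norm `q`, if `v` is not above `q` and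
`V` has good reduction at `v` then `q` does not divide the number of points of `V` over `𝓞 F / v`. Then the
L-series of `W` has an entire continuation which is not zero at `1`, `W(N)` is finite, and the `q`-part of the
formula of Birch and Swinnerton-Dyer holds for `W` over `N`; all the terms are prime to `q`. -/
def TowP (K : Type) [Field K] [NumberField K] {F : Type} [Field F] [NumberField F] [Algebra K F]
    (V : WeierstrassCurve F) : Prop :=
  ∃ S : Finset ℕ, ∀ (q : ℕ) [Fact q.Prime], q ∉ S →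
    ∀ (j : ℕ) (N L M : Type) [Field N] [NumberField N] [Field L] [NumberField L] [Field M]
      [NumberField M] [Algebra N L] [Algebra F L] [Algebra L M] [Algebra F M]
      [IsScalarTower F L M] [IsGalois F M], Module.finrank F M = q ^ j →
    (∀ (v : HeightOneSpectrum (𝓞 F)) (w : HeightOneSpectrum (𝓞 L)),
      v.asIdeal.map (algebraMap (𝓞 F) (𝓞 L)) ≤ w.asIdeal ^ 2 →
        ((q : 𝓞 F) ∈ v.asIdeal → Ideal.absNorm (v.asIdeal.comap (algebraMap (𝓞 K) (𝓞 F))) = q) ∧
          ((q : 𝓞 F) ∉ v.asIdeal → ∀ (V₀ : WeierstrassCurve (𝓞 F)) (C₀ : VariableChange F),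
            C₀ • V = V₀.map (algebraMap (𝓞 F) F) → V₀.Δ ∉ v.asIdeal →
              ¬ q ∣ Nat.card (V₀.map (Ideal.Quotient.mk v.asIdeal)).toAffine.Point)) →
    ∀ (W : WeierstrassCurve N) (C : VariableChange L), C • W.baseChange L = V.baseChange L →
      ∃ g : ℂ → ℂ, Differentiable ℂ g ∧ (∀ s : ℂ, 3 / 2 < s.re → g s = W.LSeries s) ∧
        g 1 ≠ 0 ∧
        (∃ r : ℚ, IsCoprime r.num (q : ℤ) ∧ r.den.Coprime q ∧
          g 1 * (√|(discr N : ℝ)| : ℝ) / (Pool.Agent.Lib.MP_1a91b9_nuT.S9.period W : ℝ) =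
            (r * ((Nat.card (Pool.Agent.Lib.MP_1a91b9_nuT3.S9.ShaP q W) : ℝ) *
              ((∏ᶠ v : HeightOneSpectrum (𝓞 N),
                Pool.Agent.Lib.MP_1a91b9_nuT.S9.tam W v : ℕ) : ℝ) /
                (Nat.card W.toAffine.Point : ℝ) ^ 2) : ℝ)) ∧
        Nat.card (Pool.Agent.Lib.MP_1a91b9_nuT3.S9.ShaP q W) = 1 ∧
        (∀ v : HeightOneSpectrum (𝓞 N),
          (Pool.Agent.Lib.MP_1a91b9_nuT.S9.tam W v).Coprime q) ∧
        Finite W.toAffine.Point ∧ (Nat.card W.toAffine.Point).Coprime q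

theorem towP_vc {K F : Type} [Field K] [NumberField K] [Field F] [NumberField F] [Algebra K F]
    {V V' : WeierstrassCurve F} {C₁ : VariableChange F} (hV : C₁ • V = V') (h : TowP K V') :
    TowP K V := by
  obtain ⟨S, hS⟩ := h
  refine ⟨S, fun q hq hqS j N L M _ _ _ _ _ _ _ _ _ _ _ _ hM hR W C hC => ?_⟩
  refine hS q hqS j N L M hM (fun v w hvw => ⟨(hR v w hvw).1, fun hv V₀ C₀ hV₀ hΔ => ?_⟩) W
    (C₁.map (algebraMap F L) * C) ?_
  · refine (hR v w hvw).2 hv V₀ (C₀ * C₁) ?_ hΔ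
    rw [mul_smul, hV]
    exact hV₀
  · rw [mul_smul, hC, ← hV]
    exact map_variableChange V C₁ (algebraMap F L)

/-- the places of `F` above the places of `K` of prime norm `q` are not anomalous for
`y² = x³ + a x² + b x` -/
def Anm (K F : Type) [Field K] [NumberField K] [Field F] [NumberField F] [Algebra K F]
    (a b : 𝓞 K) : Prop :=
  ∀ q : ℕ, q.Prime → 7 ≤ q → ∀ v : HeightOneSpectrum (𝓞 F), Deg1 K q v →
    algebraMap (𝓞 K) (𝓞 F) b ∉ v.asIdeal → ∀ α β : 𝓞 F,
      α = 81 * algebraMap (𝓞 K) (𝓞 F) b - 27 * algebraMap (𝓞 K) (𝓞 F) a ^ 2 →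
      β = 54 * algebraMap (𝓞 K) (𝓞 F) a ^ 3 -
        243 * algebraMap (𝓞 K) (𝓞 F) a * algebraMap (𝓞 K) (𝓞 F) b →
      ¬ q ∣ Nat.card (⟨0, 0, 0, Ideal.Quotient.mk v.asIdeal α,
        Ideal.Quotient.mk v.asIdeal β⟩ :
          WeierstrassCurve (𝓞 F ⧸ v.asIdeal)).toAffine.Point

theorem anm_two {K F : Type} [Field K] [NumberField K] [Field F] [NumberField F] [Algebra K F]
    (hF : IntermediateField.adjoin K {x : F | ∃ c : K, x ^ 2 = algebraMap K F c} = ⊤)
    (a b : 𝓞 K) : Anm K F a b :=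
  fun _ hq h7 _ h hb _ _ hα hβ => no_anom_k hF hq h7 h hα hβ hb

theorem anm_four {K F : Type} [Field K] [NumberField K] [Field F] [NumberField F] [Algebra K F]
    {i₀ : K} (hi : i₀ ^ 2 = -1)
    (hF : IntermediateField.adjoin K {x : F | ∃ c : K, x ^ 4 = algebraMap K F c} = ⊤)
    {a b : 𝓞 K} (hab : a = 0 ∨ ∃ e : 𝓞 K, a = 6 * e ∧ b = e ^ 2) : Anm K F a b :=
  fun _ hq h7 _ h hb _ _ hα hβ => no_anom_k4 hi hF hq h7 h hα hβ hb hab

/-- the conclusion from the conclusion for `y² = x³ + α x + β`, where `α`, `β` are given by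
`y² = x³ + a x² + b x` -/
theorem towP_of {K F : Type} [Field K] [NumberField K] [Field F] [NumberField F] [Algebra K F]
    {d : ℤ} {s₀ : K} (hs₀ : s₀ ^ 2 = ((d : ℤ) : K)) {a b : 𝓞 K} (hna : Anm K F a b)
    (hb : b ≠ 0) {α β : 𝓞 F}
    (hα : α = 81 * algebraMap (𝓞 K) (𝓞 F) b - 27 * algebraMap (𝓞 K) (𝓞 F) a ^ 2)
    (hβ : β = 54 * algebraMap (𝓞 K) (𝓞 F) a ^ 3 -
      243 * algebraMap (𝓞 K) (𝓞 F) a * algebraMap (𝓞 K) (𝓞 F) b)
    (h : ∃ S : Finset ℕ, ∀ ℓ : ℕ, ℓ.Prime → ℓ ∉ S →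
      TowB ℓ ∅ d α β (fun N _ _ W => Con1 N W ∧ Con2' ℓ N W)) :
    TowP K (⟨0, 0, 0, (α : F), (β : F)⟩ : WeierstrassCurve F) := by
  obtain ⟨S, hS⟩ := h
  refine ⟨S ∪ Finset.range 7 ∪ (Ideal.absNorm (Ideal.span {b})).primeFactors,
    fun q hq hqS j N L M _ _ _ _ _ _ _ _ _ _ _ _ hM hR W C hC => ?_⟩
  rw [Finset.notMem_union, Finset.notMem_union] at hqS
  obtain ⟨⟨hqS, hq7⟩, hqb⟩ := hqS
  rw [Finset.mem_range, not_lt] at hq7
  have hqp : q.Prime := hq.out
  have hb0 : Ideal.absNorm (Ideal.span {b}) ≠ 0 := by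
    rw [Ne, Ideal.absNorm_eq_zero_iff, Ideal.span_singleton_eq_bot]
    exact hb
  obtain ⟨⟨⟨g, g1, g2, g3⟩, -⟩, h2⟩ := hS q hqp hqS j N L M hM (fun v w hvw => ⟨fun hv =>
    ⟨Finset.notMem_empty _, by omega, Deg1.sq (v := v) ((hR v w hvw).1 hv) hqp hs₀⟩,
      fun h6 => by
        by_cases hv : (q : 𝓞 F) ∈ v.asIdeal
        · have h1 : Deg1 K q v := (hR v w hvw).1 hv
          refine hna q hqp hq7 v h1 (fun hbv => hqb ?_) α β hα hβ
          rw [Nat.mem_primeFactors]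
          refine ⟨hqp, ?_, hb0⟩
          have h3 : Ideal.span {b} ≤ v.asIdeal.comap (algebraMap (𝓞 K) (𝓞 F)) := by
            rw [Ideal.span_singleton_le_iff_mem, Ideal.mem_comap]
            exact hbv
          have h4 := Ideal.absNorm_dvd_absNorm_of_le h3
          have h5 : Ideal.absNorm (v.asIdeal.comap (algebraMap (𝓞 K) (𝓞 F))) = q := h1
          rwa [h5] at h4
        · have h1 := (hR v w hvw).2 hv (⟨0, 0, 0, α, β⟩ : WeierstrassCurve (𝓞 F)) 1 (by
            rw [one_smul]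
            exact WeierstrassCurve.ext (map_zero _).symm (map_zero _).symm (map_zero _).symm rfl
              rfl) (by
            intro h3
            apply h6
            have e : (⟨0, 0, 0, α, β⟩ : WeierstrassCurve (𝓞 F)).Δ =
                -16 * (4 * α ^ 3 + 27 * β ^ 2) := by
              unfold WeierstrassCurve.Δ WeierstrassCurve.b₂ WeierstrassCurve.b₄
                WeierstrassCurve.b₆ WeierstrassCurve.b₈
              ring
            rw [e] at h3
            rcases v.isPrime.mem_or_mem h3 with h4 | h4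
            · have h5 : (2 : 𝓞 F) ^ 4 ∈ v.asIdeal := by
                have h7 := v.asIdeal.neg_mem h4
                have e2 : -(-16 : 𝓞 F) = 2 ^ 4 := by norm_num
                rwa [e2] at h7
              have h7 := v.isPrime.mem_of_pow_mem 4 h5
              have e3 : 6 * (4 * α ^ 3 + 27 * β ^ 2) = (3 * (4 * α ^ 3 + 27 * β ^ 2)) * 2 := by
                ring
              rw [e3]
              exact v.asIdeal.mul_mem_left _ h7
            · exact v.asIdeal.mul_mem_left _ h4)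
          have e : (⟨0, 0, 0, α, β⟩ : WeierstrassCurve (𝓞 F)).map
              (Ideal.Quotient.mk v.asIdeal) = ⟨0, 0, 0, Ideal.Quotient.mk v.asIdeal α,
                Ideal.Quotient.mk v.asIdeal β⟩ :=
            WeierstrassCurve.ext (map_zero _) (map_zero _) (map_zero _) rfl rfl
          rw [e] at h1
          exact h1⟩) W C (by
    rw [hC]
    exact WeierstrassCurve.ext (map_zero _) (map_zero _) (map_zero _) rfl rfl)
  obtain ⟨h3, h4, h5, h6, h7⟩ := h2 hq g g1 g2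
  exact ⟨g, g1, g2, g3, h3, h4, h5, h6, h7⟩

end Pool.Agent.Lib.MP_1a91b9_ntJ
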