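import Pool.Agent.Lib.MP_1a91b9_ntJ.Fin2
import Pool.Agent.Lib.MP_1a91b9_ntJ.TowG

/-!
# The towers above the extensions of `ℚ(√-3)` generated by cube roots, in the form `TowP`
-/

set_option autoImplicit false

namespace Pool.Agent.Lib.MP_1a91b9_ntJ

open NumberField IsDedekindDomain WeierstrassCurve Module
open Pool.Agent.Lib.MP_1a91b9_nuI (Lne)

theorem mod6_of_sq {q : ℕ} [hq : Fact q.Prime] (h5 : 5 ≤ q)
    (h : IsSquare (((-3 : ℤ)) : ZMod q)) : q % 6 = 1 := by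
  obtain ⟨y, hy⟩ := h
  have hne : ∀ n : ℕ, 0 < n → n < 5 → ((n : ℕ) : ZMod q) ≠ 0 := by
    intro n h1 h2 h3
    rw [ZMod.natCast_eq_zero_iff] at h3
    exact absurd (Nat.le_of_dvd h1 h3) (by omega)
  have h2 : (2 : ZMod q) ≠ 0 := by
    have := hne 2 (by norm_num) (by norm_num)
    rwa [Nat.cast_ofNat] at this
  have h3 : (3 : ZMod q) ≠ 0 := by
    have := hne 3 (by norm_num) (by norm_num)
    rwa [Nat.cast_ofNat] at this
  obtain ⟨z, hz⟩ : ∃ z : ZMod q, 2 * z = y - 1 := ⟨(y - 1) / 2, by field_simp⟩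
  have hz2 : z ^ 2 + z + 1 = 0 := by
    have h4 : (4 : ZMod q) * (z ^ 2 + z + 1) = 0 := by
      have e : y = 2 * z + 1 := by linear_combination -hz
      rw [e] at hy
      push_cast at hy
      linear_combination -hy
    rcases mul_eq_zero.1 h4 with h5 | h5
    · exact absurd h5 (by
        rw [show (4 : ZMod q) = 2 * 2 by norm_num]
        exact mul_ne_zero h2 h2)
    · exact h5
  have hz3 : z ^ 3 = 1 := by linear_combination (z - 1) * hz2
  have hz1 : z ≠ 1 := by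
    rintro rfl
    apply h3
    linear_combination hz2
  have ho : orderOf z = 3 := orderOf_eq_prime hz3 hz1
  have hz0 : z ≠ 0 := by
    rintro rfl
    rw [zero_pow three_ne_zero] at hz3
    exact zero_ne_one hz3
  have hd : 3 ∣ q - 1 := by
    rw [← ho, orderOf_dvd_iff_pow_eq_one]
    exact ZMod.pow_card_sub_one_eq_one hz0
  have hodd := hq.out.eq_two_or_odd
  omega

theorem towP_kt {K F : Type} [Field K] [NumberField K] [Field F] [NumberField F] [Algebra K F]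
    {s₀ : K} (hs₀ : s₀ ^ 2 = -3) {α β : 𝓞 F} (h : Kt 6 F α β) :
    TowP K (⟨0, 0, 0, (α : F), (β : F)⟩ : WeierstrassCurve F) := by
  obtain ⟨S, hS⟩ := h
  refine ⟨S ∪ Finset.range 5, fun q hq hqS j N L M _ _ _ _ _ _ _ _ _ _ _ _ hM hR W C hC => ?_⟩
  rw [Finset.notMem_union, Finset.mem_range, not_lt] at hqS
  obtain ⟨hqS, hq5⟩ := hqS
  refine hS q hqS j N L M hM (fun v w hvw => ⟨fun hv => ?_, fun hv h6 => ?_⟩) W C (by
    rw [hC]
    exact WeierstrassCurve.ext (map_zero _) (map_zero _) (map_zero _) rfl rfl)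
  · have h1 : Deg1 K q v := (hR v w hvw).1 hv
    refine mod6_of_sq hq5 (h1.sq hq.out (s := s₀) ?_)
    rw [hs₀]
    norm_num
  · have h1 := (hR v w hvw).2 hv (⟨0, 0, 0, α, β⟩ : WeierstrassCurve (𝓞 F)) 1 (by
      rw [one_smul]
      exact WeierstrassCurve.ext (map_zero _).symm (map_zero _).symm (map_zero _).symm rfl
        rfl) (by
      intro h3
      apply h6
      have e : (⟨0, 0, 0, α, β⟩ : WeierstrassCurve (𝓞 F)).Δ =
          -16 * (4 * α ^ 3 + 27 * β ^ 2) := by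
        unfold WeierstrassCurve.Δ WeierstrassCurve.b₂ WeierstrassCurve.b₄
          WeierstrassCurve.b₆ WeierstrassCurve.b₈
        ring
      rw [e] at h3
      rcases v.isPrime.mem_or_mem h3 with h4 | h4
      · have h5 : (2 : 𝓞 F) ^ 4 ∈ v.asIdeal := by
          have h7 := v.asIdeal.neg_mem h4
          have e2 : -(-16 : 𝓞 F) = 2 ^ 4 := by norm_num
          rwa [e2] at h7
        have h7 := v.isPrime.mem_of_pow_mem 4 h5
        have e3 : 6 * (4 * α ^ 3 + 27 * β ^ 2) = (3 * (4 * α ^ 3 + 27 * β ^ 2)) * 2 := by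
          ring
        rw [e3]
        exact v.asIdeal.mul_mem_left _ h7
      · exact v.asIdeal.mul_mem_left _ h4)
    have e : (⟨0, 0, 0, α, β⟩ : WeierstrassCurve (𝓞 F)).map
        (Ideal.Quotient.mk v.asIdeal) = ⟨0, 0, 0, Ideal.Quotient.mk v.asIdeal α,
          Ideal.Quotient.mk v.asIdeal β⟩ :=
      WeierstrassCurve.ext (map_zero _) (map_zero _) (map_zero _) rfl rfl
    rw [e] at h1
    exact h1

theorem cub_star {K F : Type} [Field K] [NumberField K] [Field F] [NumberField F] [Algebra K F]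
    (e : CyclotomicField 6 ℚ ≃+* K)
    (hF : IntermediateField.adjoin K {x : F | ∃ c : K, x ^ 3 = algebraMap K F c} = ⊤)
    {s₀ : K} (hs₀ : s₀ ^ 2 = -3) {d : 𝓞 K} (hd : d ≠ 0)
    (h : Lne (⟨0, 0, algebraMap K F d, 0, 0⟩ : WeierstrassCurve F)) :
    TowP K (⟨0, 0, 0, 0, 16 * algebraMap K F d ^ 2⟩ : WeierstrassCurve F) := by
  obtain ⟨E, hE⟩ : ∃ E : 𝓞 (CyclotomicField 6 ℚ) ≃+* 𝓞 K, E = RingOfIntegers.mapRingEquiv e :=
    ⟨_, rfl⟩
  have hEe : ∀ d : 𝓞 (CyclotomicField 6 ℚ), ((E d : 𝓞 K) : K) = e (d : CyclotomicField 6 ℚ) :=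
    fun d => by
      rw [hE]
      rfl
  obtain ⟨d, rfl⟩ := E.surjective d
  let _ : Algebra (CyclotomicField 6 ℚ) F := ((algebraMap K F).comp (e : _ →+* K)).toAlgebra
  have hal : ∀ x : CyclotomicField 6 ℚ, algebraMap (CyclotomicField 6 ℚ) F x =
    algebraMap K F (e x) := fun _ => rfl
  have hr : Set.range (algebraMap (CyclotomicField 6 ℚ) F) = Set.range (algebraMap K F) := by
    ext y
    constructor
    · rintro ⟨x, rfl⟩
      exact ⟨e x, (hal x).symm⟩
    · rintro ⟨x, rfl⟩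
      exact ⟨e.symm x, by rw [hal, e.apply_symm_apply]⟩
  have hset : {x : F | ∃ c : K, x ^ 3 = algebraMap K F c} =
      {x : F | ∃ c : CyclotomicField 6 ℚ, x ^ 3 = algebraMap (CyclotomicField 6 ℚ) F c} := by
    ext y
    constructor
    · rintro ⟨c, hc⟩
      exact ⟨e.symm c, by rw [hal, e.apply_symm_apply, hc]⟩
    · rintro ⟨c, hc⟩
      exact ⟨e c, by rw [hc, hal]⟩
  rw [hset] at hF
  have hF6 := Pool.Agent.Lib.MP_1a91b9_ntN.adjoin_top hr hF
  have hd0 : d ≠ 0 := by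
    rintro rfl
    exact hd (map_zero E)
  have e1 : ((0 : 𝓞 F) : F) = 0 := rfl
  have e0 : (algebraMap K F ((E d : 𝓞 K) : K)) =
      algebraMap (CyclotomicField 6 ℚ) F (d : CyclotomicField 6 ℚ) := by
    rw [hal, hEe]
  have e2 : ((16 * algebraMap (𝓞 (CyclotomicField 6 ℚ)) (𝓞 F) d ^ 2 : 𝓞 F) : F) =
      16 * (algebraMap (CyclotomicField 6 ℚ) F d) ^ 2 := by
    have e3 : algebraMap (𝓞 F) F (algebraMap (𝓞 (CyclotomicField 6 ℚ)) (𝓞 F) d) =
      algebraMap (CyclotomicField 6 ℚ) F d := rfl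
    rw [RingOfIntegers.coe_eq_algebraMap, map_mul, map_pow, e3, map_ofNat]
  have h1 := lne_three h
  have h2 := kt_three hF6 hd0 e1 e2 (by
    rw [e1, e2, ← e0]
    exact h1)
  have h3 := towP_kt (K := K) hs₀ h2
  rw [e1, e2, ← e0] at h3
  exact h3

end Pool.Agent.Lib.MP_1a91b9_ntJ
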