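import Pool.Agent.Lib.MP_1a91b9_ntJ.WR
import Pool.Agent.Lib.MP_1a91b9_ntT.S1.Recip
import Pool.Agent.Lib.MP_1a91b9_nt.Residue

/-!
# Weak reciprocity for quadratic symbols

`J a b` is the product of the quadratic symbols of `a` at the prime factors of `b`. The reciprocity law
`J d z * J z d = 1` for odd coprime `d`, `z` with `d` a square modulo `4` gives `J c z = 1` for
`z ≡ 1` modulo `8 c`.
-/

set_option autoImplicit false

namespace Pool.Agent.Lib.MP_1a91b9_ntJ

open NumberField IsDedekindDomain UniqueFactorizationMonoid Pool.Agent.Lib.MP_1a91b9_nt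
open Pool.Agent.Lib.MP_1a91b9_nuG (addI atA)
open Pool.Agent.Lib.MP_1a91b9_ntT (OddAt chiI atIdeal chiI_congr)
open Pool.Agent.Lib.MP_1a91b9_ntT.S1

noncomputable section

section
variable {k : Type*} [Field k] [NumberField k]

/-- The quadratic character of the residue field. -/
theorem exists_qs (v : HeightOneSpectrum (𝓞 k)) : ∃ q : 𝓞 k → ℤ, q 1 = 1 ∧
    (∀ a b, q (a * b) = q a * q b) ∧ (∀ a b, a - b ∈ v.asIdeal → q a = q b) ∧
    (∀ a, a ∉ v.asIdeal → q a = chi v a) ∧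
    ((2 : 𝓞 k) ∉ v.asIdeal → ∀ a, a ^ ((nrm v - 1) / 2) - (q a : 𝓞 k) ∈ v.asIdeal) := by
  classical
  have hmax : v.asIdeal.IsMaximal := v.isMaximal
  have hfin : Finite (𝓞 k ⧸ v.asIdeal) := v.asIdeal.finiteQuotientOfFreeOfNeBot v.ne_bot
  let _ : Field (𝓞 k ⧸ v.asIdeal) := Ideal.Quotient.field v.asIdeal
  let _ : Fintype (𝓞 k ⧸ v.asIdeal) := Fintype.ofFinite _
  refine ⟨fun a => quadraticChar (𝓞 k ⧸ v.asIdeal) (Ideal.Quotient.mk v.asIdeal a), ?_, ?_, ?_,
    ?_, ?_⟩
  · simp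
  · intro a b
    change quadraticChar (𝓞 k ⧸ v.asIdeal) (Ideal.Quotient.mk v.asIdeal (a * b)) = _
    rw [map_mul (Ideal.Quotient.mk v.asIdeal), map_mul (quadraticChar (𝓞 k ⧸ v.asIdeal))]
  · intro a b h
    have h1 : Ideal.Quotient.mk v.asIdeal a = Ideal.Quotient.mk v.asIdeal b := Ideal.Quotient.eq.2 h
    simp only [h1]
  · intro a ha
    have ha0 : Ideal.Quotient.mk v.asIdeal a ≠ 0 := by
      rw [Ne, Ideal.Quotient.eq_zero_iff_mem]
      exact ha
    have hiff : IsSqAt v a ↔ IsSquare (Ideal.Quotient.mk v.asIdeal a) := by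
      constructor
      · rintro ⟨x, n, h1, -, h3⟩
        have hn : n = 0 := by
          by_contra hn0
          exact ha (Ideal.pow_le_self (by omega) h1)
        subst hn
        refine ⟨Ideal.Quotient.mk v.asIdeal x, ?_⟩
        rw [← map_mul, eq_comm, Ideal.Quotient.eq]
        have h4 : x * x - a = x ^ 2 - a := by ring
        rw [h4]
        simpa using h3
      · rintro ⟨y, hy⟩
        obtain ⟨x, rfl⟩ := Ideal.Quotient.mk_surjective y
        rw [← map_mul, eq_comm, Ideal.Quotient.eq] at hy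
        refine ⟨x, 0, by simp, by simpa using ha, ?_⟩
        have h4 : x ^ 2 - a = x * x - a := by ring
        rw [h4]
        simpa using hy
    by_cases hs : IsSqAt v a
    · rw [chi_of_sq v a (not_oddAt_of_not_mem ha) hs]
      exact (quadraticChar_one_iff_isSquare ha0).2 (hiff.1 hs)
    · rw [chi_of_nsq v a (not_oddAt_of_not_mem ha) hs]
      exact quadraticChar_neg_one_iff_not_isSquare.2 (fun h => hs (hiff.2 h))
  · intro h2 a
    have hch : ringChar (𝓞 k ⧸ v.asIdeal) ≠ 2 := by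
      intro h
      apply h2
      rw [← Ideal.Quotient.eq_zero_iff_mem]
      have h3 : ((2 : ℕ) : 𝓞 k ⧸ v.asIdeal) = 0 := by
        rw [← h]
        exact CharP.cast_eq_zero _ _
      have h4 : Ideal.Quotient.mk v.asIdeal (2 : 𝓞 k) = ((2 : ℕ) : 𝓞 k ⧸ v.asIdeal) := by
        rw [← map_natCast (Ideal.Quotient.mk v.asIdeal)]
        norm_num
      rw [h4, h3]
    have hodd := FiniteField.odd_card_of_char_ne_two hch
    have hN : (nrm v - 1) / 2 = Fintype.card (𝓞 k ⧸ v.asIdeal) / 2 := by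
      have h5 : nrm v = Fintype.card (𝓞 k ⧸ v.asIdeal) := by
        rw [nrm_eq, ← Nat.card_eq_fintype_card]
        rfl
      rw [h5]
      omega
    rw [← Ideal.Quotient.eq_zero_iff_mem, map_sub, map_pow, map_intCast, hN,
      quadraticChar_eq_pow_of_char_ne_two' hch, sub_self]

/-- The quadratic symbol of `c` at `v`. -/
def qs (v : HeightOneSpectrum (𝓞 k)) : 𝓞 k → ℤ := (exists_qs v).choose

theorem qs_one (v : HeightOneSpectrum (𝓞 k)) : qs v 1 = 1 := (exists_qs v).choose_spec.1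

theorem qs_mul (v : HeightOneSpectrum (𝓞 k)) (a b : 𝓞 k) : qs v (a * b) = qs v a * qs v b :=
  (exists_qs v).choose_spec.2.1 a b

theorem qs_congr (v : HeightOneSpectrum (𝓞 k)) (a b : 𝓞 k) (h : a - b ∈ v.asIdeal) :
    qs v a = qs v b := (exists_qs v).choose_spec.2.2.1 a b h

theorem qs_chi (v : HeightOneSpectrum (𝓞 k)) (a : 𝓞 k) (h : a ∉ v.asIdeal) :
    qs v a = chi v a := (exists_qs v).choose_spec.2.2.2.1 a h

theorem qs_euler (v : HeightOneSpectrum (𝓞 k)) (h2 : (2 : 𝓞 k) ∉ v.asIdeal) (a : 𝓞 k) :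
    a ^ ((nrm v - 1) / 2) - (qs v a : 𝓞 k) ∈ v.asIdeal := (exists_qs v).choose_spec.2.2.2.2 h2 a

theorem qs_pm (v : HeightOneSpectrum (𝓞 k)) (a : 𝓞 k) (h : a ∉ v.asIdeal) :
    qs v a = 1 ∨ qs v a = -1 := by
  rw [qs_chi v a h]
  exact chi_of_not_odd v a (not_oddAt_of_not_mem h)

theorem qs_sq (v : HeightOneSpectrum (𝓞 k)) (a : 𝓞 k) (h : a ∉ v.asIdeal) :
    qs v a * qs v a = 1 := by
  rcases qs_pm v a h with h1 | h1 <;> rw [h1] <;> norm_num

/-- The product of the quadratic symbols of `a` at the prime factors of `b`. -/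
def J (a b : 𝓞 k) : ℤ := chiI (fun v => qs v a) (Ideal.span {b})

theorem chiI_one_fun (I : Ideal (𝓞 k)) (hI : I ≠ 0) :
    chiI (fun _ : HeightOneSpectrum (𝓞 k) => (1 : ℤ)) I = 1 := by
  classical
  rw [chiI, if_neg hI]
  apply Multiset.prod_eq_one
  intro x hx
  rw [Multiset.mem_map] at hx
  obtain ⟨P, hP, rfl⟩ := hx
  have hprime := prime_of_normalized_factor P hP
  rw [atIdeal, dif_pos ⟨Ideal.isPrime_of_prime hprime, hprime.ne_zero⟩]

theorem chiI_mul_fun (f g : HeightOneSpectrum (𝓞 k) → ℤ) (I : Ideal (𝓞 k)) :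
    chiI (fun v => f v * g v) I = chiI f I * chiI g I := by
  classical
  by_cases hI : I = 0
  · rw [chiI, chiI, if_pos hI, if_pos hI, zero_mul]
  · rw [chiI, chiI, chiI, if_neg hI, if_neg hI, if_neg hI, ← Multiset.prod_map_mul]
    congr 1
    apply Multiset.map_congr rfl
    intro P hP
    have hprime := prime_of_normalized_factor P hP
    rw [atIdeal, atIdeal, atIdeal, dif_pos ⟨Ideal.isPrime_of_prime hprime, hprime.ne_zero⟩,
      dif_pos ⟨Ideal.isPrime_of_prime hprime, hprime.ne_zero⟩,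
      dif_pos ⟨Ideal.isPrime_of_prime hprime, hprime.ne_zero⟩]

omit [NumberField k] in
theorem span_ne {b : 𝓞 k} (hb : b ≠ 0) : Ideal.span {b} ≠ 0 := by
  rw [Ideal.zero_eq_bot, Ne, Ideal.span_singleton_eq_bot]
  exact hb

theorem J_mul (a a' b : 𝓞 k) : J (a * a') b = J a b * J a' b := by
  rw [J, J, J, ← chiI_mul_fun]
  congr 1
  funext v
  exact qs_mul v a a'

theorem J_congr (a a' b : 𝓞 k) (h : b ∣ a - a') : J a b = J a' b := by
  apply chiI_congr
  intro v hv
  apply qs_congr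
  obtain ⟨e, he⟩ := h
  rw [he]
  exact Ideal.mul_mem_right _ _ ((Ideal.span_singleton_le_iff_mem _).1 hv)

theorem J_one (b : 𝓞 k) (hb : b ≠ 0) : J 1 b = 1 := by
  have h : (fun v : HeightOneSpectrum (𝓞 k) => qs v (1 : 𝓞 k)) = fun _ => (1 : ℤ) := by
    funext v
    exact qs_one v
  rw [J, h]
  exact chiI_one_fun _ (span_ne hb)

theorem J_unit (a b : 𝓞 k) (hb : IsUnit b) : J a b = 1 := by
  rw [J, Ideal.span_singleton_eq_top.2 hb, ← Ideal.one_eq_top,
    Pool.Agent.Lib.MP_1a91b9_ntT.chiI_one]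

omit [NumberField k] in
theorem not_mem_of_coprime {a b : 𝓞 k} (h : IsCoprime a b) (v : HeightOneSpectrum (𝓞 k))
    (hb : b ∈ v.asIdeal) : a ∉ v.asIdeal := by
  intro ha
  obtain ⟨s, t, hst⟩ := h
  apply v.isPrime.ne_top
  rw [Ideal.eq_top_iff_one, ← hst]
  exact Ideal.add_mem _ (Ideal.mul_mem_left _ _ ha) (Ideal.mul_mem_left _ _ hb)

theorem J_sq (a b : 𝓞 k) (hb : b ≠ 0) (h : IsCoprime a b) : J a b * J a b = 1 := by
  rw [J, ← chiI_mul_fun, ← chiI_one_fun (Ideal.span {b}) (span_ne hb)]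
  apply chiI_congr
  intro v hv
  exact qs_sq v a (not_mem_of_coprime h v ((Ideal.span_singleton_le_iff_mem _).1 hv))

/-- The reciprocity law. -/
theorem J_recip [IsTotallyComplex k] (d z : 𝓞 k) (hd2 : IsCoprime d 2)
    (hd : ∃ a b : 𝓞 k, d = a ^ 2 + 4 * b) (hz2 : IsCoprime z 2) (hdz : IsCoprime d z) :
    J d z * J z d = 1 := by
  classical
  obtain ⟨a, b, hab⟩ := hd
  have hd0 : d ≠ 0 := ne_zero_of_coprime_two hd2
  have hz0 : z ≠ 0 := ne_zero_of_coprime_two hz2
  have hcop : ∀ Q : HeightOneSpectrum (𝓞 k), OddAt Q d → z ∉ Q.asIdeal := by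
    intro Q hQ hz
    exact not_oddAt_of_not_mem (not_mem_of_coprime hdz Q hz) hQ
  obtain ⟨S₁, hS₁⟩ := main_prod d z a b hab hd2 hz2 hcop
  obtain ⟨S₂, hS₂⟩ := exists_places z hz0
  obtain ⟨S₃, hS₃⟩ := exists_places d hd0
  have h1 := hS₁ (S₁ ∪ S₂ ∪ S₃) (by
    intro Q hQ
    exact Finset.mem_union_left _ (Finset.mem_union_left _ hQ))
  have h2 := chiI_eq_prod (fun v => qs v d) (Ideal.span {z}) (span_ne hz0) (S₁ ∪ S₂ ∪ S₃)
    (fun Q hQ => Finset.mem_union_left _ (Finset.mem_union_right _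
      (hS₂ Q ((Ideal.span_singleton_le_iff_mem _).1 hQ))))
  have h3 := chiI_eq_prod (fun v => qs v z) (Ideal.span {d}) (span_ne hd0) (S₁ ∪ S₂ ∪ S₃)
    (fun Q hQ => Finset.mem_union_right _ (hS₃ Q ((Ideal.span_singleton_le_iff_mem _).1 hQ)))
  rw [J, J, h2, h3, ← Finset.prod_mul_distrib, ← h1]
  apply Finset.prod_congr rfl
  intro Q _
  by_cases hzQ : z ∈ Q.asIdeal
  · have hdQ := not_mem_of_coprime hdz Q hzQ
    rw [eps_even (not_oddAt_of_not_mem hdQ), od_eq_zero Q d hd0 hdQ, pow_zero, mul_one,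
      qs_chi Q d hdQ]
  · rw [od_eq_zero Q z hz0 hzQ, pow_zero, one_mul]
    by_cases hQ : OddAt Q d
    · rw [eps_odd hQ, ← qs_chi Q z hzQ]
      have hodd := (oddAt_iff Q d hd0).1 hQ
      rcases qs_pm Q z hzQ with h | h
      · rw [h, one_pow]
      · rw [h, hodd.neg_one_pow]
    · rw [eps_even hQ, od_eq_zero Q z hz0 hzQ, pow_zero]
      have hev : Even (od Q.asIdeal (Ideal.span {d})) := by
        rw [← Nat.not_odd_iff_even]
        intro h
        exact hQ ((oddAt_iff Q d hd0).2 h)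
      rcases qs_pm Q z hzQ with h | h
      · rw [h, one_pow]
      · rw [h, hev.neg_one_pow]

omit [NumberField k] in
theorem sq_of_one {z : 𝓞 k} (h : ∃ e : 𝓞 k, z = 1 + 4 * e) : ∃ a b : 𝓞 k, z = a ^ 2 + 4 * b := by
  obtain ⟨e, he⟩ := h
  exact ⟨1, e, by rw [he]; ring⟩

omit [NumberField k] in
theorem coprime_of_one {z : 𝓞 k} (h : ∃ e : 𝓞 k, z = 1 + 4 * e) : IsCoprime z 2 := by
  obtain ⟨e, he⟩ := h
  exact ⟨1, -(2 * e), by rw [he]; ring⟩

theorem J_neg_one [IsTotallyComplex k] (z : 𝓞 k) (h : ∃ e : 𝓞 k, z = 1 + 4 * e) :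
    J (-1) z = 1 := by
  have h1 := J_recip z (-1) (coprime_of_one h) (sq_of_one h) ⟨-1, 0, by ring⟩ ⟨0, -1, by ring⟩
  rw [J_unit z (-1) (by simp), one_mul] at h1
  exact h1

/-- The step. -/
theorem J_step [IsTotallyComplex k] (c z t z' : 𝓞 k) (h : ∃ e : 𝓞 k, z = 1 + 4 * e)
    (ht2 : IsCoprime t 2) (hcz : IsCoprime z c) (htz : IsCoprime z t) (hz' : z' = z + 4 * c * t) :
    J c z = J c z' := by
  have h' : ∃ e : 𝓞 k, z' = 1 + 4 * e := by
    obtain ⟨e, he⟩ := h
    exact ⟨e + c * t, by rw [hz', he]; ring⟩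
  have hz2 := coprime_of_one h
  have hz2' := coprime_of_one h'
  have hz0 := ne_zero_of_coprime_two hz2
  have hz0' := ne_zero_of_coprime_two hz2'
  have ht0 := ne_zero_of_coprime_two ht2
  have hct : IsCoprime z (c * t) := hcz.mul_right htz
  have h4 : IsCoprime z (4 * (c * t)) := by
    apply IsCoprime.mul_right _ hct
    have : (4 : 𝓞 k) = 2 * 2 := by norm_num
    rw [this]
    exact hz2.mul_right hz2
  have hzz : IsCoprime z' z := by
    have e1 : z' = 4 * (c * t) + z * 1 := by rw [hz']; ring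
    rw [e1]
    exact (IsCoprime.add_mul_left_left h4.symm 1)
  have h4' : IsCoprime z' (4 * (c * t)) := by
    have e1 : z' = z + 4 * (c * t) * 1 := by rw [hz']; ring
    rw [e1]
    exact IsCoprime.add_mul_left_left h4 1
  have hct' : IsCoprime z' (c * t) := IsCoprime.of_mul_right_right h4'
  have hcz' : IsCoprime z' c := IsCoprime.of_mul_right_left hct'
  have htz' : IsCoprime z' t := IsCoprime.of_mul_right_right hct'
  have h2z : J 2 z * J 2 z = 1 := J_sq 2 z hz0 hz2.symm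
  have h2z' : J 2 z' * J 2 z' = 1 := J_sq 2 z' hz0' hz2'.symm
  -- the symbols of `4 c t`
  have a1 : J z' z = J 2 z * J 2 z * (J c z * J t z) := by
    rw [← J_mul, ← J_mul, ← J_mul]
    apply J_congr
    exact ⟨1, by rw [hz']; ring⟩
  have a2 : J z z' = J (-1) z' * (J 2 z' * J 2 z' * (J c z' * J t z')) := by
    rw [← J_mul, ← J_mul, ← J_mul, ← J_mul]
    apply J_congr
    exact ⟨1, by rw [hz']; ring⟩
  have a3 := J_recip z' z hz2' (sq_of_one h') hz2 hzz
  rw [a1, a2, h2z, h2z', J_neg_one z' h', one_mul, one_mul, one_mul] at a3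
  -- the symbols of `t`
  have b1 := J_recip z t hz2 (sq_of_one h) ht2 htz
  have b2 := J_recip z' t hz2' (sq_of_one h') ht2 htz'
  have b3 : J z' t = J z t := by
    apply J_congr
    exact ⟨4 * c, by rw [hz']; ring⟩
  rw [b3] at b2
  have c1 := J_sq z t ht0 htz
  have c2 := J_sq c z hz0 hcz.symm
  have c3 := J_sq c z' hz0' hcz'.symm
  have hC : J c z * J c z' = 1 := by
    have e2 : (J c z * J t z * (J c z' * J t z')) * (J z t * J z t)
        = (J c z * J c z') * ((J z t * J t z) * (J z t * J t z')) := by ring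
    rw [a3, c1, b1, b2] at e2
    linarith
  have e3 : J c z = J c z' * (J c z * J c z') * 1 := by
    calc J c z = J c z * (J c z' * J c z') := by rw [c3, mul_one]
      _ = J c z' * (J c z * J c z') * 1 := by ring
  rw [e3, hC, mul_one, mul_one]

theorem J_eq_one [IsTotallyComplex k] (c z : 𝓞 k) (h : 8 * c ∣ z - 1) : J c z = 1 := by
  obtain ⟨s, hs⟩ := h
  have hz : z = 1 + 8 * c * s := by linear_combination hs
  have h1 : J c 1 = J c (1 + 4 * c * (2 * s - 1)) :=
    J_step c 1 (2 * s - 1) _ ⟨0, by ring⟩ ⟨-1, s, by ring⟩ isCoprime_one_left isCoprime_one_left rfl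
  have h2 : J c (1 + 4 * c * (2 * s - 1)) = J c z := by
    apply J_step c _ 1 z ⟨c * (2 * s - 1), by ring⟩ isCoprime_one_left
    · exact ⟨1, -(4 * (2 * s - 1)), by ring⟩
    · exact isCoprime_one_right
    · rw [hz]; ring
  rw [← h2, ← h1]
  exact J_unit c 1 isUnit_one

/-- The sign attached to an element of `ZMod 2`. -/
def sg (e : ZMod 2) : ℤ := (-1) ^ e.val

theorem sg_zero : sg 0 = 1 := by decide

theorem sg_add : ∀ a b : ZMod 2, sg (a + b) = sg a * sg b := by decide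

theorem sg_eq_one : ∀ a : ZMod 2, sg a = 1 → a = 0 := by decide

theorem sg_addI (x : HeightOneSpectrum (𝓞 k) → ZMod 2) (I : Ideal (𝓞 k)) (hI : I ≠ 0) :
    sg (addI x I) = chiI (fun v => sg (x v)) I := by
  classical
  rw [addI, chiI, if_neg hI]
  have key : ∀ M : Multiset (Ideal (𝓞 k)), (∀ P ∈ M, P.IsPrime ∧ P ≠ ⊥) →
      sg (M.map (atA x)).sum = (M.map (atIdeal (fun v => sg (x v)))).prod := by
    intro M
    induction M using Multiset.induction_on with
    | empty =>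
      intro _
      rw [Multiset.map_zero, Multiset.map_zero, Multiset.sum_zero, Multiset.prod_zero, sg_zero]
    | cons P M ih =>
      intro h
      rw [Multiset.map_cons, Multiset.map_cons, Multiset.sum_cons, Multiset.prod_cons, sg_add,
        ih (fun Q hQ => h Q (Multiset.mem_cons_of_mem hQ))]
      have hP := h P (Multiset.mem_cons_self P M)
      rw [atA, atIdeal, dif_pos hP, dif_pos hP]
  apply key
  intro P hP
  have hprime := prime_of_normalized_factor P hP
  exact ⟨Ideal.isPrime_of_prime hprime, hprime.ne_zero⟩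

/-- Weak reciprocity for quadratic symbols. -/
theorem wr_two [IsTotallyComplex k] (c : 𝓞 k) (hc : c ≠ 0) : WR 2 (-1) c := by
  refine ⟨8 * c, mul_ne_zero (by norm_num) hc, ?_⟩
  intro x z hz hm hx
  apply sg_eq_one
  rw [sg_addI x _ (span_ne hz), ← J_eq_one c z hm, J]
  apply chiI_congr
  intro v hv
  have hzv : z ∈ v.asIdeal := (Ideal.span_singleton_le_iff_mem _).1 hv
  obtain ⟨s, hs⟩ := hm
  have hc2 : IsCoprime z 2 := ⟨1, -(4 * c * s), by linear_combination hs⟩
  have hcc : IsCoprime z c := ⟨1, -(8 * s), by linear_combination hs⟩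
  have h2v : (2 : 𝓞 k) ∉ v.asIdeal := not_mem_of_coprime hc2.symm v hzv
  have hcv : c ∉ v.asIdeal := not_mem_of_coprime hcc.symm v hzv
  have h1 := hx v hzv
  have h2 := qs_euler v h2v c
  have h3 := Ideal.sub_mem _ h1 h2
  have h4 : c ^ ((nrm v - 1) / 2) - (-1) ^ (x v).val - (c ^ ((nrm v - 1) / 2) - (qs v c : 𝓞 k))
      = (qs v c : 𝓞 k) - (-1) ^ (x v).val := by ring
  rw [h4] at h3
  have hpm : sg (x v) = 1 ∨ sg (x v) = -1 := neg_one_pow_eq_or ℤ _
  have hsg : ((sg (x v) : ℤ) : 𝓞 k) = (-1) ^ (x v).val := by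
    rw [sg]
    push_cast
    rfl
  rw [← hsg] at h3
  have h2v' : (-2 : 𝓞 k) ∉ v.asIdeal := fun h => h2v (by
    have := (Ideal.neg_mem_iff v.asIdeal).2 h
    rwa [neg_neg] at this)
  rcases hpm with h5 | h5 <;> rcases qs_pm v c hcv with h6 | h6
  · rw [h5, h6]
  · exfalso
    rw [h5, h6] at h3
    apply h2v'
    have h7 : ((-1 : ℤ) : 𝓞 k) - ((1 : ℤ) : 𝓞 k) = -2 := by push_cast; ring
    rwa [h7] at h3
  · exfalso
    rw [h5, h6] at h3
    apply h2v
    have h7 : ((1 : ℤ) : 𝓞 k) - ((-1 : ℤ) : 𝓞 k) = 2 := by push_cast; ring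
    rwa [h7] at h3
  · rw [h5, h6]

end

end

end Pool.Agent.Lib.MP_1a91b9_ntJ
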