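import Pool.Agent.Lib.MP_1a91b9_ntJ.WR
import Pool.Agent.Lib.MP_1a91b9_nt.Residue
import Pool.Agent.Lib.MP_1a91b9_ntQ.R.RecG
import Pool.Agent.Lib.MP_1a91b9_ntQ.R.Sup4
import Pool.Agent.Lib.MP_1a91b9_ntQ.R.Defs4

/-!
# Weak reciprocity for biquadratic symbols

`T4 i c`: for a suitable `m` the sum of the exponents of the biquadratic symbols of `c` at the prime factors of
`z` is zero for all `z` congruent to one modulo `m`. `T4` is multiplicative; for `i` and `1 + i` it follows from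
the supplementary laws, for a primary prime from biquadratic reciprocity.
-/

set_option autoImplicit false

namespace Pool.Agent.Lib.MP_1a91b9_ntJ

open NumberField IsDedekindDomain UniqueFactorizationMonoid
open Pool.Agent.Lib.MP_1a91b9_nt (nrm nrm_eq)
open Pool.Agent.Lib.MP_1a91b9_nuX.HQ
open Pool.Agent.Lib.MP_1a91b9_nuG (addI atA)

private theorem ideal_induction4 {k : Type*} [Field k] [NumberField k] {P : Ideal (𝓞 k) → Prop}
    (h1 : P 1)
    (h2 : ∀ (v : HeightOneSpectrum (𝓞 k)) (I : Ideal (𝓞 k)), I ≠ 0 → P I → P (I * v.asIdeal))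
    (I : Ideal (𝓞 k)) (hI : I ≠ 0) : P I := by
  induction I using UniqueFactorizationMonoid.induction_on_prime with
  | h₁ => exact absurd rfl hI
  | h₂ J hJ =>
    have : J = 1 := by
      rw [Ideal.isUnit_iff] at hJ
      rw [hJ, Ideal.one_eq_top]
    rw [this]
    exact h1
  | h₃ J Q hJ hQ ih =>
    rw [mul_comm]
    exact h2 ⟨Q, Ideal.isPrime_of_prime hQ, hQ.ne_zero⟩ J hJ (ih hJ)

private theorem addI_one4 {k A : Type*} [Field k] [NumberField k] [AddCommMonoid A]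
    (χ : HeightOneSpectrum (𝓞 k) → A) : addI χ 1 = 0 := by
  rw [addI, normalizedFactors_one]
  rfl

private theorem addI_mul4 {k A : Type*} [Field k] [NumberField k] [AddCommMonoid A]
    (χ : HeightOneSpectrum (𝓞 k) → A) (I J : Ideal (𝓞 k)) (hI : I ≠ 0)
    (hJ : J ≠ 0) : addI χ (I * J) = addI χ I + addI χ J := by
  rw [addI, addI, addI, normalizedFactors_mul hI hJ, Multiset.map_add, Multiset.sum_add]

private theorem addI_place4 {k A : Type*} [Field k] [NumberField k] [AddCommMonoid A]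
    (χ : HeightOneSpectrum (𝓞 k) → A) (v : HeightOneSpectrum (𝓞 k)) :
    addI χ v.asIdeal = χ v := by
  rw [addI, normalizedFactors_irreducible v.irreducible,
    Multiset.map_singleton, Multiset.sum_singleton, normalize_eq, atA,
    dif_pos ⟨v.isPrime, v.ne_bot⟩]

private theorem addI_congr4 {k A : Type*} [Field k] [NumberField k] [AddCommMonoid A]
    (x y : HeightOneSpectrum (𝓞 k) → A) (I : Ideal (𝓞 k)) (hI : I ≠ 0)
    (h : ∀ v : HeightOneSpectrum (𝓞 k), I ≤ v.asIdeal → x v = y v) : addI x I = addI y I := by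
  revert h
  refine ideal_induction4 (P := fun I =>
    (∀ v : HeightOneSpectrum (𝓞 k), I ≤ v.asIdeal → x v = y v) → addI x I = addI y I) ?_ ?_ I hI
  · intro _
    rw [addI_one4, addI_one4]
  · intro v I hI ih h
    rw [addI_mul4 _ _ _ hI v.ne_bot, addI_mul4 _ _ _ hI v.ne_bot, addI_place4, addI_place4,
      ih fun u hu => h u (Ideal.mul_le_left.trans hu), h v Ideal.mul_le_right]

private theorem addI_add4 {k A : Type*} [Field k] [NumberField k] [AddCommMonoid A]
    (x y : HeightOneSpectrum (𝓞 k) → A) (I : Ideal (𝓞 k)) (hI : I ≠ 0) :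
    addI (fun v => x v + y v) I = addI x I + addI y I := by
  refine ideal_induction4 (P := fun I => addI (fun v => x v + y v) I = addI x I + addI y I)
    ?_ ?_ I hI
  · rw [addI_one4, addI_one4, addI_one4, add_zero]
  · intro v I hI ih
    rw [addI_mul4 _ _ _ hI v.ne_bot, addI_mul4 _ _ _ hI v.ne_bot, addI_mul4 _ _ _ hI v.ne_bot,
      addI_place4, addI_place4, addI_place4, ih]
    exact add_add_add_comm _ _ _ _

variable {K : Type} [Field K] [NumberField K] {i : 𝓞 K}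

omit [NumberField K] in
private theorem span_ne4 {b : 𝓞 K} (hb : b ≠ 0) : Ideal.span {b} ≠ 0 := by
  rw [Ideal.zero_eq_bot, Ne, Ideal.span_singleton_eq_bot]
  exact hb

/-- the sum of the exponents of the symbols of `c` -/
def T4 (i c : 𝓞 K) : Prop := ∃ m : 𝓞 K, m ≠ 0 ∧ ∀ z : 𝓞 K, z ≠ 0 → m ∣ z - 1 →
  addI (fun v : HeightOneSpectrum (𝓞 K) => qs i v.asIdeal c) (Ideal.span {z}) = 0

omit [NumberField K] in
/-- a divisor of `m` is not in a prime which contains an element congruent to one modulo `m` -/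
private theorem not_mem_of4 {m z a : 𝓞 K} (v : HeightOneSpectrum (𝓞 K)) (hz : z ∈ v.asIdeal)
    (hm : m ∣ z - 1) (ha : a ∣ m) : a ∉ v.asIdeal := by
  intro h
  have h1 : z - 1 ∈ v.asIdeal := v.asIdeal.mem_of_dvd (ha.trans hm) h
  have h2 := Ideal.sub_mem _ hz h1
  rw [sub_sub_cancel] at h2
  exact v.isPrime.ne_top ((Ideal.eq_top_iff_one _).2 h2)

private theorem two_ne4 : (2 : 𝓞 K) ≠ 0 := two_ne_zero

theorem T4_mul (h : GI i) {a b : 𝓞 K} (ha0 : a ≠ 0) (hb0 : b ≠ 0) (ha : T4 i a) (hb : T4 i b) :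
    T4 i (a * b) := by
  obtain ⟨m, hm0, hm⟩ := ha
  obtain ⟨n, hn0, hn⟩ := hb
  refine ⟨m * n * (2 * (a * b)), mul_ne_zero (mul_ne_zero hm0 hn0)
    (mul_ne_zero two_ne4 (mul_ne_zero ha0 hb0)), fun z hz hd => ?_⟩
  have e : addI (fun v : HeightOneSpectrum (𝓞 K) => qs i v.asIdeal (a * b)) (Ideal.span {z}) =
      addI (fun v : HeightOneSpectrum (𝓞 K) => qs i v.asIdeal a + qs i v.asIdeal b)
        (Ideal.span {z}) := by
    refine addI_congr4 _ _ _ (span_ne4 hz) fun v hv => ?_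
    have hv' : z ∈ v.asIdeal := (Ideal.span_singleton_le_iff_mem _).1 hv
    have hG : G4 v.asIdeal := ⟨v.isPrime, v.ne_bot,
      not_mem_of4 v hv' hd ((Dvd.intro _ rfl).mul_left _)⟩
    exact qs_mul h hG
      (not_mem_of4 v hv' hd (((Dvd.intro _ rfl : a ∣ a * b).mul_left _).mul_left _))
      (not_mem_of4 v hv' hd (((Dvd.intro_left _ rfl : b ∣ a * b).mul_left _).mul_left _))
  rw [e, addI_add4 _ _ _ (span_ne4 hz),
    hm z hz (((Dvd.intro _ rfl : m ∣ m * n).mul_right _).trans hd),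
    hn z hz (((Dvd.intro_left _ rfl : n ∣ m * n).mul_right _).trans hd), add_zero]

theorem T4_one (h : GI i) : T4 i 1 := by
  refine ⟨2, two_ne4, fun z hz hd => ?_⟩
  have e : addI (fun v : HeightOneSpectrum (𝓞 K) => qs i v.asIdeal 1) (Ideal.span {z}) =
      addI (fun _ : HeightOneSpectrum (𝓞 K) => (0 : ZMod 4)) (Ideal.span {z}) := by
    refine addI_congr4 _ _ _ (span_ne4 hz) fun v hv => ?_
    have hv' : z ∈ v.asIdeal := (Ideal.span_singleton_le_iff_mem _).1 hv
    exact qs_one h ⟨v.isPrime, v.ne_bot, not_mem_of4 v hv' hd dvd_rfl⟩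
  rw [e]
  refine ideal_induction4 (P := fun I =>
    addI (fun _ : HeightOneSpectrum (𝓞 K) => (0 : ZMod 4)) I = 0) ?_ ?_ _ (span_ne4 hz)
  · rw [addI_one4]
  · intro v I hI ih
    rw [addI_mul4 _ _ _ hI v.ne_bot, addI_place4, ih, add_zero]

section

variable [IsPrincipalIdealRing (𝓞 K)]

/-- a prime not dividing two has a primary generator -/
private theorem exists_primary4 (h : GI i) (v : HeightOneSpectrum (𝓞 K))
    (h2 : (2 : 𝓞 K) ∉ v.asIdeal) :
    ∃ β : 𝓞 K, Prime β ∧ 2 * (1 + i) ∣ β - 1 ∧ Ideal.span {β} = v.asIdeal := by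
  obtain ⟨β, hβs, hβ1⟩ := exists_prim h (P := v.asIdeal) ⟨v.isPrime, v.ne_bot, h2⟩
  have hβ0 : β ≠ 0 := by
    rintro rfl
    apply v.ne_bot
    rw [hβs]
    simp
  refine ⟨β, ?_, hβ1, hβs.symm⟩
  have h1 := v.isPrime
  rw [hβs] at h1
  exact (Ideal.span_singleton_prime hβ0).1 h1

/-- The sum over the prime factors of an additive function. -/
private theorem addI_eq4 (h : GI i) (Z : 𝓞 K) (x : HeightOneSpectrum (𝓞 K) → ZMod 4)
    (F : 𝓞 K → ZMod 4) (h1 : F 1 = 0)
    (hmul : ∀ β z : 𝓞 K, 2 * (1 + i) ∣ β - 1 → 2 * (1 + i) ∣ z - 1 → β * z ∣ Z →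
      F (β * z) = F β + F z)
    (hx : ∀ (v : HeightOneSpectrum (𝓞 K)) (β : 𝓞 K), Prime β → 2 * (1 + i) ∣ β - 1 →
      Ideal.span {β} = v.asIdeal → β ∣ Z → x v = F β)
    (z : 𝓞 K) (hz : z ≠ 0) (h3 : 2 * (1 + i) ∣ z - 1) (hZ : z ∣ Z) :
    addI x (Ideal.span {z}) = F z := by
  have key : ∀ I : Ideal (𝓞 K), I ≠ 0 → ∀ z : 𝓞 K, z ≠ 0 → 2 * (1 + i) ∣ z - 1 → z ∣ Z →
      Ideal.span {z} = I → addI x I = F z := by
    intro I hI
    refine ideal_induction4 (P := fun I => ∀ z : 𝓞 K, z ≠ 0 → 2 * (1 + i) ∣ z - 1 → z ∣ Z →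
      Ideal.span {z} = I → addI x I = F z) ?_ ?_ I hI
    · intro z _ hz3 _ hzI
      have e : z = 1 := by
        refine prim_unique h hz3 ?_ ?_
        · rw [sub_self]
          exact dvd_zero _
        · rw [hzI, Ideal.span_singleton_one, Ideal.one_eq_top]
      rw [addI_one4, e, h1]
    · intro v I hI ih z hz hz3 hzZ hzI
      have hzv : z ∈ v.asIdeal := by
        have h2 : Ideal.span {z} ≤ v.asIdeal := by
          rw [hzI]
          exact Ideal.mul_le_right
        exact h2 (Ideal.mem_span_singleton_self z)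
      obtain ⟨β, hβ, hβ1, hβs⟩ := exists_primary4 h v
        (not_mem_of4 v hzv hz3 (Dvd.intro _ rfl))
      rw [← hβs] at hzv
      obtain ⟨z', rfl⟩ := Ideal.mem_span_singleton.1 hzv
      have hz'0 : z' ≠ 0 := right_ne_zero_of_mul hz
      have hz'3 : 2 * (1 + i) ∣ z' - 1 := by
        have h2 := dvd_sub hz3 (hβ1.mul_right z')
        have e : β * z' - 1 - (β - 1) * z' = z' - 1 := by ring
        rwa [e] at h2
      have hzI' : Ideal.span {z'} = I := by
        rw [← Ideal.span_singleton_mul_span_singleton, ← hβs, mul_comm I] at hzI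
        exact mul_left_cancel₀ (span_ne4 hβ.ne_zero) hzI
      rw [addI_mul4 _ _ _ hI v.ne_bot, addI_place4,
        ih z' hz'0 hz'3 ((Dvd.intro_left _ rfl).trans hzZ) hzI',
        hx v β hβ hβ1 hβs ((Dvd.intro _ rfl).trans hzZ), hmul β z' hβ1 hz'3 hzZ, add_comm]
  exact key _ (span_ne4 hz) z hz h3 hZ rfl

/-! ### Functions of the coordinates -/

/-- the primary element with given coordinates -/
private def pf (i : 𝓞 K) (b t : ℤ) : 𝓞 K :=
  ((1 + 2 * b + 4 * t : ℤ) : 𝓞 K) + ((2 * b : ℤ) : 𝓞 K) * i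

omit [NumberField K] [IsPrincipalIdealRing (𝓞 K)] in
private theorem pf_one : pf i 0 0 = 1 := by
  rw [pf]
  push_cast
  ring

omit [IsPrincipalIdealRing (𝓞 K)] in
private theorem pf_prim (h : GI i) (b t : ℤ) : 2 * (1 + i) ∣ pf i b t - 1 := by
  refine ⟨(b + t : ℤ) + ((-t : ℤ) : 𝓞 K) * i, ?_⟩
  rw [pf]
  push_cast
  linear_combination (2 * (t : 𝓞 K)) * h.sq

omit [IsPrincipalIdealRing (𝓞 K)] in
private theorem pf_inj (h : GI i) {b t d u : ℤ} (e : pf i b t = pf i d u) : b = d ∧ t = u := by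
  obtain ⟨h1, h2⟩ := h.inj e
  constructor <;> omega

omit [IsPrincipalIdealRing (𝓞 K)] in
private theorem pf_mul (h : GI i) (b t d u : ℤ) : pf i b t * pf i d u =
    pf i (b + d + 4 * (b * d + t * d + u * b)) (t + u + 4 * (t * u) - 2 * (b * d)) := by
  rw [pf, pf, pf]
  push_cast
  linear_combination (4 * (b : 𝓞 K) * d) * h.sq

open Classical in
/-- a function of the coordinates -/
private noncomputable def lin4 (i : 𝓞 K) (F : ℤ → ℤ → ZMod 4) (z : 𝓞 K) : ZMod 4 :=
  if h : ∃ p : ℤ × ℤ, z = pf i p.1 p.2 then F h.choose.1 h.choose.2 else 0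

omit [IsPrincipalIdealRing (𝓞 K)] in
private theorem lin4_eq (h : GI i) (F : ℤ → ℤ → ZMod 4) (b t : ℤ) :
    lin4 i F (pf i b t) = F b t := by
  have h0 : ∃ p : ℤ × ℤ, pf i b t = pf i p.1 p.2 := ⟨(b, t), rfl⟩
  rw [lin4, dif_pos h0]
  obtain ⟨h1, h2⟩ := pf_inj h h0.choose_spec
  rw [← h1, ← h2]

/-- additive functions of the coordinates -/
private structure AF (F : ℤ → ℤ → ZMod 4) : Prop where
  mul : ∀ b t d u : ℤ, F (b + d + 4 * (b * d + t * d + u * b)) (t + u + 4 * (t * u) - 2 * (b * d)) =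
    F b t + F d u
  van : ∀ p q : ℤ, F (8 * q) (4 * p - 4 * q) = 0

private theorem afI : AF fun b t => -(b : ZMod 4) + 2 * (t : ZMod 4) := by
  have h4 : (4 : ZMod 4) = 0 := by decide
  constructor
  · intro b t d u
    push_cast
    linear_combination (-((b : ZMod 4) * d + t * d + u * b) + 2 * (t * u) - b * d) * h4
  · intro p q
    push_cast
    linear_combination (-2 * (q : ZMod 4) + 2 * (p - q)) * h4

private theorem afL : AF fun b t => (t : ZMod 4) - (b : ZMod 4) ^ 2 := by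
  have h4 : (4 : ZMod 4) = 0 := by decide
  constructor
  · intro b t d u
    push_cast
    linear_combination ((t : ZMod 4) * u - b * d - 2 * (b + d) * (b * d + t * d + u * b) -
      4 * ((b : ZMod 4) * d + t * d + u * b) ^ 2) * h4
  · intro p q
    push_cast
    linear_combination ((p : ZMod 4) - q - 16 * q ^ 2) * h4

private theorem lin4_mul (h : GI i) {F : ℤ → ℤ → ZMod 4} (hF : AF F) {β z : 𝓞 K}
    (hβ : 2 * (1 + i) ∣ β - 1) (hz : 2 * (1 + i) ∣ z - 1) :
    lin4 i F (β * z) = lin4 i F β + lin4 i F z := by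
  obtain ⟨b, t, rfl⟩ := prim_coords h hβ
  obtain ⟨d, u, rfl⟩ := prim_coords h hz
  change lin4 i F (pf i b t * pf i d u) = lin4 i F (pf i b t) + lin4 i F (pf i d u)
  rw [pf_mul h, lin4_eq h, lin4_eq h, lin4_eq h, hF.mul]

private theorem lin4_one (h : GI i) {F : ℤ → ℤ → ZMod 4} (hF : AF F) : lin4 i F 1 = 0 := by
  have h1 := lin4_mul h hF (β := 1) (z := 1) (by simp) (by simp)
  rw [mul_one] at h1
  exact left_eq_add.1 h1

omit [IsPrincipalIdealRing (𝓞 K)] in
private theorem lin4_van (h : GI i) {F : ℤ → ℤ → ZMod 4} (hF : AF F) {z : 𝓞 K}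
    (hz : (16 : 𝓞 K) ∣ z - 1) : lin4 i F z = 0 := by
  obtain ⟨c, hc⟩ := hz
  obtain ⟨p, q, rfl⟩ := h.gen c
  have e : z = pf i (8 * q) (4 * p - 4 * q) := by
    rw [pf]
    push_cast
    linear_combination hc
  rw [e, lin4_eq h, hF.van]

omit [IsPrincipalIdealRing (𝓞 K)] in
private theorem prim_of16 (h : GI i) {z : 𝓞 K} (hz : (16 : 𝓞 K) ∣ z - 1) :
    2 * (1 + i) ∣ z - 1 := by
  refine Dvd.dvd.trans ?_ hz
  refine ⟨4 * (1 - i), ?_⟩
  linear_combination 8 * h.sq

private theorem T4_lin (h : GI i) {F : ℤ → ℤ → ZMod 4} (hF : AF F) (c : 𝓞 K)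
    (hc : ∀ b t : ℤ, Prime (pf i b t) → qs i (Ideal.span {pf i b t}) c = F b t) : T4 i c := by
  refine ⟨16, by norm_num, fun z hz hd => ?_⟩
  rw [addI_eq4 h z _ (lin4 i F) (lin4_one h hF) (fun β z' hβ hz' _ => lin4_mul h hF hβ hz')
    (fun v β hβ hβ1 hβs _ => ?_) z hz (prim_of16 h hd) dvd_rfl, lin4_van h hF hd]
  obtain ⟨b, t, rfl⟩ := prim_coords h hβ1
  rw [← hβs]
  change _ = lin4 i F (pf i b t)
  rw [lin4_eq h]
  exact hc b t hβ

private theorem qs_i_pf (h : GI i) (b t : ℤ) (hp : Prime (pf i b t)) :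
    qs i (Ideal.span {pf i b t}) i = -(b : ZMod 4) + 2 * (t : ZMod 4) := by
  rw [← sym_prime (g4_of_prim h hp (pf_prim h b t))]
  exact sym_i_prim h b t

theorem T4_i (h : GI i) : T4 i i := T4_lin h afI _ fun b t hp => qs_i_pf h b t hp

theorem T4_lam (h : GI i) : T4 i (1 + i) := by
  refine T4_lin h afL _ fun b t hp => ?_
  have h1 := Pool.Agent.Lib.MP_1a91b9_ntQ.Sp.qs_lam4 h (a := 1 + 2 * b + 4 * t) (b := 2 * b)
    (by omega) (by omega) hp
  have e : ((1 + 2 * b + 4 * t) - 2 * b - (2 * b) ^ 2 - 1) / 4 = t - b ^ 2 := by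
    have e1 : (1 + 2 * b + 4 * t) - 2 * b - (2 * b) ^ 2 - 1 = 4 * (t - b ^ 2) := by ring
    rw [e1, Int.mul_ediv_cancel_left _ (by norm_num)]
  rw [e] at h1
  rw [pf, h1]
  push_cast
  ring

theorem T4_prime (h : GI i) {π : 𝓞 K} (hπ : Prime π) (h3 : 2 * (1 + i) ∣ π - 1) : T4 i π := by
  have hG := g4_of_prim h hπ h3
  refine ⟨16 * π, mul_ne_zero (by norm_num) hπ.ne_zero, fun z hz hd => ?_⟩
  have hz16 : (16 : 𝓞 K) ∣ z - 1 := (Dvd.intro _ rfl).trans hd
  have hzπ : z - 1 ∈ Ideal.span {π} :=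
    Ideal.mem_span_singleton.2 ((Dvd.intro_left _ rfl).trans hd)
  have hz' : z ∉ Ideal.span {π} := by
    intro h0
    have h2 := Ideal.sub_mem _ h0 hzπ
    rw [sub_sub_cancel] at h2
    exact hG.pr.ne_top ((Ideal.eq_top_iff_one _).2 h2)
  have hdz : ∀ a : 𝓞 K, a ∣ z → a ∉ Ideal.span {π} := fun a ha h0 =>
    hz' (Ideal.mem_of_dvd _ ha h0)
  obtain ⟨s, hs⟩ : ∃ s, s = 2 * qs i (Ideal.span {π}) i := ⟨_, rfl⟩
  obtain ⟨F, hF⟩ : ∃ F : ℤ → ℤ → ZMod 4,
      F = fun b t : ℤ => -(b : ZMod 4) + 2 * (t : ZMod 4) := ⟨_, rfl⟩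
  have hAF : AF F := by
    rw [hF]
    exact afI
  rw [addI_eq4 h z _ (fun β => qs i (Ideal.span {π}) β + s * lin4 i F β)
    (by rw [qs_one h hG, lin4_one h hAF, mul_zero, add_zero])
    (fun β z' hβ hz'' hβz => ?_) (fun v β hβ hβ1 hβs hβz => ?_) z hz (prim_of16 h hz16) dvd_rfl]
  · change qs i (Ideal.span {π}) z + s * lin4 i F z = 0
    rw [qs_congr h hG hz' hzπ, qs_one h hG, lin4_van h hAF hz16, mul_zero, add_zero]
  · change qs i (Ideal.span {π}) (β * z') + s * lin4 i F (β * z') =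
      qs i (Ideal.span {π}) β + s * lin4 i F β + (qs i (Ideal.span {π}) z' + s * lin4 i F z')
    rw [qs_mul h hG (hdz β ((Dvd.intro _ rfl).trans hβz))
      (hdz z' ((Dvd.intro_left _ rfl).trans hβz)), lin4_mul h hAF hβ hz'']
    ring
  · change qs i v.asIdeal π = qs i (Ideal.span {π}) β + s * lin4 i F β
    rw [← hβs]
    have hne : π ≠ β := by
      rintro rfl
      exact hdz π hβz (Ideal.mem_span_singleton_self π)
    have h1 := recip h hπ hβ h3 hβ1 hne
    obtain ⟨b, t, rfl⟩ := prim_coords h hβ1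
    have h2 : lin4 i F (((1 + 2 * b + 4 * t : ℤ) : 𝓞 K) + ((2 * b : ℤ) : 𝓞 K) * i) =
        qs i (Ideal.span {((1 + 2 * b + 4 * t : ℤ) : 𝓞 K) + ((2 * b : ℤ) : 𝓞 K) * i}) i := by
      change lin4 i F (pf i b t) = qs i (Ideal.span {pf i b t}) i
      rw [lin4_eq h, qs_i_pf h b t hβ, hF]
    rw [h2, hs]
    linear_combination h1

theorem T4_unit (h : GI i) {u : 𝓞 K} (hu : IsUnit u) : T4 i u := by
  have hi : IsUnit i := by
    have h1 := h.w_isUnit 1
    rwa [h.w_one] at h1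
  obtain ⟨c, rfl⟩ := h.unit hu
  rw [w]
  generalize c.val = n
  induction n with
  | zero =>
    rw [pow_zero]
    exact T4_one h
  | succ n ih =>
    rw [pow_succ]
    exact T4_mul h (pow_ne_zero _ hi.ne_zero) hi.ne_zero ih (T4_i h)

theorem T4_all (h : GI i) (c : 𝓞 K) (hc : c ≠ 0) : T4 i c := by
  induction c using UniqueFactorizationMonoid.induction_on_prime with
  | h₁ => exact absurd rfl hc
  | h₂ u hu => exact T4_unit h hu
  | h₃ a p ha0 hp ih =>
    refine T4_mul h hp.ne_zero ha0 ?_ (ih ha0)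
    by_cases hs : (2 : 𝓞 K) ∈ Ideal.span {p}
    · have hl : Prime (1 + i) := by
        have h1 := h.absNorm_form 1 1
        have e1 : ((1 : ℤ) : 𝓞 K) + ((1 : ℤ) : 𝓞 K) * i = 1 + i := by push_cast; ring
        rw [e1] at h1
        have h2 : Ideal.absNorm (Ideal.span {1 + i}) = 2 := by
          have h3 : ((Ideal.absNorm (Ideal.span {1 + i}) : ℕ) : ℤ) = ((2 : ℕ) : ℤ) := by
            rw [h1]
            norm_num
          exact_mod_cast h3
        have h3 : (Ideal.span {1 + i}).IsPrime := by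
          apply Ideal.isPrime_of_irreducible_absNorm
          rw [h2]
          exact Nat.prime_two
        have h4 : (1 + i : 𝓞 K) ≠ 0 := by
          intro h5
          rw [h5, Ideal.span_singleton_eq_bot.2 rfl, Ideal.absNorm_bot] at h2
          norm_num at h2
        exact (Ideal.span_singleton_prime h4).1 h3
      rw [Ideal.mem_span_singleton] at hs
      have e2 : (2 : 𝓞 K) = (1 + i) * (1 + i) * (-i) := by
        linear_combination (2 + i) * h.sq
      have hi : IsUnit (-i) := by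
        have h1 := h.w_isUnit 3
        rwa [h.w_three] at h1
      rw [e2] at hs
      have hpl : p ∣ 1 + i := by
        rcases hp.dvd_or_dvd hs with h1 | h1
        · rcases hp.dvd_or_dvd h1 with h2 | h2
          · exact h2
          · exact h2
        · exact absurd (isUnit_of_dvd_unit h1 hi) hp.not_isUnit
      obtain ⟨c, hc⟩ := (hp.dvd_prime_iff_associated hl).1 hpl
      have hcu : IsUnit ((c⁻¹ : (𝓞 K)ˣ) : 𝓞 K) := (c⁻¹).isUnit
      have e3 : p = (1 + i) * ((c⁻¹ : (𝓞 K)ˣ) : 𝓞 K) := by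
        rw [← hc, mul_assoc, Units.mul_inv, mul_one]
      rw [e3]
      exact T4_mul h hl.ne_zero hcu.ne_zero (T4_lam h) (T4_unit h hcu)
    · have hpr : (Ideal.span {p}).IsPrime := (Ideal.span_singleton_prime hp.ne_zero).2 hp
      obtain ⟨π, hπ, hπ1, hπs⟩ := exists_primary4 h ⟨Ideal.span {p}, hpr, span_ne4 hp.ne_zero⟩ hs
      have hassoc : Associated π p := Ideal.span_singleton_eq_span_singleton.1 hπs
      obtain ⟨c, hc⟩ := hassoc
      rw [← hc]
      exact T4_mul h hπ.ne_zero c.isUnit.ne_zero (T4_prime h hπ hπ1) (T4_unit h c.isUnit)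

/-- **Weak reciprocity for biquadratic symbols.** -/
theorem wr_gi (h : GI i) (c : 𝓞 K) (hc : c ≠ 0) : WR 4 i c := by
  obtain ⟨m, hm0, hm⟩ := T4_all h c hc
  refine ⟨m * (2 * c), mul_ne_zero hm0 (mul_ne_zero two_ne4 hc), fun x z hz hd hx => ?_⟩
  rw [← hm z hz ((Dvd.intro _ rfl : m ∣ m * (2 * c)).trans hd)]
  refine addI_congr4 _ _ _ (span_ne4 hz) fun v hv => ?_
  have hv' : z ∈ v.asIdeal := (Ideal.span_singleton_le_iff_mem _).1 hv
  have hG : G4 v.asIdeal := ⟨v.isPrime, v.ne_bot,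
    not_mem_of4 v hv' hd ((Dvd.intro _ rfl).mul_left _)⟩
  refine (qs_eq h hG (not_mem_of4 v hv' hd ((Dvd.intro_left _ rfl : c ∣ 2 * c).mul_left _))
    _ ?_).symm
  have h4 := hx v hv'
  rw [nrm_eq] at h4
  rw [w]
  have h5 := v.asIdeal.neg_mem h4
  rwa [neg_sub] at h5

end

/-- **Weak reciprocity for biquadratic symbols** in `ℚ(i)`. -/
theorem wr_four (c : 𝓞 Pool.Agent.Lib.MP_1a91b9_ntQ.K4) (hc : c ≠ 0) :
    WR 4 Pool.Agent.Lib.MP_1a91b9_ntQ.iO c :=
  wr_gi Pool.Agent.Lib.MP_1a91b9_ntQ.gi c hc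

end Pool.Agent.Lib.MP_1a91b9_ntJ
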