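import Pool.Agent.Lib.MP_1a91b9_ntJ.TowH
import Pool.Agent.Lib.MP_1a91b9_ntJ.WR2
import Pool.Agent.Lib.MP_1a91b9_ntJ.WR4
import Pool.Agent.Lib.MP_1a91b9_ntI.Qd
import Pool.Agent.Lib.MP_1a91b9_ntY.Ord

/-!
# The towers for the quadratic twists of a curve with complex multiplication
-/

set_option autoImplicit false

namespace Pool.Agent.Lib.MP_1a91b9_ntJ

open NumberField IsDedekindDomain WeierstrassCurve Module
open Pool.Agent.Lib.MP_1a91b9_nuI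
open Pool.Agent.Lib.MP_1a91b9_nuX.UF (jd)
open Pool.Agent.Lib.MP_1a91b9_ntL (crv)
open Pool.Agent.Lib.MP_1a91b9_ntW.J (twd twd_vc twd_crv twd_hasJ hasJ_map)

/-- a field which contains a square root of a negative integer is totally complex -/
theorem tc_of_sq {K : Type*} [Field K] [NumberField K] {s : K} {D : ℤ} (hD : D < 0)
    (hs : s ^ 2 = ((D : ℤ) : K)) : IsTotallyComplex K := by
  refine ⟨fun v => ?_⟩
  rw [← InfinitePlace.not_isReal_iff_isComplex]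
  intro h
  have h1 := congrArg (InfinitePlace.embedding_of_isReal h) hs
  rw [map_pow, map_intCast] at h1
  have h2 : (0 : ℝ) ≤ (D : ℝ) := by
    rw [← h1]
    exact sq_nonneg _
  have h3 : (D : ℝ) < 0 := by exact_mod_cast hD
  linarith

theorem exists_nu {K : Type*} [Field K] [NumberField K] (e : K) (k : ℕ) :
    ∃ δ ν : 𝓞 K, ν ≠ 0 ∧ (δ : K) = e * (ν : K) ^ (k + 1) := by
  obtain ⟨⟨x, y⟩, hxy⟩ := IsLocalization.surj (nonZeroDivisors (𝓞 K)) e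
  refine ⟨x * y ^ k, y, nonZeroDivisors.ne_zero y.2, ?_⟩
  have h : e * (((y : 𝓞 K) : 𝓞 K) : K) = ((x : 𝓞 K) : K) := hxy
  have e1 : ((x * (y : 𝓞 K) ^ k : 𝓞 K) : K) = (x : K) * ((y : 𝓞 K) : K) ^ k := by
    push_cast
    rfl
  rw [e1, ← h]
  ring

section
variable {K F : Type} [Field K] [NumberField K] [Field F] [NumberField F] [Algebra K F]

/-- the maximal orders, `l = 2` -/
theorem inTor_two (hF : IntermediateField.adjoin K {x : F | ∃ c : K, x ^ 2 = algebraMap K F c} = ⊤)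
    (hK : finrank ℚ K = 2) {J D : ℤ} (hJd : (J, D) ∈ jd) (hD : D < 0) {s₀ : K}
    (hs₀ : s₀ ^ 2 = ((D : ℤ) : K)) {A B : ℤ} (hAB : 4 * A ^ 3 + 27 * B ^ 2 ≠ 0)
    (hj : 6912 * A ^ 3 = J * (4 * A ^ 3 + 27 * B ^ 2)) {c : 𝓞 K} (hc : c ≠ 0) :
    InTor K F A B 2 c := by
  have htc : IsTotallyComplex K := tc_of_sq hD hs₀
  exact exists_l0E K F hK hJd ⟨s₀, hs₀⟩ hAB hj (l := 2) (ζ := -1)
    (IsPrimitiveRoot.neg_one 0 (by norm_num)) (fun c hc => wr_two c hc) hF hc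

/-- the orders which are not maximal, `l = 2` -/
theorem inTor_two' (hF : IntermediateField.adjoin K {x : F | ∃ c : K, x ^ 2 = algebraMap K F c} = ⊤)
    (hK : finrank ℚ K = 2) {a' b' a b : ℤ} {n : ℕ} {j' J D : ℤ} (h : Four a' b' a b n j' J D)
    (hJd : (J, D) ∈ jd) (hD : D < 0) {s₀ : K} (hs₀ : s₀ ^ 2 = ((D : ℤ) : K))
    (hAB : 4 * (a * 9 ^ 2) ^ 3 + 27 * (b * 9 ^ 3) ^ 2 ≠ 0)
    (hj : 6912 * (a * 9 ^ 2) ^ 3 = J * (4 * (a * 9 ^ 2) ^ 3 + 27 * (b * 9 ^ 3) ^ 2)) {c : 𝓞 K}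
    (hc : c ≠ 0) : InTor K F (a' * 9 ^ 2) (b' * 9 ^ 3) 2 c :=
  InTor.four h (by norm_num) (inTor_two hF hK hJd hD hs₀ hAB hj hc)

omit [NumberField K] [NumberField F] in
/-- square roots are fourth roots -/
theorem four_of_two
    (hF : IntermediateField.adjoin K {x : F | ∃ c : K, x ^ 2 = algebraMap K F c} = ⊤) :
    IntermediateField.adjoin K {x : F | ∃ c : K, x ^ 4 = algebraMap K F c} = ⊤ := by
  rw [eq_top_iff, ← hF]
  refine IntermediateField.adjoin.mono K _ _ ?_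
  rintro x ⟨c, hc⟩
  exact ⟨c ^ 2, by rw [map_pow, ← hc]; ring⟩

/-- `ℚ(i)`, `l = 4` -/
theorem inTor_i (hF : IntermediateField.adjoin K {x : F | ∃ c : K, x ^ 4 = algebraMap K F c} = ⊤)
    (hK : finrank ℚ K = 2) {s₀ : K} (hs₀ : s₀ ^ 2 = ((-4 : ℤ) : K)) {A B : ℤ}
    (hAB : 4 * A ^ 3 + 27 * B ^ 2 ≠ 0)
    (hj : 6912 * A ^ 3 = 1728 * (4 * A ^ 3 + 27 * B ^ 2)) {c : 𝓞 K} (hc : c ≠ 0) :
    InTor K F A B 4 c := by
  have hK4 : finrank ℚ Pool.Agent.Lib.MP_1a91b9_ntQ.K4 = 2 := Pool.Agent.Lib.MP_1a91b9_ntQ.finrank_K4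
  obtain ⟨i, hi⟩ : ∃ i : Pool.Agent.Lib.MP_1a91b9_ntQ.K4, i ^ 2 = -1 := by
    refine ⟨(Pool.Agent.Lib.MP_1a91b9_ntQ.iO : Pool.Agent.Lib.MP_1a91b9_ntQ.K4), ?_⟩
    have h := congrArg (fun x : 𝓞 Pool.Agent.Lib.MP_1a91b9_ntQ.K4 =>
      (x : Pool.Agent.Lib.MP_1a91b9_ntQ.K4)) Pool.Agent.Lib.MP_1a91b9_ntQ.iO_sq
    exact h
  obtain ⟨e⟩ := Pool.Agent.Lib.MP_1a91b9_ntI.exists_iso_pq hK4 hK (t := 0) (n := 1)
    (by norm_num) (s := i) (by push_cast; linear_combination hi) (s' := s₀ / 2) (by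
      push_cast
      rw [div_pow, hs₀]
      norm_num)
  obtain ⟨ε, -⟩ : ∃ ε : 𝓞 (Pool.Agent.Lib.MP_1a91b9_ntQ.K4) ≃+* 𝓞 K, True :=
    ⟨RingOfIntegers.mapRingEquiv e, trivial⟩
  have hWR : ∀ c : 𝓞 K, c ≠ 0 → WR 4 (ε Pool.Agent.Lib.MP_1a91b9_ntQ.iO) c := by
    intro c hc
    have h1 : ε.symm c ≠ 0 := by
      intro h0
      apply hc
      have h2 := congrArg ε h0
      rwa [RingEquiv.apply_symm_apply, map_zero] at h2
    have h2 := WR.trans ε (wr_four _ h1)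
    rwa [RingEquiv.apply_symm_apply] at h2
  have hprim0 : IsPrimitiveRoot Pool.Agent.Lib.MP_1a91b9_ntQ.iO 4 :=
    Pool.Agent.Lib.MP_1a91b9_ntQ.iK_spec.toInteger_isPrimitiveRoot
  have hprim : IsPrimitiveRoot (ε Pool.Agent.Lib.MP_1a91b9_ntQ.iO) 4 :=
    hprim0.map_of_injective (f := ε) ε.injective
  exact exists_l0E K F hK (J := 1728) (d := -4) (by simp [jd]) ⟨s₀, hs₀⟩ hAB hj hprim hWR hF hc

omit [NumberField F] in
/-- the twist in terms of an integral equation -/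
theorem twd_int {W : WeierstrassCurve K} {C : VariableChange K} {a b : K} (hC : C • W = crv a b)
    {d ν a₁ b₁ : 𝓞 K} (hν : ν ≠ 0) (ha₁ : (a₁ : K) = (d : K) * a * (ν : K) ^ 2)
    (hb₁ : (b₁ : K) = (d : K) ^ 2 * b * (ν : K) ^ 4) :
    ∃ C' : VariableChange F, C' • (twd W (d : K)).map (algebraMap K F) =
      ⟨0, algebraMap K F (a₁ : K), 0, algebraMap K F (b₁ : K), 0⟩ := by
  have hνK : (ν : K) ≠ 0 := fun h => hν (RingOfIntegers.ext h)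
  obtain ⟨C₁, hC₁⟩ : ∃ C₁ : VariableChange K, C₁ • twd W (d : K) = crv ((a₁ : 𝓞 K) : K) (b₁ : K) := by
    refine ⟨(⟨(Units.mk0 (ν : K) hνK)⁻¹, 0, 0, 0⟩ : VariableChange K) *
      ⟨C.u, (d : K) * C.r, 0, 0⟩, ?_⟩
    rw [mul_smul, twd_vc, hC, twd_crv, ha₁, hb₁, crv]
    refine WeierstrassCurve.ext ?_ ?_ ?_ ?_ ?_
    · rw [variableChange_a₁]
      simp
    · rw [variableChange_a₂]
      simp only [inv_inv, Units.val_mk0]
      ring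
    · rw [variableChange_a₃]
      simp
    · rw [variableChange_a₄]
      simp only [inv_inv, Units.val_mk0]
      ring
    · rw [variableChange_a₆]
      simp
  refine ⟨C₁.map (algebraMap K F), ?_⟩
  have h1 := map_variableChange (twd W (d : K)) C₁ (algebraMap K F)
  rw [h1, hC₁]
  exact WeierstrassCurve.ext (map_zero _) rfl (map_zero _) rfl (map_zero _)

/-- **The towers for the twist**, for a curve isomorphic to `y² = x³ + a x² + b x`. -/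
theorem ks_of (hK : finrank ℚ K = 2) {J D : ℤ} (hJd : (J, D) ∈ thirteen) {s₀ : K}
    (hs₀ : s₀ ^ 2 = ((D : ℤ) : K)) {a₀ b₀ : ℤ} (hb₀ : b₀ ≠ 0) (hd₀ : a₀ ^ 2 - 4 * b₀ ≠ 0)
    (hj : 256 * (a₀ ^ 2 - 3 * b₀) ^ 3 = J * (b₀ ^ 2 * (a₀ ^ 2 - 4 * b₀))) {l : ℕ}
    {c : 𝓞 K}
    (hE : InTor K F (81 * b₀ - 27 * a₀ ^ 2) (54 * a₀ ^ 3 - 243 * a₀ * b₀) l c)
    {W : WeierstrassCurve K} (hWJ : HasJ W J) {C : VariableChange K} {a b : K}
    (hC : C • W = crv a b) {d ν a₁ b₁ : 𝓞 K} (hν : ν ≠ 0)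
    (ha₁ : (a₁ : K) = (d : K) * a * (ν : K) ^ 2)
    (hb₁ : (b₁ : K) = (d : K) ^ 2 * b * (ν : K) ^ 4) (hna : Anm K F a₁ b₁)
    (hab : ∀ (L : Type) [Field L] [NumberField L] [Algebra K L] (s : L),
      s ^ l = algebraMap K L (c : K) → ∃ t : L, t ≠ 0 ∧ algebraMap K L (a₁ : K) = a₀ * t ^ 2 ∧
        algebraMap K L (b₁ : K) = b₀ * t ^ 4)
    (hg : Lne ((twd W (d : K)).map (algebraMap K F))) :
    TowP K ((twd W (d : K)).map (algebraMap K F)) := by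
  obtain ⟨C', hC'⟩ := twd_int (F := F) hC hν ha₁ hb₁
  exact towP_vc hC' (towP_ab hK hJd hs₀ hb₀ hd₀ hj hE hna hab
    (lne_vc hC' (hasJ_map _ (twd_hasJ hWJ _)) hg))

omit [NumberField K] in
/-- a root of order `l` of `c` gives a square root -/
theorem sq_of_pow {l : ℕ} (hl : l = 2 ∨ l = 4) {c : 𝓞 K} (hc : c ≠ 0) {L : Type} [Field L]
    [Algebra K L] {s : L} (hs : s ^ l = algebraMap K L (c : K)) :
    ∃ t : L, t ≠ 0 ∧ t ^ 2 = algebraMap K L (c : K) := by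
  have hcK : algebraMap K L (c : K) ≠ 0 := by
    rw [Ne, map_eq_zero]
    exact fun h => hc (RingOfIntegers.ext h)
  have key : ∀ t : L, t ^ 2 = algebraMap K L (c : K) → t ≠ 0 := by
    rintro t ht rfl
    apply hcK
    rw [← ht, zero_pow two_ne_zero]
  rcases hl with rfl | rfl
  · exact ⟨s, key s hs, hs⟩
  · have h1 : (s ^ 2) ^ 2 = algebraMap K L (c : K) := by rw [← hs]; ring
    exact ⟨s ^ 2, key _ h1, h1⟩

/-- **Quadratic twists of the curve `y² = x³ + a₀ x² + b₀ x`.** -/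
theorem ks_quad (hK : finrank ℚ K = 2) {J D : ℤ} (hJd : (J, D) ∈ thirteen) {s₀ : K}
    (hs₀ : s₀ ^ 2 = ((D : ℤ) : K)) {a₀ b₀ : ℤ} (hb₀ : b₀ ≠ 0) (hd₀ : a₀ ^ 2 - 4 * b₀ ≠ 0)
    (hj : 256 * (a₀ ^ 2 - 3 * b₀) ^ 3 = J * (b₀ ^ 2 * (a₀ ^ 2 - 4 * b₀))) {l : ℕ}
    (hl : l = 2 ∨ l = 4)
    (hE : ∀ c : 𝓞 K, c ≠ 0 →
      InTor K F (81 * b₀ - 27 * a₀ ^ 2) (54 * a₀ ^ 3 - 243 * a₀ * b₀) l c)
    (hna : ∀ e : 𝓞 K, Anm K F ((a₀ : 𝓞 K) * e) ((b₀ : 𝓞 K) * e ^ 2))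
    {W : WeierstrassCurve K} (hWJ : HasJ W J) {C : VariableChange K} {e : K} (he : e ≠ 0)
    (hC : C • W = crv (e * a₀) (e ^ 2 * b₀)) {d : 𝓞 K} (hd : d ≠ 0)
    (hg : Lne ((twd W (d : K)).map (algebraMap K F))) :
    TowP K ((twd W (d : K)).map (algebraMap K F)) := by
  obtain ⟨δ, ν, hν, hδ⟩ := exists_nu e 1
  have hνK : (ν : K) ≠ 0 := fun h => hν (RingOfIntegers.ext h)
  have hδ0 : δ ≠ 0 := by
    rintro rfl
    exact mul_ne_zero he (pow_ne_zero _ hνK) (hδ.symm.trans (map_zero _))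
  refine ks_of hK hJd hs₀ hb₀ hd₀ hj (hE _ (mul_ne_zero hd hδ0))
    hWJ hC (d := d) (ν := ν) (a₁ := (a₀ : 𝓞 K) * (d * δ)) (b₁ := (b₀ : 𝓞 K) * (d * δ) ^ 2) hν ?_ ?_
    (hna _) ?_ hg
  · show algebraMap (𝓞 K) K _ = _
    rw [map_mul, map_mul, map_intCast]
    show (a₀ : K) * ((d : K) * (δ : K)) = _
    rw [hδ]
    ring
  · show algebraMap (𝓞 K) K _ = _
    rw [map_mul, map_pow, map_mul, map_intCast]
    show (b₀ : K) * ((d : K) * (δ : K)) ^ 2 = _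
    rw [hδ]
    ring
  · intro L _ _ _ s hs
    obtain ⟨t, ht0, ht⟩ := sq_of_pow hl (mul_ne_zero hd hδ0) hs
    have h1 : algebraMap K L (((a₀ : 𝓞 K) * (d * δ) : 𝓞 K) : K) =
        a₀ * algebraMap K L ((d * δ : 𝓞 K) : K) := by
      show algebraMap K L (algebraMap (𝓞 K) K _) = _ * algebraMap K L (algebraMap (𝓞 K) K _)
      rw [map_mul (algebraMap (𝓞 K) K) (a₀ : 𝓞 K), map_intCast, map_mul (algebraMap K L),
        map_intCast]
    have h2 : algebraMap K L (((b₀ : 𝓞 K) * (d * δ) ^ 2 : 𝓞 K) : K) =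
        b₀ * algebraMap K L ((d * δ : 𝓞 K) : K) ^ 2 := by
      show algebraMap K L (algebraMap (𝓞 K) K _) = _ * algebraMap K L (algebraMap (𝓞 K) K _) ^ 2
      rw [map_mul (algebraMap (𝓞 K) K) (b₀ : 𝓞 K), map_intCast, map_mul (algebraMap K L),
        map_intCast, map_pow, map_pow]
    refine ⟨t, ht0, ?_, ?_⟩
    · rw [h1, ← ht]
    · rw [h2, ← ht]
      ring

end

end Pool.Agent.Lib.MP_1a91b9_ntJ
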