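import Pool.Agent.Lib.MP_1a91b9_ntJ.Cub
import Pool.Agent.Lib.MP_1a91b9_ntI.IsoQ
import Pool.Agent.Lib.MP_1a91b9_ntJ.KS1

/-!
# From the rank part to the towers, for the extensions of `ℚ(√-3)` generated by cube roots
-/

set_option autoImplicit false

namespace Pool.Agent.Lib.MP_1a91b9_ntJ

open NumberField IsDedekindDomain WeierstrassCurve Module
open Pool.Agent.Lib.MP_1a91b9_nuI (Lne)
open Pool.Agent.Lib.MP_1a91b9_ntN (KD)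

theorem exists_e6 {K : Type} [Field K] [NumberField K] (hK : finrank ℚ K = 2) {s : K}
    (hs : s ^ 2 = -3) : Nonempty (CyclotomicField 6 ℚ ≃+* K) := by
  have hc := Pool.Agent.Lib.MP_1a91b9_ntN.cyc_any 6
    (inferInstance : Algebra ℚ (CyclotomicField 6 ℚ))
  have h6 : finrank ℚ (CyclotomicField 6 ℚ) = 2 := by
    rw [IsCyclotomicExtension.finrank (n := 6) (CyclotomicField 6 ℚ)
      (Polynomial.cyclotomic.irreducible_rat (by norm_num))]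
    decide
  obtain ⟨z, hz⟩ : ∃ z : CyclotomicField 6 ℚ, z ^ 2 - z + 1 = 0 := by
    have h1 := (IsCyclotomicExtension.zeta_spec 6 ℚ (CyclotomicField 6 ℚ)).isRoot_cyclotomic
      (by norm_num)
    rw [Polynomial.cyclotomic_six, Polynomial.IsRoot.def] at h1
    refine ⟨IsCyclotomicExtension.zeta 6 ℚ (CyclotomicField 6 ℚ), ?_⟩
    simpa using h1
  obtain ⟨e, -⟩ := Pool.Agent.Lib.MP_1a91b9_ntI.iso_sq (a := -3) h6 hK (x := 2 * z - 1) (x' := s)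
    (by
      push_cast
      linear_combination 4 * hz) (by
      rw [hs]
      push_cast
      rfl) (by
      rintro ⟨r, hr⟩
      nlinarith [mul_self_nonneg r])
  exact ⟨e⟩

/-- **The step.** -/
theorem ct_step (K : Type) [Field K] [NumberField K] (hK : finrank ℚ K = 2)
    (h3 : ∃ s : K, s ^ 2 = -3) (F : Type) [Field F] [NumberField F] [Algebra K F]
    (hF : IntermediateField.adjoin K {x : F | ∃ c : K, x ^ 3 = algebraMap K F c} = ⊤)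
    (m u : 𝓞 K) (c' : ℝ)
    (h : ∀ᶠ X : ℝ in Filter.atTop, c' ≤
      (Nat.card {d : 𝓞 K // (∀ p, Prime p → ¬ p ^ 3 ∣ d) ∧ m ∣ d - u ∧ |Algebra.norm ℤ d| ≤ X ∧
        ∀ W : WeierstrassCurve F, W = ⟨0, 0, algebraMap K F (d : K), 0, 0⟩ →
          (∃ g : ℂ → ℂ, Differentiable ℂ g ∧ (∀ s : ℂ, 3 / 2 < s.re → g s = W.LSeries s) ∧
            g 1 ≠ 0) ∧ Finite W.toAffine.Point} : ℝ) /
        (Nat.card {d : 𝓞 K // (∀ p, Prime p → ¬ p ^ 3 ∣ d) ∧ m ∣ d - u ∧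
          |Algebra.norm ℤ d| ≤ X} : ℝ)) :
    ∀ᶠ X : ℝ in Filter.atTop, c' ≤
      (Nat.card {d : 𝓞 K // (∀ p, Prime p → ¬ p ^ 3 ∣ d) ∧ m ∣ d - u ∧ |Algebra.norm ℤ d| ≤ X ∧
        ∀ V : WeierstrassCurve F, V = ⟨0, 0, 0, 0, 16 * algebraMap K F d ^ 2⟩ →
          TowP K V} : ℝ) /
        (Nat.card {d : 𝓞 K // (∀ p, Prime p → ¬ p ^ 3 ∣ d) ∧ m ∣ d - u ∧
          |Algebra.norm ℤ d| ≤ X} : ℝ) := by
  obtain ⟨s, hs⟩ := h3
  have htc : IsTotallyComplex K := tc_of_sq (D := -3) (by norm_num) (s := s) (by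
    rw [hs]
    push_cast
    rfl)
  obtain ⟨e⟩ := exists_e6 hK hs
  obtain ⟨e'⟩ := Pool.Agent.Lib.MP_1a91b9_ntN.exists_iso36
  obtain ⟨ε', -⟩ : ∃ ε' : 𝓞 (Pool.Agent.Lib.MP_1a91b9_ntT.K) ≃+* 𝓞 K, True :=
    ⟨RingOfIntegers.mapRingEquiv ((e' : Pool.Agent.Lib.MP_1a91b9_ntT.K ≃+* _).trans e), trivial⟩
  filter_upwards [h] with X hX
  refine hX.trans (div_le_div_of_nonneg_right (Nat.cast_le.2 ?_) (Nat.cast_nonneg _))
  refine card_le_of ((finite_norm hK X).subset fun d hd => hd.2.2.1) ?_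
  rintro d ⟨h1, h2, h3, h4⟩
  refine ⟨h1, h2, h3, ?_⟩
  rintro V rfl
  have hd : d ≠ 0 := ne_zero_of_free three_ne_zero ((MulEquiv.prime_iff ε'.toMulEquiv).2
    Pool.Agent.Lib.MP_1a91b9_ntH.prime_s3) h1
  exact cub_star e hF hs hd (h4 _ rfl).1

theorem ct_of_kd {M : 𝓞 Pool.Agent.Lib.MP_1a91b9_ntT.K → 𝓞 Pool.Agent.Lib.MP_1a91b9_ntT.K → Prop}
    (H : KD Pool.Agent.Lib.MP_1a91b9_ntT.K 3 M (fun _ _ d => ⟨0, 0, d, 0, 0⟩))
    (K : Type) [Field K] [NumberField K] (hK : finrank ℚ K = 2)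
    (h3 : ∃ s : K, s ^ 2 = -3) (F : Type) [Field F] [NumberField F] [Algebra K F]
    (hF : IntermediateField.adjoin K {x : F | ∃ c : K, x ^ 3 = algebraMap K F c} = ⊤)
    (m u : 𝓞 K)
    (hmu : ∀ e : Pool.Agent.Lib.MP_1a91b9_ntT.K ≃+* K, ∀ m' u',
      RingOfIntegers.mapRingEquiv e m' = m → RingOfIntegers.mapRingEquiv e u' = u → M m' u')
    (ε : ℝ) (hε : 0 < ε) :
    ∀ᶠ X : ℝ in Filter.atTop,
      (∏' i : ℕ, (1 + 1 / (3 : ℝ) ^ (i + 1))⁻¹) ^ Module.finrank K F - ε ≤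
      (Nat.card {d : 𝓞 K // (∀ p, Prime p → ¬ p ^ 3 ∣ d) ∧ m ∣ d - u ∧ |Algebra.norm ℤ d| ≤ X ∧
        ∀ V : WeierstrassCurve F, V = ⟨0, 0, 0, 0, 16 * algebraMap K F d ^ 2⟩ →
          TowP K V} : ℝ) /
        (Nat.card {d : 𝓞 K // (∀ p, Prime p → ¬ p ^ 3 ∣ d) ∧ m ∣ d - u ∧
          |Algebra.norm ℤ d| ≤ X} : ℝ) := by
  obtain ⟨s, hs⟩ := h3
  obtain ⟨e⟩ := exists_e6 hK hs
  obtain ⟨e'⟩ := Pool.Agent.Lib.MP_1a91b9_ntN.exists_iso36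
  have H' : KD K 3 (fun a b => a = m ∧ b = u) (fun _ _ d => ⟨0, 0, d, 0, 0⟩) :=
    KD.equiv ((e' : Pool.Agent.Lib.MP_1a91b9_ntT.K ≃+* _).trans e)
      (fun m' u' h => hmu _ m' u' h.1 h.2) H
  have h := H' F hF m u ⟨rfl, rfl⟩ ε hε
  rw [show ((3 : ℕ) : ℝ) = 3 from Nat.cast_ofNat] at h
  exact ct_step K hK ⟨s, hs⟩ F hF m u _ h

end Pool.Agent.Lib.MP_1a91b9_ntJ
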