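import Pool.Agent.Lib.MP_1a91b9_ntJ.L0
import Pool.Agent.Lib.MP_1a91b9_nuX.TG.Red
import Pool.Agent.Lib.MP_1a91b9_nuX.TG.Abel

/-!
# A Kummer extension lies in the field generated by a torsion point of `y² = x³ + A x + B`
-/

set_option autoImplicit false

namespace Pool.Agent.Lib.MP_1a91b9_ntJ

open NumberField IsDedekindDomain WeierstrassCurve Pool.Agent.Lib.MP_1a91b9_nuT
open Pool.Agent.Lib.MP_1a91b9_nt (exists_point_equiv)
open Pool.Agent.Lib.MP_1a91b9_nuX Pool.Agent.Lib.MP_1a91b9_nuX.DB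
open Pool.Agent.Lib.MP_1a91b9_nuX.TG (scale_field nsmul_transport nAb nAb_ne nsmul_nAb E_map)

variable [CD]

/-- transport of a point of the curve of `CD` to `y² = x³ + A₀ x + B₀` -/
theorem unscale {A₀ B₀ k : ℤ} (hk : k ≠ 0) (hA : CD.A = k ^ 4 * A₀) (hB : CD.B = k ^ 6 * B₀)
    {L : Type*} [Field L] [Algebra K L] [DecidableEq L] {T : Pt L} (hT : T ≠ 0) {m : ℕ}
    (ht : m • T = 0) : ∃ (x y : L) (hxy : (⟨0, 0, 0, ((A₀ : ℤ) : L), ((B₀ : ℤ) : L)⟩ :
      WeierstrassCurve L).toAffine.Nonsingular x y), m • Affine.Point.some x y hxy = 0 ∧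
      xc T = (k : L) ^ 2 * x ∧ yc T = (k : L) ^ 3 * y := by
  have hcz : CharZero L := charZero_of_injective_algebraMap (algebraMap K L).injective
  have hk' : ((k : ℤ) : L) ≠ 0 := Int.cast_ne_zero.2 hk
  obtain ⟨C, hC, hu, hr, hs, htt⟩ := scale_field hk hA hB L
  obtain ⟨e, he⟩ := exists_point_equiv
    (⟨0, 0, 0, ((A₀ : ℤ) : L), ((B₀ : ℤ) : L)⟩ : WeierstrassCurve L) C
  have hE : (E K).baseChange L =
      C • (⟨0, 0, 0, ((A₀ : ℤ) : L), ((B₀ : ℤ) : L)⟩ : WeierstrassCurve L) := by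
    rw [hC]
    exact E_map (algebraMap K L)
  rcases cases_pt T with rfl | ⟨x, y, h, rfl⟩
  · exact absurd rfl hT
  · have hns : (C • (⟨0, 0, 0, ((A₀ : ℤ) : L), ((B₀ : ℤ) : L)⟩ :
        WeierstrassCurve L)).toAffine.Nonsingular x y := by
      rw [← hE]
      exact (nons_iff _ _).2 h
    obtain ⟨h', h2⟩ := he _ _ hns
    have h3 : m • Affine.Point.some _ _ hns = 0 :=
      nsmul_transport hE _ _ ((nons_iff _ _).2 h) hns ht
    refine ⟨_, _, h', ?_, ?_, ?_⟩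
    · rw [← h2, ← map_nsmul, h3, map_zero]
    · rw [hr, hu, xc_mk]
      field_simp
      ring
    · rw [hs, htt, hu, yc_mk]
      field_simp
      ring

/-- **A Kummer extension lies in the field generated by a torsion point of `y² = x³ + A x + B`.** -/
theorem exists_l0K [HC] {A₀ B₀ k : ℤ} (hk : k ≠ 0) (hA : CD.A = k ^ 4 * A₀)
    (hB : CD.B = k ^ 6 * B₀) {l : ℕ} [NeZero l] {ζ : 𝓞 K} (hζ : IsPrimitiveRoot ζ l)
    (hWR : ∀ c : 𝓞 K, c ≠ 0 → WR l ζ c) {F : Type} [Field F] [NumberField F] [Algebra K F]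
    (hF : IntermediateField.adjoin K {x : F | ∃ c : K, x ^ l = algebraMap K F c} = ⊤)
    {c : 𝓞 K} (hc : c ≠ 0) :
    ∃ (L : Type) (_ : Field L) (_ : NumberField L) (_ : Algebra K L) (_ : Algebra F L)
      (_ : IsScalarTower K F L) (_ : DecidableEq L) (x y : L)
      (hxy : (⟨0, 0, 0, ((A₀ : ℤ) : L), ((B₀ : ℤ) : L)⟩ :
        WeierstrassCurve L).toAffine.Nonsingular x y) (m : ℕ) (s : L), m ≠ 0 ∧
      m • Affine.Point.some x y hxy = 0 ∧
      IntermediateField.adjoin K {x, y} = (⊤ : IntermediateField K L) ∧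
      s ^ l = algebraMap K L (c : K) := by
  obtain ⟨L, i1, i2, i3, i4, i5, i6, ν, T, s, hν, hT, hT0, hgen, hs⟩ :=
    exists_l0 hζ hWR hF hc
  obtain ⟨x, y, hxy, h1, h2, h3⟩ := unscale hk hA hB hT0 (nsmul_nAb hT)
  refine ⟨L, i1, i2, i3, i4, i5, i6, x, y, hxy, nAb ν, s, nAb_ne hν, h1, ?_, hs⟩
  rw [eq_top_iff, ← hgen, IntermediateField.adjoin_le_iff]
  have e1 : x ∈ IntermediateField.adjoin K {x, y} :=
    IntermediateField.subset_adjoin K _ (Or.inl rfl)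
  have e2 : y ∈ IntermediateField.adjoin K {x, y} :=
    IntermediateField.subset_adjoin K _ (Or.inr rfl)
  have e3 : (k : L) ∈ IntermediateField.adjoin K {x, y} := intCast_mem _ k
  rintro z (rfl | rfl)
  · rw [SetLike.mem_coe, h2]
    exact mul_mem (pow_mem e3 2) e1
  · rw [SetLike.mem_coe, h3]
    exact mul_mem (pow_mem e3 3) e2

end Pool.Agent.Lib.MP_1a91b9_ntJ
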