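import Pool.Agent.Lib.MP_1a91b9_ntJ.WR
import Pool.Agent.Lib.MP_1a91b9_nt.Residue

/-!
# Weak reciprocity over isomorphic fields
-/

set_option autoImplicit false

namespace Pool.Agent.Lib.MP_1a91b9_ntJ

open NumberField IsDedekindDomain UniqueFactorizationMonoid
open Pool.Agent.Lib.MP_1a91b9_nt (nrm nrm_eq)
open Pool.Agent.Lib.MP_1a91b9_nuG (addI atA)

private theorem tr_ind {k : Type*} [Field k] [NumberField k] {P : Ideal (𝓞 k) → Prop}
    (h1 : P 1)
    (h2 : ∀ (v : HeightOneSpectrum (𝓞 k)) (I : Ideal (𝓞 k)), I ≠ 0 → P I → P (I * v.asIdeal))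
    (I : Ideal (𝓞 k)) (hI : I ≠ 0) : P I := by
  induction I using UniqueFactorizationMonoid.induction_on_prime with
  | h₁ => exact absurd rfl hI
  | h₂ J hJ =>
    have : J = 1 := by
      rw [Ideal.isUnit_iff] at hJ
      rw [hJ, Ideal.one_eq_top]
    rw [this]
    exact h1
  | h₃ J Q hJ hQ ih =>
    rw [mul_comm]
    exact h2 ⟨Q, Ideal.isPrime_of_prime hQ, hQ.ne_zero⟩ J hJ (ih hJ)

private theorem tr_one {k A : Type*} [Field k] [NumberField k] [AddCommMonoid A]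
    (χ : HeightOneSpectrum (𝓞 k) → A) : addI χ 1 = 0 := by
  rw [addI, normalizedFactors_one]
  rfl

private theorem tr_mul {k A : Type*} [Field k] [NumberField k] [AddCommMonoid A]
    (χ : HeightOneSpectrum (𝓞 k) → A) (I J : Ideal (𝓞 k)) (hI : I ≠ 0)
    (hJ : J ≠ 0) : addI χ (I * J) = addI χ I + addI χ J := by
  rw [addI, addI, addI, normalizedFactors_mul hI hJ, Multiset.map_add, Multiset.sum_add]

private theorem tr_place {k A : Type*} [Field k] [NumberField k] [AddCommMonoid A]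
    (χ : HeightOneSpectrum (𝓞 k) → A) (v : HeightOneSpectrum (𝓞 k)) :
    addI χ v.asIdeal = χ v := by
  rw [addI, normalizedFactors_irreducible v.irreducible,
    Multiset.map_singleton, Multiset.sum_singleton, normalize_eq, atA,
    dif_pos ⟨v.isPrime, v.ne_bot⟩]

section
variable {k k' : Type*} [Field k] [NumberField k] [Field k'] [NumberField k']
  (ε : 𝓞 k ≃+* 𝓞 k')

/-- the image of a place -/
theorem exists_pl (v : HeightOneSpectrum (𝓞 k)) : ∃ w : HeightOneSpectrum (𝓞 k'),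
    w.asIdeal = Ideal.map (ε : 𝓞 k →+* 𝓞 k') v.asIdeal ∧ (∀ x, ε x ∈ w.asIdeal ↔ x ∈ v.asIdeal) ∧
    nrm w = nrm v := by
  have hmem : ∀ x, ε x ∈ Ideal.map (ε : 𝓞 k →+* 𝓞 k') v.asIdeal ↔ x ∈ v.asIdeal := by
    intro x
    constructor
    · intro h
      obtain ⟨y, hy, hyx⟩ := (Ideal.mem_map_iff_of_surjective (ε : 𝓞 k →+* 𝓞 k')
        ε.surjective).1 h
      have h1 : y = x := ε.injective hyx
      rwa [← h1]
    · exact fun h => Ideal.mem_map_of_mem _ h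
  have hprime : (Ideal.map (ε : 𝓞 k →+* 𝓞 k') v.asIdeal).IsPrime := by
    have := v.isPrime
    exact Ideal.map_isPrime_of_equiv ε
  have hne : Ideal.map (ε : 𝓞 k →+* 𝓞 k') v.asIdeal ≠ ⊥ := by
    intro h
    obtain ⟨x, hx, hx0⟩ := Submodule.exists_mem_ne_zero_of_ne_bot v.ne_bot
    have h1 := (hmem x).2 hx
    rw [h, Ideal.mem_bot] at h1
    exact hx0 (ε.injective (by rw [h1, map_zero]))
  refine ⟨⟨_, hprime, hne⟩, rfl, hmem, ?_⟩
  rw [nrm_eq, nrm_eq, Ideal.absNorm_apply, Ideal.absNorm_apply]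
  symm
  exact Nat.card_congr (Ideal.quotientEquiv v.asIdeal _ ε rfl).toEquiv

/-- `addI` and the images of the places -/
theorem addI_tr {A : Type*} [AddCommMonoid A] (x : HeightOneSpectrum (𝓞 k) → A)
    (x' : HeightOneSpectrum (𝓞 k') → A)
    (h : ∀ (v : HeightOneSpectrum (𝓞 k)) (w : HeightOneSpectrum (𝓞 k')),
      w.asIdeal = Ideal.map (ε : 𝓞 k →+* 𝓞 k') v.asIdeal → x' w = x v) (I : Ideal (𝓞 k))
    (hI : I ≠ 0) : addI x' (Ideal.map (ε : 𝓞 k →+* 𝓞 k') I) = addI x I := by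
  have hne : ∀ J : Ideal (𝓞 k), J ≠ 0 → Ideal.map (ε : 𝓞 k →+* 𝓞 k') J ≠ 0 := by
    intro J hJ h0
    obtain ⟨y, hy, hy0⟩ := Submodule.exists_mem_ne_zero_of_ne_bot hJ
    have h1 : ε y ∈ Ideal.map (ε : 𝓞 k →+* 𝓞 k') J := Ideal.mem_map_of_mem _ hy
    rw [h0, Ideal.zero_eq_bot, Ideal.mem_bot] at h1
    exact hy0 (ε.injective (by rw [h1, map_zero]))
  refine tr_ind (P := fun I => addI x' (Ideal.map (ε : 𝓞 k →+* 𝓞 k') I) = addI x I) ?_ ?_ I hI
  · rw [Ideal.one_eq_top, Ideal.map_top, ← Ideal.one_eq_top, ← Ideal.one_eq_top, tr_one, tr_one]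
  · intro v J hJ ih
    obtain ⟨w, hw, -, -⟩ := exists_pl ε v
    rw [Ideal.map_mul, ← hw, tr_mul _ _ _ (hne J hJ) w.ne_bot, tr_mul _ _ _ hJ v.ne_bot, ih,
      tr_place, tr_place, h v w hw]

/-- **Weak reciprocity over isomorphic fields.** -/
theorem WR.trans {l : ℕ} {ζ c : 𝓞 k} (h : WR l ζ c) : WR l (ε ζ) (ε c) := by
  obtain ⟨m, hm, h⟩ := h
  have hinj : ∀ x : 𝓞 k, ε x = 0 → x = 0 := fun x hx => ε.injective (by rw [hx, map_zero])
  refine ⟨ε m, fun h0 => hm (hinj m h0), fun x' z' hz' hmz hx => ?_⟩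
  obtain ⟨z, rfl⟩ := ε.surjective z'
  choose p hp1 hp2 hp3 using exists_pl ε
  have hz : z ≠ 0 := by
    rintro rfl
    exact hz' (map_zero ε)
  have hmz' : m ∣ z - 1 := by
    obtain ⟨t, ht⟩ := hmz
    obtain ⟨t, rfl⟩ := ε.surjective t
    refine ⟨t, ε.injective ?_⟩
    rw [map_sub, map_one, map_mul, ht]
  have key := h (fun v => x' (p v)) z hz hmz' fun v hv => by
    have h1 := hx (p v) ((hp2 v z).2 hv)
    rw [hp3, ← map_pow, ← map_pow, ← map_sub] at h1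
    exact (hp2 v _).1 h1
  rw [← key]
  have h2 := addI_tr ε (fun v => x' (p v)) x' (fun v w hw => by
    have h3 : w = p v := HeightOneSpectrum.ext (by rw [hw, hp1])
    rw [h3]) (Ideal.span {z}) (by
    rw [Ne, Ideal.zero_eq_bot, Ideal.span_singleton_eq_bot]
    exact hz)
  rw [Ideal.map_span, Set.image_singleton] at h2
  exact h2

end

end Pool.Agent.Lib.MP_1a91b9_ntJ
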