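import Pool.Agent.Lib.MP_1a91b9_ntJ.Ext1
import Pool.Agent.Lib.MP_1a91b9_ntJ.Tr
import Pool.Agent.Lib.MP_1a91b9_nuE.Cn
import Pool.Agent.Lib.MP_1a91b9_nuX.UF.Top
import Pool.Agent.Lib.MP_1a91b9_nuX.HW.Top
import Pool.Agent.Lib.MP_1a91b9_nuT3.S8.Trans

/-!
# A Kummer extension of an imaginary quadratic field lies in the field generated by a torsion point
-/

set_option autoImplicit false

namespace Pool.Agent.Lib.MP_1a91b9_ntJ

open NumberField IsDedekindDomain WeierstrassCurve Module Pool.Agent.Lib.MP_1a91b9_nuT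
open Pool.Agent.Lib.MP_1a91b9_nuX
open Pool.Agent.Lib.MP_1a91b9_nuX.UF (jd jd_mem jd_disc jd_case)
open Pool.Agent.Lib.MP_1a91b9_nuE (exists_cdE)

/-- the condition on the generators over an isomorphic field -/
theorem gens_equiv {K₀ K₁ : Type*} [Field K₀] [Field K₁] {F : Type*} [Field F]
    [Algebra K₀ F] [Algebra K₁ F] (e : K₁ ≃+* K₀)
    (he : ∀ x : K₁, algebraMap K₁ F x = algebraMap K₀ F (e x)) {l : ℕ}
    (hF : IntermediateField.adjoin K₀ {x : F | ∃ c : K₀, x ^ l = algebraMap K₀ F c} = ⊤) :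
    IntermediateField.adjoin K₁ {x : F | ∃ c : K₁, x ^ l = algebraMap K₁ F c} = ⊤ := by
  obtain ⟨A, hA⟩ : ∃ A : IntermediateField K₁ F,
    A = IntermediateField.adjoin K₁ {x : F | ∃ c : K₁, x ^ l = algebraMap K₁ F c} := ⟨_, rfl⟩
  let B : IntermediateField K₀ F := A.toSubfield.toIntermediateField fun z => by
    change algebraMap K₀ F z ∈ A
    have h4 := A.algebraMap_mem (e.symm z)
    rwa [he, RingEquiv.apply_symm_apply] at h4
  have hB : B = ⊤ := by
    rw [eq_top_iff, ← hF, IntermediateField.adjoin_le_iff]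
    rintro z ⟨c, hc⟩
    change z ∈ A
    rw [hA]
    exact IntermediateField.subset_adjoin K₁ _ ⟨e.symm c, by rw [he, RingEquiv.apply_symm_apply, hc]⟩
  rw [← hA, eq_top_iff]
  intro z _
  have h4 : z ∈ B := by
    rw [hB]
    exact IntermediateField.mem_top
  exact h4

/-- **A Kummer extension of `K₀` lies in the field generated over `K₀` by a torsion point.** -/
theorem exists_l0E (K₀ F : Type) [Field K₀] [NumberField K₀] [Field F] [NumberField F]
    [Algebra K₀ F] (hK : finrank ℚ K₀ = 2) {J d A B : ℤ} (hJd : (J, d) ∈ jd)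
    (hd : ∃ w : K₀, w ^ 2 = ((d : ℤ) : K₀)) (hAB : 4 * A ^ 3 + 27 * B ^ 2 ≠ 0)
    (hj : 6912 * A ^ 3 = J * (4 * A ^ 3 + 27 * B ^ 2)) {l : ℕ} [NeZero l] {ζ : 𝓞 K₀}
    (hζ : IsPrimitiveRoot ζ l) (hWR : ∀ c : 𝓞 K₀, c ≠ 0 → WR l ζ c)
    (hF : IntermediateField.adjoin K₀ {x : F | ∃ c : K₀, x ^ l = algebraMap K₀ F c} = ⊤)
    {c : 𝓞 K₀} (hc : c ≠ 0) :
    ∃ (L : Type) (_ : Field L) (_ : NumberField L) (_ : Algebra K₀ L) (_ : Algebra F L)
      (_ : IsScalarTower K₀ F L) (_ : DecidableEq L) (x y : L)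
      (hxy : (⟨0, 0, 0, ((A : ℤ) : L), ((B : ℤ) : L)⟩ :
        WeierstrassCurve L).toAffine.Nonsingular x y) (m : ℕ) (s : L), m ≠ 0 ∧
      m • Affine.Point.some x y hxy = 0 ∧
      IntermediateField.adjoin K₀ {x, y} = (⊤ : IntermediateField K₀ L) ∧
      s ^ l = algebraMap K₀ L (c : K₀) := by
  have hJ : J ∈ UF.jList.map Prod.fst := jd_mem hJd
  obtain ⟨tr, nm, -, hg', hmem, u, hu, cd, -, hA, hB, hdvd, hbad, -, -, htr, hnm⟩ :=
    exists_cdE hAB hj hJ
  subst htr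
  subst hnm
  have hdd : d = CD.tr ^ 2 - 4 * CD.nm := jd_disc hJd hmem
  have hcase := jd_case hmem
  obtain ⟨f, p, hp⟩ := HW.hdat_all hcase
  let iH : HC := ⟨f, p, hp⟩
  obtain ⟨w, hw⟩ := hd
  have hw' : ((w + (CD.tr : K₀)) / 2) ^ 2 =
      (CD.tr : K₀) * ((w + (CD.tr : K₀)) / 2) - (CD.nm : K₀) := by
    rw [hdd] at hw
    push_cast at hw
    linear_combination hw / 4
  obtain ⟨e, he⟩ := MP_1a91b9_nuT3.S8.exists_equiv hK hw'
  let aF : Algebra K F := ((algebraMap K₀ F).comp e.toRingHom).toAlgebra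
  have hFe : ∀ x : K, algebraMap K F x = algebraMap K₀ F (e x) := fun x => rfl
  obtain ⟨ε, hε⟩ : ∃ ε : 𝓞 K₀ ≃+* 𝓞 K, ∀ x, ((ε x : 𝓞 K) : K) = e.symm (x : K₀) :=
    ⟨RingOfIntegers.mapRingEquiv e.symm, fun x => rfl⟩
  have hζ' : IsPrimitiveRoot (ε ζ) l := hζ.map_of_injective (f := ε) ε.injective
  have hWR' : ∀ a : 𝓞 K, a ≠ 0 → WR l (ε ζ) a := by
    intro a ha
    have h1 : ε.symm a ≠ 0 := by
      intro h0
      apply ha
      have h2 := congrArg ε h0
      rwa [RingEquiv.apply_symm_apply, map_zero] at h2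
    have h2 := WR.trans ε (hWR _ h1)
    rwa [RingEquiv.apply_symm_apply] at h2
  have hc' : ε c ≠ 0 := by
    intro h0
    apply hc
    exact ε.injective (by rw [h0, map_zero])
  obtain ⟨L, i1, i2, i3, i4, i5, i6, x, y, hxy, m, s, hm, h1, h2, h3⟩ :=
    exists_l0K hu hA hB hζ' hWR' (gens_equiv e hFe hF) hc'
  let aL : Algebra K₀ L := ((algebraMap K L).comp e.symm.toRingHom).toAlgebra
  have hLe : ∀ x : K₀, algebraMap K₀ L x = algebraMap K L (e.symm x) := fun x => rfl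
  have hst : IsScalarTower K₀ F L := IsScalarTower.of_algebraMap_eq fun x => by
    rw [hLe, IsScalarTower.algebraMap_apply K F L, hFe, RingEquiv.apply_symm_apply]
  refine ⟨L, i1, i2, aL, i4, hst, i6, x, y, hxy, m, s, hm, h1, ?_, ?_⟩
  · obtain ⟨A', hA'⟩ : ∃ A' : IntermediateField K₀ L,
      A' = IntermediateField.adjoin K₀ {x, y} := ⟨_, rfl⟩
    let B' : IntermediateField K L := A'.toSubfield.toIntermediateField fun z => by
      change algebraMap K L z ∈ A'
      have h4 := A'.algebraMap_mem (e z)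
      rwa [hLe, RingEquiv.symm_apply_apply] at h4
    have hB' : B' = ⊤ := by
      rw [eq_top_iff, ← h2, IntermediateField.adjoin_le_iff]
      intro z hz
      change z ∈ A'
      rw [hA']
      exact IntermediateField.subset_adjoin K₀ {x, y} hz
    rw [← hA', eq_top_iff]
    intro z _
    have h4 : z ∈ B' := by
      rw [hB']
      exact IntermediateField.mem_top
    exact h4
  · rw [h3, hε, hLe]

end Pool.Agent.Lib.MP_1a91b9_ntJ
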