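import Pool.Agent.Lib.MP_1a91b9_ntJ.Ext2
import Pool.Agent.Lib.MP_1a91b9_nuI.Fa.FamT

/-!
# A Kummer extension of an imaginary quadratic field lies in the field generated by a torsion point: the
# curves with complex multiplication by the orders which are not maximal
-/

set_option autoImplicit false

namespace Pool.Agent.Lib.MP_1a91b9_ntJ

open NumberField IsDedekindDomain WeierstrassCurve Module
open Pool.Agent.Lib.MP_1a91b9_nuX.UF (jd)
open Pool.Agent.Lib.MP_1a91b9_nuI (Four cv cv_map Isg)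

/-- the extension `F` of `K` is contained in a field generated over `K` by a torsion point of
`y² = x³ + A x + B`, which contains a root of order `l` of `c` -/
def InTor (K F : Type) [Field K] [NumberField K] [Field F] [NumberField F] [Algebra K F]
    (A B : ℤ) (l : ℕ) (c : 𝓞 K) : Prop :=
  ∃ (L : Type) (_ : Field L) (_ : NumberField L) (_ : Algebra K L) (_ : Algebra F L)
    (_ : IsScalarTower K F L) (_ : DecidableEq L) (x y : L)
    (hxy : (⟨0, 0, 0, ((A : ℤ) : L), ((B : ℤ) : L)⟩ :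
      WeierstrassCurve L).toAffine.Nonsingular x y) (m : ℕ) (s : L), m ≠ 0 ∧
    m • Affine.Point.some x y hxy = 0 ∧
    IntermediateField.adjoin K {x, y} = (⊤ : IntermediateField K L) ∧
    s ^ l = algebraMap K L (c : K)

/-- **The orders which are not maximal.** -/
theorem InTor.four {K F : Type} [Field K] [NumberField K] [Field F] [NumberField F] [Algebra K F]
    {a' b' a b : ℤ} {n : ℕ} {j' j d : ℤ} (h : Four a' b' a b n j' j d) {D₀ : ℤ} (hD₀ : D₀ ≠ 0)
    {l : ℕ} {c : 𝓞 K} (hE : InTor K F (a * D₀ ^ 2) (b * D₀ ^ 3) l c) :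
    InTor K F (a' * D₀ ^ 2) (b' * D₀ ^ 3) l c := by
  obtain ⟨L', i1, i2, i3, i4, i5, i6, x', y', hxy, m, s, hm, h1, h2, h3⟩ := hE
  have hDK : (D₀ : K) ≠ 0 := by exact_mod_cast hD₀
  obtain ⟨i⟩ := h.isg (D₀ : K) hDK
  have hn : n ≠ 0 := by
    rcases h.n23 with rfl | rfl <;> norm_num
  have e1 : ∀ (L : Type) [Field L] [Algebra K L] (p q : ℤ),
      (⟨0, 0, 0, ((p * D₀ ^ 2 : ℤ) : L), ((q * D₀ ^ 3 : ℤ) : L)⟩ : WeierstrassCurve L) =
        Affine.baseChange (cv ((p : K) * (D₀ : K) ^ 2) ((q : K) * (D₀ : K) ^ 3)) L := by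
    intro L _ _ p q
    show _ = (cv ((p : K) * (D₀ : K) ^ 2) ((q : K) * (D₀ : K) ^ 3)).map (algebraMap K L)
    rw [cv_map]
    simp only [map_mul, map_pow, map_intCast]
    push_cast
    rfl
  have ht : ∃ h : (Affine.baseChange (cv ((a : K) * (D₀ : K) ^ 2) ((b : K) * (D₀ : K) ^ 3))
      L').Nonsingular x' y', IsOfFinAddOrder (Affine.Point.some x' y' h) := by
    rw [← e1 L']
    exact ⟨hxy, isOfFinAddOrder_iff_nsmul_eq_zero.2 ⟨m, Nat.pos_of_ne_zero hm, h1⟩⟩
  obtain ⟨hxy', ht'⟩ := ht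
  have hfd : FiniteDimensional K L' := FiniteDimensional.right ℚ K L'
  obtain ⟨L, j1, j2, j3, j4, φ, x, y, h5, h6, h7⟩ := i.lift hn x' y' hxy' ht' h2
  have j5 : NumberField L := NumberField.of_module_finite K L
  let aFL : Algebra F L := ((φ : L' →+* L).comp (algebraMap F L')).toAlgebra
  have j6 : IsScalarTower K F L := by
    refine IsScalarTower.of_algebraMap_eq fun k => ?_
    show algebraMap K L k = φ (algebraMap F L' (algebraMap K F k))
    rw [← IsScalarTower.algebraMap_apply K F L']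
    exact (φ.commutes k).symm
  have ht2 : ∃ h : (⟨0, 0, 0, ((a' * D₀ ^ 2 : ℤ) : L), ((b' * D₀ ^ 3 : ℤ) : L)⟩ :
      WeierstrassCurve L).toAffine.Nonsingular x y,
      IsOfFinAddOrder (Affine.Point.some x y h) := by
    rw [e1 L]
    exact ⟨h5, h6⟩
  obtain ⟨h8, h9⟩ := ht2
  obtain ⟨m', hm', h10⟩ := isOfFinAddOrder_iff_nsmul_eq_zero.1 h9
  refine ⟨L, j1, j5, j2, aFL, j6, j4, x, y, h8, m', φ s, hm'.ne', h10, h7, ?_⟩
  rw [← map_pow, h3]
  exact φ.commutes _

end Pool.Agent.Lib.MP_1a91b9_ntJ
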