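import Mathlib

/-!
# The squares `-4` and `-3` modulo a prime number
-/

set_option autoImplicit false

namespace Pool.Agent.Lib.MP_1a91b9_ntJ

theorem sq_four {p : ℕ} [Fact p.Prime] (h : p % 4 = 1) :
    p ≠ 2 ∧ IsSquare ((-4 : ℤ) : ZMod p) := by
  refine ⟨by omega, ?_⟩
  have h1 : IsSquare (-1 : ZMod p) := ZMod.exists_sq_eq_neg_one_iff.2 (by omega)
  obtain ⟨r, hr⟩ := h1
  refine ⟨2 * r, ?_⟩
  push_cast
  linear_combination 4 * hr

theorem sq_three {p : ℕ} [hp : Fact p.Prime] (h : p % 6 = 1) :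
    p ≠ 2 ∧ IsSquare ((-3 : ℤ) : ZMod p) := by
  refine ⟨by omega, ?_⟩
  have h3 : Fact (Nat.Prime 3) := ⟨by norm_num⟩
  obtain ⟨x, hx⟩ := exists_prime_orderOf_dvd_card (G := (ZMod p)ˣ) 3 (by
    rw [ZMod.card_units_eq_totient, Nat.totient_prime hp.out]
    omega)
  have h4 : (x : ZMod p) ^ 3 = 1 := by
    rw [← Units.val_pow_eq_pow_val, ← hx, pow_orderOf_eq_one, Units.val_one]
  have h5 : (x : ZMod p) ≠ 1 := by
    intro h6
    have h7 : x = 1 := Units.ext h6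
    rw [h7, orderOf_one] at hx
    omega
  have h6 : ((x : ZMod p) - 1) * ((x : ZMod p) ^ 2 + x + 1) = 0 := by
    linear_combination h4
  have h7 : (x : ZMod p) ^ 2 + x + 1 = 0 :=
    (mul_eq_zero.1 h6).resolve_left (sub_ne_zero.2 h5)
  refine ⟨2 * x + 1, ?_⟩
  push_cast
  linear_combination -4 * h7

end Pool.Agent.Lib.MP_1a91b9_ntJ
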