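import Pool.Agent.Lib.MP_1a91b9_ntJ.WR
import Pool.Agent.Lib.MP_1a91b9_ntN.T.SymT

/-!
# Weak reciprocity for cubic symbols

`T3 c`: for a suitable `m` the sum of the exponents of the cubic symbols of `c` at the prime factors of `z` is zero
for all `z` congruent to one modulo `m`. `T3` is multiplicative; for `w` and `√-3` it follows from the supplementary
laws, for a prime from cubic reciprocity.
-/

set_option autoImplicit false

namespace Pool.Agent.Lib.MP_1a91b9_ntJ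

open NumberField IsDedekindDomain UniqueFactorizationMonoid
open Pool.Agent.Lib.MP_1a91b9_nt (nrm nrm_eq)
open Pool.Agent.Lib.MP_1a91b9_ntT Pool.Agent.Lib.MP_1a91b9_ntX.R Pool.Agent.Lib.MP_1a91b9_ntK
open Pool.Agent.Lib.MP_1a91b9_ntN.T (unit_cases)
open Pool.Agent.Lib.MP_1a91b9_ntT.S4 (omO omO_eq)
open Pool.Agent.Lib.MP_1a91b9_ntH (wO s3 Nz prime_s3 s3_sq exists_coords)
open Pool.Agent.Lib.MP_1a91b9_nuG (addI atA)

private theorem ideal_induction3 {k : Type*} [Field k] [NumberField k] {P : Ideal (𝓞 k) → Prop}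
    (h1 : P 1)
    (h2 : ∀ (v : HeightOneSpectrum (𝓞 k)) (I : Ideal (𝓞 k)), I ≠ 0 → P I → P (I * v.asIdeal))
    (I : Ideal (𝓞 k)) (hI : I ≠ 0) : P I := by
  induction I using UniqueFactorizationMonoid.induction_on_prime with
  | h₁ => exact absurd rfl hI
  | h₂ J hJ =>
    have : J = 1 := by
      rw [Ideal.isUnit_iff] at hJ
      rw [hJ, Ideal.one_eq_top]
    rw [this]
    exact h1
  | h₃ J Q hJ hQ ih =>
    rw [mul_comm]
    exact h2 ⟨Q, Ideal.isPrime_of_prime hQ, hQ.ne_zero⟩ J hJ (ih hJ)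

private theorem addI_one {k A : Type*} [Field k] [NumberField k] [AddCommMonoid A]
    (χ : HeightOneSpectrum (𝓞 k) → A) : addI χ 1 = 0 := by
  rw [addI, normalizedFactors_one]
  rfl

private theorem addI_mul {k A : Type*} [Field k] [NumberField k] [AddCommMonoid A]
    (χ : HeightOneSpectrum (𝓞 k) → A) (I J : Ideal (𝓞 k)) (hI : I ≠ 0)
    (hJ : J ≠ 0) : addI χ (I * J) = addI χ I + addI χ J := by
  rw [addI, addI, addI, normalizedFactors_mul hI hJ, Multiset.map_add, Multiset.sum_add]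

private theorem addI_place {k A : Type*} [Field k] [NumberField k] [AddCommMonoid A]
    (χ : HeightOneSpectrum (𝓞 k) → A) (v : HeightOneSpectrum (𝓞 k)) :
    addI χ v.asIdeal = χ v := by
  rw [addI, normalizedFactors_irreducible v.irreducible,
    Multiset.map_singleton, Multiset.sum_singleton, normalize_eq, atA,
    dif_pos ⟨v.isPrime, v.ne_bot⟩]

theorem addI_congr3 {k A : Type*} [Field k] [NumberField k] [AddCommMonoid A]
    (x y : HeightOneSpectrum (𝓞 k) → A) (I : Ideal (𝓞 k)) (hI : I ≠ 0)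
    (h : ∀ v : HeightOneSpectrum (𝓞 k), I ≤ v.asIdeal → x v = y v) : addI x I = addI y I := by
  revert h
  refine ideal_induction3 (P := fun I =>
    (∀ v : HeightOneSpectrum (𝓞 k), I ≤ v.asIdeal → x v = y v) → addI x I = addI y I) ?_ ?_ I hI
  · intro _
    rw [addI_one, addI_one]
  · intro v I hI ih h
    rw [addI_mul _ _ _ hI v.ne_bot, addI_mul _ _ _ hI v.ne_bot, addI_place, addI_place,
      ih fun u hu => h u (Ideal.mul_le_left.trans hu), h v Ideal.mul_le_right]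

theorem addI_add3 {k A : Type*} [Field k] [NumberField k] [AddCommMonoid A]
    (x y : HeightOneSpectrum (𝓞 k) → A) (I : Ideal (𝓞 k)) (hI : I ≠ 0) :
    addI (fun v => x v + y v) I = addI x I + addI y I := by
  refine ideal_induction3 (P := fun I => addI (fun v => x v + y v) I = addI x I + addI y I)
    ?_ ?_ I hI
  · rw [addI_one, addI_one, addI_one, add_zero]
  · intro v I hI ih
    rw [addI_mul _ _ _ hI v.ne_bot, addI_mul _ _ _ hI v.ne_bot, addI_mul _ _ _ hI v.ne_bot,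
      addI_place, addI_place, addI_place, ih]
    exact add_add_add_comm _ _ _ _

private theorem span_ne3 {b : 𝓞 K} (hb : b ≠ 0) : Ideal.span {b} ≠ 0 := by
  rw [Ideal.zero_eq_bot, Ne, Ideal.span_singleton_eq_bot]
  exact hb

/-- the sum of the exponents of the symbols of `c` -/
def T3 (c : 𝓞 K) : Prop := ∃ m : 𝓞 K, m ≠ 0 ∧ ∀ z : 𝓞 K, z ≠ 0 → m ∣ z - 1 →
  addI (fun v : HeightOneSpectrum (𝓞 K) => cs v.asIdeal c) (Ideal.span {z}) = 0

/-- a divisor of `m` is not in a prime which contains an element congruent to one modulo `m` -/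
private theorem not_mem_of {m z a : 𝓞 K} (v : HeightOneSpectrum (𝓞 K)) (hz : z ∈ v.asIdeal)
    (hm : m ∣ z - 1) (ha : a ∣ m) : a ∉ v.asIdeal := by
  intro h
  have h1 : z - 1 ∈ v.asIdeal := v.asIdeal.mem_of_dvd (ha.trans hm) h
  have h2 := Ideal.sub_mem _ hz h1
  rw [sub_sub_cancel] at h2
  exact v.isPrime.ne_top ((Ideal.eq_top_iff_one _).2 h2)

theorem T3_mul {a b : 𝓞 K} (ha0 : a ≠ 0) (hb0 : b ≠ 0) (ha : T3 a) (hb : T3 b) : T3 (a * b) := by
  obtain ⟨m, hm0, hm⟩ := ha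
  obtain ⟨n, hn0, hn⟩ := hb
  have h3 : (3 : 𝓞 K) ≠ 0 := by norm_num
  refine ⟨m * n * (3 * (a * b)), mul_ne_zero (mul_ne_zero hm0 hn0)
    (mul_ne_zero h3 (mul_ne_zero ha0 hb0)), fun z hz hd => ?_⟩
  have e : addI (fun v : HeightOneSpectrum (𝓞 K) => cs v.asIdeal (a * b)) (Ideal.span {z}) =
      addI (fun v : HeightOneSpectrum (𝓞 K) => cs v.asIdeal a + cs v.asIdeal b)
        (Ideal.span {z}) := by
    refine addI_congr3 _ _ _ (span_ne3 hz) fun v hv => ?_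
    have hv' : z ∈ v.asIdeal := (Ideal.span_singleton_le_iff_mem _).1 hv
    have hG : G3 v.asIdeal := ⟨v.isPrime, v.ne_bot,
      not_mem_of v hv' hd ((Dvd.intro _ rfl).mul_left _)⟩
    exact cs_mul hG
      (not_mem_of v hv' hd (((Dvd.intro _ rfl : a ∣ a * b).mul_left _).mul_left _))
      (not_mem_of v hv' hd (((Dvd.intro_left _ rfl : b ∣ a * b).mul_left _).mul_left _))
  rw [e, addI_add3 _ _ _ (span_ne3 hz),
    hm z hz (((Dvd.intro _ rfl : m ∣ m * n).mul_right _).trans hd),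
    hn z hz (((Dvd.intro_left _ rfl : n ∣ m * n).mul_right _).trans hd), add_zero]

theorem T3_neg {a : 𝓞 K} (ha0 : a ≠ 0) (ha : T3 a) : T3 (-a) := by
  obtain ⟨m, hm0, hm⟩ := ha
  have h3 : (3 : 𝓞 K) ≠ 0 := by norm_num
  refine ⟨m * (3 * a), mul_ne_zero hm0 (mul_ne_zero h3 ha0), fun z hz hd => ?_⟩
  rw [← hm z hz ((Dvd.intro _ rfl : m ∣ m * (3 * a)).trans hd)]
  refine addI_congr3 _ _ _ (span_ne3 hz) fun v hv => ?_
  have hv' : z ∈ v.asIdeal := (Ideal.span_singleton_le_iff_mem _).1 hv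
  have hG : G3 v.asIdeal := ⟨v.isPrime, v.ne_bot,
    not_mem_of v hv' hd ((Dvd.intro _ rfl).mul_left _)⟩
  exact cs_neg hG (not_mem_of v hv' hd ((Dvd.intro_left _ rfl : a ∣ 3 * a).mul_left _))

theorem T3_one : T3 1 := by
  refine ⟨3, by norm_num, fun z hz hd => ?_⟩
  have e : addI (fun v : HeightOneSpectrum (𝓞 K) => cs v.asIdeal 1) (Ideal.span {z}) =
      addI (fun _ : HeightOneSpectrum (𝓞 K) => (0 : ZMod 3)) (Ideal.span {z}) := by
    refine addI_congr3 _ _ _ (span_ne3 hz) fun v hv => ?_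
    have hv' : z ∈ v.asIdeal := (Ideal.span_singleton_le_iff_mem _).1 hv
    exact cs_one ⟨v.isPrime, v.ne_bot, not_mem_of v hv' hd dvd_rfl⟩
  rw [e]
  refine ideal_induction3 (P := fun I =>
    addI (fun _ : HeightOneSpectrum (𝓞 K) => (0 : ZMod 3)) I = 0) ?_ ?_ _ (span_ne3 hz)
  · rw [addI_one]
  · intro v I hI ih
    rw [addI_mul _ _ _ hI v.ne_bot, addI_place, ih, add_zero]

/-- a prime not dividing three has a generator congruent to one modulo three -/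
theorem exists_primary (v : HeightOneSpectrum (𝓞 K)) (h3 : (3 : 𝓞 K) ∉ v.asIdeal) :
    ∃ β : 𝓞 K, Prime β ∧ (3 : 𝓞 K) ∣ β - 1 ∧ Ideal.span {β} = v.asIdeal := by
  have hcop : IsCoprime v.asIdeal (Ideal.span {(3 : 𝓞 K)}) := by
    rw [Ideal.isCoprime_iff_sup_eq]
    refine v.isMaximal.1.2 _ (lt_of_le_of_ne le_sup_left ?_)
    intro h
    apply h3
    rw [h]
    exact Ideal.mem_sup_right (Ideal.mem_span_singleton_self 3)
  obtain ⟨β, hβ1, hβs⟩ := S4.exists_gen v.asIdeal hcop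
  have hβ0 : β ≠ 0 := by
    rintro rfl
    apply v.ne_bot
    rw [← hβs]
    simp
  refine ⟨β, ?_, hβ1, hβs⟩
  have h1 := v.isPrime
  rw [← hβs] at h1
  exact (Ideal.span_singleton_prime hβ0).1 h1

/-- The sum over the prime factors of an additive function. -/
theorem addI_eq (Z : 𝓞 K) (x : HeightOneSpectrum (𝓞 K) → ZMod 3) (F : 𝓞 K → ZMod 3)
    (h1 : F 1 = 0)
    (hmul : ∀ β z : 𝓞 K, (3 : 𝓞 K) ∣ β - 1 → (3 : 𝓞 K) ∣ z - 1 → β * z ∣ Z →
      F (β * z) = F β + F z)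
    (hx : ∀ (v : HeightOneSpectrum (𝓞 K)) (β : 𝓞 K), Prime β → (3 : 𝓞 K) ∣ β - 1 →
      Ideal.span {β} = v.asIdeal → β ∣ Z → x v = F β)
    (z : 𝓞 K) (hz : z ≠ 0) (h3 : (3 : 𝓞 K) ∣ z - 1) (hZ : z ∣ Z) :
    addI x (Ideal.span {z}) = F z := by
  have key : ∀ I : Ideal (𝓞 K), I ≠ 0 → ∀ z : 𝓞 K, z ≠ 0 → (3 : 𝓞 K) ∣ z - 1 → z ∣ Z →
      Ideal.span {z} = I → addI x I = F z := by
    intro I hI
    refine ideal_induction3 (P := fun I => ∀ z : 𝓞 K, z ≠ 0 → (3 : 𝓞 K) ∣ z - 1 → z ∣ Z →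
      Ideal.span {z} = I → addI x I = F z) ?_ ?_ I hI
    · intro z _ hz3 _ hzI
      rw [Ideal.one_eq_top, Ideal.span_singleton_eq_top] at hzI
      rw [addI_one, unit3 hzI hz3, h1]
    · intro v I hI ih z hz hz3 hzZ hzI
      have hzv : z ∈ v.asIdeal := by
        have h2 : Ideal.span {z} ≤ v.asIdeal := by
          rw [hzI]
          exact Ideal.mul_le_right
        exact h2 (Ideal.mem_span_singleton_self z)
      obtain ⟨β, hβ, hβ1, hβs⟩ := exists_primary v (not_mem_of v hzv hz3 dvd_rfl)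
      rw [← hβs] at hzv
      obtain ⟨z', rfl⟩ := Ideal.mem_span_singleton.1 hzv
      have hz'0 : z' ≠ 0 := right_ne_zero_of_mul hz
      have hz'3 : (3 : 𝓞 K) ∣ z' - 1 := by
        have h2 := dvd_sub hz3 (hβ1.mul_right z')
        have e : β * z' - 1 - (β - 1) * z' = z' - 1 := by ring
        rwa [e] at h2
      have hzI' : Ideal.span {z'} = I := by
        rw [← Ideal.span_singleton_mul_span_singleton, ← hβs, mul_comm I] at hzI
        exact mul_left_cancel₀ (span_ne3 hβ.ne_zero) hzI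
      rw [addI_mul _ _ _ hI v.ne_bot, addI_place,
        ih z' hz'0 hz'3 ((Dvd.intro_left _ rfl).trans hzZ) hzI',
        hx v β hβ hβ1 hβs ((Dvd.intro _ rfl).trans hzZ), hmul β z' hβ1 hz'3 hzZ, add_comm]
  exact key _ (span_ne3 hz) z hz h3 hZ rfl

open Classical in
/-- a linear function of the coordinates -/
private noncomputable def lin3 (a b : ZMod 3) (z : 𝓞 K) : ZMod 3 :=
  if h : ∃ p : ℤ × ℤ, z = 1 + 3 * ((p.1 : 𝓞 K) + p.2 * wO) then
    a * (h.choose.1 : ZMod 3) + b * (h.choose.2 : ZMod 3) else 0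

private theorem lin3_eq (a b : ZMod 3) (m n : ℤ) :
    lin3 a b (1 + 3 * ((m : 𝓞 K) + n * wO)) = a * m + b * n := by
  have h : ∃ p : ℤ × ℤ, (1 + 3 * ((m : 𝓞 K) + n * wO)) = 1 + 3 * ((p.1 : 𝓞 K) + p.2 * wO) :=
    ⟨(m, n), rfl⟩
  rw [lin3, dif_pos h]
  have h1 := h.choose_spec
  have h2 : (m : 𝓞 K) + n * wO = ((h.choose.1 : ℤ) : 𝓞 K) + ((h.choose.2 : ℤ) : 𝓞 K) * wO := by
    have h3 : (3 : 𝓞 K) ≠ 0 := by norm_num
    apply mul_left_cancel₀ h3
    linear_combination h1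
  obtain ⟨h4, h5⟩ := Pool.Agent.Lib.MP_1a91b9_ntH.isEis.eq_iff.1 h2
  rw [← h4, ← h5]

private theorem form3 {β : 𝓞 K} (h : (3 : 𝓞 K) ∣ β - 1) :
    ∃ m n : ℤ, β = 1 + 3 * ((m : 𝓞 K) + n * wO) := by
  obtain ⟨c, hc⟩ := h
  obtain ⟨p, rfl⟩ := exists_coords c
  exact ⟨p.1, p.2, by linear_combination hc⟩

private theorem lin3_mul (a b : ZMod 3) {β z : 𝓞 K} (hβ : (3 : 𝓞 K) ∣ β - 1)
    (hz : (3 : 𝓞 K) ∣ z - 1) : lin3 a b (β * z) = lin3 a b β + lin3 a b z := by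
  obtain ⟨m, n, rfl⟩ := form3 hβ
  obtain ⟨m', n', rfl⟩ := form3 hz
  have e : (1 + 3 * ((m : 𝓞 K) + n * wO)) * (1 + 3 * ((m' : 𝓞 K) + n' * wO)) =
      1 + 3 * (((m + m' + 3 * (m * m' - n * n') : ℤ) : 𝓞 K) +
        ((n + n' + 3 * (m * n' + n * m' - n * n') : ℤ) : 𝓞 K) * wO) := by
    push_cast
    linear_combination 9 * n * n' * Pool.Agent.Lib.MP_1a91b9_ntH.wO_quad
  rw [e, lin3_eq, lin3_eq, lin3_eq]
  push_cast
  have e3 : (3 : ZMod 3) = 0 := by decide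
  rw [e3]
  ring

private theorem lin3_one (a b : ZMod 3) : lin3 a b 1 = 0 := by
  have h := lin3_mul a b (β := 1) (z := 1) (by simp) (by simp)
  rw [mul_one] at h
  exact left_eq_add.1 h

private theorem lin3_nine (a b : ZMod 3) {z : 𝓞 K} (h : (9 : 𝓞 K) ∣ z - 1) : lin3 a b z = 0 := by
  obtain ⟨c, hc⟩ := h
  obtain ⟨p, rfl⟩ := exists_coords c
  have e : z = 1 + 3 * (((3 * p.1 : ℤ) : 𝓞 K) + ((3 * p.2 : ℤ) : 𝓞 K) * wO) := by
    push_cast
    linear_combination hc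
  rw [e, lin3_eq]
  push_cast
  have e3 : (3 : ZMod 3) = 0 := by decide
  rw [e3]
  ring

private theorem T3_lin (a b : ZMod 3) (c : 𝓞 K)
    (h : ∀ (β : 𝓞 K) (m n : ℤ), Prime β → β = 1 + 3 * ((m : 𝓞 K) + n * wO) →
      cs (Ideal.span {β}) c = a * m + b * n) : T3 c := by
  refine ⟨9, by norm_num, fun z hz hd => ?_⟩
  have h3 : (3 : 𝓞 K) ∣ z - 1 := (Dvd.intro 3 (by norm_num) : (3 : 𝓞 K) ∣ 9).trans hd
  rw [addI_eq z _ (lin3 a b) (lin3_one a b) (fun β z' hβ hz' _ => lin3_mul a b hβ hz')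
    (fun v β hβ hβ1 hβs _ => ?_) z hz h3 dvd_rfl, lin3_nine a b hd]
  obtain ⟨m, n, rfl⟩ := form3 hβ1
  rw [← hβs, lin3_eq]
  exact h _ m n hβ rfl

theorem T3_w : T3 wO :=
  T3_lin (-1) (-1) _ fun β m n hβ h => by
    rw [cs_w hβ m n h]
    ring

theorem T3_s3 : T3 s3 :=
  T3_lin 0 (-1) _ fun β m n hβ h => by
    rw [cs_s3 hβ m n h]
    ring

theorem T3_prime {π : 𝓞 K} (hπ : Prime π) (h3 : (3 : 𝓞 K) ∣ π - 1) : T3 π := by
  have h30 : (3 : 𝓞 K) ≠ 0 := by norm_num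
  have hG := g3 hπ h3
  refine ⟨3 * π, mul_ne_zero h30 hπ.ne_zero, fun z hz hd => ?_⟩
  have hz3 : (3 : 𝓞 K) ∣ z - 1 := (Dvd.intro _ rfl).trans hd
  have hzπ : z - 1 ∈ Ideal.span {π} := Ideal.mem_span_singleton.2 ((Dvd.intro_left _ rfl).trans hd)
  have hz' : z ∉ Ideal.span {π} := by
    intro h
    have h2 := Ideal.sub_mem _ h hzπ
    rw [sub_sub_cancel] at h2
    exact hG.pr.ne_top ((Ideal.eq_top_iff_one _).2 h2)
  have hdz : ∀ a : 𝓞 K, a ∣ z → a ∉ Ideal.span {π} := fun a ha h =>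
    hz' (Ideal.mem_of_dvd _ ha h)
  rw [addI_eq z _ (cs (Ideal.span {π})) (cs_one hG)
    (fun β z' _ _ hβz => cs_mul hG (hdz β ((Dvd.intro _ rfl).trans hβz))
      (hdz z' ((Dvd.intro_left _ rfl).trans hβz)))
    (fun v β hβ hβ1 hβs hβz => ?_) z hz hz3 dvd_rfl, cs_congr hG hz' hzπ, cs_one hG]
  rw [← hβs]
  refine cs_recip hβ hπ hβ1 h3 ?_
  rintro rfl
  exact hdz β hβz (Ideal.mem_span_singleton_self β)

theorem T3_unit {u : 𝓞 K} (hu : IsUnit u) : T3 u := by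
  have hw : IsUnit (wO : 𝓞 K) := omU.isUnit
  have hww := T3_mul hw.ne_zero hw.ne_zero T3_w T3_w
  rcases unit_cases hu with rfl | rfl | rfl | rfl | rfl | rfl
  · exact T3_one
  · exact T3_neg one_ne_zero T3_one
  · exact T3_w
  · exact T3_neg hw.ne_zero T3_w
  · exact hww
  · exact T3_neg (mul_ne_zero hw.ne_zero hw.ne_zero) hww

theorem T3_all (c : 𝓞 K) (hc : c ≠ 0) : T3 c := by
  have hpid : IsPrincipalIdealRing (𝓞 K) := IsCyclotomicExtension.Rat.three_pid K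
  induction c using UniqueFactorizationMonoid.induction_on_prime with
  | h₁ => exact absurd rfl hc
  | h₂ u hu => exact T3_unit hu
  | h₃ a p ha0 hp ih =>
    refine T3_mul hp.ne_zero ha0 ?_ (ih ha0)
    by_cases hs : s3 ∣ p
    · obtain ⟨c, hc⟩ := hs
      have hc' : IsUnit c := by
        rcases (hp.irreducible.isUnit_or_isUnit hc) with h | h
        · exact absurd h prime_s3.not_isUnit
        · exact h
      rw [hc]
      exact T3_mul prime_s3.ne_zero hc'.ne_zero T3_s3 (T3_unit hc')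
    · have hG := g3_of hp hs
      obtain ⟨π, hπ, hπ1, hπs⟩ := exists_primary ⟨Ideal.span {p}, hG.pr, hG.ne⟩ hG.three
      have hassoc : Associated π p := Ideal.span_singleton_eq_span_singleton.1 hπs
      obtain ⟨c, hc⟩ := hassoc
      rw [← hc]
      exact T3_mul hπ.ne_zero c.isUnit.ne_zero (T3_prime hπ hπ1) (T3_unit c.isUnit)

/-- **Weak reciprocity for cubic symbols.** -/
theorem wr_three (c : 𝓞 K) (hc : c ≠ 0) : WR 3 omO c := by
  obtain ⟨m, hm0, hm⟩ := T3_all c hc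
  have h3 : (3 : 𝓞 K) ≠ 0 := by norm_num
  refine ⟨m * (3 * c), mul_ne_zero hm0 (mul_ne_zero h3 hc), fun x z hz hd hx => ?_⟩
  rw [← hm z hz ((Dvd.intro _ rfl : m ∣ m * (3 * c)).trans hd)]
  refine addI_congr3 _ _ _ (span_ne3 hz) fun v hv => ?_
  have hv' : z ∈ v.asIdeal := (Ideal.span_singleton_le_iff_mem _).1 hv
  have hG : G3 v.asIdeal := ⟨v.isPrime, v.ne_bot,
    not_mem_of v hv' hd ((Dvd.intro _ rfl).mul_left _)⟩
  refine (cs_eq hG (not_mem_of v hv' hd ((Dvd.intro_left _ rfl : c ∣ 3 * c).mul_left _)) _ ?_).symm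
  have h4 := hx v hv'
  rw [nrm_eq] at h4
  rw [w3, Units.val_pow_eq_pow_val, omU_val]
  have h5 := v.asIdeal.neg_mem h4
  rwa [neg_sub] at h5

end Pool.Agent.Lib.MP_1a91b9_ntJ
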