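import Pool.Agent.Lib.MP_1a91b9_ntJ.Tow
import Pool.Agent.Lib.MP_1a91b9_ntJ.WR2
import Pool.Agent.Lib.MP_1a91b9_ntJ.WR3
import Pool.Agent.Lib.MP_1a91b9_ntJ.Tr
import Pool.Agent.Lib.MP_1a91b9_ntJ.Sq
import Pool.Agent.Lib.MP_1a91b9_ntJ.AnomC
import Pool.Agent.Lib.MP_1a91b9_ntN.Q.Iso

/-!
# The towers over a Kummer extension of `ℚ(i)` or `ℚ(√-3)`
-/

set_option autoImplicit false

namespace Pool.Agent.Lib.MP_1a91b9_ntJ

open NumberField IsDedekindDomain WeierstrassCurve Module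
open Pool.Agent.Lib.MP_1a91b9_nuI
open Pool.Agent.Lib.MP_1a91b9_nuX.UF (jd)

/-- The conclusion for all the towers above `F`, for the curve `y² = x³ + α x + β`; the primes above `ℓ` may
ramify only for `ℓ ≡ 1` modulo `k`. -/
def Kt (k : ℕ) (F : Type) [Field F] [NumberField F] (α β : 𝓞 F) : Prop :=
  ∃ S : Finset ℕ, ∀ (ℓ : ℕ) [Fact ℓ.Prime], ℓ ∉ S →
    ∀ (j : ℕ) (N L M : Type) [Field N] [NumberField N] [Field L] [NumberField L] [Field M]
      [NumberField M] [Algebra N L] [Algebra F L] [Algebra L M] [Algebra F M]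
      [IsScalarTower F L M] [IsGalois F M], Module.finrank F M = ℓ ^ j →
    (∀ (v : HeightOneSpectrum (𝓞 F)) (w : HeightOneSpectrum (𝓞 L)),
      v.asIdeal.map (algebraMap (𝓞 F) (𝓞 L)) ≤ w.asIdeal ^ 2 →
        ((ℓ : 𝓞 F) ∈ v.asIdeal → ℓ % k = 1) ∧
          ((ℓ : 𝓞 F) ∉ v.asIdeal → 6 * (4 * α ^ 3 + 27 * β ^ 2) ∉ v.asIdeal →
            ¬ ℓ ∣ Nat.card (⟨0, 0, 0, Ideal.Quotient.mk v.asIdeal α,
              Ideal.Quotient.mk v.asIdeal β⟩ :
                WeierstrassCurve (𝓞 F ⧸ v.asIdeal)).toAffine.Point)) →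
    ∀ (W : WeierstrassCurve N) (C : VariableChange L),
      C • W.baseChange L = ⟨0, 0, 0, algebraMap F L α, algebraMap F L β⟩ →
      ∃ g : ℂ → ℂ, Differentiable ℂ g ∧ (∀ s : ℂ, 3 / 2 < s.re → g s = W.LSeries s) ∧
        g 1 ≠ 0 ∧
        (∃ r : ℚ, IsCoprime r.num (ℓ : ℤ) ∧ r.den.Coprime ℓ ∧
          g 1 * (√|(discr N : ℝ)| : ℝ) / (Pool.Agent.Lib.MP_1a91b9_nuT.S9.period W : ℝ) =
            (r * ((Nat.card (Pool.Agent.Lib.MP_1a91b9_nuT3.S9.ShaP ℓ W) : ℝ) *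
              ((∏ᶠ v : HeightOneSpectrum (𝓞 N),
                Pool.Agent.Lib.MP_1a91b9_nuT.S9.tam W v : ℕ) : ℝ) /
                (Nat.card W.toAffine.Point : ℝ) ^ 2) : ℝ)) ∧
        Nat.card (Pool.Agent.Lib.MP_1a91b9_nuT3.S9.ShaP ℓ W) = 1 ∧
        (∀ v : HeightOneSpectrum (𝓞 N),
          (Pool.Agent.Lib.MP_1a91b9_nuT.S9.tam W v).Coprime ℓ) ∧
        Finite W.toAffine.Point ∧ (Nat.card W.toAffine.Point).Coprime ℓ

theorem kt_of {k : ℕ} {d : ℤ} (hkd : ∀ (ℓ : ℕ) [Fact ℓ.Prime], ℓ % k = 1 →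
      ℓ ≠ 2 ∧ IsSquare ((d : ℤ) : ZMod ℓ)) {F : Type} [Field F] [NumberField F] {α β : 𝓞 F}
    (hna : ∀ (ℓ : ℕ) [Fact ℓ.Prime], ℓ % k = 1 → ∀ v : HeightOneSpectrum (𝓞 F),
      (ℓ : 𝓞 F) ∈ v.asIdeal → 6 * (4 * α ^ 3 + 27 * β ^ 2) ∉ v.asIdeal →
        ¬ ℓ ∣ Nat.card (⟨0, 0, 0, Ideal.Quotient.mk v.asIdeal α,
          Ideal.Quotient.mk v.asIdeal β⟩ :
            WeierstrassCurve (𝓞 F ⧸ v.asIdeal)).toAffine.Point)
    (h : ∃ S : Finset ℕ, ∀ ℓ : ℕ, ℓ.Prime → ℓ ∉ S →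
      TowB ℓ ∅ d α β (fun N _ _ W => Con1 N W ∧ Con2' ℓ N W)) : Kt k F α β := by
  obtain ⟨S, hS⟩ := h
  refine ⟨S, fun ℓ hℓ hℓS j N L M _ _ _ _ _ _ _ _ _ _ _ _ hM hR W C hC => ?_⟩
  obtain ⟨⟨⟨g, g1, g2, g3⟩, -⟩, h2⟩ := hS ℓ hℓ.out hℓS j N L M hM (fun v w hvw =>
    ⟨fun hv => ⟨Finset.notMem_empty _, hkd ℓ ((hR v w hvw).1 hv)⟩, fun h6 => by
      by_cases hv : (ℓ : 𝓞 F) ∈ v.asIdeal
      · exact hna ℓ ((hR v w hvw).1 hv) v hv h6
      · exact (hR v w hvw).2 hv h6⟩) W C hC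
  obtain ⟨h3, h4, h5, h6, h7⟩ := h2 hℓ g g1 g2
  exact ⟨g, g1, g2, g3, h3, h4, h5, h6, h7⟩

/-- `ℚ(i)` -/
theorem kt_two {F : Type} [Field F] [NumberField F] [Algebra (CyclotomicField 4 ℚ) F]
    (hF : IntermediateField.adjoin (CyclotomicField 4 ℚ)
      {x : F | ∃ c : CyclotomicField 4 ℚ, x ^ 2 = algebraMap (CyclotomicField 4 ℚ) F c} = ⊤)
    {d : 𝓞 (CyclotomicField 4 ℚ)} (hd : d ≠ 0) {α β : 𝓞 F}
    (hα : (α : F) = -(algebraMap (CyclotomicField 4 ℚ) F d) ^ 2) (hβ : (β : F) = 0)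
    (hg : Lne (⟨0, 0, 0, (α : F), (β : F)⟩ : WeierstrassCurve F)) : Kt 4 F α β := by
  have hc := Pool.Agent.Lib.MP_1a91b9_ntN.cyc_any 4 (inferInstance : Algebra ℚ (CyclotomicField 4 ℚ))
  have htc : IsTotallyComplex (CyclotomicField 4 ℚ) :=
    IsCyclotomicExtension.Rat.isTotallyComplex (n := 4) (CyclotomicField 4 ℚ) (by norm_num)
  have hfin : finrank ℚ (CyclotomicField 4 ℚ) = 2 := by
    rw [IsCyclotomicExtension.finrank (n := 4) (CyclotomicField 4 ℚ)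
      (Polynomial.cyclotomic.irreducible_rat (by norm_num))]
    decide
  have hd0 : algebraMap (CyclotomicField 4 ℚ) F d ≠ 0 := by
    rw [Ne, map_eq_zero]
    intro h0
    exact hd (RingOfIntegers.ext h0)
  have hβ0 : β = 0 := RingOfIntegers.ext hβ
  have hα0 : α ≠ 0 := by
    intro h0
    rw [h0] at hα
    have h1 : (0 : F) = -(algebraMap (CyclotomicField 4 ℚ) F d) ^ 2 := hα
    exact pow_ne_zero 2 hd0 (by rw [← neg_eq_zero]; exact h1.symm)
  refine kt_of (d := -4) (fun ℓ _ h => sq_four h) (fun ℓ _ h v hv h6 =>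
    no_anom_two hF hα hβ h v hv h6) (tow_of (CyclotomicField 4 ℚ) F hfin
    (J := 1728) (d := -4) (A := -1) (B := 0) (l := 2) (ζ := -1) (by simp [jd]) ?_ (by norm_num)
    (by norm_num) ?_ (fun c hc => wr_two c hc) hF hd ?_ ?_ hg)
  · have hz := IsCyclotomicExtension.zeta_spec 4 ℚ (CyclotomicField 4 ℚ)
    obtain ⟨z, hz4⟩ : ∃ z : CyclotomicField 4 ℚ, IsPrimitiveRoot z 4 := ⟨_, hz⟩
    have h1 : (z ^ 2 - 1) * (z ^ 2 + 1) = 0 := by
      linear_combination hz4.pow_eq_one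
    have h2 : z ^ 2 - 1 ≠ 0 := by
      intro h3
      have := hz4.dvd_of_pow_eq_one 2 (sub_eq_zero.1 h3)
      omega
    have h3 := (mul_eq_zero.1 h1).resolve_left h2
    refine ⟨2 * z, ?_⟩
    push_cast
    linear_combination 4 * h3
  · exact IsPrimitiveRoot.neg_one 0 (by norm_num)
  · rw [hβ0]
    intro h0
    have h1 : 4 * α ^ 3 = 0 := by linear_combination h0
    rcases mul_eq_zero.1 h1 with h2 | h2
    · norm_num at h2
    · exact pow_ne_zero 3 hα0 h2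
  · intro L _ _ _ _ _ s hs
    have hs0 : s ≠ 0 := by
      rintro rfl
      apply hd0
      apply (algebraMap F L).injective
      rw [← IsScalarTower.algebraMap_apply, ← hs, map_zero, zero_pow two_ne_zero]
    refine ⟨⟨Units.mk0 s hs0, 0, 0, 0⟩, ?_⟩
    have e : algebraMap F L (α : F) = -s ^ 4 := by
      rw [hα, map_neg, map_pow, ← IsScalarTower.algebraMap_apply, ← hs]
      ring
    rw [e, hβ, map_zero]
    ext
    · simp [variableChange_a₁]
    · simp [variableChange_a₂]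
    · simp [variableChange_a₃]
    · simp only [variableChange_a₄, Units.val_inv_eq_inv_val, Units.val_mk0]
      field_simp
      push_cast
      ring
    · simp [variableChange_a₆]

/-- `ℚ(√-3)` -/
theorem kt_three {F : Type} [Field F] [NumberField F] [Algebra (CyclotomicField 6 ℚ) F]
    (hF : IntermediateField.adjoin (CyclotomicField 6 ℚ)
      {x : F | ∃ c : CyclotomicField 6 ℚ, x ^ 3 = algebraMap (CyclotomicField 6 ℚ) F c} = ⊤)
    {d : 𝓞 (CyclotomicField 6 ℚ)} (hd : d ≠ 0) {α β : 𝓞 F} (hα : (α : F) = 0)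
    (hβ : (β : F) = 16 * (algebraMap (CyclotomicField 6 ℚ) F d) ^ 2)
    (hg : Lne (⟨0, 0, 0, (α : F), (β : F)⟩ : WeierstrassCurve F)) : Kt 6 F α β := by
  have hc := Pool.Agent.Lib.MP_1a91b9_ntN.cyc_any 6 (inferInstance : Algebra ℚ (CyclotomicField 6 ℚ))
  have hfin : finrank ℚ (CyclotomicField 6 ℚ) = 2 := by
    rw [IsCyclotomicExtension.finrank (n := 6) (CyclotomicField 6 ℚ)
      (Polynomial.cyclotomic.irreducible_rat (by norm_num))]
    decide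
  obtain ⟨e⟩ := Pool.Agent.Lib.MP_1a91b9_ntN.exists_iso36
  obtain ⟨ε, -⟩ : ∃ ε : 𝓞 (Pool.Agent.Lib.MP_1a91b9_ntT.K) ≃+* 𝓞 (CyclotomicField 6 ℚ), True :=
    ⟨RingOfIntegers.mapRingEquiv (e : Pool.Agent.Lib.MP_1a91b9_ntT.K ≃+* _), trivial⟩
  have hWR : ∀ c : 𝓞 (CyclotomicField 6 ℚ), c ≠ 0 →
      WR 3 (ε Pool.Agent.Lib.MP_1a91b9_ntT.S4.omO) c := by
    intro c hc
    have h1 : ε.symm c ≠ 0 := by
      intro h0
      apply hc
      have h2 := congrArg ε h0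
      rwa [RingEquiv.apply_symm_apply, map_zero] at h2
    have h2 := WR.trans ε (wr_three _ h1)
    rwa [RingEquiv.apply_symm_apply] at h2
  have hd0 : algebraMap (CyclotomicField 6 ℚ) F d ≠ 0 := by
    rw [Ne, map_eq_zero]
    intro h0
    exact hd (RingOfIntegers.ext h0)
  have hα0 : α = 0 := RingOfIntegers.ext hα
  have hβ0 : β ≠ 0 := by
    intro h0
    rw [h0] at hβ
    have h1 : (0 : F) = 16 * (algebraMap (CyclotomicField 6 ℚ) F d) ^ 2 := hβ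
    exact mul_ne_zero (by norm_num) (pow_ne_zero 2 hd0) h1.symm
  refine kt_of (d := -3) (fun ℓ _ h => sq_three h) (fun ℓ _ h v hv h6 =>
    no_anom_three hF hα hβ h v hv h6) (tow_of (CyclotomicField 6 ℚ) F hfin
    (J := 0) (d := -3) (A := 0) (B := 16) (l := 3) (ζ := ε Pool.Agent.Lib.MP_1a91b9_ntT.S4.omO)
    (by simp [jd]) ?_ (by norm_num) (by norm_num) ?_ hWR hF hd ?_ ?_ hg)
  · have hz := IsCyclotomicExtension.zeta_spec 6 ℚ (CyclotomicField 6 ℚ)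
    obtain ⟨z, hz4⟩ : ∃ z : CyclotomicField 6 ℚ, IsPrimitiveRoot z 6 := ⟨_, hz⟩
    have h1 : (z ^ 2 - 1) * (z + 1) * (z * (z - 1) + 1) * (z ^ 2 + z + 1) = 0 := by
      have h2 := hz4.pow_eq_one
      linear_combination (z + 1) * h2
    have h2 : z ^ 2 - 1 ≠ 0 := by
      intro h3
      have := hz4.dvd_of_pow_eq_one 2 (sub_eq_zero.1 h3)
      omega
    have h3 : z ^ 2 + z + 1 ≠ 0 := by
      intro h3
      have h4 : z ^ 3 = 1 := by linear_combination (z - 1) * h3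
      have := hz4.dvd_of_pow_eq_one 3 h4
      omega
    have h4 : z + 1 ≠ 0 := by
      intro h4
      apply h2
      linear_combination (z - 1) * h4
    have h5 : z * (z - 1) + 1 = 0 :=
      (mul_eq_zero.1 ((mul_eq_zero.1 h1).resolve_right h3)).resolve_left (mul_ne_zero h2 h4)
    refine ⟨2 * z - 1, ?_⟩
    push_cast
    linear_combination 4 * h5
  · have h1 : IsPrimitiveRoot Pool.Agent.Lib.MP_1a91b9_ntT.S4.omO 3 :=
      Pool.Agent.Lib.MP_1a91b9_ntT.om_spec.toInteger_isPrimitiveRoot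
    exact h1.map_of_injective (f := ε) ε.injective
  · rw [hα0]
    intro h0
    have h1 : 27 * β ^ 2 = 0 := by linear_combination h0
    rcases mul_eq_zero.1 h1 with h2 | h2
    · norm_num at h2
    · exact pow_ne_zero 2 hβ0 h2
  · intro L _ _ _ _ _ s hs
    have hs0 : s ≠ 0 := by
      rintro rfl
      apply hd0
      apply (algebraMap F L).injective
      rw [← IsScalarTower.algebraMap_apply, ← hs, map_zero, zero_pow three_ne_zero]
    refine ⟨⟨Units.mk0 s hs0, 0, 0, 0⟩, ?_⟩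
    have e : algebraMap F L (β : F) = 16 * s ^ 6 := by
      rw [hβ, map_mul, map_pow, ← IsScalarTower.algebraMap_apply, ← hs, map_ofNat]
      ring
    rw [e, hα, map_zero]
    ext
    · simp [variableChange_a₁]
    · simp [variableChange_a₂]
    · simp [variableChange_a₃]
    · simp [variableChange_a₄]
    · simp only [variableChange_a₆, Units.val_inv_eq_inv_val, Units.val_mk0]
      field_simp
      push_cast
      ring

end Pool.Agent.Lib.MP_1a91b9_ntJ
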