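import Mathlib

/-!
# Finitely many integers of bounded norm in an imaginary quadratic field
-/

set_option autoImplicit false

namespace Pool.Agent.Lib.MP_1a91b9_ntJ

open NumberField

/-- There are finitely many integers of bounded norm in an imaginary quadratic field. -/
theorem finite_norm {K : Type*} [Field K] [NumberField K] [IsTotallyComplex K]
    (h2 : Module.finrank ℚ K = 2) (X : ℝ) :
    {x : 𝓞 K | ((|Algebra.norm ℤ x| : ℤ) : ℝ) ≤ X}.Finite := by
  classical
  have hinj : Function.Injective (fun x : 𝓞 K => (x : K)) := RingOfIntegers.coe_injective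
  refine Set.Finite.of_finite_image ?_ hinj.injOn
  refine (NumberField.Embeddings.finite_of_norm_le K ℂ (√X)).subset ?_
  rintro y ⟨x, hx, rfl⟩
  refine ⟨RingOfIntegers.isIntegral_coe x, fun φ => ?_⟩
  have hX : 0 ≤ X := le_trans (by positivity) hx
  rw [← NumberField.InfinitePlace.apply φ, Real.le_sqrt (apply_nonneg _ _) hX]
  have hcard : Fintype.card (InfinitePlace K) = 1 := by
    have h3 := InfinitePlace.card_add_two_mul_card_eq_rank K
    have h4 := InfinitePlace.card_eq_nrRealPlaces_add_nrComplexPlaces K
    have h5 : InfinitePlace.nrRealPlaces K = 0 := IsTotallyComplex.nrRealPlaces_eq_zero K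
    omega
  have hsub : Subsingleton (InfinitePlace K) := Fintype.card_le_one_iff_subsingleton.1 hcard.le
  have hprod := InfinitePlace.prod_eq_abs_norm (x : K)
  rw [Fintype.prod_eq_single (InfinitePlace.mk φ) (fun w hw => absurd (Subsingleton.elim _ _) hw)]
    at hprod
  have hm : (InfinitePlace.mk φ).mult = 2 := by
    rw [InfinitePlace.mult, if_neg]
    exact InfinitePlace.not_isReal_iff_isComplex.2 (IsTotallyComplex.isComplex _)
  rw [hm] at hprod
  rw [hprod]
  have hn : ((Algebra.norm ℤ x : ℤ) : ℚ) = Algebra.norm ℚ (x : K) := Algebra.coe_norm_int x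
  rw [← hn]
  refine le_trans (le_of_eq ?_) hx
  push_cast
  rfl

end Pool.Agent.Lib.MP_1a91b9_ntJ
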