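import Pool.Agent.Lib.MP_1a91b9_nuX.LG.Iso
import Pool.Agent.Lib.MP_1a91b9_nuI.Fa.FamT

/-!
# The L-series of isomorphic curves with integral invariant; the curves `y² + d y = x³` and `y² = x³ + 16 d²`
-/

set_option autoImplicit false

namespace Pool.Agent.Lib.MP_1a91b9_ntJ

open NumberField IsDedekindDomain WeierstrassCurve Pool.Agent.Lib.MP_1a91b9_nuT
  Pool.Agent.Lib.MP_1a91b9_nt
open Pool.Agent.Lib.MP_1a91b9_nuX.LG (JI locPoly_iso)
open Pool.Agent.Lib.MP_1a91b9_nuI (Lne)

/-- The L-series is determined by the local polynomials. -/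
theorem lser_congr {N : Type*} [Field N] [NumberField N] {W W' : WeierstrassCurve N}
    (h : ∀ v : HeightOneSpectrum (𝓞 N), locPoly W v = locPoly W' v) : W.LSeries = W'.LSeries := by
  have h1 : W.LFunction = W'.LFunction := by
    unfold WeierstrassCurve.LFunction
    congr 1
    funext v
    have h2 := h v
    unfold locPoly at h2
    unfold WeierstrassCurve.localEulerFactor WeierstrassCurve.localPowerSeries
    rw [h2]
  funext s
  unfold WeierstrassCurve.LSeries
  rw [h1]

theorem lne_iso [CD] {N : Type*} [Field N] [NumberField N] {W W' : WeierstrassCurve N}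
    {C : VariableChange N} (hC : C • W = W') (hj : ∀ v : HeightOneSpectrum (𝓞 N), JI W' v)
    (h : Lne W) : Lne W' := by
  obtain ⟨g, h1, h2, h3⟩ := h
  refine ⟨g, h1, fun s hs => ?_, h3⟩
  rw [h2 s hs, lser_congr fun v => locPoly_iso hC v (hj v)]

/-- the curves `y² + d y = x³` and `y² = x³ + 16 d²` are isomorphic -/
theorem exists_iso3 {F : Type*} [Field F] [CharZero F] (d : F) : ∃ C : VariableChange F,
    C • (⟨0, 0, d, 0, 0⟩ : WeierstrassCurve F) = ⟨0, 0, 0, 0, 16 * d ^ 2⟩ := by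
  have h2 : (2 : F) ≠ 0 := two_ne_zero
  refine ⟨⟨(Units.mk0 (2 : F) h2)⁻¹, 0, 0, -d / 2⟩, ?_⟩
  ext
  · simp [variableChange_a₁]
  · simp [variableChange_a₂]
  · simp only [variableChange_a₃, inv_inv, Units.val_mk0]
    ring
  · simp [variableChange_a₄]
  · simp only [variableChange_a₆, inv_inv, Units.val_mk0]
    ring

theorem ji_zero [CD] {N : Type*} [Field N] [NumberField N] (b : N)
    (v : HeightOneSpectrum (𝓞 N)) : JI (⟨0, 0, 0, 0, b⟩ : WeierstrassCurve N) v := by
  have h1 : (⟨0, 0, 0, 0, b⟩ : WeierstrassCurve N).c₄ = 0 := by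
    unfold WeierstrassCurve.c₄ WeierstrassCurve.b₂ WeierstrassCurve.b₄
    ring
  unfold JI
  rw [h1, zero_pow three_ne_zero, map_zero]
  exact zero_le

/-- the L-series of `y² = x³ + 16 d²` -/
theorem lne_iso3 [CD] {N : Type*} [Field N] [NumberField N] {d : N}
    (h : Lne (⟨0, 0, d, 0, 0⟩ : WeierstrassCurve N)) :
    Lne (⟨0, 0, 0, 0, 16 * d ^ 2⟩ : WeierstrassCurve N) := by
  obtain ⟨C, hC⟩ := exists_iso3 d
  exact lne_iso hC (ji_zero _) h

end Pool.Agent.Lib.MP_1a91b9_ntJ
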