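import Pool.Agent.Lib.MP_1a91b9_ntJ.Fin1
import Pool.Agent.Lib.MP_1a91b9_ntJ.Iso3
import Pool.Agent.Lib.MP_1a91b9_ntJ.FinN
import Pool.Agent.Lib.MP_1a91b9_ntN.Q.Kum

/-!
# The density theorem with the towers
-/

set_option autoImplicit false

namespace Pool.Agent.Lib.MP_1a91b9_ntJ

open NumberField IsDedekindDomain WeierstrassCurve Module
open Pool.Agent.Lib.MP_1a91b9_nuI (Lne)
open Pool.Agent.Lib.MP_1a91b9_nuE (exists_cdE)

/-- comparison of the cardinalities -/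
theorem card_le_of {A : Type*} {p q : A → Prop} (hq : {a | q a}.Finite) (h : ∀ a, p a → q a) :
    Nat.card {a // p a} ≤ Nat.card {a // q a} :=
  Nat.card_mono (s := {a | p a}) (t := {a | q a}) hq fun a ha => h a ha

theorem ne_zero_of_free {R : Type*} [CommRing R] [IsDomain R] {l : ℕ} (hl : l ≠ 0) {p d : R}
    (hp : Prime p) (h : ∀ p, Prime p → ¬ p ^ l ∣ d) : d ≠ 0 := by
  rintro rfl
  exact h p hp (dvd_zero _)

theorem lne_three {F : Type*} [Field F] [NumberField F] {d : F}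
    (h : Lne (⟨0, 0, d, 0, 0⟩ : WeierstrassCurve F)) :
    Lne (⟨0, 0, 0, 0, 16 * d ^ 2⟩ : WeierstrassCurve F) := by
  obtain ⟨tr, nm, -, hg', hmem, u, hu, cd, -⟩ := exists_cdE (A := 0) (B := 16) (J := 0)
    (by norm_num) (by norm_num) (by decide)
  exact lne_iso3 h

/-- **The density theorem with the towers.** -/
theorem main_kt (l k : ℕ) (hl : l = 2 ∧ k = 4 ∨ l = 3 ∧ k = 6) (F : Type) [Field F]
    [NumberField F] [Algebra (CyclotomicField k ℚ) F]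
    (hF : IntermediateField.adjoin (CyclotomicField k ℚ)
      {x : F | ∃ c : CyclotomicField k ℚ, x ^ l = algebraMap (CyclotomicField k ℚ) F c} = ⊤)
    (m u : 𝓞 (CyclotomicField k ℚ))
    (hmu : (∃ n : ℕ, (l = 3 → n ≤ 2) ∧ m ∣ (l : 𝓞 (CyclotomicField k ℚ)) ^ n) ∧
      ∀ p, Prime p → ¬ (p ^ l ∣ m ∧ p ^ l ∣ u)) (ε : ℝ) (hε : 0 < ε) :
    ∀ᶠ X : ℝ in Filter.atTop,
      (∏' i : ℕ, (1 + 1 / (l : ℝ) ^ (i + 1))⁻¹) ^ Module.finrank (CyclotomicField k ℚ) F - ε ≤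
      (Nat.card {d : 𝓞 (CyclotomicField k ℚ) // (∀ p, Prime p → ¬ p ^ l ∣ d) ∧
        m ∣ d - u ∧ |Algebra.norm ℤ d| ≤ X ∧ ∀ α β : 𝓞 F,
          α = (l - 3) * algebraMap (𝓞 (CyclotomicField k ℚ)) (𝓞 F) d ^ 2 →
          β = 16 * (l - 2) * algebraMap (𝓞 (CyclotomicField k ℚ)) (𝓞 F) d ^ 2 →
          Kt k F α β} : ℝ) /
        (Nat.card {d : 𝓞 (CyclotomicField k ℚ) // (∀ p, Prime p → ¬ p ^ l ∣ d) ∧
          m ∣ d - u ∧ |Algebra.norm ℤ d| ≤ X} : ℝ) := by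
  have key := Pool.Agent.Lib.MP_1a91b9_ntN.main_kummer l k hl F hF m u hmu ε hε
  have hfin : ∀ X : ℝ, {d : 𝓞 (CyclotomicField k ℚ) | |Algebra.norm ℤ d| ≤ X}.Finite := by
    intro X
    rcases hl with ⟨rfl, rfl⟩ | ⟨rfl, rfl⟩
    · have hc := Pool.Agent.Lib.MP_1a91b9_ntN.cyc_any 4
        (inferInstance : Algebra ℚ (CyclotomicField 4 ℚ))
      have htc : IsTotallyComplex (CyclotomicField 4 ℚ) :=
        IsCyclotomicExtension.Rat.isTotallyComplex (n := 4) (CyclotomicField 4 ℚ) (by norm_num)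
      exact finite_norm (by
        rw [IsCyclotomicExtension.finrank (n := 4) (CyclotomicField 4 ℚ)
          (Polynomial.cyclotomic.irreducible_rat (by norm_num))]
        decide) X
    · have hc := Pool.Agent.Lib.MP_1a91b9_ntN.cyc_any 6
        (inferInstance : Algebra ℚ (CyclotomicField 6 ℚ))
      have htc : IsTotallyComplex (CyclotomicField 6 ℚ) :=
        IsCyclotomicExtension.Rat.isTotallyComplex (n := 6) (CyclotomicField 6 ℚ) (by norm_num)
      exact finite_norm (by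
        rw [IsCyclotomicExtension.finrank (n := 6) (CyclotomicField 6 ℚ)
          (Polynomial.cyclotomic.irreducible_rat (by norm_num))]
        decide) X
  filter_upwards [key] with X hX
  refine hX.trans (div_le_div_of_nonneg_right (Nat.cast_le.2 ?_) (Nat.cast_nonneg _))
  refine card_le_of ((hfin X).subset fun d hd => hd.2.2.1) ?_
  rintro d ⟨h1, h2, h3, h4⟩
  refine ⟨h1, h2, h3, ?_⟩
  rintro α β rfl rfl
  rcases hl with ⟨rfl, rfl⟩ | ⟨rfl, rfl⟩
  · have hd : d ≠ 0 := ne_zero_of_free two_ne_zero Pool.Agent.Lib.MP_1a91b9_ntQ.prime_lam h1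
    have e1 : (((((2 : ℕ) : 𝓞 F) - 3) * algebraMap (𝓞 (CyclotomicField 4 ℚ)) (𝓞 F) d ^ 2 : 𝓞 F) :
        F) = -(algebraMap (CyclotomicField 4 ℚ) F d) ^ 2 := by
      have e0 : algebraMap (𝓞 F) F (algebraMap (𝓞 (CyclotomicField 4 ℚ)) (𝓞 F) d) =
        algebraMap (CyclotomicField 4 ℚ) F d := rfl
      rw [RingOfIntegers.coe_eq_algebraMap, map_mul, map_pow, e0, map_sub, map_natCast, map_ofNat]
      push_cast
      ring
    have e2 : ((16 * (((2 : ℕ) : 𝓞 F) - 2) * algebraMap (𝓞 (CyclotomicField 4 ℚ)) (𝓞 F) d ^ 2 :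
        𝓞 F) : F) = 0 := by
      rw [Nat.cast_ofNat, sub_self, mul_zero, zero_mul]
      rfl
    refine kt_two hF hd e1 e2 ?_
    rw [e1, e2]
    obtain ⟨h5, -⟩ := h4 _ rfl
    have e3 : (⟨0, 0, (((2 : ℕ) : F) - 2) * algebraMap (CyclotomicField 4 ℚ) F d,
        (((2 : ℕ) : F) - 3) * algebraMap (CyclotomicField 4 ℚ) F d ^ 2, 0⟩ : WeierstrassCurve F) =
        ⟨0, 0, 0, -(algebraMap (CyclotomicField 4 ℚ) F d) ^ 2, 0⟩ := by
      ext
      · rfl
      · rfl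
      · push_cast
        ring
      · push_cast
        ring
      · rfl
    rw [e3] at h5
    exact h5
  · have hd : d ≠ 0 := by
      obtain ⟨e⟩ := Pool.Agent.Lib.MP_1a91b9_ntN.exists_iso36
      obtain ⟨ε', -⟩ : ∃ ε' : 𝓞 (Pool.Agent.Lib.MP_1a91b9_ntT.K) ≃+* 𝓞 (CyclotomicField 6 ℚ),
        True := ⟨RingOfIntegers.mapRingEquiv (e : Pool.Agent.Lib.MP_1a91b9_ntT.K ≃+* _), trivial⟩
      exact ne_zero_of_free three_ne_zero ((MulEquiv.prime_iff ε'.toMulEquiv).2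
        Pool.Agent.Lib.MP_1a91b9_ntH.prime_s3) h1
    have e1 : (((((3 : ℕ) : 𝓞 F) - 3) * algebraMap (𝓞 (CyclotomicField 6 ℚ)) (𝓞 F) d ^ 2 : 𝓞 F) :
        F) = 0 := by
      rw [Nat.cast_ofNat, sub_self, zero_mul]
      rfl
    have e2 : ((16 * (((3 : ℕ) : 𝓞 F) - 2) * algebraMap (𝓞 (CyclotomicField 6 ℚ)) (𝓞 F) d ^ 2 :
        𝓞 F) : F) = 16 * (algebraMap (CyclotomicField 6 ℚ) F d) ^ 2 := by
      have e0 : algebraMap (𝓞 F) F (algebraMap (𝓞 (CyclotomicField 6 ℚ)) (𝓞 F) d) =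
        algebraMap (CyclotomicField 6 ℚ) F d := rfl
      rw [RingOfIntegers.coe_eq_algebraMap, map_mul, map_pow, e0, map_mul, map_sub, map_natCast,
        map_ofNat, map_ofNat]
      push_cast
      ring
    refine kt_three hF hd e1 e2 ?_
    rw [e1, e2]
    obtain ⟨h5, -⟩ := h4 _ rfl
    have e3 : (⟨0, 0, (((3 : ℕ) : F) - 2) * algebraMap (CyclotomicField 6 ℚ) F d,
        (((3 : ℕ) : F) - 3) * algebraMap (CyclotomicField 6 ℚ) F d ^ 2, 0⟩ : WeierstrassCurve F) =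
        ⟨0, 0, algebraMap (CyclotomicField 6 ℚ) F d, 0, 0⟩ := by
      ext
      · rfl
      · rfl
      · push_cast
        ring
      · push_cast
        ring
      · rfl
    rw [e3] at h5
    exact lne_three h5

end Pool.Agent.Lib.MP_1a91b9_ntJ
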