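import Pool.Agent.Lib.MP_1a91b9_ntT.CF.ExtSum
import Pool.Agent.Lib.MP_1a91b9_ntT.CF.Frob

/-!
# The Frobenius elements generate the Galois group

`frob_gen`: for a Galois extension `M / k` of number fields, a subgroup of `Gal(M / k)` which contains
all the Frobenius elements over all but finitely many places of `k` is the whole group.
-/

set_option autoImplicit false

namespace Pool.Agent.Lib.MP_1a91b9_ntJ

open NumberField IsDedekindDomain Pool.Agent.Lib.MP_1a91b9_nt
open Pool.Agent.Lib.MP_1a91b9_ntT.CF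

universe u

section
variable {k M : Type u} [Field k] [NumberField k] [Field M] [NumberField M] [Algebra k M]
  [IsGalois k M]

/-- the conjugates of a Frobenius element are Frobenius elements -/
theorem fr_conj (W : HeightOneSpectrum (𝓞 M)) (φ τ : Gal(M/k)) (h : IsFr (W.under (𝓞 k)) W φ) :
    ∃ W' : HeightOneSpectrum (𝓞 M), W'.under (𝓞 k) = W.under (𝓞 k) ∧
      IsFr (W'.under (𝓞 k)) W' (τ * φ * τ⁻¹) := by
  obtain ⟨f, hf⟩ : ∃ f : 𝓞 M →+* 𝓞 M, ∀ x, f x = τ⁻¹ • x :=
    ⟨MulSemiringAction.toRingHom Gal(M/k) (𝓞 M) τ⁻¹, fun x => rfl⟩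
  have hprime := W.isPrime
  have hne : Ideal.comap f W.asIdeal ≠ ⊥ := by
    intro h0
    obtain ⟨x, hx, hx0⟩ := Submodule.exists_mem_ne_zero_of_ne_bot W.ne_bot
    have h1 : τ • x ∈ Ideal.comap f W.asIdeal := by
      rw [Ideal.mem_comap, hf, inv_smul_smul]
      exact hx
    rw [h0, Ideal.mem_bot, smul_eq_zero_iff_eq] at h1
    exact hx0 h1
  obtain ⟨W', hW'⟩ : ∃ W' : HeightOneSpectrum (𝓞 M), W'.asIdeal = Ideal.comap f W.asIdeal :=
    ⟨⟨_, Ideal.comap_isPrime f W.asIdeal, hne⟩, rfl⟩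
  have hmem : ∀ x : 𝓞 M, x ∈ W'.asIdeal ↔ τ⁻¹ • x ∈ W.asIdeal := by
    intro x
    rw [hW', Ideal.mem_comap, hf]
  have hu : W'.under (𝓞 k) = W.under (𝓞 k) := by
    apply HeightOneSpectrum.ext
    ext x
    change algebraMap (𝓞 k) (𝓞 M) x ∈ W'.asIdeal ↔ algebraMap (𝓞 k) (𝓞 M) x ∈ W.asIdeal
    rw [hmem, smul_algebraMap]
  refine ⟨W', hu, fun x => ?_⟩
  rw [hu, hmem]
  have h1 := h (τ⁻¹ • x)
  rw [smul_sub, smul_pow', ← mul_smul]
  have e : τ⁻¹ * (τ * φ * τ⁻¹) = φ * τ⁻¹ := by group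
  rw [e, mul_smul]
  exact h1

/-- A Galois extension in which almost all places split completely is trivial. -/
theorem finrank_one (E : Type u) [Field E] [NumberField E] [Algebra k E] [IsGalois k E]
    (bad : Set (HeightOneSpectrum (𝓞 k))) (hbad : bad.Finite) (h : ∀ v ∉ bad, Spl E v) :
    Module.finrank k E = 1 := by
  obtain ⟨B₁, h1⟩ := prime_sum k
  obtain ⟨B₂, h2⟩ := prime_sum E
  obtain ⟨B₃, h3⟩ := PZ_finite bad hbad
  have hn : 0 < Module.finrank k E := Module.finrank_pos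
  by_contra hne
  have hn2 : (2 : ℝ) ≤ (Module.finrank k E : ℝ) := by
    have : 2 ≤ Module.finrank k E := by omega
    exact_mod_cast this
  obtain ⟨n, hnn⟩ : ∃ n : ℝ, n = (Module.finrank k E : ℝ) := ⟨_, rfl⟩
  rw [← hnn] at hn2
  -- the bound
  have key : ∀ s : ℝ, 1 < s → s ≤ 2 → (n - 1) * Real.log (1 / (s - 1)) ≤ B₂ + n * (B₁ + B₃) := by
    intro s hs hs2
    have a1 := abs_le.1 (h1 s hs hs2)
    have a2 := abs_le.1 (h2 s hs hs2)
    have a3 := h3 s hs
    have a4 := PZ_up k E {v | v ∉ bad} (fun v hv => h v hv) s hs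
    have a5 : PZ (Set.univ : Set (HeightOneSpectrum (𝓞 k))) s ≤
        PZ {v | v ∉ bad} s + PZ bad s := by
      refine le_trans (PZ_mono (fun v _ => ?_) s hs) (PZ_union _ _ s hs)
      by_cases hv : v ∈ bad
      · exact Or.inr hv
      · exact Or.inl hv
    rw [← hnn] at a4
    have hn0 : 0 ≤ n := by linarith
    have a6 : n * PZ (Set.univ : Set (HeightOneSpectrum (𝓞 k))) s ≤
        n * PZ {v | v ∉ bad} s + n * B₃ := by
      rw [← mul_add]
      exact mul_le_mul_of_nonneg_left (a5.trans (by linarith)) hn0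
    have a7 : n * (Real.log (1 / (s - 1)) - B₁) ≤
        n * PZ (Set.univ : Set (HeightOneSpectrum (𝓞 k))) s :=
      mul_le_mul_of_nonneg_left (by linarith [a1.1]) hn0
    nlinarith [a2.2, a4, a6, a7]
  obtain ⟨C, hC⟩ : ∃ C : ℝ, C = (B₂ + n * (B₁ + B₃)) := ⟨_, rfl⟩
  obtain ⟨t, ht⟩ : ∃ t : ℝ, t = |C| + 1 := ⟨_, rfl⟩
  have ht0 : 0 < t := by
    rw [ht]
    positivity
  have hs1 : (1 : ℝ) < 1 + Real.exp (-t) := by
    have := Real.exp_pos (-t)
    linarith
  have hs2 : 1 + Real.exp (-t) ≤ 2 := by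
    have : Real.exp (-t) ≤ 1 := Real.exp_le_one_iff.2 (by linarith)
    linarith
  have hk := key _ hs1 hs2
  have e : Real.log (1 / (1 + Real.exp (-t) - 1)) = t := by
    rw [add_sub_cancel_left, one_div, ← Real.exp_neg, neg_neg, Real.log_exp]
  rw [e, ← hC] at hk
  have h4 : t ≤ (n - 1) * t := by nlinarith
  have h5 : C ≤ |C| := le_abs_self C
  linarith

/-- **The Frobenius elements generate the Galois group.** -/
theorem frob_gen (bad : Set (HeightOneSpectrum (𝓞 k))) (hbad : bad.Finite)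
    (H : Subgroup Gal(M/k)) (hH : ∀ (W : HeightOneSpectrum (𝓞 M)) (φ : Gal(M/k)),
      W.under (𝓞 k) ∉ bad → IsFr (W.under (𝓞 k)) W φ → φ ∈ H) : H = ⊤ := by
  obtain ⟨s, hs⟩ : ∃ s : Set Gal(M/k), s = {φ | ∃ W : HeightOneSpectrum (𝓞 M),
    W.under (𝓞 k) ∉ bad ∧ IsFr (W.under (𝓞 k)) W φ} := ⟨_, rfl⟩
  have hsH : Subgroup.normalClosure s ≤ H := by
    unfold Subgroup.normalClosure
    rw [Subgroup.closure_le]
    intro φ hφ
    rw [Group.mem_conjugatesOfSet_iff] at hφ
    obtain ⟨φ', h1, h2⟩ := hφ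
    rw [hs] at h1
    obtain ⟨W, h3, h4⟩ := h1
    obtain ⟨τ, hτ⟩ := isConj_iff.1 h2
    obtain ⟨W', h5, h6⟩ := fr_conj W φ' τ h4
    rw [hτ] at h6
    exact hH W' φ (by rw [h5]; exact h3) h6
  rw [eq_top_iff]
  refine le_trans ?_ hsH
  obtain ⟨H₀, hH₀⟩ : ∃ H₀ : Subgroup Gal(M/k), H₀ = Subgroup.normalClosure s := ⟨_, rfl⟩
  have hnorm : H₀.Normal := by
    rw [hH₀]
    exact Subgroup.normalClosure_normal
  rw [← hH₀]
  have hfd : FiniteDimensional k M := Module.Finite.of_restrictScalars_finite ℚ k M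
  have hgal : IsGalois k (IntermediateField.fixedField H₀) :=
    IsGalois.of_fixedField_normal_subgroup H₀
  have hnf : NumberField (IntermediateField.fixedField H₀) :=
    NumberField.of_module_finite k (IntermediateField.fixedField H₀)
  have hone : Module.finrank k (IntermediateField.fixedField H₀) = 1 := by
    refine finrank_one (k := k) (IntermediateField.fixedField H₀) (bad ∪ {v | Ram (IntermediateField.fixedField H₀) v})
      (hbad.union (ram_finite k _)) fun v hv => ?_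
    have hv1 : v ∉ bad := fun h => hv (Or.inl h)
    have hv2 : ¬ Ram (IntermediateField.fixedField H₀) v := fun h => hv (Or.inr h)
    have hr : v.asIdeal.ramificationIdxIn (𝓞 (IntermediateField.fixedField H₀)) = 1 := by
      by_contra h
      exact hv2 h
    refine ⟨hr, ?_⟩
    obtain ⟨W, hW⟩ := exists_over (k := k) (N := M) v
    obtain ⟨φ, hφ⟩ := exists_fr (k := k) W
    have hφ0 : φ ∈ H₀ := by
      rw [hH₀]
      apply Subgroup.subset_normalClosure
      rw [hs]
      exact ⟨W, by rw [hW]; exact hv1, hφ⟩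
    have h1 := fr_fix (L := IntermediateField.fixedField H₀) W φ (nrm v) 1 v hW (by rw [pow_one])
      one_pos (by rw [hW] at hφ; exact hφ) (fun x => x.2 ⟨φ, hφ0⟩)
    have i1 : (W.under (𝓞 (IntermediateField.fixedField H₀))).asIdeal.IsPrime :=
      (W.under (𝓞 (IntermediateField.fixedField H₀))).isPrime
    have i2 : (W.under (𝓞 (IntermediateField.fixedField H₀))).asIdeal.LiesOver v.asIdeal := by
      refine ⟨?_⟩
      rw [← hW]
      exact (Ideal.under_under _).symm
    have i3 : v.asIdeal.IsMaximal := v.isMaximal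
    rw [Ideal.inertiaDegIn_eq_inertiaDeg v.asIdeal
      (W.under (𝓞 (IntermediateField.fixedField H₀))).asIdeal
      Gal((IntermediateField.fixedField H₀)/k)]
    exact Nat.dvd_one.1 h1
  have hbot : IntermediateField.fixedField H₀ = ⊥ := IntermediateField.finrank_eq_one_iff.1 hone
  rw [top_le_iff, ← IntermediateField.fixingSubgroup_fixedField H₀, hbot]
  exact IntermediateField.fixingSubgroup_bot

end

end Pool.Agent.Lib.MP_1a91b9_ntJ
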