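import Pool.Agent.Lib.MP_1a91b9_ntJ.KS1
import Pool.Agent.Lib.MP_1a91b9_ntI.EndI

/-!
# The towers for the quadratic twists of a curve with complex multiplication and a point of order two
-/

set_option autoImplicit false

namespace Pool.Agent.Lib.MP_1a91b9_ntJ

open NumberField IsDedekindDomain WeierstrassCurve Module
open Pool.Agent.Lib.MP_1a91b9_nuI
open Pool.Agent.Lib.MP_1a91b9_nuX.UF (jd)
open Pool.Agent.Lib.MP_1a91b9_ntL (crv)
open Pool.Agent.Lib.MP_1a91b9_ntW.J (twd twd_vc twd_crv twd_hasJ hasJ_map)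
open Pool.Agent.Lib.MP_1a91b9_ntI (excl1 excl3 excl6)
open Pool.Agent.Lib.MP_1a91b9_ntY (CMK Pt2 cmList no_pt2 crv_of_1728 crv_of_0 crv_of_j hasJ_crv
  crv_Δ crv_c₄ crv_c₆)

section
variable {K F : Type} [Field K] [NumberField K] [Field F] [NumberField F] [Algebra K F]

/-- the curves with invariant `J` different from `0` and `1728` -/
theorem ks_j (hK : finrank ℚ K = 2) {J D : ℤ} (hJd : (J, D) ∈ thirteen) {s₀ : K}
    (hs₀ : s₀ ^ 2 = ((D : ℤ) : K)) {a₀ b₀ : ℤ} (hb₀ : b₀ ≠ 0) (hd₀ : a₀ ^ 2 - 4 * b₀ ≠ 0)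
    (hj : 256 * (a₀ ^ 2 - 3 * b₀) ^ 3 = J * (b₀ ^ 2 * (a₀ ^ 2 - 4 * b₀)))
    (h4 : a₀ ^ 2 - 3 * b₀ ≠ 0) (h6 : a₀ * (9 * b₀ - 2 * a₀ ^ 2) ≠ 0) {l : ℕ}
    (hl : l = 2 ∨ l = 4)
    (hE : ∀ c : 𝓞 K, c ≠ 0 →
      InTor K F (81 * b₀ - 27 * a₀ ^ 2) (54 * a₀ ^ 3 - 243 * a₀ * b₀) l c)
    (hna : ∀ e : 𝓞 K, Anm K F ((a₀ : 𝓞 K) * e) ((b₀ : 𝓞 K) * e ^ 2))
    {W : WeierstrassCurve K} (hΔ : W.Δ ≠ 0) (hWJ : HasJ W J) {d : 𝓞 K} (hd : d ≠ 0)
    (hg : Lne ((twd W (d : K)).map (algebraMap K F))) :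
    TowP K ((twd W (d : K)).map (algebraMap K F)) := by
  have hjK : 256 * ((a₀ : K) ^ 2 - 3 * b₀) ^ 3 = (J : K) * (b₀ ^ 2 * (a₀ ^ 2 - 4 * b₀)) := by
    exact_mod_cast congrArg (Int.cast : ℤ → K) hj
  have hbK : (b₀ : K) ≠ 0 := by exact_mod_cast hb₀
  have hdK : (a₀ : K) ^ 2 - 4 * b₀ ≠ 0 := by exact_mod_cast hd₀
  have h4K : (a₀ : K) ^ 2 - 3 * b₀ ≠ 0 := by exact_mod_cast h4
  have h6K : (a₀ : K) * (9 * b₀ - 2 * a₀ ^ 2) ≠ 0 := by exact_mod_cast h6
  obtain ⟨e, he, C, hC⟩ := crv_of_j hΔ (a := (a₀ : K)) (b := (b₀ : K)) hWJ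
    (hasJ_crv (by linear_combination 16 * hjK)) (by
      rw [crv_Δ]
      exact mul_ne_zero (mul_ne_zero (by norm_num) (pow_ne_zero 2 hbK)) hdK) (by
      rw [crv_c₄]
      exact mul_ne_zero (by norm_num) h4K) (by
      rw [crv_c₆]
      have e1 : (32 : K) * (a₀ * (9 * b₀ - 2 * a₀ ^ 2)) ≠ 0 := mul_ne_zero (by norm_num) h6K
      intro h0
      apply e1
      linear_combination h0)
  exact ks_quad hK hJd hs₀ hb₀ hd₀ hj hl hE hna hWJ he hC hd hg

/-- **The towers.** -/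
theorem ks_star {l : ℕ} (hl : l = 2 ∨ l = 4 ∧ ∃ i : K, i ^ 2 = -1)
    (hF : IntermediateField.adjoin K {x : F | ∃ c : K, x ^ l = algebraMap K F c} = ⊤)
    (hK : finrank ℚ K = 2) {W : WeierstrassCurve K} (hW : CMK W) (hP : Pt2 W) {d : 𝓞 K}
    (hd : d ≠ 0) (hg : Lne ((twd W (d : K)).map (algebraMap K F))) :
    TowP K ((twd W (d : K)).map (algebraMap K F)) := by
  obtain ⟨hΔ, j, D, s, hm, hs, hj⟩ := hW
  have hF4 : IntermediateField.adjoin K {x : F | ∃ c : K, x ^ 4 = algebraMap K F c} = ⊤ := by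
    rcases hl with rfl | ⟨rfl, -⟩
    · exact four_of_two hF
    · exact hF
  have hF2 : (∀ i : K, i ^ 2 ≠ -1) →
      IntermediateField.adjoin K {x : F | ∃ c : K, x ^ 2 = algebraMap K F c} = ⊤ := by
    intro h
    rcases hl with rfl | ⟨-, i, hi⟩
    · exact hF
    · exact absurd hi (h i)
  simp only [cmList, List.mem_cons, Prod.mk.injEq, List.not_mem_nil, or_false] at hm
  rcases hm with ⟨rfl, rfl⟩ | ⟨rfl, rfl⟩ | ⟨rfl, rfl⟩ | ⟨rfl, rfl⟩ | ⟨rfl, rfl⟩ | ⟨rfl, rfl⟩ |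
    ⟨rfl, rfl⟩ | ⟨rfl, rfl⟩ | ⟨rfl, rfl⟩ | ⟨rfl, rfl⟩ | ⟨rfl, rfl⟩ | ⟨rfl, rfl⟩ | ⟨rfl, rfl⟩
  · have h2 := hF2 fun i hi => excl6 hK hi (hs.trans (by norm_num))
    obtain ⟨e, he, C, hC⟩ := crv_of_0 hΔ hj hP
    refine ks_quad hK (J := 0) (D := -3) (by simp [thirteen]) hs (a₀ := -3) (b₀ := 3)
      (by norm_num) (by norm_num) (by norm_num) (Or.inl rfl) (fun c hc => ?_)
      (fun e => anm_two h2 _ _) hj he (C := C) ?_ hd hg
    · exact inTor_two h2 hK (J := 0) (D := -3) (by simp [jd]) (by norm_num) hs (by norm_num)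
        (by norm_num) hc
    · rw [hC]
      congr 1
      · push_cast
        ring
      · push_cast
        ring
  · have h2 := hF2 fun i hi => excl6 hK hi (hs.trans (by norm_num))
    exact ks_j hK (J := 54000) (D := -3) (by simp [thirteen]) hs (a₀ := 6) (b₀ := -3)
      (by norm_num) (by norm_num) (by norm_num) (by norm_num) (by norm_num) (Or.inl rfl)
      (fun c hc => inTor_two' h2 hK (a' := -15) (b' := 22) (a := 0) (b := 1) (n := 2)
        (j' := 54000) (J := 0) (D := -3) (Or.inl ⟨rfl, rfl, rfl, rfl, rfl, rfl, rfl, rfl⟩)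
        (by simp [jd]) (by norm_num) hs (by norm_num) (by norm_num) hc)
      (fun e => anm_two h2 _ _) hΔ hj hd hg
  · exact absurd hP (no_pt2 hK hΔ (p := -120) (q := 506) (by decide) (by decide) (by decide)
      (by norm_num) hj)
  · obtain ⟨b, hb, C, hC⟩ := crv_of_1728 hΔ hj
    have hi : (s / 2) ^ 2 = -1 := by
      rw [div_pow, hs]
      norm_num
    obtain ⟨δ, ν, hν, hδ⟩ := exists_nu b 3
    have hνK : (ν : K) ≠ 0 := fun h => hν (RingOfIntegers.ext h)
    have hδ0 : δ ≠ 0 := by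
      rintro rfl
      exact mul_ne_zero hb (pow_ne_zero _ hνK) (hδ.symm.trans (map_zero _))
    have hc0 : d ^ 2 * δ ≠ 0 := mul_ne_zero (pow_ne_zero 2 hd) hδ0
    refine ks_of hK (J := 1728) (D := -4) (by simp [thirteen]) hs (a₀ := 0) (b₀ := 1)
      (by norm_num) (by norm_num) (by norm_num) (l := 4) (c := d ^ 2 * δ)
      ?_ hj hC (d := d) (ν := ν) (a₁ := 0)
      (b₁ := d ^ 2 * δ) hν ?_ ?_ (anm_four hi hF4 (Or.inl rfl)) ?_ hg
    · exact inTor_i hF4 hK hs (by norm_num) (by norm_num) hc0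
    · rw [mul_zero, zero_mul]
      exact map_zero _
    · show algebraMap (𝓞 K) K _ = _
      rw [map_mul, map_pow]
      show (d : K) ^ 2 * (δ : K) = _
      rw [hδ]
      ring
    · intro L _ _ _ t ht
      refine ⟨t, ?_, ?_, ?_⟩
      · rintro rfl
        apply hc0
        rw [zero_pow four_ne_zero] at ht
        have h4 := (algebraMap K L).injective (ht.symm.trans (map_zero _).symm)
        exact RingOfIntegers.ext h4
      · rw [Int.cast_zero, zero_mul]
        show algebraMap K L (algebraMap (𝓞 K) K 0) = 0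
        rw [map_zero, map_zero]
      · rw [Int.cast_one, one_mul, ht]
  · have hi : (s / 2) ^ 2 = -1 := by
      rw [div_pow, hs]
      norm_num
    exact ks_j hK (J := 287496) (D := -4) (by simp [thirteen]) hs (a₀ := 6) (b₀ := 1)
      (by norm_num) (by norm_num) (by norm_num) (by norm_num) (by norm_num) (Or.inr rfl)
      (fun c hc => InTor.four (a' := -11) (b' := 14) (a := -1) (b := 0) (n := 2)
        (j' := 287496) (j := 1728) (d := -4)
        (Or.inr (Or.inl ⟨rfl, rfl, rfl, rfl, rfl, rfl, rfl, rfl⟩)) (D₀ := 9) (by norm_num)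
        (inTor_i hF4 hK hs (by norm_num) (by norm_num) hc))
      (fun e => anm_four hi hF4 (Or.inr ⟨e, by push_cast; ring, by push_cast; ring⟩))
      hΔ hj hd hg
  · have h2 := hF2 fun i hi => excl3 hK (hs.trans (by norm_num)) hi
    exact ks_j hK (J := -3375) (D := -7) (by simp [thirteen]) hs (a₀ := 21) (b₀ := 112)
      (by norm_num) (by norm_num) (by norm_num) (by norm_num) (by norm_num) (Or.inl rfl)
      (fun c hc => inTor_two h2 hK (J := -3375) (D := -7) (by simp [jd]) (by norm_num) hs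
        (by norm_num) (by norm_num) hc) (fun e => anm_two h2 _ _) hΔ hj hd hg
  · have h2 := hF2 fun i hi => excl3 hK (hs.trans (by norm_num)) hi
    exact ks_j hK (J := 16581375) (D := -7) (by simp [thirteen]) hs (a₀ := 42) (b₀ := -7)
      (by norm_num) (by norm_num) (by norm_num) (by norm_num) (by norm_num) (Or.inl rfl)
      (fun c hc => inTor_two' h2 hK (a' := -595) (b' := 5586) (a := -35) (b := 98) (n := 2)
        (j' := 16581375) (J := -3375) (D := -7)
        (Or.inr (Or.inr (Or.inl ⟨rfl, rfl, rfl, rfl, rfl, rfl, rfl, rfl⟩)))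
        (by simp [jd]) (by norm_num) hs (by norm_num) (by norm_num) hc)
      (fun e => anm_two h2 _ _) hΔ hj hd hg
  · have h8 : (s / 2) ^ 2 = -2 := by
      rw [div_pow, hs]
      norm_num
    have h2 := hF2 fun i hi => excl1 hK h8 hi
    exact ks_j hK (J := 8000) (D := -8) (by simp [thirteen]) hs (a₀ := 4) (b₀ := 2)
      (by norm_num) (by norm_num) (by norm_num) (by norm_num) (by norm_num) (Or.inl rfl)
      (fun c hc => inTor_two h2 hK (J := 8000) (D := -8) (by simp [jd]) (by norm_num) hs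
        (by norm_num) (by norm_num) hc) (fun e => anm_two h2 _ _) hΔ hj hd hg
  · exact absurd hP (no_pt2 hK hΔ (p := -264) (q := 1694) (by decide) (by decide) (by decide)
      (by norm_num) hj)
  · exact absurd hP (no_pt2 hK hΔ (p := -152) (q := 722) (by decide) (by decide) (by decide)
      (by norm_num) hj)
  · exact absurd hP (no_pt2 hK hΔ (p := -3440) (q := 77658) (by decide) (by decide) (by decide)
      (by norm_num) hj)
  · exact absurd hP (no_pt2 hK hΔ (p := -29480) (q := 1948226) (by decide) (by decide)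
      (by decide) (by norm_num) hj)
  · exact absurd hP (no_pt2 hK hΔ (p := -8697680) (q := 9873093538) (by decide) (by decide)
      (by decide) (by norm_num) hj)

end

end Pool.Agent.Lib.MP_1a91b9_ntJ
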