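import Pool.Agent.Lib.MP_1a91b9_ntJ.KS2
import Pool.Agent.Lib.MP_1a91b9_ntJ.FinN

/-!
# The density theorem with the towers, for the quadratic twists of a curve with complex multiplication and a
# point of order two
-/

set_option autoImplicit false

namespace Pool.Agent.Lib.MP_1a91b9_ntJ

open NumberField IsDedekindDomain WeierstrassCurve Module
open Pool.Agent.Lib.MP_1a91b9_ntW.J (twd PropGE MQW)
open Pool.Agent.Lib.MP_1a91b9_ntY (CMK Pt2 cmList)

/-- monotonicity of the density -/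
theorem propGE_imp {K : Type} [Field K] [NumberField K] [IsTotallyComplex K]
    (hK : finrank ℚ K = 2) {m u : 𝓞 K} {P Q : 𝓞 K → Prop} {c : ℝ}
    (hPQ : ∀ d : 𝓞 K, Squarefree d → P d → Q d) (h : PropGE K m u P c) : PropGE K m u Q c := by
  intro ε hε
  filter_upwards [h ε hε] with X hX
  refine hX.trans (div_le_div_of_nonneg_right (Nat.cast_le.2 ?_) (Nat.cast_nonneg _))
  refine Nat.card_mono
    (s := {d : 𝓞 K | Squarefree d ∧ m ∣ d - u ∧ |Algebra.norm ℤ d| ≤ X ∧ P d})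
    (t := {d : 𝓞 K | Squarefree d ∧ m ∣ d - u ∧ |Algebra.norm ℤ d| ≤ X ∧ Q d}) ?_ ?_
  · exact (finite_norm hK X).subset fun d hd => hd.2.2.1
  · rintro d ⟨h1, h2, h3, h4⟩
    exact ⟨h1, h2, h3, hPQ d h1 h4⟩

/-- The density theorem with the towers for the quadratic twists of `W`. -/
def MQWT (K : Type) [Field K] [NumberField K] (l : ℕ) (H : 𝓞 K → 𝓞 K → Prop)
    (W : WeierstrassCurve K) (c : ℝ) : Prop :=
  ∀ (F : Type) [Field F] [NumberField F] [Algebra K F],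
    IntermediateField.adjoin K {x : F | ∃ c : K, x ^ l = algebraMap K F c} = ⊤ →
    ∀ m u : 𝓞 K, H m u →
    PropGE K m u (fun d => TowP K ((twd W (d : K)).map (algebraMap K F))) (c ^ finrank K F)

theorem cmk_tc {K : Type} [Field K] [NumberField K] {W : WeierstrassCurve K} (hW : CMK W) :
    IsTotallyComplex K := by
  obtain ⟨-, j, D, s, hm, hs, -⟩ := hW
  refine tc_of_sq (D := D) ?_ hs
  simp only [cmList, List.mem_cons, Prod.mk.injEq, List.not_mem_nil, or_false] at hm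
  rcases hm with ⟨-, rfl⟩ | ⟨-, rfl⟩ | ⟨-, rfl⟩ | ⟨-, rfl⟩ | ⟨-, rfl⟩ | ⟨-, rfl⟩ | ⟨-, rfl⟩ |
    ⟨-, rfl⟩ | ⟨-, rfl⟩ | ⟨-, rfl⟩ | ⟨-, rfl⟩ | ⟨-, rfl⟩ | ⟨-, rfl⟩ <;> norm_num

/-- **From the rank part over `F` to the towers above `F`.** -/
theorem MQW_tow {K : Type} [Field K] [NumberField K] (hK : finrank ℚ K = 2) {l : ℕ}
    (hl : l = 2 ∨ l = 4 ∧ ∃ i : K, i ^ 2 = -1)
    {H : 𝓞 K → 𝓞 K → Prop} {W : WeierstrassCurve K} (hW : CMK W) (hP : Pt2 W) {c : ℝ}
    (h : MQW K l H W c) : MQWT K l H W c := by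
  have htc := cmk_tc hW
  intro F _ _ _ hF m u hmu
  exact propGE_imp hK (fun d hd h => ks_star hl hF hK hW hP hd.ne_zero h.1) (h F hF m u hmu)

end Pool.Agent.Lib.MP_1a91b9_ntJ
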