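import Pool.Agent.Lib.MP_1a91b9_ntJ.Root
import Pool.Agent.Lib.MP_1a91b9_nuX.DG.Hps

/-!
# The roots of the elements of `K` and the torsion of the curve

`fix_root`: let `M / K` be a Galois extension, `T` a point of the curve over `M` with annihilator `ν` and `r ^ l`
in `K`. If the weak reciprocity holds for `r ^ l` modulo `ν`, then the automorphisms of `M / K` which fix `T` fix `r`.
-/

set_option autoImplicit false

namespace Pool.Agent.Lib.MP_1a91b9_ntJ

open NumberField IsDedekindDomain WeierstrassCurve Pool.Agent.Lib.MP_1a91b9_nuT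
open Pool.Agent.Lib.MP_1a91b9_nt (nrm nrm_eq)
open Pool.Agent.Lib.MP_1a91b9_nuX Pool.Agent.Lib.MP_1a91b9_nuX.DB
open Pool.Agent.Lib.MP_1a91b9_nuX.AN (Fx psi_self)
open Pool.Agent.Lib.MP_1a91b9_nuG (addI addI_one addI_mul addI_place)
open Pool.Agent.Lib.MP_1a91b9_ntT.CF (exists_over exists_fr)

variable [CD] [HC]

omit [HC] in
private theorem kum_fin {a : 𝓞 K} (ha : a ≠ 0) :
    {v : HeightOneSpectrum (𝓞 K) | a ∈ v.asIdeal}.Finite := by
  have h0 : Ideal.span {a} ≠ 0 := by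
    rw [Ne, Ideal.zero_eq_bot, Ideal.span_singleton_eq_bot]
    exact ha
  refine (Ideal.finite_factors h0).subset fun v hv => ?_
  exact Ideal.dvd_iff_le.mpr ((Ideal.span_singleton_le_iff_mem _).2 hv)

/-- a Frobenius element at a good place -/
theorem kum_frob {L : Type} [Field L] [NumberField L] [Algebra K L] [DecidableEq L]
    [IsGalois K L] (W : HeightOneSpectrum (𝓞 L)) (hb : (bO : 𝓞 K) ∉ (W.under (𝓞 K)).asIdeal)
    {ν : 𝓞 K} (hν : ν ∉ (W.under (𝓞 K)).asIdeal) (σ : Gal(L/K))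
    (hσ : ∀ x : 𝓞 L, σ • x - x ^ nrm (W.under (𝓞 K)) ∈ W.asIdeal) {P : Pt L}
    (hP : sm L ν P = 0) : ga σ P = sm L (ps (W.under (𝓞 K)).asIdeal) P := by
  have hval : ∀ a : 𝓞 K, a ∉ (W.under (𝓞 K)).asIdeal →
      W.valuation L (algebraMap K L (a : K)) = 1 := by
    intro a ha
    have h1 : W.valuation L (algebraMap K L (a : K)) < 1 ↔ a ∈ (W.under (𝓞 K)).asIdeal := by
      have h2 : algebraMap K L (a : K) = algebraMap (𝓞 L) L (algebraMap (𝓞 K) (𝓞 L) a) := rfl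
      rw [h2, W.valuation_lt_one_iff_mem]
      exact Iff.rfl
    have h3 : W.valuation L (algebraMap K L (a : K)) ≤ 1 := by
      have h2 : algebraMap K L (a : K) = algebraMap (𝓞 L) L (algebraMap (𝓞 K) (𝓞 L) a) := rfl
      rw [h2]
      exact W.valuation_le_one _
    exact le_antisymm h3 (not_lt.1 fun h2 => ha (h1.1 h2))
  have hbW : W.valuation L (bD L) = 1 := by
    rw [← bO_map L]
    exact hval _ hb
  have h := frob (k := K) (N := L) W hbW σ (fun x => by
    rw [← nrm_eq]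
    exact hσ x) (hval ν hν) hP
  rw [h, psi_self]

/-- **The automorphisms which fix the point fix the root.** -/
theorem fix_root {l : ℕ} [NeZero l] {ζ c m ν : 𝓞 K} (hζ : IsPrimitiveRoot ζ l)
    (hWR : ∀ (x : HeightOneSpectrum (𝓞 K) → ZMod l) (z : 𝓞 K), z ≠ 0 → m ∣ z - 1 →
      (∀ v : HeightOneSpectrum (𝓞 K), z ∈ v.asIdeal →
        c ^ ((nrm v - 1) / l) - ζ ^ (x v).val ∈ v.asIdeal) → addI x (Ideal.span {z}) = 0)
    (hν : ν ≠ 0) (hmν : m ∣ ν) (hbν : (bO : 𝓞 K) ∣ ν) (hcν : c ∣ ν) (hlν : (l : 𝓞 K) ∣ ν)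
    {L : Type} [Field L] [NumberField L] [Algebra K L] [DecidableEq L] [IsGalois K L] {T : Pt L}
    (hT : Ord ν T) {r : L} (hr : r ^ l = algebraMap K L (c : K)) (σ : Gal(L/K))
    (hσ : ga σ T = T) : σ r = r := by
  obtain ⟨x, hx⟩ := exists_exp hζ hr
  obtain ⟨P, hP⟩ : ∃ P : Gal(L/K) → Prop, ∀ τ, P τ ↔ ∃ z : 𝓞 K, z ≠ 0 ∧ IsCoprime z ν ∧
    ga τ T = sm L z T ∧ τ r = algebraMap K L (ζ : K) ^ (addI x (Ideal.span {z})).val * r :=
    ⟨_, fun τ => Iff.rfl⟩
  have hζL := prim_map (M := L) hζ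
  have hpow : ∀ a b : ZMod l, algebraMap K L (ζ : K) ^ a.val * algebraMap K L (ζ : K) ^ b.val =
      algebraMap K L (ζ : K) ^ (a + b).val := by
    intro a b
    rw [← pow_add, ZMod.val_add, ← pow_eq_pow_mod _ hζL.pow_eq_one]
  have hspan : ∀ z : 𝓞 K, z ≠ 0 → Ideal.span {z} ≠ (0 : Ideal (𝓞 K)) := by
    intro z hz
    rw [Ne, Ideal.zero_eq_bot, Ideal.span_singleton_eq_bot]
    exact hz
  have hone : P 1 := by
    rw [hP]
    refine ⟨1, one_ne_zero, isCoprime_one_left, ?_, ?_⟩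
    · rw [ga_one, map_one]
      rfl
    · rw [Ideal.span_singleton_one, ← Ideal.one_eq_top, addI_one, ZMod.val_zero, pow_zero,
        one_mul, AlgEquiv.one_apply]
  have hmul : ∀ τ τ' : Gal(L/K), P τ → P τ' → P (τ * τ') := by
    intro τ τ' h1 h2
    rw [hP] at h1 h2 ⊢
    obtain ⟨z, a1, a2, a3, a4⟩ := h1
    obtain ⟨z', b1, b2, b3, b4⟩ := h2
    refine ⟨z' * z, mul_ne_zero b1 a1, b2.mul_left a2, ?_, ?_⟩
    · rw [ga_mul, b3, ga_sm, a3, map_mul]
      rfl
    · rw [AlgEquiv.mul_apply, b4, map_mul, map_pow, AlgEquiv.commutes, a4, ← mul_assoc, hpow,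
        ← Ideal.span_singleton_mul_span_singleton, addI_mul _ _ _ (hspan z' b1) (hspan z a1)]
  have hpw : ∀ (n : ℕ) (τ : Gal(L/K)), P τ → P (τ ^ n) := by
    intro n τ hτ
    induction n with
    | zero => rw [pow_zero]; exact hone
    | succ n ih => rw [pow_succ]; exact hmul _ _ ih hτ
  have hfd : FiniteDimensional K L := Module.Finite.of_restrictScalars_finite ℚ K L
  let G : Subgroup Gal(L/K) :=
    { carrier := {τ | P τ}
      mul_mem' := fun {τ τ'} h1 h2 => hmul τ τ' h1 h2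
      one_mem' := hone
      inv_mem' := fun {τ} h => by
        have hpos : 0 < orderOf τ := orderOf_pos τ
        have h1 : τ⁻¹ = τ ^ (orderOf τ - 1) := by
          refine inv_eq_of_mul_eq_one_right ?_
          rw [← pow_succ', Nat.sub_add_cancel hpos, pow_orderOf_eq_one]
        rw [h1]
        exact hpw _ τ h }
  have htop : G = ⊤ := by
    refine frob_gen (k := K) (M := L) {v | ν ∈ v.asIdeal} (kum_fin hν) G fun W τ hW hτ => ?_
    have hW0 : ν ∉ (W.under (𝓞 K)).asIdeal := hW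
    have hno : ∀ a : 𝓞 K, a ∣ ν → a ∉ (W.under (𝓞 K)).asIdeal := fun a ha h =>
      hW0 ((W.under (𝓞 K)).asIdeal.mem_of_dvd ha h)
    have hsp := ps_span (W.under (𝓞 K)) (hno _ hbν)
    show P τ
    rw [hP]
    refine ⟨ps (W.under (𝓞 K)).asIdeal, ?_, ?_, ?_, ?_⟩
    · intro h0
      rw [h0, Ideal.span_singleton_eq_bot.2 rfl] at hsp
      exact (W.under (𝓞 K)).ne_bot hsp.symm
    · rw [← Ideal.isCoprime_span_singleton_iff, hsp, Ideal.isCoprime_iff_sup_eq]
      by_contra hc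
      have h1 : (W.under (𝓞 K)).asIdeal = (W.under (𝓞 K)).asIdeal ⊔ Ideal.span {ν} :=
        (W.under (𝓞 K)).isMaximal.eq_of_le hc le_sup_left
      refine hW0 ?_
      rw [h1]
      exact Ideal.mem_sup_right (Ideal.mem_span_singleton_self _)
    · exact kum_frob W (hno _ hbν) hW0 τ hτ ((hT ν).2 dvd_rfl)
    · rw [hsp, addI_place]
      exact (hx _ (hno _ hlν) (hno _ hcν)).2 W τ rfl hτ
  have hPσ : P σ := by
    have h1 : σ ∈ G := by
      rw [htop]
      exact Subgroup.mem_top σ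
    exact h1
  rw [hP] at hPσ
  obtain ⟨z, hz0, hzc, h1, h2⟩ := hPσ
  have h3 : ν ∣ z - 1 := by
    rw [hσ] at h1
    have h4 : sm L z T = sm L 1 T := by
      rw [← h1, map_one]
      rfl
    exact (hT.sm_eq_iff z 1).1 h4
  have h4 : addI x (Ideal.span {z}) = 0 := by
    refine hWR x z hz0 (hmν.trans h3) fun v hv => ?_
    have hno : ∀ a : 𝓞 K, a ∣ ν → a ∉ v.asIdeal := by
      intro a ha h
      have h5 : ν ∈ v.asIdeal := v.asIdeal.mem_of_dvd ha h
      obtain ⟨p, q, hpq⟩ := hzc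
      apply v.isPrime.ne_top
      rw [Ideal.eq_top_iff_one, ← hpq]
      exact Ideal.add_mem _ (Ideal.mul_mem_left _ _ hv) (Ideal.mul_mem_left _ _ h5)
    exact (hx v (hno _ hlν) (hno _ hcν)).1
  rw [h2, h4, ZMod.val_zero, pow_zero, one_mul]

end Pool.Agent.Lib.MP_1a91b9_ntJ
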