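import Pool.Agent.Lib.MP_1a91b9_ntJ.Kum
import Pool.Agent.Lib.MP_1a91b9_nuX.DG.TF

/-!
# A Kummer extension lies in the field generated by a torsion point
-/

set_option autoImplicit false

namespace Pool.Agent.Lib.MP_1a91b9_ntJ

open NumberField IsDedekindDomain WeierstrassCurve Pool.Agent.Lib.MP_1a91b9_nuT
open Pool.Agent.Lib.MP_1a91b9_nuX Pool.Agent.Lib.MP_1a91b9_nuX.DB

variable [CD]

/-- descent of a point to an intermediate field -/
theorem l0_down {Ω : Type*} [Field Ω] [Algebra K Ω] [DecidableEq Ω]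
    (L : IntermediateField K Ω) [DecidableEq L] {R : Pt Ω} (hx : xc R ∈ L) (hy : yc R ∈ L) :
    ∃ R' : Pt L, pm L.val R' = R := by
  rcases cases_pt R with rfl | ⟨x, y, h, rfl⟩
  · exact ⟨0, map_zero _⟩
  · rw [xc_mk] at hx
    rw [yc_mk] at hy
    have h0 : (⟨y, hy⟩ : L) ^ 2 = (⟨x, hx⟩ : L) ^ 3 + cA L * (⟨x, hx⟩ : L) + cB L := by
      apply L.val.toRingHom.injective
      have e1 : L.val.toRingHom (cA L) = cA Ω := map_intCast _ _
      have e2 : L.val.toRingHom (cB L) = cB Ω := map_intCast _ _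
      rw [map_add, map_add, map_mul, map_pow, map_pow, e1, e2]
      exact h
    refine ⟨mkPt (⟨x, hx⟩ : L) ⟨y, hy⟩ h0, ?_⟩
    obtain ⟨h', e'⟩ := pm_mk L.val (⟨x, hx⟩ : L) ⟨y, hy⟩ h0
    rw [e', mk_inj]
    exact ⟨rfl, rfl⟩

/-- an element which is fixed by the automorphisms which fix the point -/
theorem mem_l0 {N : Type} [Field N] [NumberField N] [Algebra K N] [IsGalois K N] [DecidableEq N]
    {T : Pt N} (hT : T ≠ 0) {z : N} (h : ∀ σ : Gal(N/K), ga σ T = T → σ z = z) :
    z ∈ IntermediateField.adjoin K {xc T, yc T} := by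
  have hfd : FiniteDimensional K N := Module.Finite.of_restrictScalars_finite ℚ K N
  obtain ⟨L, hL⟩ : ∃ L : IntermediateField K N, L = IntermediateField.adjoin K {xc T, yc T} :=
    ⟨_, rfl⟩
  rw [← hL, ← IsGalois.fixedField_fixingSubgroup L, IntermediateField.mem_fixedField_iff]
  intro σ hσ
  rw [IntermediateField.mem_fixingSubgroup_iff] at hσ
  have hx : xc T ∈ L := by
    rw [hL]
    exact IntermediateField.subset_adjoin _ _ (by simp)
  have hy : yc T ∈ L := by
    rw [hL]
    exact IntermediateField.subset_adjoin _ _ (by simp)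
  have hσT : ga σ T ≠ 0 := by
    intro h0
    apply hT
    have h1 : ga σ⁻¹ (ga σ T) = 0 := by rw [h0, map_zero]
    rwa [← ga_mul, inv_mul_cancel, ga_one] at h1
  refine h σ (pt_ext hσT hT ?_ ?_)
  · rw [xc_ga]
    exact hσ _ hx
  · rw [yc_ga]
    exact hσ _ hy

/-- the generators of the extension can be taken in finite number and integral -/
theorem l0_gens {l : ℕ} (hl : l ≠ 0) {F : Type} [Field F] [NumberField F] [Algebra K F]
    (hF : IntermediateField.adjoin K {x : F | ∃ c : K, x ^ l = algebraMap K F c} = ⊤) :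
    ∃ S : Finset F, IntermediateField.adjoin K (S : Set F) = ⊤ ∧
      ∀ x ∈ S, ∃ c : 𝓞 K, c ≠ 0 ∧ x ^ l = algebraMap K F (c : K) := by
  classical
  have hfd : FiniteDimensional K F := Module.Finite.of_restrictScalars_finite ℚ K F
  obtain ⟨θ, hθ⟩ := Field.exists_primitive_element K F
  have h1 : θ ∈ IntermediateField.adjoin K {x : F | ∃ c : K, x ^ l = algebraMap K F c} := by
    rw [hF]
    exact IntermediateField.mem_top
  obtain ⟨S, hS1, hS2⟩ := IntermediateField.exists_finset_of_mem_adjoin h1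
  -- integral multiples
  have h2 : ∀ x : F, ∃ y : F, x ∈ S → x ≠ 0 → (∃ c : 𝓞 K, c ≠ 0 ∧ y ^ l = algebraMap K F (c : K)) ∧
      ∃ e : K, x = algebraMap K F e * y := by
    intro x
    by_cases hx : x ∈ S ∧ x ≠ 0
    · obtain ⟨a, ha⟩ := hS1 hx.1
      obtain ⟨b, e, he, hab⟩ := IsFractionRing.div_surjective (A := 𝓞 K) a
      have he0 : (e : 𝓞 K) ≠ 0 := nonZeroDivisors.ne_zero he
      have he1 : ((e : 𝓞 K) : K) ≠ 0 := by
        intro h3
        exact he0 (RingOfIntegers.ext h3)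
      have he2 : algebraMap K F ((e : 𝓞 K) : K) ≠ 0 := by
        rw [Ne, map_eq_zero]
        exact he1
      refine ⟨algebraMap K F ((e : 𝓞 K) : K) * x, fun _ _ => ⟨⟨b * e ^ (l - 1), ?_, ?_⟩,
        ((e : 𝓞 K) : K)⁻¹, ?_⟩⟩
      · intro h3
        rcases mul_eq_zero.1 h3 with h4 | h4
        · apply hx.2
          rw [h4, map_zero, zero_div] at hab
          rw [← hab, map_zero] at ha
          exact (pow_eq_zero_iff hl).1 ha
        · exact pow_ne_zero _ he0 h4
      · rw [mul_pow, ha, ← hab]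
        have h3 : ((b * e ^ (l - 1) : 𝓞 K) : K) = (b : K) * ((e : 𝓞 K) : K) ^ (l - 1) := by
          push_cast
          rfl
        rw [h3, ← map_pow, ← map_mul]
        congr 1
        have h4 : ((e : 𝓞 K) : K) ^ l = ((e : 𝓞 K) : K) ^ (l - 1) * ((e : 𝓞 K) : K) := by
          rw [← pow_succ]
          congr 1
          omega
        show ((e : 𝓞 K) : K) ^ l * ((b : K) / ((e : 𝓞 K) : K)) = _
        rw [h4]
        field_simp
      · rw [← mul_assoc, ← map_mul, inv_mul_cancel₀ he1, map_one, one_mul]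
    · exact ⟨0, fun h3 h4 => absurd ⟨h3, h4⟩ hx⟩
  choose g hg using h2
  refine ⟨(S.filter fun x => x ≠ 0).image g, ?_, ?_⟩
  · rw [eq_top_iff, ← hθ, IntermediateField.adjoin_le_iff, Set.singleton_subset_iff]
    refine (IntermediateField.adjoin_le_iff.2 fun x hx => ?_) hS2
    by_cases hx0 : x = 0
    · rw [hx0]
      exact zero_mem _
    · obtain ⟨-, e, he⟩ := hg x hx hx0
      rw [he]
      refine mul_mem (IntermediateField.algebraMap_mem _ _) (IntermediateField.subset_adjoin _ _ ?_)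
      rw [Finset.coe_image]
      exact ⟨x, Finset.mem_filter.2 ⟨hx, hx0⟩, rfl⟩
  · intro y hy
    obtain ⟨x, hx, rfl⟩ := Finset.mem_image.1 hy
    rw [Finset.mem_filter] at hx
    exact (hg x hx.1 hx.2).1

section
variable [HC]

/-- **A Kummer extension lies in the field generated by a torsion point.** -/
theorem exists_l0 {l : ℕ} [NeZero l] {ζ : 𝓞 K} (hζ : IsPrimitiveRoot ζ l)
    (hWR : ∀ c : 𝓞 K, c ≠ 0 → WR l ζ c) {F : Type} [Field F] [NumberField F] [Algebra K F]
    (hF : IntermediateField.adjoin K {x : F | ∃ c : K, x ^ l = algebraMap K F c} = ⊤)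
    {c : 𝓞 K} (hc : c ≠ 0) :
    ∃ (L : Type) (_ : Field L) (_ : NumberField L) (_ : Algebra K L) (_ : Algebra F L)
      (_ : IsScalarTower K F L) (_ : DecidableEq L) (ν : 𝓞 K) (T : Pt L) (s : L), ν ≠ 0 ∧
      Ord ν T ∧ T ≠ 0 ∧ IntermediateField.adjoin K {xc T, yc T} = (⊤ : IntermediateField K L) ∧
      s ^ l = algebraMap K L (c : K) := by
  classical
  have hl0 : l ≠ 0 := NeZero.ne l
  obtain ⟨S, hS, hSc⟩ := l0_gens hl0 hF
  choose! cx hcx using hSc
  choose! mx hmx using fun (a : 𝓞 K) (ha : a ≠ 0) => hWR a ha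
  -- the modulus
  have hb0 : (bO : 𝓞 K) ≠ 0 := by
    show ((CD.bad : ℤ) : 𝓞 K) ≠ 0
    rw [Ne, Int.cast_eq_zero]
    exact CD.bad_ne
  have hl1 : ((l : ℕ) : 𝓞 K) ≠ 0 := Nat.cast_ne_zero.2 hl0
  obtain ⟨ν, hνdef⟩ : ∃ ν : 𝓞 K, ν = 2 * bO * (l : 𝓞 K) * (c * mx c) *
    ∏ x ∈ S, (cx x * mx (cx x)) := ⟨_, rfl⟩
  have hν0 : ν ≠ 0 := by
    rw [hνdef]
    refine mul_ne_zero (mul_ne_zero (mul_ne_zero (mul_ne_zero two_ne_zero hb0) hl1)
      (mul_ne_zero hc (hmx c hc).1)) (Finset.prod_ne_zero_iff.2 fun x hx => ?_)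
    exact mul_ne_zero (hcx x hx).1 (hmx _ (hcx x hx).1).1
  have hνb : (bO : 𝓞 K) ∣ ν := by
    rw [hνdef]
    exact ((dvd_mul_left _ _).mul_right _).mul_right _ |>.mul_right _
  have hνl : ((l : ℕ) : 𝓞 K) ∣ ν := by
    rw [hνdef]
    exact ((dvd_mul_left _ _).mul_right _).mul_right _
  have hνc : c ∣ ν ∧ mx c ∣ ν := by
    rw [hνdef]
    exact ⟨((dvd_mul_right _ _).mul_left _).mul_right _,
      ((dvd_mul_left _ _).mul_left _).mul_right _⟩
  have hνS : ∀ x ∈ S, cx x ∣ ν ∧ mx (cx x) ∣ ν := by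
    intro x hx
    have h1 := Finset.dvd_prod_of_mem (fun x => cx x * mx (cx x)) hx
    have h2 : cx x * mx (cx x) ∣ ν := by
      rw [hνdef]
      exact h1.mul_left _
    exact ⟨(dvd_mul_right _ _).trans h2, (dvd_mul_left _ _).trans h2⟩
  have hνu : ¬ IsUnit ν := by
    intro h
    have h1 : IsUnit (2 : 𝓞 K) := isUnit_of_dvd_unit (by
      rw [hνdef]
      exact (((dvd_mul_right _ _).mul_right _).mul_right _).mul_right _) h
    have h2 : IsUnit (Algebra.norm ℤ (2 : 𝓞 K)) := h1.map _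
    have h3 : (2 : 𝓞 K) = algebraMap ℤ (𝓞 K) 2 := by simp
    rw [h3, Algebra.norm_algebraMap] at h2
    rw [isUnit_pow_iff (Nat.pos_iff_ne_zero.1 Module.finrank_pos)] at h2
    exact absurd h2 (by decide)
  -- the torsion field
  obtain ⟨L₁, _, _, _, _, R, hgal, hR, hgen, -⟩ := DG.exists_tf hν0
  have hfF : FiniteDimensional K F := Module.Finite.of_restrictScalars_finite ℚ K F
  have hfL : FiniteDimensional K L₁ := Module.Finite.of_restrictScalars_finite ℚ K L₁
  obtain ⟨i⟩ : Nonempty (F →ₐ[K] AlgebraicClosure K) := ⟨IsAlgClosed.lift⟩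
  obtain ⟨j⟩ : Nonempty (L₁ →ₐ[K] AlgebraicClosure K) := ⟨IsAlgClosed.lift⟩
  obtain ⟨s₀, hs₀⟩ := IsAlgClosed.exists_pow_nat_eq
    (algebraMap K (AlgebraicClosure K) (c : K)) (Nat.pos_of_ne_zero hl0)
  obtain ⟨E, hE⟩ : ∃ E : IntermediateField K (AlgebraicClosure K),
    E = i.fieldRange ⊔ j.fieldRange ⊔ IntermediateField.adjoin K {s₀} := ⟨_, rfl⟩
  have hfi : FiniteDimensional K i.fieldRange := (AlgEquiv.ofInjectiveField i).toLinearEquiv.finiteDimensional
  have hfj : FiniteDimensional K j.fieldRange := (AlgEquiv.ofInjectiveField j).toLinearEquiv.finiteDimensional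
  have hfs : FiniteDimensional K (IntermediateField.adjoin K {s₀}) :=
    IntermediateField.adjoin.finiteDimensional (Algebra.IsIntegral.isIntegral s₀)
  have hfE : FiniteDimensional K E := by
    rw [hE]
    infer_instance
  obtain ⟨N, hN⟩ : ∃ N : IntermediateField K (AlgebraicClosure K),
    N = IntermediateField.normalClosure K E (AlgebraicClosure K) := ⟨_, rfl⟩
  have hfN : FiniteDimensional K N := by
    rw [hN]
    infer_instance
  have hNF : NumberField N := NumberField.of_module_finite K N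
  have hnor : Normal K N := by
    rw [hN]
    infer_instance
  have hgN : IsGalois K N := ⟨⟩
  have hEN : E ≤ N := by
    rw [hN]
    exact E.le_normalClosure
  have hiN : ∀ x, i x ∈ N := fun x => hEN (by
    rw [hE]
    exact (le_sup_left.trans le_sup_left : i.fieldRange ≤ _) ⟨x, rfl⟩)
  have hjN : ∀ x, j x ∈ N := fun x => hEN (by
    rw [hE]
    exact (le_sup_right.trans le_sup_left : j.fieldRange ≤ _) ⟨x, rfl⟩)
  have hsN : s₀ ∈ N := hEN (by
    rw [hE]
    exact (le_sup_right : IntermediateField.adjoin K {s₀} ≤ _)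
      (IntermediateField.subset_adjoin _ _ rfl))
  let i' : F →ₐ[K] N := i.codRestrict N.toSubalgebra hiN
  let j' : L₁ →ₐ[K] N := j.codRestrict N.toSubalgebra hjN
  have hR' : Ord ν (pm j' R) := (Ord.map j').2 hR
  obtain ⟨T', hT'⟩ : ∃ T' : Pt N, T' = pm j' R := ⟨_, rfl⟩
  rw [← hT'] at hR'
  have hT0 : T' ≠ 0 := by
    intro h0
    apply hνu
    rw [isUnit_iff_dvd_one]
    rw [← hR' 1, h0, map_zero]
  -- the roots
  have key : ∀ (a : 𝓞 K) (z : N), a ≠ 0 → a ∣ ν → mx a ∣ ν → z ^ l = algebraMap K N (a : K) →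
      z ∈ IntermediateField.adjoin K {xc T', yc T'} := by
    intro a z ha h1 h2 hz
    refine mem_l0 hT0 fun σ hσ => ?_
    exact fix_root hζ (hmx a ha).2 hν0 h2 hνb h1 hνl hR' hz σ hσ
  obtain ⟨L, hL⟩ : ∃ L : IntermediateField K N, L = IntermediateField.adjoin K {xc T', yc T'} :=
    ⟨_, rfl⟩
  rw [← hL] at key
  have hxm : xc T' ∈ L := by
    rw [hL]
    exact IntermediateField.subset_adjoin _ _ (by simp)
  have hym : yc T' ∈ L := by
    rw [hL]
    exact IntermediateField.subset_adjoin _ _ (by simp)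
  have hsL : (⟨s₀, hsN⟩ : N) ∈ L := by
    refine key c _ hc hνc.1 hνc.2 (Subtype.ext ?_)
    exact hs₀
  have hFL : ∀ x : F, i' x ∈ L := by
    have h1 : IntermediateField.comap i' L = ⊤ := by
      rw [eq_top_iff, ← hS, IntermediateField.adjoin_le_iff]
      intro x hx
      show i' x ∈ L
      refine key (cx x) _ (hcx x hx).1 (hνS x hx).1 (hνS x hx).2 ?_
      rw [← map_pow, (hcx x hx).2, AlgHom.commutes]
    intro x
    have h2 : x ∈ IntermediateField.comap i' L := by
      rw [h1]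
      exact IntermediateField.mem_top
    exact h2
  obtain ⟨T, hT⟩ := l0_down L hxm hym
  have hx2 : ((xc T : L) : N) = xc T' := by
    have h1 := congrArg xc hT
    rw [xc_pm] at h1
    exact h1
  have hy2 : ((yc T : L) : N) = yc T' := by
    have h1 := congrArg yc hT
    rw [yc_pm] at h1
    exact h1
  have htop : IntermediateField.adjoin K {xc T, yc T} = (⊤ : IntermediateField K L) := by
    apply IntermediateField.lift_injective L
    rw [IntermediateField.lift_adjoin, IntermediateField.lift_top, Set.image_pair, hx2, hy2, hL]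
  let i'' : F →ₐ[K] L := i'.codRestrict L.toSubalgebra hFL
  let aF : Algebra F L := i''.toRingHom.toAlgebra
  have hst : IsScalarTower K F L := IsScalarTower.of_algebraMap_eq fun x => (i''.commutes x).symm
  refine ⟨L, inferInstance, inferInstance, inferInstance, aF, hst, inferInstance, ν, T,
    ⟨⟨s₀, hsN⟩, hsL⟩, hν0, ?_, ?_, htop, ?_⟩
  · rw [← Ord.map L.val, hT]
    exact hR'
  · rintro rfl
    exact hT0 (by rw [← hT, map_zero])
  · apply Subtype.ext
    apply Subtype.ext
    exact hs₀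

end

end Pool.Agent.Lib.MP_1a91b9_ntJ
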