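import Pool.Agent.Lib.MP_1a91b9_nuG.Mul
import Pool.Agent.Lib.MP_1a91b9_nt.Defs

/-!
# Weak reciprocity: the interface

`WR l ζ c`: if `z` is congruent to one modulo a suitable `m`, then the product of the symbols of order `l` of
`c` at the prime factors of `z` is one.
-/

set_option autoImplicit false

namespace Pool.Agent.Lib.MP_1a91b9_ntJ

open NumberField IsDedekindDomain Pool.Agent.Lib.MP_1a91b9_nt
open Pool.Agent.Lib.MP_1a91b9_nuG (addI)

/-- Weak reciprocity for `c`; `ζ` is a root of unity of order `l`, and `x v` is the exponent of the symbol of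
`c` at `v`. -/
def WR {k : Type*} [Field k] [NumberField k] (l : ℕ) (ζ c : 𝓞 k) : Prop :=
  ∃ m : 𝓞 k, m ≠ 0 ∧ ∀ (x : HeightOneSpectrum (𝓞 k) → ZMod l) (z : 𝓞 k), z ≠ 0 → m ∣ z - 1 →
    (∀ v : HeightOneSpectrum (𝓞 k), z ∈ v.asIdeal →
      c ^ ((nrm v - 1) / l) - ζ ^ (x v).val ∈ v.asIdeal) →
    addI x (Ideal.span {z}) = 0

end Pool.Agent.Lib.MP_1a91b9_ntJ
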