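import Pool.Agent.Lib.MP_1a91b9_ntJ.Gen
import Pool.Agent.Lib.MP_1a91b9_ntJ.WR

/-!
# The action of the Frobenius elements on the roots of the elements of the base field
-/

set_option autoImplicit false

namespace Pool.Agent.Lib.MP_1a91b9_ntJ

open NumberField IsDedekindDomain Pool.Agent.Lib.MP_1a91b9_nt
open Pool.Agent.Lib.MP_1a91b9_ntT.CF (exists_over exists_fr IsFr)

universe u

section
variable {R : Type*} [CommRing R] [IsDomain R]

/-- `1 - ζ ^ j` divides `l` -/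
theorem one_sub_dvd {l : ℕ} {ζ : R} (hζ : IsPrimitiveRoot ζ l) {j : ℕ} (hj : 0 < j)
    (hjl : j < l) : 1 - ζ ^ j ∣ (l : R) := by
  obtain ⟨n, rfl⟩ : ∃ n, l = n + 1 := ⟨l - 1, by omega⟩
  have h1 := hζ.prod_one_sub_pow_eq_order
  have e : ((n + 1 : ℕ) : R) = (n : R) + 1 := by push_cast; rfl
  rw [e, ← h1]
  have h2 := Finset.dvd_prod_of_mem (fun k => 1 - ζ ^ (k + 1))
    (Finset.mem_range.2 (show j - 1 < n by omega))
  have h3 : j - 1 + 1 = j := by omega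
  simp only [h3] at h2
  exact h2

theorem lt_not_mem {l : ℕ} {ζ : R} (hζ : IsPrimitiveRoot ζ l) {P : Ideal R} (hP : P.IsPrime)
    (hl : (l : R) ∉ P) {i j : ℕ} (hij : i < j) (hj : j < l) : ζ ^ i - ζ ^ j ∉ P := by
  intro h
  have e : ζ ^ i - ζ ^ j = ζ ^ i * (1 - ζ ^ (j - i)) := by
    rw [mul_sub, mul_one, ← pow_add, Nat.add_sub_cancel' hij.le]
  rw [e] at h
  rcases hP.mem_or_mem h with h1 | h1
  · have h2 : ζ ∈ P := hP.mem_of_pow_mem _ h1
    have h3 : ζ ^ l ∈ P := Ideal.pow_mem_of_mem _ h2 _ (by omega)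
    rw [hζ.pow_eq_one] at h3
    exact hP.ne_top ((Ideal.eq_top_iff_one _).2 h3)
  · exact hl (P.mem_of_dvd (one_sub_dvd hζ (by omega) (by omega)) h1)

/-- the powers of `ζ` are distinct modulo `P` -/
theorem exp_inj {l : ℕ} [NeZero l] {ζ : R} (hζ : IsPrimitiveRoot ζ l) {P : Ideal R}
    (hP : P.IsPrime) (hl : (l : R) ∉ P) {a b : ZMod l} (h : ζ ^ a.val - ζ ^ b.val ∈ P) :
    a = b := by
  rcases lt_trichotomy a.val b.val with h1 | h1 | h1
  · exact absurd h (lt_not_mem hζ hP hl h1 (ZMod.val_lt b))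
  · exact ZMod.val_injective _ h1
  · refine absurd ?_ (lt_not_mem hζ hP hl h1 (ZMod.val_lt a))
    rw [← neg_sub]
    exact P.neg_mem h

end

section
variable {k M : Type u} [Field k] [NumberField k] [Field M] [NumberField M] [Algebra k M]
  [IsGalois k M]

/-- the image of a root of unity of `k` -/
theorem prim_map {l : ℕ} {ζ : 𝓞 k} (hζ : IsPrimitiveRoot ζ l) :
    IsPrimitiveRoot (algebraMap k M (ζ : k)) l := by
  have h1 : IsPrimitiveRoot (ζ : k) l :=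
    hζ.map_of_injective (f := algebraMap (𝓞 k) k) (RingOfIntegers.coe_injective)
  exact h1.map_of_injective (f := algebraMap k M) (algebraMap k M).injective

/-- **The action of a Frobenius element on a root.** -/
theorem fr_root {l : ℕ} [NeZero l] {ζ c : 𝓞 k} (hζ : IsPrimitiveRoot ζ l) {r : M}
    (hr : r ^ l = algebraMap k M (c : k)) (W : HeightOneSpectrum (𝓞 M)) (φ : Gal(M/k))
    (hφ : IsFr (W.under (𝓞 k)) W φ) (hl : (l : 𝓞 k) ∉ (W.under (𝓞 k)).asIdeal)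
    (hc : c ∉ (W.under (𝓞 k)).asIdeal) : ∃ a : ZMod l,
      φ r = algebraMap k M (ζ : k) ^ a.val * r ∧
      c ^ ((nrm (W.under (𝓞 k)) - 1) / l) - ζ ^ a.val ∈ (W.under (𝓞 k)).asIdeal := by
  have hl0 : l ≠ 0 := NeZero.ne l
  have hlW : (l : 𝓞 M) ∉ W.asIdeal := by
    intro h
    apply hl
    show algebraMap (𝓞 k) (𝓞 M) (l : 𝓞 k) ∈ W.asIdeal
    rwa [map_natCast]
  have hc0 : c ≠ 0 := by
    rintro rfl
    exact hc (Submodule.zero_mem _)
  have hr0 : r ≠ 0 := by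
    rintro rfl
    rw [zero_pow hl0] at hr
    have h1 : (c : k) = 0 := (algebraMap k M).injective (by rw [map_zero, ← hr])
    exact hc0 (RingOfIntegers.ext h1)
  have hζM := prim_map (M := M) hζ
  -- the exponent
  have h1 : (φ r / r) ^ l = 1 := by
    rw [div_pow, ← map_pow, hr, AlgEquiv.commutes, div_self]
    rw [← hr]
    exact pow_ne_zero _ hr0
  obtain ⟨i, hi, hi2⟩ := hζM.eq_pow_of_pow_eq_one h1
  have hφr : φ r = algebraMap k M (ζ : k) ^ i * r := by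
    rw [hi2, div_mul_cancel₀ _ hr0]
  have hval : ((i : ℕ) : ZMod l).val = i := ZMod.val_cast_of_lt hi
  refine ⟨(i : ZMod l), by rw [hval]; exact hφr, ?_⟩
  rw [hval]
  -- the norm
  have h2 : l ∣ nrm (W.under (𝓞 k)) - 1 := by
    have h3 := hφ.zeta rfl l hlW (algebraMap k M (ζ : k)) hζM.pow_eq_one
    rw [AlgEquiv.commutes] at h3
    obtain ⟨n, hn⟩ : ∃ n, n = nrm (W.under (𝓞 k)) := ⟨_, rfl⟩
    rw [← hn] at h3 ⊢
    rcases n with _ | n
    · simp
    · rw [Nat.add_sub_cancel]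
      refine hζM.dvd_of_pow_eq_one _ ?_
      rw [pow_succ] at h3
      have hz0 : algebraMap k M (ζ : k) ≠ 0 := hζM.ne_zero hl0
      exact mul_right_cancel₀ hz0 (by rw [one_mul]; exact h3.symm)
  -- the integral root
  have hint : IsIntegral ℤ r := by
    refine IsIntegral.of_pow (Nat.pos_of_ne_zero hl0) ?_
    rw [hr]
    exact (RingOfIntegers.isIntegral_coe c).map ((algebraMap k M).toIntAlgHom)
  obtain ⟨x, hx⟩ : ∃ x : 𝓞 M, (x : M) = r := ⟨⟨r, hint⟩, rfl⟩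
  have hxl : x ^ l = algebraMap (𝓞 k) (𝓞 M) c := by
    apply RingOfIntegers.ext
    show algebraMap (𝓞 M) M (x ^ l) = _
    rw [map_pow]
    show (x : M) ^ l = _
    rw [hx, hr]
    rfl
  have h3 := hφ x
  have h4 : φ • x = algebraMap (𝓞 k) (𝓞 M) (ζ ^ i) * x := by
    apply RingOfIntegers.ext
    show φ (x : M) = algebraMap (𝓞 M) M (algebraMap (𝓞 k) (𝓞 M) (ζ ^ i) * x)
    rw [map_mul, map_pow, map_pow]
    show _ = algebraMap k M (ζ : k) ^ i * (x : M)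
    rw [hx, hφr]
  have hn1 : 1 ≤ nrm (W.under (𝓞 k)) := by
    have hfin : Finite (𝓞 k ⧸ (W.under (𝓞 k)).asIdeal) :=
      Ideal.finiteQuotientOfFreeOfNeBot _ (W.under (𝓞 k)).ne_bot
    by_contra h0
    have h5 : nrm (W.under (𝓞 k)) = 0 := by omega
    have h6 := hφ 0
    rw [smul_zero, h5, pow_zero, zero_sub] at h6
    exact W.isPrime.ne_top ((Ideal.eq_top_iff_one _).2 (by simpa using W.asIdeal.neg_mem h6))
  obtain ⟨t, ht⟩ := h2
  have h5 : nrm (W.under (𝓞 k)) = l * t + 1 := by omega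
  have h6 : (nrm (W.under (𝓞 k)) - 1) / l = t := by
    rw [ht, Nat.mul_div_cancel_left _ (Nat.pos_of_ne_zero hl0)]
  rw [h6]
  rw [h4, h5, pow_succ, pow_mul, hxl, ← map_pow, ← sub_mul] at h3
  rcases W.isPrime.mem_or_mem h3 with h7 | h7
  · rw [← map_sub] at h7
    have h8 : ζ ^ i - c ^ t ∈ (W.under (𝓞 k)).asIdeal := h7
    rw [← neg_sub]
    exact Submodule.neg_mem _ h8
  · exfalso
    apply hc
    show algebraMap (𝓞 k) (𝓞 M) c ∈ W.asIdeal
    rw [← hxl]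
    exact Ideal.pow_mem_of_mem _ h7 _ (Nat.pos_of_ne_zero hl0)

/-- the exponents of the symbols -/
theorem exists_exp {l : ℕ} [NeZero l] {ζ c : 𝓞 k} (hζ : IsPrimitiveRoot ζ l) {r : M}
    (hr : r ^ l = algebraMap k M (c : k)) : ∃ x : HeightOneSpectrum (𝓞 k) → ZMod l,
      ∀ v : HeightOneSpectrum (𝓞 k), (l : 𝓞 k) ∉ v.asIdeal → c ∉ v.asIdeal →
        c ^ ((nrm v - 1) / l) - ζ ^ (x v).val ∈ v.asIdeal ∧
        ∀ (W : HeightOneSpectrum (𝓞 M)) (φ : Gal(M/k)), W.under (𝓞 k) = v → IsFr v W φ →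
          φ r = algebraMap k M (ζ : k) ^ (x v).val * r := by
  have h1 : ∀ v : HeightOneSpectrum (𝓞 k), ∃ a : ZMod l, (l : 𝓞 k) ∉ v.asIdeal → c ∉ v.asIdeal →
      c ^ ((nrm v - 1) / l) - ζ ^ a.val ∈ v.asIdeal := by
    intro v
    by_cases h : (l : 𝓞 k) ∉ v.asIdeal ∧ c ∉ v.asIdeal
    · obtain ⟨W, hW⟩ := exists_over (k := k) (N := M) v
      obtain ⟨φ, hφ⟩ := exists_fr (k := k) W
      obtain ⟨a, -, h2⟩ := fr_root hζ hr W φ hφ (by rw [hW]; exact h.1) (by rw [hW]; exact h.2)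
      rw [hW] at h2
      exact ⟨a, fun _ _ => h2⟩
    · exact ⟨0, fun h2 h3 => absurd ⟨h2, h3⟩ h⟩
  choose x hx using h1
  refine ⟨x, fun v hv1 hv2 => ⟨hx v hv1 hv2, fun W φ hW hφ => ?_⟩⟩
  subst hW
  obtain ⟨a, h2, h3⟩ := fr_root hζ hr W φ hφ hv1 hv2
  have h4 : ζ ^ a.val - ζ ^ (x (W.under (𝓞 k))).val ∈ (W.under (𝓞 k)).asIdeal := by
    have h5 := Submodule.sub_mem _ (hx _ hv1 hv2) h3
    rwa [sub_sub_sub_cancel_left] at h5
  rw [h2, exp_inj hζ (W.under (𝓞 k)).isPrime hv1 h4]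

end

end Pool.Agent.Lib.MP_1a91b9_ntJ
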