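import Pool.Agent.Lib.MP_1a91b9_ntJ.Ext2
import Pool.Agent.Lib.MP_1a91b9_nuZ.TopS

/-!
# The towers over a Kummer extension
-/

set_option autoImplicit false

namespace Pool.Agent.Lib.MP_1a91b9_ntJ

open NumberField IsDedekindDomain WeierstrassCurve Module
open Pool.Agent.Lib.MP_1a91b9_nuI
open Pool.Agent.Lib.MP_1a91b9_nuX.UF (jd)
open Pool.Agent.Lib.MP_1a91b9_nuZ (topTS1 topTS2)

/-- the nine pairs are among the thirteen -/
theorem jd_thirteen {J d : ℤ} (h : (J, d) ∈ jd) : (J, d) ∈ thirteen := by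
  simp only [jd, List.mem_cons, Prod.mk.injEq, List.not_mem_nil, or_false] at h
  rcases h with h | h | h | h | h | h | h | h | h <;>
  · obtain ⟨rfl, rfl⟩ := h
    simp [thirteen]

/-- **The towers over a Kummer extension `F` of an imaginary quadratic field `K`** for the curve
`y² = x³ + α x + β` which becomes isomorphic to `y² = x³ + A x + B` over the fields which contain an `l`-th root
of `c`. -/
theorem tow_of (K F : Type) [Field K] [NumberField K] [Field F] [NumberField F]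
    [Algebra K F] (hK : finrank ℚ K = 2) {J d A B : ℤ} (hJd : (J, d) ∈ jd)
    (hd : ∃ w : K, w ^ 2 = ((d : ℤ) : K)) (hAB : 4 * A ^ 3 + 27 * B ^ 2 ≠ 0)
    (hj : 6912 * A ^ 3 = J * (4 * A ^ 3 + 27 * B ^ 2)) {l : ℕ} [NeZero l] {ζ : 𝓞 K}
    (hζ : IsPrimitiveRoot ζ l) (hWR : ∀ c : 𝓞 K, c ≠ 0 → WR l ζ c)
    (hF : IntermediateField.adjoin K {x : F | ∃ c : K, x ^ l = algebraMap K F c} = ⊤)
    {c : 𝓞 K} (hc : c ≠ 0) {α β : 𝓞 F} (h0 : 4 * α ^ 3 + 27 * β ^ 2 ≠ 0)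
    (hs : ∀ (L : Type) [Field L] [NumberField L] [Algebra K L] [Algebra F L]
      [IsScalarTower K F L] (s : L), s ^ l = algebraMap K L (c : K) →
      ∃ C : VariableChange L, C • (⟨0, 0, 0, algebraMap F L (α : F), algebraMap F L (β : F)⟩ :
        WeierstrassCurve L) = ⟨0, 0, 0, ((A : ℤ) : L), ((B : ℤ) : L)⟩)
    (hg : Lne (⟨0, 0, 0, (α : F), (β : F)⟩ : WeierstrassCurve F)) :
    ∃ S : Finset ℕ, ∀ ℓ : ℕ, ℓ.Prime → ℓ ∉ S →
      TowB ℓ ∅ d α β (fun N _ _ W => Con1 N W ∧ Con2' ℓ N W) := by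
  classical
  obtain ⟨L, i1, i2, i3, i4, i5, i6, x, y, hxy, m, s, hm, h1, h2, h3⟩ :=
    exists_l0E K F hK hJd hd hAB hj hζ hWR hF hc
  obtain ⟨C, hC⟩ := hs L s h3
  have hN : IntermediateField.adjoin F (Set.range (algebraMap K F)) = ⊤ := by
    rw [eq_top_iff]
    intro z _
    exact IntermediateField.algebraMap_mem _ z
  have hα : @algebraMap (𝓞 F) (𝓞 F) _ _ (inst_ringOfIntegersAlgebra F F) α = α :=
    RingOfIntegers.ext rfl
  have hβ : @algebraMap (𝓞 F) (𝓞 F) _ _ (inst_ringOfIntegersAlgebra F F) β = β :=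
    RingOfIntegers.ext rfl
  obtain ⟨-, -, -, -, -, -, S₁, -, hS₁⟩ := topTS1 K F F L hK (jd_thirteen hJd) hd hAB hj hN x y
    hxy hm h1 h2 h0 hC (fun _ => hg)
  obtain ⟨-, -, -, -, -, -, S₂, -, hS₂⟩ := topTS2 K F F L hK (jd_thirteen hJd) hd hAB hj hN x y
    hxy hm h1 h2 h0 hC (fun _ => hg)
  refine ⟨S₁ ∪ S₂, fun ℓ hℓ hℓS => ?_⟩
  rw [Finset.notMem_union] at hℓS
  have a1 := hS₁ ℓ hℓ hℓS.1
  have a2 := hS₂ ℓ hℓ hℓS.2
  rw [hα, hβ] at a1 a2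
  intro n N L' M _ _ _ _ _ _ _ _ _ _ _ _ hM hR W C' hC'
  exact ⟨a1 n N L' M hM hR W C' hC', a2 n N L' M hM hR W C' hC'⟩

end Pool.Agent.Lib.MP_1a91b9_ntJ
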