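import Pool.Agent.Lib.MP_1a91b9_ntJ.TowG
import Pool.Agent.Lib.MP_1a91b9_nuI.Glob

/-!
# The towers for the curves `y² = x³ + a x² + b x`
-/

set_option autoImplicit false

namespace Pool.Agent.Lib.MP_1a91b9_ntJ

open NumberField IsDedekindDomain WeierstrassCurve Module
open Pool.Agent.Lib.MP_1a91b9_nuI

/-- the nonvanishing does not depend on the equation -/
theorem lne_vc {N : Type*} [Field N] [NumberField N] {W W' : WeierstrassCurve N}
    {C : VariableChange N} (hC : C • W = W') {j : ℤ} (hj : HasJ W j) (h : Lne W) : Lne W' := by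
  obtain ⟨g, h1, h2, h3⟩ := h
  refine ⟨g, h1, fun s hs => ?_, h3⟩
  rw [h2 s hs, ← hC]
  unfold WeierstrassCurve.LSeries
  rw [LFunction_change W C j hj]

theorem hasJ_ab {N : Type*} [Field N] {a b : N} {J : ℤ}
    (hj : 256 * (a ^ 2 - 3 * b) ^ 3 = (J : N) * (b ^ 2 * (a ^ 2 - 4 * b))) :
    HasJ (⟨0, a, 0, b, 0⟩ : WeierstrassCurve N) J := by
  unfold HasJ WeierstrassCurve.c₄ WeierstrassCurve.Δ WeierstrassCurve.b₂ WeierstrassCurve.b₄
    WeierstrassCurve.b₆ WeierstrassCurve.b₈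
  linear_combination 16 * hj

/-- **The towers for a curve `y² = x³ + a x² + b x`** which becomes isomorphic to
`y² = x³ + a₀ x² + b₀ x` over the fields which contain a root of order `l` of `c`. -/
theorem towP_ab {K F : Type} [Field K] [NumberField K] [Field F] [NumberField F] [Algebra K F]
    (hK : finrank ℚ K = 2) {J d : ℤ} (hJd : (J, d) ∈ thirteen) {s₀ : K}
    (hs₀ : s₀ ^ 2 = ((d : ℤ) : K)) {a₀ b₀ : ℤ} (hb₀ : b₀ ≠ 0) (hd₀ : a₀ ^ 2 - 4 * b₀ ≠ 0)
    (hj : 256 * (a₀ ^ 2 - 3 * b₀) ^ 3 = J * (b₀ ^ 2 * (a₀ ^ 2 - 4 * b₀))) {l : ℕ} {c : 𝓞 K}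
    (hE : InTor K F (81 * b₀ - 27 * a₀ ^ 2) (54 * a₀ ^ 3 - 243 * a₀ * b₀) l c) {a b : 𝓞 K}
    (hna : Anm K F a b)
    (hab : ∀ (L : Type) [Field L] [NumberField L] [Algebra K L] (s : L),
      s ^ l = algebraMap K L (c : K) → ∃ t : L, t ≠ 0 ∧ algebraMap K L (a : K) = a₀ * t ^ 2 ∧
        algebraMap K L (b : K) = b₀ * t ^ 4)
    (hg : Lne (⟨0, algebraMap K F (a : K), 0, algebraMap K F (b : K), 0⟩ : WeierstrassCurve F)) :
    TowP K (⟨0, algebraMap K F (a : K), 0, algebraMap K F (b : K), 0⟩ : WeierstrassCurve F) := by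
  classical
  obtain ⟨α, hα⟩ : ∃ α : 𝓞 F, α =
      81 * algebraMap (𝓞 K) (𝓞 F) b - 27 * algebraMap (𝓞 K) (𝓞 F) a ^ 2 := ⟨_, rfl⟩
  obtain ⟨β, hβ⟩ : ∃ β : 𝓞 F, β = 54 * algebraMap (𝓞 K) (𝓞 F) a ^ 3 -
      243 * algebraMap (𝓞 K) (𝓞 F) a * algebraMap (𝓞 K) (𝓞 F) b := ⟨_, rfl⟩
  have eF : ∀ x : 𝓞 K, algebraMap (𝓞 F) F (algebraMap (𝓞 K) (𝓞 F) x) =
    algebraMap K F (x : K) := fun x => rfl
  have hαF : (α : F) = 81 * algebraMap K F (b : K) - 27 * algebraMap K F (a : K) ^ 2 := by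
    rw [hα, RingOfIntegers.coe_eq_algebraMap, map_sub, map_mul, map_mul, map_pow, eF, eF,
      map_ofNat, map_ofNat]
  have hβF : (β : F) = 54 * algebraMap K F (a : K) ^ 3 -
      243 * algebraMap K F (a : K) * algebraMap K F (b : K) := by
    rw [hβ, RingOfIntegers.coe_eq_algebraMap, map_sub, map_mul, map_mul, map_mul, map_pow, eF, eF,
      map_ofNat, map_ofNat]
  -- an extension with a root of `c`
  obtain ⟨L, i1, i2, i3, i4, i5, i6, x, y, hxy, m, s, hm, h1, h2, h3⟩ := hE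
  obtain ⟨t, ht0, ea, eb⟩ := hab L s h3
  have hJL : (256 * ((a₀ : L) ^ 2 - 3 * b₀) ^ 3 = (J : L) * (b₀ ^ 2 * (a₀ ^ 2 - 4 * b₀))) := by
    exact_mod_cast congrArg (Int.cast : ℤ → L) hj
  have hb : b ≠ 0 := by
    rintro rfl
    have h4 : (b₀ : L) * t ^ 4 = 0 := by
      rw [← eb]
      exact map_zero _
    exact mul_ne_zero (by exact_mod_cast hb₀) (pow_ne_zero 4 ht0) h4
  have hinj := (algebraMap K L).injective
  have hdK : (a : K) ^ 2 - 4 * (b : K) ≠ 0 := by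
    intro h4
    have h5 := congrArg (algebraMap K L) h4
    rw [map_sub, map_pow, map_mul, map_ofNat, map_zero, ea, eb] at h5
    have h6 : ((a₀ ^ 2 - 4 * b₀ : ℤ) : L) * t ^ 4 = 0 := by
      push_cast
      linear_combination h5
    exact mul_ne_zero (by exact_mod_cast hd₀) (pow_ne_zero 4 ht0) h6
  have hJK : 256 * ((a : K) ^ 2 - 3 * (b : K)) ^ 3 =
      (J : K) * ((b : K) ^ 2 * ((a : K) ^ 2 - 4 * (b : K))) := by
    apply hinj
    simp only [map_mul, map_sub, map_pow, map_ofNat, map_intCast, ea, eb]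
    linear_combination t ^ 12 * hJL
  have hJF : 256 * (algebraMap K F (a : K) ^ 2 - 3 * algebraMap K F (b : K)) ^ 3 =
      (J : F) * (algebraMap K F (b : K) ^ 2 *
        (algebraMap K F (a : K) ^ 2 - 4 * algebraMap K F (b : K))) := by
    have h4 := congrArg (algebraMap K F) hJK
    simp only [map_mul, map_sub, map_pow, map_ofNat, map_intCast] at h4
    exact h4
  obtain ⟨C, hC⟩ := short_iso (show (3 : F) ≠ 0 from three_ne_zero) (algebraMap K F (a : K))
    (algebraMap K F (b : K))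
  rw [← hαF, ← hβF] at hC
  refine towP_vc hC (towP_of hs₀ hna hb hα hβ (tow_gen K F hK hJd ⟨s₀, hs₀⟩
    (A := 81 * b₀ - 27 * a₀ ^ 2) (B := 54 * a₀ ^ 3 - 243 * a₀ * b₀) ?_ ?_ (l := l) (c := c)
    ⟨L, i1, i2, i3, i4, i5, i6, x, y, hxy, m, s, hm, h1, h2, h3⟩ ?_ ?_
    (lne_vc hC (hasJ_ab hJF) hg)))
  · have e : 4 * (81 * b₀ - 27 * a₀ ^ 2) ^ 3 + 27 * (54 * a₀ ^ 3 - 243 * a₀ * b₀) ^ 2 =
        -531441 * (b₀ ^ 2 * (a₀ ^ 2 - 4 * b₀)) := by ring
    rw [e]
    exact mul_ne_zero (by norm_num) (mul_ne_zero (pow_ne_zero 2 hb₀) hd₀)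
  · linear_combination (-531441 : ℤ) * hj
  · intro h4
    have h5 := congrArg (algebraMap (𝓞 F) F) h4
    rw [map_add, map_mul, map_mul, map_pow, map_pow, map_ofNat, map_ofNat, map_zero,
      ← RingOfIntegers.coe_eq_algebraMap, ← RingOfIntegers.coe_eq_algebraMap, hαF, hβF] at h5
    have h6 : algebraMap K F ((b : K) ^ 2 * ((a : K) ^ 2 - 4 * (b : K))) = 0 := by
      rw [map_mul, map_pow, map_sub, map_pow, map_mul, map_ofNat]
      have h7 : (-531441 : F) * (algebraMap K F (b : K) ^ 2 * (algebraMap K F (a : K) ^ 2 -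
          4 * algebraMap K F (b : K))) = 0 := by linear_combination h5
      exact (mul_eq_zero.1 h7).resolve_left (by norm_num)
    rw [map_eq_zero] at h6
    have hbK : (b : K) ≠ 0 := fun h => hb (RingOfIntegers.ext h)
    exact mul_ne_zero (pow_ne_zero 2 hbK) hdK h6
  · intro L' _ _ _ _ _ s' hs'
    obtain ⟨t, ht0, ea', eb'⟩ := hab L' s' hs'
    refine ⟨⟨Units.mk0 t ht0, 0, 0, 0⟩, ?_⟩
    have k1 : algebraMap F L' (α : F) = (81 * (b₀ : L') - 27 * a₀ ^ 2) * t ^ 4 := by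
      rw [hαF, map_sub, map_mul, map_mul, map_pow, map_ofNat, map_ofNat,
        ← IsScalarTower.algebraMap_apply K F L', ← IsScalarTower.algebraMap_apply K F L', ea', eb']
      ring
    have k2 : algebraMap F L' (β : F) = (54 * (a₀ : L') ^ 3 - 243 * a₀ * b₀) * t ^ 6 := by
      rw [hβF, map_sub, map_mul, map_mul, map_mul, map_pow, map_ofNat, map_ofNat,
        ← IsScalarTower.algebraMap_apply K F L', ← IsScalarTower.algebraMap_apply K F L', ea', eb']
      ring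
    rw [k1, k2]
    refine WeierstrassCurve.ext ?_ ?_ ?_ ?_ ?_
    · simp [variableChange_a₁]
    · simp [variableChange_a₂]
    · simp [variableChange_a₃]
    · simp only [variableChange_a₄, Units.val_inv_eq_inv_val, Units.val_mk0]
      field_simp
      push_cast
      ring
    · simp only [variableChange_a₆, Units.val_inv_eq_inv_val, Units.val_mk0]
      field_simp
      push_cast
      ring

end Pool.Agent.Lib.MP_1a91b9_ntJ
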